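import Mathlib

/-!
# NFV: NIP ordered fields and algebraic numbers — definitions
-/

set_option autoImplicit false

open Polynomial FirstOrder

noncomputable section

namespace NFV

/-! ### The class function and its translates -/

open Classical in
/-- number of disagreements of `r ↦ Φ (u + r)` and `r ↦ Φ (v + r)` on `[0, X)` -/
def dis {N B : Type} [Field N] (Φ : N → B) (X : ℕ) (u v : N) : ℕ :=
  ((Finset.range X).filter fun r : ℕ => Φ (u + r) ≠ Φ (v + r)).card

/-- no `n` fibres of translates of `Φ` are shattered -/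
def NoShat {N B : Type} [Field N] (Φ : N → B) (n : ℕ) : Prop :=
  ∀ (a : Fin n → N) (c : Fin n → B),
    ∃ S : Finset (Fin n), ∀ x : N, ¬ ∀ i, (Φ (x + a i) = c i ↔ i ∈ S)

/-! ### Cubes in `ℤ ^ n` -/

/-- the cube `[0, X) ^ n` -/
def box (n X : ℕ) : Finset (Fin n → ℤ) := Fintype.piFinset fun _ => Finset.Ico (0 : ℤ) X

/-- all coordinates are divisible by `D` -/
def Dv {n : ℕ} (D : ℕ) (x : Fin n → ℤ) : Prop := ∀ j, (D : ℤ) ∣ x j

open Classical in
/-- near constancy: translation by a small multiple of `D` changes few values on each large cube -/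
def NC {B : Type} (n : ℕ) (G : (Fin n → ℤ) → B) (D : ℕ) (ε δ : ℝ) (X₀ : ℕ) : Prop :=
  ∀ X : ℕ, X₀ ≤ X → ∀ c t : Fin n → ℤ, Dv D t → (∀ j, |(t j : ℝ)| ≤ δ * X) →
    (((box n X).filter fun x => G (c + x + t) ≠ G (c + x)).card : ℝ) ≤ ε * (X : ℝ) ^ n

/-- local constancy at the positive integers prime to `D` -/
def STA {N B R : Type} [Field N] [CommGroupWithZero B] [CommRing R] {n : ℕ} (Φ : N →*₀ B)
    (φ : R →+* N) (b : Module.Basis (Fin n) ℤ R) (D : ℕ) (δ : ℝ) : Prop :=
  ∀ N₀ : ℕ, 0 < N₀ → N₀.Coprime D → ∀ y : R,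
    (∀ j, (D : ℝ) * |((b.repr y j : ℤ) : ℝ)| ≤ δ * N₀) → Φ (φ (N₀ + D * y)) = Φ (φ N₀)

/-- the real matrix of multiplication by `g` -/
def mulM {R : Type} [CommRing R] {n : ℕ} (b : Module.Basis (Fin n) ℤ R) (g : R) :
    Matrix (Fin n) (Fin n) ℝ :=
  (Algebra.leftMulMatrix b g).map (Int.cast : ℤ → ℝ)

/-- finitely many classes modulo `q`-th powers -/
def FinCl (N : Type) [Field N] (q : ℕ) : Prop :=
  ∃ C : Finset N, ∀ z : N, z ≠ 0 → ∃ c ∈ C, ∃ y : N, y ≠ 0 ∧ z = c * y ^ q

/-! ### Model theory -/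

/-- the language of ordered rings -/
abbrev Lor : Language := Language.ring.sum Language.order

/-- The theory of `K` is NIP: for each formula `φ(x; y)` (`x`, `y` tuples) there is a finite bound
on the number of parameter tuples in a shattered family. -/
def NIP (K : Type) [Lor.Structure K] : Prop :=
  ∀ (m k : ℕ) (φ : Lor.Formula (Fin m ⊕ Fin k)), ∃ n : ℕ, ∀ a : Fin n → Fin k → K,
    ∃ S : Set (Fin n), ∀ x : Fin m → K, ¬ ∀ i, (φ.Realize (Sum.elim x (a i)) ↔ i ∈ S)

end NFV
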