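import Pool.Agent.NFV.Targets

/-!
# NFV: ACR, the shattering configuration
-/

set_option autoImplicit false

noncomputable section

namespace NFV

namespace ACR_

lemma mem_box {n X : ℕ} (x : Fin n → ℤ) :
    x ∈ box n X ↔ ∀ j, 0 ≤ x j ∧ x j < (X : ℤ) := by
  simp only [box, Fintype.mem_piFinset, Finset.mem_Ico]

lemma card_box (n X : ℕ) : (box n X).card = X ^ n := by
  rw [box, Fintype.card_piFinset_const, Int.card_Ico]
  simp

/-- size of the preimage -/
lemma small {n N p m z : ℕ} (hN : 0 < N) (hp : 2 ≤ p)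
    (T : (Fin n → ℤ) →+ (Fin n → ℤ))
    (hbd : ∀ y (Y : ℝ), (∀ j, |(y j : ℝ)| ≤ Y) →
      ∀ j, |((T y j - N * y j : ℤ) : ℝ)| ≤ N * Y / (16 * p))
    (y : Fin n → ℤ) (hy : ∀ j, |((T y j : ℤ) : ℝ)| ≤ 4 * m * z + 4 * m * p * z) (j : Fin n) :
    |((T y j - N * y j : ℤ) : ℝ)| ≤ m * z := by
  have hne : (Finset.univ : Finset (Fin n)).Nonempty := ⟨j, Finset.mem_univ j⟩
  obtain ⟨i, -, hi⟩ := Finset.exists_max_image Finset.univ (fun i => |(y i : ℝ)|) hne
  have hY : ∀ j, |(y j : ℝ)| ≤ |(y i : ℝ)| := fun j => hi j (Finset.mem_univ j)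
  have h1 := hbd y _ hY
  have h2 := h1 i
  have h3 := hy i
  have hp' : (2 : ℝ) ≤ p := by exact_mod_cast hp
  have hN' : (0 : ℝ) < N := by exact_mod_cast hN
  set Y := |(y i : ℝ)| with hYd
  have hY0 : 0 ≤ Y := abs_nonneg _
  have hNY : (N : ℝ) * Y = |((N * y i : ℤ) : ℝ)| := by
    push_cast
    rw [abs_mul, abs_of_pos hN']
  have h4 : |((N * y i : ℤ) : ℝ)| ≤ |((T y i : ℤ) : ℝ)| + |((T y i - N * y i : ℤ) : ℝ)| := by
    have h5 : ((N * y i : ℤ) : ℝ) = ((T y i : ℤ) : ℝ) - ((T y i - N * y i : ℤ) : ℝ) := by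
      push_cast
      ring
    rw [h5]
    exact abs_sub _ _
  have h6 : (N : ℝ) * Y / (16 * p) ≤ N * Y / 32 := by
    apply div_le_div_of_nonneg_left (by positivity) (by norm_num) (by linarith)
  have h7 : (N : ℝ) * Y * 31 ≤ 32 * (4 * m * z + 4 * m * p * z) := by
    linarith
  have hmz : (0 : ℝ) ≤ m * z := by positivity
  have h8 : (4 * m * z + 4 * m * p * z : ℝ) ≤ 6 * (m * z) * p := by nlinarith
  have h9 : (N : ℝ) * Y ≤ 16 * p * (m * z) := by nlinarith
  refine (h1 j).trans ?_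
  rw [div_le_iff₀ (by positivity)]
  linarith

/-- the points of the small cube divisible by `D` -/
lemma card_H {n D M z : ℕ} (hD : 0 < D) (hM : D ∣ M) :
    ((4 * M * z : ℝ) / D) ^ n ≤
      (Nat.card {x : Fin n → ℤ // x ∈ box n (4 * M * z) ∧ Dv D x} : ℝ) := by
  obtain ⟨m, rfl⟩ := hM
  have h1 : (box n (4 * m * z)).card ≤
      Nat.card {x : Fin n → ℤ // x ∈ box n (4 * (D * m) * z) ∧ Dv D x} := by
    have hfin : {x : Fin n → ℤ | x ∈ box n (4 * (D * m) * z) ∧ Dv D x}.Finite :=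
      (box n (4 * (D * m) * z)).finite_toSet.subset (fun x hx => hx.1)
    have h2 : Nat.card {x : Fin n → ℤ // x ∈ box n (4 * (D * m) * z) ∧ Dv D x} =
        {x : Fin n → ℤ | x ∈ box n (4 * (D * m) * z) ∧ Dv D x}.ncard := rfl
    rw [h2, ← Set.ncard_coe_finset]
    refine Set.ncard_le_ncard_of_injOn (fun y => (D : ℤ) • y) ?_ ?_ hfin
    · intro y hy
      have hy' := (mem_box y).1 (Finset.mem_coe.1 hy)
      refine ⟨(mem_box _).2 fun j => ?_, fun j => ?_⟩
      · obtain ⟨h3, h4⟩ := hy' j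
        have hD' : (0 : ℤ) < D := by exact_mod_cast hD
        simp only [Pi.smul_apply, smul_eq_mul]
        refine ⟨mul_nonneg hD'.le h3, ?_⟩
        calc (D : ℤ) * y j < D * ((4 * m * z : ℕ) : ℤ) := mul_lt_mul_of_pos_left h4 hD'
          _ = ((4 * (D * m) * z : ℕ) : ℤ) := by push_cast; ring
      · simp only [Pi.smul_apply, smul_eq_mul]
        exact dvd_mul_right _ _
    · intro y _ y' _ h
      have hD' : (D : ℤ) ≠ 0 := by exact_mod_cast hD.ne'
      funext j
      have h3 := congrFun h j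
      simp only [Pi.smul_apply, smul_eq_mul] at h3
      exact mul_left_cancel₀ hD' h3
  rw [card_box] at h1
  have hD' : (D : ℝ) ≠ 0 := by exact_mod_cast hD.ne'
  have h5 : ((4 * ((D * m : ℕ) : ℝ) * z : ℝ) / D) = ((4 * m * z : ℕ) : ℝ) := by
    push_cast
    field_simp
  rw [h5]
  exact_mod_cast h1

/-- the points divisible by `D` -/
def DvSub (n D : ℕ) : AddSubgroup (Fin n → ℤ) where
  carrier := {x | Dv D x}
  zero_mem' := fun j => by simp
  add_mem' := fun {x y} hx hy j => by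
    rw [Pi.add_apply]
    exact dvd_add (hx j) (hy j)
  neg_mem' := fun {x} hx j => by
    rw [Pi.neg_apply]
    exact (dvd_neg).2 (hx j)

/-- the bound for one family of maps -/
theorem one (h_EQD : T_EQD) (h_LAM : T_LAM) (h_DBC : T_DBC) {n k : ℕ} {B : Type}
    (G : (Fin n → ℤ) → B) {D p z M : ℕ} {ε : ℝ} (hk : 0 < k)
    (hD : 0 < D) (hp : 2 ≤ p) (hz : 0 < z) (hM : 0 < M) (N : Fin k → ℕ)
    (T : Fin k → ((Fin n → ℤ) →+ (Fin n → ℤ)))
    (hN : ∀ i, 0 < N i) (hNM : ∀ i, D * N i ∣ M) (hinj : ∀ i, Function.Injective (T i))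
    (hbd : ∀ i y (Y : ℝ), (∀ j, |(y j : ℝ)| ≤ Y) →
      ∀ j, |((T i y j - N i * y j : ℤ) : ℝ)| ≤ N i * Y / (16 * p))
    (hDv : ∀ (i : Fin k) (y : Fin n → ℤ), Dv D (T i y - (N i : ℤ) • y))
    (hMT : ∀ (i : Fin k) (y : Fin n → ℤ), (M : ℤ) • y ∈ (T i).range)
    (hcrt : ∀ a : Fin k → (Fin n → ℤ), ∃ x, Dv D x ∧ ∀ i, x + a i ∈ (T i).range)
    (maj : Fin k → (Fin n → ℤ) → B)
    (hmaj : ∀ i, ∀ P : Finset ((Fin n → ℤ) × (Fin n → ℤ)),
      (∀ r ∈ P, r.1 ∈ box n (4 * M * p * z) ∧
        (∀ j, -((M * z : ℕ) : ℤ) ≤ N i * r.2 j - r.1 j ∧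
          (N i * r.2 j - r.1 j : ℤ) < ((5 * M * z : ℕ) : ℤ) ∧
          (D : ℤ) ∣ N i * r.2 j - r.1 j) ∧ G r.2 ≠ maj i r.1) →
        (P.card : ℝ) ≤ ε * 4 ^ n * ((6 * M * z) * (4 * M * p * z) / (D * N i)) ^ n)
    (hε : 0 < ε) :
    (Nat.card {a : Fin k → {x : Fin n → ℤ // x ∈ box n (4 * M * p * z)} //
      ∀ x : {x : Fin n → ℤ // x ∈ box n (4 * M * z) ∧ Dv D x},
        (∀ i, x.1 + (a i).1 ∈ (T i).range) →
          ∃ i, ∃ y, x.1 + (a i).1 = T i y ∧ G y ≠ maj i (a i).1} : ℝ) ≤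
      k * (12 ^ n * ε) * (Nat.card {x : Fin n → ℤ // x ∈ box n (4 * M * p * z)} : ℝ) ^ k := by
  classical
  have hDM : D ∣ M := (dvd_mul_right D (N ⟨0, hk⟩)).trans (hNM ⟨0, hk⟩)
  have hHf : Finite {x : Fin n → ℤ // x ∈ box n (4 * M * z) ∧ Dv D x} :=
    Set.Finite.to_subtype ((box n (4 * M * z)).finite_toSet.subset (fun x hx => hx.1))
  let hHf' : Fintype {x : Fin n → ℤ // x ∈ box n (4 * M * z) ∧ Dv D x} := Fintype.ofFinite _
  set L : AddSubgroup (Fin n → ℤ) := DvSub n D ⊓ ⨅ i, (T i).range with hL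
  have hMz : 0 < 4 * M * z := by positivity
  have hLmem : ∀ x : Fin n → ℤ, x ∈ L ↔ Dv D x ∧ ∀ i, x ∈ (T i).range := by
    intro x
    rw [hL, AddSubgroup.mem_inf, AddSubgroup.mem_iInf]
    rfl
  refine h_DBC k {x : Fin n → ℤ // x ∈ box n (4 * M * p * z)}
    {x : Fin n → ℤ // x ∈ box n (4 * M * z) ∧ Dv D x}
    (fun i a x => x.1 + a.1 ∈ (T i).range)
    (fun i a x => ∃ y, x.1 + a.1 = T i y ∧ G y ≠ maj i a.1)
    (fun i => {x | x ∈ box n (4 * M * p * z) ∧ x ∈ (T i).range}.ncard)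
    ({x | x ∈ box n (4 * M * z) ∧ x ∈ L}.ncard) (12 ^ n * ε) ?_ ?_ ?_ ?_ ?_
  · have hfin : {x : Fin n → ℤ | x ∈ box n (4 * M * z) ∧ x ∈ L}.Finite :=
      (box n (4 * M * z)).finite_toSet.subset (fun x hx => hx.1)
    rw [Set.ncard_pos hfin]
    refine ⟨0, (mem_box _).2 fun j => ?_, L.zero_mem⟩
    simp only [Pi.zero_apply, le_refl, true_and]
    exact_mod_cast hMz
  · rintro i a x ⟨y, hy, -⟩
    exact ⟨y, hy.symm⟩
  · intro i x
    have h1 := h_EQD n M (4 * p * z) (T i).range hM (hMT i) x.1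
    have h2 : M * (4 * p * z) = 4 * M * p * z := by ring
    rw [h2] at h1
    rw [← h1, ← Nat.card_coe_set_eq]
    refine Nat.card_congr
      { toFun := fun a => ⟨a.1.1, a.1.2, ?_⟩
        invFun := fun a => ⟨⟨a.1, a.2.1⟩, ?_⟩
        left_inv := fun a => rfl
        right_inv := fun a => rfl }
    · have h3 := a.2
      rw [add_comm] at h3
      exact h3
    · have h3 := a.2.2
      rw [add_comm] at h3
      exact h3
  · intro a
    obtain ⟨xa, hxa1, hxa2⟩ := hcrt fun i => (a i).1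
    have hML : ∀ y : Fin n → ℤ, (M : ℤ) • y ∈ L := by
      intro y
      rw [hLmem]
      refine ⟨fun j => ?_, fun i => hMT i y⟩
      simp only [Pi.smul_apply, smul_eq_mul]
      exact Dvd.dvd.mul_right (by exact_mod_cast hDM) _
    have h1 := h_EQD n M (4 * z) L hM hML (-xa)
    have h2 : M * (4 * z) = 4 * M * z := by ring
    rw [h2] at h1
    rw [← h1, ← Nat.card_coe_set_eq]
    have key : ∀ x : Fin n → ℤ, x + -xa ∈ L ↔ Dv D x ∧ ∀ i, x + (a i).1 ∈ (T i).range := by
      intro x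
      rw [hLmem]
      constructor
      · rintro ⟨h3, h4⟩
        refine ⟨fun j => ?_, fun i => ?_⟩
        · have h5 := dvd_add (h3 j) (hxa1 j)
          simp only [Pi.add_apply, Pi.neg_apply, neg_add_cancel_right] at h5
          exact h5
        · have h5 := (T i).range.add_mem (h4 i) (hxa2 i)
          have h6 : x + -xa + (xa + (a i).1) = x + (a i).1 := by abel
          rwa [h6] at h5
      · rintro ⟨h3, h4⟩
        refine ⟨fun j => ?_, fun i => ?_⟩
        · have h5 := dvd_sub (h3 j) (hxa1 j)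
          simp only [Pi.add_apply, Pi.neg_apply]
          rw [← sub_eq_add_neg]
          exact h5
        · have h5 := (T i).range.sub_mem (h4 i) (hxa2 i)
          have h6 : x + (a i).1 - (xa + (a i).1) = x + -xa := by abel
          rwa [h6] at h5
    refine Nat.card_congr
      { toFun := fun x => ⟨x.1.1, x.1.2.1, (key _).2 ⟨x.1.2.2, x.2⟩⟩
        invFun := fun x => ⟨⟨x.1, x.2.1, ((key _).1 x.2.2).1⟩, ((key _).1 x.2.2).2⟩
        left_inv := fun x => rfl
        right_inv := fun x => rfl }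
  · intro i
    have hNpos := hN i
    have hz' : (0 : ℝ) < z := by exact_mod_cast hz
    have hM' : (0 : ℝ) < M := by exact_mod_cast hM
    have hD' : (0 : ℝ) < D := by exact_mod_cast hD
    have hN' : (0 : ℝ) < N i := by exact_mod_cast hNpos
    -- the bad pairs, as pairs `(a, y)`
    set Bad := {r : {x : Fin n → ℤ // x ∈ box n (4 * M * p * z)} ×
      {x : Fin n → ℤ // x ∈ box n (4 * M * z) ∧ Dv D x} //
        ∃ y, r.2.1 + r.1.1 = T i y ∧ G y ≠ maj i r.1.1} with hBad
    let f : Bad → (Fin n → ℤ) × (Fin n → ℤ) := fun r => (r.1.1.1, r.2.choose)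
    have hf1 : ∀ r : Bad, r.1.2.1 + r.1.1.1 = T i (f r).2 := fun r => r.2.choose_spec.1
    have hf2 : ∀ r : Bad, G (f r).2 ≠ maj i (f r).1 := fun r => r.2.choose_spec.2
    have hfinj : Function.Injective f := by
      intro r s hrs
      have h1 : r.1.1.1 = s.1.1.1 := congrArg Prod.fst hrs
      have h2 : (f r).2 = (f s).2 := congrArg Prod.snd hrs
      have h3 : r.1.2.1 = s.1.2.1 := by
        have h4 := hf1 r
        rw [h2, ← hf1 s, h1] at h4
        exact add_right_cancel h4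
      exact Subtype.ext (Prod.ext (Subtype.ext h1) (Subtype.ext h3))
    have hfinB : Finite Bad := Subtype.finite
    have hfinR : (Set.range f).Finite := Set.finite_range f
    have hcardP : (hfinR.toFinset.card : ℝ) = (Nat.card Bad : ℝ) := by
      rw [← Set.ncard_eq_toFinset_card _ hfinR, ← Set.image_univ,
        Set.ncard_image_of_injective _ hfinj, Set.ncard_univ]
    have hP := hmaj i hfinR.toFinset ?_
    · rw [hcardP] at hP
      refine hP.trans ?_
      have h1 := card_H (n := n) (z := z) hD hDM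
      have hpz : 0 < p * z := by positivity
      have h2 := h_LAM n (N i) M (p * z) (T i) (hinj i) hNpos ((dvd_mul_left _ _).trans (hNM i))
        hM hpz ?_ (hMT i)
      · have h3 : 4 * M * (p * z) = 4 * M * p * z := by ring
        rw [h3] at h2
        have h4 := mul_le_mul h1 h2 (by positivity) (by positivity)
        have h5 : ε * 4 ^ n * ((6 * M * z) * (4 * M * p * z) / (D * N i) : ℝ) ^ n =
            12 ^ n * ε * (((4 * M * z : ℝ) / D) ^ n *
              ((4 * M * ((p * z : ℕ) : ℝ) : ℝ) / (2 * N i)) ^ n) := by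
          have e1 : ε * 4 ^ n * ((6 * M * z) * (4 * M * p * z) / (D * N i) : ℝ) ^ n =
              ε * (4 * ((6 * M * z) * (4 * M * p * z) / (D * N i) : ℝ)) ^ n := by
            rw [mul_assoc, ← mul_pow]
          have e2 : 12 ^ n * ε * (((4 * M * z : ℝ) / D) ^ n *
              ((4 * M * ((p * z : ℕ) : ℝ) : ℝ) / (2 * N i)) ^ n) =
              ε * (12 * (((4 * M * z : ℝ) / D) *
              ((4 * M * ((p * z : ℕ) : ℝ) : ℝ) / (2 * N i)))) ^ n := by
            rw [← mul_pow, mul_comm _ ε, mul_assoc, ← mul_pow]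
          rw [e1, e2]
          congr 2
          push_cast
          field_simp
          ring
        rw [h5]
        exact mul_le_mul_of_nonneg_left h4 (by positivity)
      · intro y Y hY j
        refine (hbd i y Y hY j).trans ?_
        have hY0 : 0 ≤ Y := (abs_nonneg _).trans (hY j)
        have hp' : (2 : ℝ) ≤ p := by exact_mod_cast hp
        apply div_le_div_of_nonneg_left (by positivity) (by norm_num) (by linarith)
    · intro r hr
      obtain ⟨q, rfl⟩ := (hfinR.mem_toFinset).1 hr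
      refine ⟨q.1.1.2, fun j => ?_, hf2 q⟩
      have hx := (mem_box _).1 q.1.2.2.1
      have ha := (mem_box _).1 q.1.1.2
      have hT := hf1 q
      set y := (f q).2 with hy
      have hTj : ∀ j, T i y j = q.1.2.1 j + q.1.1.1 j := by
        intro j
        rw [← hT]
        rfl
      have hsm := small hNpos hp (T i) (hbd i) y (m := M) (z := z) ?_ j
      · have h1 : (f q).1 = q.1.1.1 := rfl
        rw [h1]
        rw [abs_le] at hsm
        have h2 : (T i y j - N i * y j : ℤ) ≤ ((M * z : ℕ) : ℤ) := by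
          have : ((T i y j - N i * y j : ℤ) : ℝ) ≤ (((M * z : ℕ) : ℤ) : ℝ) := by
            push_cast
            have := hsm.2
            push_cast at this
            exact this
          exact_mod_cast this
        have h3 : -((M * z : ℕ) : ℤ) ≤ (T i y j - N i * y j : ℤ) := by
          have : ((-((M * z : ℕ) : ℤ) : ℤ) : ℝ) ≤ ((T i y j - N i * y j : ℤ) : ℝ) := by
            push_cast
            have := hsm.1
            push_cast at this
            exact this
          exact_mod_cast this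
        have h4 := hTj j
        obtain ⟨h5, h6⟩ := hx j
        have h7 : ((5 * M * z : ℕ) : ℤ) = ((4 * M * z : ℕ) : ℤ) + ((M * z : ℕ) : ℤ) := by
          push_cast
          ring
        refine ⟨by linarith, by linarith, ?_⟩
        have h8 := q.1.2.2.2 j
        have h9 := hDv i y j
        have h10 : (N i * y j - q.1.1.1 j : ℤ) =
            q.1.2.1 j - (T i y - (N i : ℤ) • y) j := by
          rw [Pi.sub_apply, Pi.smul_apply, smul_eq_mul, h4]
          ring
        rw [h10]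
        exact dvd_sub h8 h9
      · intro j
        obtain ⟨h5, h6⟩ := hx j
        obtain ⟨h7, h8⟩ := ha j
        rw [hTj j]
        have h9 : ((q.1.2.1 j : ℤ) : ℝ) < (((4 * M * z : ℕ) : ℤ) : ℝ) := Int.cast_lt.2 h6
        have h10 : ((q.1.1.1 j : ℤ) : ℝ) < (((4 * M * p * z : ℕ) : ℤ) : ℝ) := Int.cast_lt.2 h8
        have h11 : (0 : ℝ) ≤ ((q.1.2.1 j : ℤ) : ℝ) := by exact_mod_cast h5
        have h12 : (0 : ℝ) ≤ ((q.1.1.1 j : ℤ) : ℝ) := by exact_mod_cast h7
        push_cast at h9 h10 ⊢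
        rw [abs_le]
        constructor <;> linarith

end ACR_

open ACR_ in
theorem p_ACR (h_EQD : T_EQD) (h_MAJ : T_MAJ) (h_LAM : T_LAM) (h_DBC : T_DBC) : T_ACR := by
  classical
  intro n k B _ b₀ G D p X₀ ε δ hn hD hε hsmall hp hpδ hNC hb₀ N T M hM hT hbd hDv hMT hcrt
  rcases Nat.eq_zero_or_pos k with hk | hk
  · subst hk
    exact ⟨fun i => i.elim0, fun i => i.elim0, fun i => i.elim0, fun S => ⟨0, fun i => i.elim0⟩⟩
  obtain ⟨z, hz⟩ : ∃ z : ℕ, z = X₀ + Nat.card B + 1 := ⟨_, rfl⟩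
  have hz0 : 0 < z := by omega
  have hX₀ : X₀ ≤ z := by omega
  have hBz : Nat.card B < z := by omega
  choose maj hmaj1 hmaj2 using fun i => h_MAJ n B b₀ G D (N i) M p z X₀ ε δ hn hD (hT i).1
    (hT i).2.1 (hT i).2.2.1 hM hp hpδ hε hX₀ hBz hNC hb₀
  -- the families of maps
  let TS : Finset (Fin k) → Fin k → ((Fin n → ℤ) →+ (Fin n → ℤ)) := fun S i =>
    if i ∈ S then T i else ((N i : ℤ) • AddMonoidHom.id (Fin n → ℤ))
  have hTS : ∀ S i y, TS S i y = if i ∈ S then T i y else (N i : ℤ) • y := by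
    intro S i y
    by_cases h : i ∈ S
    · simp only [TS, if_pos h]
    · simp only [TS, if_neg h, AddMonoidHom.coe_smul, Pi.smul_apply, AddMonoidHom.id_apply]
  have hone : ∀ S : Finset (Fin k), _ := fun S =>
    one h_EQD h_LAM h_DBC (B := B) G (D := D) (p := p) (z := z) (M := M) (ε := ε) hk hD hp hz0 hM
      N (TS S) (fun i => (hT i).1) (fun i => (hT i).2.2.1) ?_ ?_ ?_ ?_ ?_ maj hmaj2 hε
  rotate_left
  · intro i y y' h
    rw [hTS, hTS] at h
    by_cases hi : i ∈ S
    · rw [if_pos hi, if_pos hi] at h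
      exact (hT i).2.2.2 h
    · rw [if_neg hi, if_neg hi] at h
      have hN0 : ((N i : ℕ) : ℤ) ≠ 0 := by exact_mod_cast (hT i).1.ne'
      funext j
      have h3 := congrFun h j
      simp only [Pi.smul_apply, smul_eq_mul] at h3
      exact mul_left_cancel₀ hN0 h3
  · intro i y Y hY j
    rw [hTS]
    by_cases hi : i ∈ S
    · rw [if_pos hi]
      exact hbd i y Y hY j
    · rw [if_neg hi]
      have hY0 : 0 ≤ Y := (abs_nonneg _).trans (hY j)
      simp only [Pi.smul_apply, smul_eq_mul, sub_self, Int.cast_zero, abs_zero]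
      positivity
  · intro i y
    rw [hTS]
    by_cases hi : i ∈ S
    · rw [if_pos hi]
      exact hDv i y
    · rw [if_neg hi, sub_self]
      intro j
      exact dvd_zero _
  · intro i y
    by_cases hi : i ∈ S
    · obtain ⟨w, hw⟩ := hMT i y
      refine ⟨w, ?_⟩
      rw [hTS, if_pos hi]
      exact hw
    · obtain ⟨m, hm⟩ := (dvd_mul_left (N i) D).trans (hT i).2.2.1
      refine ⟨(m : ℤ) • y, ?_⟩
      rw [hTS, if_neg hi, smul_smul, hm]
      push_cast
      rfl
  · intro a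
    obtain ⟨x, hx1, hx2⟩ := hcrt S a
    refine ⟨x, hx1, fun i => ?_⟩
    obtain ⟨y, hy⟩ := hx2 i
    refine ⟨y, ?_⟩
    rw [hTS]
    exact hy.symm
  -- choose a tuple which is good for all `S`
  let A := {x : Fin n → ℤ // x ∈ box n (4 * M * p * z)}
  let hFA : Fintype A := Finset.Subtype.fintype (box n (4 * M * p * z))
  let Q : Finset (Fin k) → (Fin k → A) → Prop := fun S a =>
    ∀ x : {x : Fin n → ℤ // x ∈ box n (4 * M * z) ∧ Dv D x},
        (∀ i, x.1 + (a i).1 ∈ (TS S i).range) →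
          ∃ i, ∃ y, x.1 + (a i).1 = TS S i y ∧ G y ≠ maj i (a i).1
  have hAcard : 0 < Fintype.card A := by
    have h0 : Fintype.card A = (4 * M * p * z) ^ n := by
      rw [← card_box, ← Fintype.card_coe (box n (4 * M * p * z))]
    rw [h0]
    positivity
  have hex : ∃ a : Fin k → A, ∀ S, ¬ Q S a := by
    by_contra hcon
    push Not at hcon
    have h1 : (Finset.univ : Finset (Fin k → A)) ⊆
        (Finset.univ : Finset (Finset (Fin k))).biUnion
          fun S => Finset.univ.filter fun a => Q S a := by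
      intro a _
      obtain ⟨S, hS⟩ := hcon a
      exact Finset.mem_biUnion.2 ⟨S, Finset.mem_univ _,
        Finset.mem_filter.2 ⟨Finset.mem_univ _, hS⟩⟩
    have h2 := (Finset.card_le_card h1).trans Finset.card_biUnion_le
    rw [Finset.card_univ, Fintype.card_fun, Fintype.card_fin] at h2
    have h3 : ∀ S : Finset (Fin k), (((Finset.univ.filter fun a => Q S a).card : ℕ) : ℝ) ≤
        k * (12 ^ n * ε) * (Fintype.card A : ℝ) ^ k := by
      intro S
      have h4 := hone S
      rw [Nat.card_eq_fintype_card (α := A)] at h4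
      have h5 : Nat.card {a : Fin k → A // Q S a} = (Finset.univ.filter fun a => Q S a).card := by
        rw [Nat.card_eq_fintype_card, Fintype.card_subtype]
      rw [← h5]
      exact h4
    have h4 : ((Fintype.card A : ℝ)) ^ k ≤
        ∑ S : Finset (Fin k), k * (12 ^ n * ε) * (Fintype.card A : ℝ) ^ k := by
      refine le_trans ?_ (Finset.sum_le_sum fun S _ => h3 S)
      exact_mod_cast h2
    rw [Finset.sum_const, Finset.card_univ, Fintype.card_finset, Fintype.card_fin,
      nsmul_eq_mul] at h4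
    have hA' : (0 : ℝ) < (Fintype.card A : ℝ) ^ k := by
      have : (0 : ℝ) < Fintype.card A := by exact_mod_cast hAcard
      positivity
    have h5 : (12 : ℝ) ^ n ≤ 16 ^ n := pow_le_pow_left₀ (by norm_num) (by norm_num) n
    have h6 : ((2 ^ k : ℕ) : ℝ) * (k * (12 ^ n * ε)) ≤ k * 2 ^ k * 16 ^ n * ε := by
      push_cast
      have : (0 : ℝ) ≤ 2 ^ k * k * ε := by positivity
      nlinarith [mul_le_mul_of_nonneg_left h5 this]
    have h7 : ((2 ^ k : ℕ) : ℝ) * (k * (12 ^ n * ε)) < 1 := lt_of_le_of_lt h6 hsmall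
    nlinarith
  obtain ⟨a, ha⟩ := hex
  refine ⟨fun i => (a i).1, fun i => maj i (a i).1, fun i => hmaj1 i _ (a i).2, fun S => ?_⟩
  have h1 := ha S
  simp only [Q] at h1
  push Not at h1
  obtain ⟨x, hx1, hx2⟩ := h1
  refine ⟨x.1, fun i => ?_⟩
  obtain ⟨y, hy⟩ := hx1 i
  refine ⟨y, ?_, hx2 i y hy.symm⟩
  rw [← hTS]
  exact hy.symm

end NFV
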