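import Pool.Agent.NFV.Targets2

/-!
# ARC: algebraic elements of an ordered field are reals
-/

set_option autoImplicit false

open Polynomial

noncomputable section

namespace NFV

namespace ARC_

/-- Cauchy bound for roots of monic polynomials over an ordered field. -/
theorem bound {K : Type} [Field K] [LinearOrder K] [IsStrictOrderedRing K] (p : ℚ[X])
    (hp : p.Monic) (x : K) (hx : aeval x p = 0) :
    |x| ≤ 1 + ∑ i ∈ Finset.range p.natDegree, |(algebraMap ℚ K (p.coeff i))| := by
  set S : K := ∑ i ∈ Finset.range p.natDegree, |(algebraMap ℚ K (p.coeff i))| with hS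
  have hS0 : 0 ≤ S := Finset.sum_nonneg fun i _ => abs_nonneg _
  by_contra hcon
  push Not at hcon
  have h1 : 1 < |x| := lt_of_le_of_lt (by linarith) hcon
  have hSx : S < |x| := by linarith
  have hd : p.natDegree ≠ 0 := by
    intro h0
    have : p = 1 := hp.natDegree_eq_zero.mp h0
    rw [this] at hx
    simp at hx
  obtain ⟨d, hd'⟩ := Nat.exists_eq_succ_of_ne_zero hd
  have hexp : x ^ p.natDegree
      = - ∑ i ∈ Finset.range p.natDegree, (algebraMap ℚ K (p.coeff i)) * x ^ i := by
    have h2 : aeval x p = ∑ i ∈ Finset.range (p.natDegree + 1),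
        (algebraMap ℚ K (p.coeff i)) * x ^ i := by
      rw [aeval_eq_sum_range]
      refine Finset.sum_congr rfl fun i _ => ?_
      rw [Algebra.smul_def]
    rw [h2, Finset.sum_range_succ, hp.coeff_natDegree, map_one, one_mul] at hx
    linear_combination hx
  have h3 : |x| ^ p.natDegree ≤ S * |x| ^ d := by
    rw [← abs_pow, hexp, abs_neg]
    refine (Finset.abs_sum_le_sum_abs _ _).trans ?_
    rw [hS, Finset.sum_mul]
    refine Finset.sum_le_sum fun i hi => ?_
    rw [abs_mul, abs_pow]
    refine mul_le_mul_of_nonneg_left ?_ (abs_nonneg _)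
    refine pow_le_pow_right₀ h1.le ?_
    have := Finset.mem_range.1 hi
    omega
  have hpos : 0 < |x| ^ d := pow_pos (by linarith) d
  have h4 : |x| * |x| ^ d ≤ S * |x| ^ d := by
    have : |x| * |x| ^ d = |x| ^ p.natDegree := by
      rw [hd', Nat.succ_eq_add_one, pow_succ, mul_comm]
    rw [this]
    exact h3
  have h5 := le_of_mul_le_mul_right h4 hpos
  linarith

end ARC_

open ARC_ in
theorem p_ARC : T_ARC := by
  intro K _ _ _
  let i1 : LinearOrder (algebraicClosure ℚ K) :=
    inferInstanceAs (LinearOrder {x : K // x ∈ algebraicClosure ℚ K})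
  have i2 : IsStrictOrderedRing (algebraicClosure ℚ K) :=
    Function.Injective.isStrictOrderedRing Subtype.val rfl rfl (fun _ _ => rfl) (fun _ _ => rfl)
      Iff.rfl Iff.rfl
  have i3 : Archimedean (algebraicClosure ℚ K) := by
    rw [archimedean_iff_rat_le]
    intro x
    have hx : IsAlgebraic ℚ (x : K) := mem_algebraicClosure_iff.1 x.2
    have hi : IsIntegral ℚ (x : K) := hx.isIntegral
    have hb := bound (minpoly ℚ (x : K)) (minpoly.monic hi) (x : K) (minpoly.aeval ℚ _)
    set q : ℚ := 1 + ∑ i ∈ Finset.range (minpoly ℚ (x : K)).natDegree,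
      |(minpoly ℚ (x : K)).coeff i| with hq
    have hqK : (q : K) = 1 + ∑ i ∈ Finset.range (minpoly ℚ (x : K)).natDegree,
        |algebraMap ℚ K ((minpoly ℚ (x : K)).coeff i)| := by
      rw [hq]
      push_cast
      simp
    have hqF : (((q : ℚ) : algebraicClosure ℚ K) : K) = (q : K) :=
      map_ratCast (algebraicClosure ℚ K).val q
    refine ⟨q, ?_⟩
    show (x : K) ≤ (((q : ℚ) : algebraicClosure ℚ K) : K)
    rw [hqF, hqK]
    exact (le_abs_self _).trans hb
  let f := ConditionallyCompleteLinearOrderedField.inducedOrderRingHom (algebraicClosure ℚ K) ℝ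
  refine ⟨f.toRingHom, fun x hx => ?_⟩
  have hmono : Monotone f := f.monotone'
  have hinj : Function.Injective f := f.toRingHom.injective
  have hx' : (0 : algebraicClosure ℚ K) < x := hx
  have := (hmono.strictMono_of_injective hinj) hx'
  rwa [map_zero] at this

end NFV
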