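import Pool.Agent.NFV.Targets

/-!
# NFV: CAP, common almost periods
-/

set_option autoImplicit false

open Polynomial FirstOrder

noncomputable section

namespace NFV

namespace CAP_

variable {N B : Type} [Field N]

lemma dis_self (Φ : N → B) (X : ℕ) (u : N) : dis Φ X u u = 0 := by
  unfold dis
  simp

lemma dis_symm (Φ : N → B) (X : ℕ) (u v : N) : dis Φ X u v = dis Φ X v u := by
  unfold dis
  congr 1
  ext r
  simp only [Finset.mem_filter, ne_eq]
  exact and_congr_right fun _ => not_congr eq_comm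

lemma dis_tri (Φ : N → B) (X : ℕ) (u v w : N) :
    dis Φ X u w ≤ dis Φ X u v + dis Φ X v w := by
  classical
  unfold dis
  refine le_trans (Finset.card_le_card ?_) (Finset.card_union_le _ _)
  intro r hr
  simp only [Finset.mem_filter, Finset.mem_union, ne_eq] at hr ⊢
  by_cases h : Φ (u + r) = Φ (v + r)
  · exact Or.inr ⟨hr.1, fun h' => hr.2 (h.trans h')⟩
  · exact Or.inl ⟨hr.1, h⟩

lemma dis_shift (Φ : N → B) (X t : ℕ) (u v : N) :
    dis Φ X (u + t) (v + t) ≤ dis Φ X u v + t := by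
  classical
  unfold dis
  set A := (Finset.range X).filter fun r : ℕ => Φ (u + t + r) ≠ Φ (v + t + r) with hA
  set C := (Finset.range X).filter fun r : ℕ => Φ (u + r) ≠ Φ (v + r) with hC
  have h1 : (A.image fun r => r + t).card = A.card :=
    Finset.card_image_of_injective _ (add_left_injective t)
  have h2 : (A.image fun r => r + t) ⊆ C ∪ Finset.Ico X (X + t) := by
    intro r hr
    obtain ⟨r', hr', rfl⟩ := Finset.mem_image.mp hr
    rw [hA, Finset.mem_filter, Finset.mem_range] at hr'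
    rw [Finset.mem_union]
    by_cases h : r' + t < X
    · left
      rw [hC, Finset.mem_filter, Finset.mem_range]
      refine ⟨h, ?_⟩
      have e1 : u + ((r' + t : ℕ) : N) = u + t + r' := by push_cast; ring
      have e2 : v + ((r' + t : ℕ) : N) = v + t + r' := by push_cast; ring
      rw [e1, e2]
      exact hr'.2
    · right
      rw [Finset.mem_Ico]
      omega
  calc A.card = (A.image fun r => r + t).card := h1.symm
    _ ≤ (C ∪ Finset.Ico X (X + t)).card := Finset.card_le_card h2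
    _ ≤ C.card + (Finset.Ico X (X + t)).card := Finset.card_union_le _ _
    _ = C.card + t := by rw [Nat.card_Ico]; omega

lemma exists_net (Φ : N → B) (X K : ℕ) (c : ℝ) (hc : 0 ≤ c)
    (hK : ∀ U : Finset N, (∀ u ∈ U, ∀ v ∈ U, u ≠ v → c < dis Φ X u v) → U.card ≤ K) :
    ∃ U : Finset N, U.card ≤ K ∧ ∀ w : N, ∃ v ∈ U, (dis Φ X w v : ℝ) ≤ c := by
  classical
  set S : Set ℕ := {m | ∃ U : Finset N, (∀ u ∈ U, ∀ v ∈ U, u ≠ v → c < dis Φ X u v) ∧
    U.card = m} with hS
  have hne : S.Nonempty := ⟨0, ∅, by simp, by simp⟩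
  have hbd : BddAbove S := ⟨K, by rintro m ⟨U, hU, rfl⟩; exact hK U hU⟩
  obtain ⟨U, hU, hUc⟩ := Nat.sSup_mem hne hbd
  refine ⟨U, hK U hU, fun w => ?_⟩
  by_contra hcon
  push Not at hcon
  have hw : w ∉ U := by
    intro hw
    have := hcon w hw
    rw [dis_self] at this
    push_cast at this
    linarith
  have hsep : ∀ u ∈ insert w U, ∀ v ∈ insert w U, u ≠ v → c < dis Φ X u v := by
    intro u hu v hv huv
    rcases Finset.mem_insert.mp hu with rfl | hu'
    · rcases Finset.mem_insert.mp hv with rfl | hv'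
      · exact absurd rfl huv
      · exact hcon v hv'
    · rcases Finset.mem_insert.mp hv with rfl | hv'
      · rw [dis_symm]
        exact hcon u hu'
      · exact hU u hu' v hv' huv
  have h1 : (insert w U).card ∈ S := ⟨insert w U, hsep, rfl⟩
  have h2 : (insert w U).card ≤ sSup S := le_csSup hbd h1
  rw [← hUc, Finset.card_insert_of_notMem hw] at h2
  omega

end CAP_

open CAP_ in
theorem p_CAP (h_PCK : T_PCK) : T_CAP := by
  classical
  intro N B _ _ _ Φ n hn η hη
  obtain ⟨K, hK⟩ := h_PCK N B Φ n hn η hη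
  have hK1 : 1 ≤ K := by
    have := hK 1 one_pos {0} (by
      intro u hu v hv huv
      rw [Finset.mem_singleton] at hu hv
      exact absurd (hu.trans hv.symm) huv)
    simpa using this
  refine ⟨K ^ K, Nat.pow_pos hK1, fun X s hX hs => ?_⟩
  have hηX : 0 ≤ η * X := by positivity
  obtain ⟨U, hUc, hU⟩ := exists_net Φ X K (η * X) hηX (hK X hX)
  choose g hgU hg using hU
  let f : Fin (K ^ K + 1) → (U → U) := fun i v => ⟨g ((v : N) + ((i.1 * s : ℕ) : N)), hgU _⟩
  have hcard : Fintype.card (U → U) < Fintype.card (Fin (K ^ K + 1)) := by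
    rw [Fintype.card_fun, Fintype.card_fin, Fintype.card_coe]
    exact Nat.lt_succ_of_le ((Nat.pow_le_pow_left hUc _).trans (Nat.pow_le_pow_right hK1 hUc))
  obtain ⟨i, j, hij, hfij⟩ : ∃ i j : Fin (K ^ K + 1), i < j ∧ f i = f j := by
    obtain ⟨i, j, hne, hf⟩ := Fintype.exists_ne_map_eq_of_card_lt f hcard
    rcases lt_or_gt_of_ne hne with h | h
    · exact ⟨i, j, h, hf⟩
    · exact ⟨j, i, h, hf.symm⟩
  have hij' : i.1 < j.1 := hij
  have hjM : j.1 ≤ K ^ K := Nat.lt_succ_iff.mp j.2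
  have hshift : ∀ (l : Fin (K ^ K + 1)), ((l.1 * s : ℕ) : ℝ) ≤ η * X := by
    intro l
    refine le_trans ?_ hs
    have hl : l.1 ≤ K ^ K := Nat.lt_succ_iff.mp l.2
    push_cast
    have : (l.1 : ℝ) ≤ (K : ℝ) ^ K := by exact_mod_cast hl
    exact mul_le_mul_of_nonneg_right this (Nat.cast_nonneg s)
  refine ⟨j.1 - i.1, by omega, by omega, fun u => ?_⟩
  set w : N := u - ((i.1 * s : ℕ) : N) with hw
  set v : N := g w with hv
  have hvU : v ∈ U := hgU w
  have hwv : (dis Φ X w v : ℝ) ≤ η * X := hg w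
  have eu : w + ((i.1 * s : ℕ) : N) = u := by rw [hw]; ring
  have eu' : w + ((j.1 * s : ℕ) : N) = u + (((j.1 - i.1) * s : ℕ) : N) := by
    have : j.1 * s = i.1 * s + (j.1 - i.1) * s := by
      rw [← add_mul]
      congr 1
      omega
    rw [hw, this]
    push_cast
    ring
  have s1 := dis_shift Φ X (i.1 * s) w v
  have s2 := dis_shift Φ X (j.1 * s) w v
  rw [eu] at s1
  rw [eu'] at s2
  have gi := hg (v + ((i.1 * s : ℕ) : N))
  have gj := hg (v + ((j.1 * s : ℕ) : N))
  have ge : g (v + ((i.1 * s : ℕ) : N)) = g (v + ((j.1 * s : ℕ) : N)) := by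
    have := congrFun hfij ⟨v, hvU⟩
    exact congrArg Subtype.val this
  rw [← ge] at gj
  set z : N := g (v + ((i.1 * s : ℕ) : N)) with hz
  have t1 := dis_tri Φ X (u + (((j.1 - i.1) * s : ℕ) : N)) (v + ((j.1 * s : ℕ) : N)) u
  have t2 := dis_tri Φ X (v + ((j.1 * s : ℕ) : N)) z u
  have t3 := dis_tri Φ X z (v + ((i.1 * s : ℕ) : N)) u
  rw [dis_symm Φ X z (v + ((i.1 * s : ℕ) : N)), dis_symm Φ X (v + ((i.1 * s : ℕ) : N)) u] at t3
  have r1 : (dis Φ X u (v + ((i.1 * s : ℕ) : N)) : ℝ) ≤ dis Φ X w v + ((i.1 * s : ℕ) : ℝ) := by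
    exact_mod_cast s1
  have r2 : (dis Φ X (u + (((j.1 - i.1) * s : ℕ) : N)) (v + ((j.1 * s : ℕ) : N)) : ℝ) ≤
      dis Φ X w v + ((j.1 * s : ℕ) : ℝ) := by
    exact_mod_cast s2
  have q1 : (dis Φ X (u + (((j.1 - i.1) * s : ℕ) : N)) u : ℝ) ≤
      dis Φ X (u + (((j.1 - i.1) * s : ℕ) : N)) (v + ((j.1 * s : ℕ) : N)) +
      dis Φ X (v + ((j.1 * s : ℕ) : N)) u := by exact_mod_cast t1
  have q2 : (dis Φ X (v + ((j.1 * s : ℕ) : N)) u : ℝ) ≤
      dis Φ X (v + ((j.1 * s : ℕ) : N)) z + dis Φ X z u := by exact_mod_cast t2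
  have q3 : (dis Φ X z u : ℝ) ≤ dis Φ X (v + ((i.1 * s : ℕ) : N)) z +
      dis Φ X u (v + ((i.1 * s : ℕ) : N)) := by exact_mod_cast t3
  have h1 := hshift i
  have h2 := hshift j
  linarith

end NFV
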