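import Pool.Agent.NFV.Targets

/-!
# NFV: target CHN, straight paths (helper36)
-/

set_option autoImplicit false

open Polynomial

noncomputable section

namespace NFV

lemma CHN_step {R : Type} [CommRing R] (L k Q D g h : R) (e : (L + k * (D * g)) * h = Q * g) :
    (L + k * (D * g)) * (Q + D * h) = Q * (L + (k + 1) * (D * g)) := by
  have e2 : (L + k * (D * g)) * (Q + D * h) =
      Q * (L + k * (D * g)) + D * ((L + k * (D * g)) * h) := by ring
  rw [e2, e]
  ring

theorem p_CHN (h_INV : NFV.T_INV) : NFV.T_CHN := by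
  intro N B _ _ _ Φ R _ n b φ D δ _ hD hδ hST g hdet
  obtain ⟨L₀, hL₀⟩ := h_INV R n b g D hD hdet δ hδ
  obtain ⟨L, hL⟩ : ∃ L : ℕ, L = D * L₀ + 1 := ⟨_, rfl⟩
  have hLL : L₀ ≤ L := by
    rw [hL]
    nlinarith
  have hLpos : 0 < L := by omega
  have hLcop : L.Coprime D := by
    rw [hL]
    have h1 : Nat.Coprime 1 D := Nat.coprime_one_left D
    rwa [← Nat.coprime_mul_left_add_left 1 D L₀] at h1
  have hcast : ∀ m : ℕ, 0 < m → Φ (φ (m : R)) ≠ 0 := by
    intro m hm
    rw [map_natCast]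
    exact (map_ne_zero Φ).2 (by exact_mod_cast hm.ne')
  have hstep : ∀ k : ℕ, k ≤ L → Φ (φ ((L : R) + ((k + 1 : ℕ) : R) * (D * g))) =
      Φ (φ ((L : R) + (k : R) * (D * g))) := by
    intro k hk
    obtain ⟨Q, h, hQ, hQD, e, hb⟩ := hL₀ L hLL hLpos hLcop k hk
    have h1 := hST Q hQ hQD h hb
    have h2 := CHN_step (L : R) (k : R) (Q : R) (D : R) g h e
    have h3 := congrArg (fun z => Φ (φ z)) h2
    simp only [map_mul] at h3
    rw [h1, mul_comm] at h3
    have h4 := mul_left_cancel₀ (hcast Q hQ) h3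
    rw [Nat.cast_add, Nat.cast_one]
    exact h4.symm
  have hall : ∀ k : ℕ, k ≤ L → Φ (φ ((L : R) + (k : R) * (D * g))) = Φ (φ (L : R)) := by
    intro k
    induction k with
    | zero => intro _; simp
    | succ k ih =>
      intro hk
      rw [hstep k (by omega), ih (by omega)]
  have hfin := hall L le_rfl
  have e3 : (L : R) + (L : R) * (D * g) = (L : R) * (1 + D * g) := by ring
  rw [e3, map_mul, map_mul] at hfin
  exact mul_left_cancel₀ (hcast L hLpos) (by rw [hfin, mul_one])

end NFV
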