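import Pool.Agent.NFV.Targets3

/-!
# NFV: target CMP (local components)
-/

set_option autoImplicit false

open Polynomial FirstOrder

noncomputable section

namespace NFV

namespace CMP_

/-- splitting a positive integer with respect to the primes dividing `M` -/
theorem split (M : ℕ) : ∀ n : ℕ, 0 < n → ∃ Q₁ Q₂ t : ℕ, n = Q₁ * Q₂ ∧ Q₁ ∣ M ^ t ∧
    Nat.Coprime Q₂ M := by
  intro n
  induction n using Nat.strong_induction_on with
  | _ n ih =>
    intro hn
    by_cases h : Nat.Coprime n M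
    · exact ⟨1, n, 0, by ring, by simp, h⟩
    · obtain ⟨g, hg⟩ : ∃ g, g = Nat.gcd n M := ⟨_, rfl⟩
      have hg1 : g ∣ n := hg ▸ Nat.gcd_dvd_left n M
      have hg2 : g ∣ M := hg ▸ Nat.gcd_dvd_right n M
      obtain ⟨n', hn'⟩ := hg1
      have hg0 : 0 < g := Nat.pos_of_ne_zero fun h0 => by
        rw [h0, zero_mul] at hn'
        omega
      have hg3 : g ≠ 1 := fun h1 => h (by rw [Nat.coprime_iff_gcd_eq_one, ← hg, h1])
      have hn0 : 0 < n' := Nat.pos_of_ne_zero fun h0 => by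
        rw [h0, mul_zero] at hn'
        omega
      have hlt : n' < n := by
        rw [hn']
        have : 1 < g := by omega
        nlinarith
      obtain ⟨Q₁, Q₂, t, h1, h2, h3⟩ := ih n' hlt hn0
      refine ⟨g * Q₁, Q₂, t + 1, by rw [hn', h1, mul_assoc], ?_, h3⟩
      rw [pow_succ, mul_comm g]
      exact mul_dvd_mul h2 hg2

section

variable {R : Type} [CommRing R]

theorem unit_of {D Q : ℕ} (h : Nat.Coprime Q D) {s : R} (hs : (Q : R) = D * s) :
    IsUnit (D : R) := by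
  have h1 := Nat.isCoprime_iff_coprime.2 h
  obtain ⟨u, v, huv⟩ := h1
  have h2 : (u : R) * (Q : R) + (v : R) * (D : R) = 1 := by
    exact_mod_cast congrArg (Int.cast (R := R)) huv
  refine IsUnit.of_mul_eq_one ((u : R) * s + v) ?_
  rw [hs] at h2
  linear_combination h2

variable [Module.Finite ℤ R]

theorem not_unit {N : Type} [Field N] [CharZero N] (φ : R →+* N) {D : ℕ} (hD : 2 ≤ D) :
    ¬ IsUnit (D : R) := by
  intro h
  obtain ⟨s, hs⟩ := h.exists_right_inv
  have hint : IsIntegral ℤ s := Algebra.IsIntegral.isIntegral s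
  have h1 : φ s = algebraMap ℚ N (1 / D) := by
    have h2 : (D : N) * φ s = 1 := by
      have := congrArg φ hs
      simpa using this
    have hD0 : (D : N) ≠ 0 := by
      intro h0
      rw [h0, zero_mul] at h2
      exact zero_ne_one h2
    have : algebraMap ℚ N (1 / D) = 1 / (D : N) := by simp
    rw [this, eq_div_iff hD0, mul_comm]
    exact h2
  have h3 : IsIntegral ℤ (φ s) := hint.map φ.toIntAlgHom
  rw [h1] at h3
  have h4 : IsIntegral ℤ (1 / D : ℚ) :=
    (isIntegral_algebraMap_iff (algebraMap ℚ N).injective).1 h3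
  obtain ⟨z, hz⟩ := IsIntegrallyClosed.isIntegral_iff.1 h4
  have h5 : (z : ℚ) * D = 1 := by
    have hD0 : (D : ℚ) ≠ 0 := by
      have : (0 : ℚ) < D := by exact_mod_cast (by omega : 0 < D)
      exact this.ne'
    have hz' : (z : ℚ) = 1 / D := hz
    rw [hz']
    field_simp
  have h6 : z * (D : ℤ) = 1 := by exact_mod_cast h5
  have h7 : (D : ℤ) ∣ 1 := ⟨z, by rw [mul_comm]; exact h6.symm⟩
  have h8 := Int.le_of_dvd one_pos h7
  omega

variable [IsDomain R]

theorem int_mul {a : R} (ha : a ≠ 0) : ∃ q : ℕ, 0 < q ∧ a ∣ (q : R) := by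
  have h1 := Ideal.comap_ne_bot_of_integral_mem (R := ℤ) (I := Ideal.span {a}) ha
    (Ideal.mem_span_singleton_self a) (Algebra.IsIntegral.isIntegral a)
  obtain ⟨z, hz, hz0⟩ := Submodule.exists_mem_ne_zero_of_ne_bot h1
  have h2 : a ∣ (z : R) := by
    have := Ideal.mem_comap.1 hz
    rw [Ideal.mem_span_singleton] at this
    simpa using this
  refine ⟨z.natAbs, Int.natAbs_pos.2 hz0, ?_⟩
  rcases Int.natAbs_eq z with h | h
  · have h3 : ((z.natAbs : ℕ) : R) = (z : R) := by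
      conv_rhs => rw [h]
      simp
    rw [h3]
    exact h2
  · have h3 : ((z.natAbs : ℕ) : R) = -(z : R) := by
      conv_rhs => rw [h]
      simp
    rw [h3]
    exact (dvd_neg).2 h2

theorem int_muls {r : ℕ} {a : Fin r → R} (ha : ∀ i, a i ≠ 0) :
    ∃ q : ℕ, 0 < q ∧ ∀ i, a i ∣ (q : R) := by
  choose q hq1 hq2 using fun i => int_mul (ha i)
  refine ⟨∏ i, q i, Finset.prod_pos fun i _ => hq1 i, fun i => (hq2 i).trans ?_⟩
  exact_mod_cast Nat.cast_dvd_cast (Finset.dvd_prod_of_mem q (Finset.mem_univ i))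

end

section main

variable {N B : Type} [Field N] [CharZero N] [CommGroupWithZero B] {Φ : N →*₀ B} {R : Type}
  [CommRing R] [IsDomain R] [CharZero R] [Module.Finite ℤ R] {φ : R →+* N} {D : ℕ}

omit [CharZero N] [IsDomain R] [CharZero R] [Module.Finite ℤ R] in
theorem phi_ne (hφ : Function.Injective φ) {x : R} (hx : x ≠ 0) : Φ (φ x) ≠ 0 := by
  exact (_root_.map_ne_zero Φ).2 ((map_ne_zero_iff φ hφ).2 hx)

/-- step (0) -/
theorem step0 (hφ : Function.Injective φ) (hD : 2 ≤ D) (hL : LC Φ φ D) {Q : ℕ}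
    (hQ : Nat.Coprime Q D) (s : R) (hs : (Q : R) + D * s ≠ 0) :
    Φ (φ ((Q : R) + D * s)) = Φ (φ (Q : R)) := by
  have h1 := Nat.isCoprime_iff_coprime.2 hQ
  obtain ⟨u, v, huv⟩ := h1
  have h2 : (u : R) * (Q : R) + (v : R) * (D : R) = 1 := by
    exact_mod_cast congrArg (Int.cast (R := R)) huv
  have hnu : ¬ IsUnit (D : R) := not_unit φ hD
  have hu : (u : R) ≠ 0 := by
    intro h0
    rw [h0, zero_mul, zero_add] at h2
    exact hnu (IsUnit.of_mul_eq_one (v : R) (by rw [mul_comm]; exact h2))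
  have hQ0 : (Q : R) ≠ 0 := by
    intro h0
    rw [h0, mul_zero, zero_add] at h2
    exact hnu (IsUnit.of_mul_eq_one (v : R) (by rw [mul_comm]; exact h2))
  have e1 : (u : R) * ((Q : R) + D * s) = 1 + D * (u * s - v) := by linear_combination h2
  have e2 : (u : R) * (Q : R) = 1 + D * (-v) := by linear_combination h2
  have k1 : Φ (φ ((u : R) * ((Q : R) + D * s))) = 1 := by
    rw [e1]
    refine hL _ ?_
    rw [← e1]
    exact mul_ne_zero hu hs
  have k2 : Φ (φ ((u : R) * (Q : R))) = 1 := by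
    rw [e2]
    refine hL _ ?_
    rw [← e2]
    exact mul_ne_zero hu hQ0
  rw [map_mul, map_mul] at k1 k2
  have h3 : Φ (φ (u : R)) ≠ 0 := phi_ne hφ hu
  exact mul_left_cancel₀ h3 (k1.trans k2.symm)

variable {r : ℕ} {m : Fin r → R} {M k : ℕ}

/-- step (1) -/
theorem glue (hφ : Function.Injective φ) (hD : 2 ≤ D) (hL : LC Φ φ D)
    (hm : ∀ i j, i ≠ j → IsCoprime (m i) (m j)) (hM : ∏ i, m i = (M : R))
    (hk : D ∣ M ^ k) {a : Fin r → R} (ha : ∀ i, a i ≠ 0) :
    ∃ K₀ : ℕ, ∀ K, K₀ ≤ K → ∀ y y' : R, y ≠ 0 → y' ≠ 0 → (∀ i, m i ^ K ∣ y - a i) →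
      (∀ i, m i ^ K ∣ y' - a i) → Φ (φ y) = Φ (φ y') := by
  obtain ⟨Q, hQ0, hQ⟩ := int_muls ha
  obtain ⟨Q₁, Q₂, t, h1, h2, h3⟩ := split M (Q ^ r) (pow_pos hQ0 r)
  have hQ1 : 0 < Q₁ := Nat.pos_of_ne_zero fun h0 => by
    rw [h0, zero_mul] at h1
    exact (pow_pos hQ0 r).ne' h1
  have hc : Nat.Coprime Q₂ D := Nat.Coprime.coprime_dvd_right hk (Nat.Coprime.pow_right k h3)
  refine ⟨k + t, fun K hK y y' hy hy' hya hya' => ?_⟩
  have hdiv : D * Q₁ ∣ M ^ K := by
    refine dvd_trans ?_ (pow_dvd_pow M hK)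
    rw [pow_add]
    exact mul_dvd_mul hk h2
  obtain ⟨e, he⟩ := hdiv
  have hMK : ((M : R)) ^ K = (D : R) * Q₁ * e := by exact_mod_cast congrArg (Nat.cast (R := R)) he
  have hprod : ∏ i, m i ^ K = (M : R) ^ K := by rw [Finset.prod_pow, hM]
  -- `M ^ K ∣ y' - y`
  have hd : (M : R) ^ K ∣ y' - y := by
    rw [← hprod]
    refine Finset.prod_dvd_of_coprime ?_ fun i _ => ?_
    · intro i _ j _ hij
      exact (hm i j hij).pow
    · have := dvd_sub (hya' i) (hya i)
      have e3 : y' - a i - (y - a i) = y' - y := by ring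
      rwa [e3] at this
  obtain ⟨z, hz⟩ := hd
  -- `Q ^ r = y w + M ^ K v`
  choose b hb using hQ
  choose c hc' using hya
  have h4 : y ∣ (Q : R) ^ r - ∏ i, (m i ^ K * (-(b i * c i))) := by
    rw [← Ideal.mem_span_singleton, ← Ideal.Quotient.eq, map_pow, map_prod]
    have h5 : ∀ i, Ideal.Quotient.mk (Ideal.span {y}) (m i ^ K * (-(b i * c i))) =
        Ideal.Quotient.mk (Ideal.span {y}) (Q : R) := by
      intro i
      rw [Ideal.Quotient.eq, Ideal.mem_span_singleton]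
      refine ⟨-(b i), ?_⟩
      have := hb i
      have h6 := hc' i
      linear_combination (-1 : R) * this + b i * h6
    rw [Finset.prod_congr rfl fun i _ => h5 i, Finset.prod_const, Finset.card_univ,
      Fintype.card_fin]
  obtain ⟨w, hw⟩ := h4
  rw [Finset.prod_mul_distrib, hprod] at hw
  set v : R := ∏ i, (-(b i * c i)) with hv
  have hQr : (Q : R) ^ r = (Q₁ : R) * Q₂ := by exact_mod_cast congrArg (Nat.cast (R := R)) h1
  rw [hQr, hMK] at hw
  rw [hMK] at hz
  have hwy : w * y = Q₁ * ((Q₂ : R) + D * (-(e * v))) := by linear_combination (-1 : R) * hw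
  have hwy' : w * y' = Q₁ * ((Q₂ : R) + D * (e * z * w - e * v)) := by
    linear_combination (-1 : R) * hw + w * hz
  have hQ1' : (Q₁ : R) ≠ 0 := Nat.cast_ne_zero.2 hQ1.ne'
  have hw0 : w ≠ 0 := by
    intro h0
    rw [h0, zero_mul] at hwy
    rcases mul_eq_zero.1 hwy.symm with h7 | h7
    · exact hQ1' h7
    · exact not_unit φ hD (unit_of hc (s := e * v) (by linear_combination h7))
  have n1 : (Q₂ : R) + D * (-(e * v)) ≠ 0 := by
    intro h0
    rw [h0, mul_zero] at hwy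
    exact mul_ne_zero hw0 hy hwy
  have n2 : (Q₂ : R) + D * (e * z * w - e * v) ≠ 0 := by
    intro h0
    rw [h0, mul_zero] at hwy'
    exact mul_ne_zero hw0 hy' hwy'
  have k1 := congrArg (fun x => Φ (φ x)) hwy
  have k2 := congrArg (fun x => Φ (φ x)) hwy'
  simp only [map_mul] at k1 k2
  rw [step0 hφ hD hL hc _ n1] at k1
  rw [step0 hφ hD hL hc _ n2] at k2
  exact mul_left_cancel₀ (phi_ne (Φ := Φ) hφ hw0) (k1.trans k2.symm)

omit [Module.Finite ℤ R] in
/-- Chinese remainder theorem with a nonzero solution -/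
theorem crt (hm : ∀ i j, i ≠ j → IsCoprime (m i) (m j)) (hM : ∏ i, m i = (M : R)) (hM0 : 0 < M)
    (K : ℕ) (a : Fin r → R) : ∃ y : R, y ≠ 0 ∧ ∀ i, m i ^ K ∣ y - a i := by
  obtain ⟨y, hy⟩ := Ideal.exists_forall_sub_mem_ideal (I := fun i => Ideal.span {m i ^ K})
    (fun i j hij => (Ideal.isCoprime_span_singleton_iff _ _).2 (hm i j hij).pow) a
  have hy' : ∀ i, m i ^ K ∣ y - a i := fun i => Ideal.mem_span_singleton.1 (hy i)
  by_cases h0 : y = 0
  · refine ⟨y + (M : R) ^ K, ?_, fun i => ?_⟩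
    · rw [h0, zero_add]
      exact pow_ne_zero _ (Nat.cast_ne_zero.2 hM0.ne')
    · have h1 : m i ^ K ∣ (M : R) ^ K := by
        refine pow_dvd_pow_of_dvd ?_ K
        rw [← hM]
        exact Finset.dvd_prod_of_mem m (Finset.mem_univ i)
      have h2 := dvd_add (hy' i) h1
      have e : y - a i + (M : R) ^ K = y + (M : R) ^ K - a i := by ring
      rwa [e] at h2
  · exact ⟨y, h0, hy'⟩

theorem main (hφ : Function.Injective φ) (hD : 2 ≤ D) (hL : LC Φ φ D)
    (hm : ∀ i j, i ≠ j → IsCoprime (m i) (m j)) (hM : ∏ i, m i = (M : R)) (hM0 : 0 < M)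
    (hk : D ∣ M ^ k) : ∃ c : Fin r → R → B, Cmp Φ φ m c := by
  classical
  have h : ∀ a : Fin r → R, (∀ i, a i ≠ 0) → ∃ (v : B) (K₀ : ℕ), ∀ K, K₀ ≤ K → ∀ y : R, y ≠ 0 →
      (∀ i, m i ^ K ∣ y - a i) → Φ (φ y) = v := by
    intro a ha
    obtain ⟨K₀, hK₀⟩ := glue hφ hD hL hm hM hk ha
    obtain ⟨y₀, hy₀, hy₀'⟩ := crt hm hM hM0 K₀ a
    refine ⟨Φ (φ y₀), K₀, fun K hK y hy hya => ?_⟩
    exact hK₀ K₀ le_rfl y y₀ hy hy₀ (fun i => (pow_dvd_pow _ hK).trans (hya i)) hy₀'
  choose! val K0 hval using h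
  have hval1 : val 1 = 1 := by
    have := hval 1 (fun i => one_ne_zero) (K0 1) le_rfl 1 one_ne_zero (fun i => by simp)
    rw [← this, map_one, map_one]
  have hne : ∀ a : Fin r → R, (∀ i, a i ≠ 0) → val a ≠ 0 := by
    intro a ha
    obtain ⟨y, hy, hy'⟩ := crt hm hM hM0 (K0 a) a
    rw [← hval a ha _ le_rfl y hy hy']
    exact phi_ne hφ hy
  have hmul : ∀ a a' : Fin r → R, (∀ i, a i ≠ 0) → (∀ i, a' i ≠ 0) →
      val (a * a') = val a * val a' := by
    intro a a' ha ha'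
    obtain ⟨K, hK1, hK2, hK3⟩ : ∃ K, K0 a ≤ K ∧ K0 a' ≤ K ∧ K0 (a * a') ≤ K :=
      ⟨max (K0 a) (max (K0 a') (K0 (a * a'))), by omega, by omega, by omega⟩
    obtain ⟨y, hy, hya⟩ := crt hm hM hM0 K a
    obtain ⟨y', hy', hya'⟩ := crt hm hM hM0 K a'
    have h1 := hval a ha K hK1 y hy hya
    have h2 := hval a' ha' K hK2 y' hy' hya'
    have h3 := hval (a * a') (fun i => mul_ne_zero (ha i) (ha' i)) K hK3 (y * y')
      (mul_ne_zero hy hy') (fun i => by
        have e : y * y' - (a * a') i = (y - a i) * y' + a i * (y' - a' i) := by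
          rw [Pi.mul_apply]
          ring
        rw [e]
        exact dvd_add ((hya i).mul_right _) ((hya' i).mul_left _))
    rw [← h3, map_mul, map_mul, h1, h2]
  have hs : ∀ (i : Fin r) (x : R), x ≠ 0 → ∀ j, (Pi.mulSingle i x : Fin r → R) j ≠ 0 := by
    intro i x hx j
    rcases eq_or_ne j i with rfl | hj
    · rw [Pi.mulSingle_eq_same]
      exact hx
    · rw [Pi.mulSingle_eq_of_ne hj]
      exact one_ne_zero
  refine ⟨fun i x => val (Pi.mulSingle i x), ⟨fun i => ?_, fun i a ha => ?_,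
    fun i a a' ha ha' => ?_, fun a ha => ?_⟩⟩
  · show val (Pi.mulSingle i 1) = 1
    rw [Pi.mulSingle_one, hval1]
  · exact hne _ (hs i a ha)
  · show val (Pi.mulSingle i (a * a')) = val (Pi.mulSingle i a) * val (Pi.mulSingle i a')
    rw [Pi.mulSingle_mul, hmul _ _ (hs i a ha) (hs i a' ha')]
  · refine ⟨K0 a, fun K hK y hy hya => ?_⟩
    rw [hval a ha K hK y hy hya]
    have hind : ∀ s : Finset (Fin r),
        val (∏ i ∈ s, Pi.mulSingle i (a i)) = ∏ i ∈ s, val (Pi.mulSingle i (a i)) := by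
      intro s
      induction s using Finset.induction_on with
      | empty => simpa using hval1
      | insert i s hi ih =>
        rw [Finset.prod_insert hi, Finset.prod_insert hi, hmul _ _ (hs i _ (ha i)), ih]
        intro j
        rw [Finset.prod_apply]
        exact Finset.prod_ne_zero_iff.2 fun l _ => hs l _ (ha l) j
    have h1 := hind Finset.univ
    rw [Finset.univ_prod_mulSingle] at h1
    exact h1

end main

end CMP_

/-- CMP -/
theorem p_CMP : T_CMP := by
  intro N B _ _ _ Φ R _ _ φ D hφ hD hL r m M k hm hM hM0 hk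
  have : IsDomain R := hφ.isDomain φ
  have : CharZero R := by
    refine ⟨fun x y hxy => ?_⟩
    have h1 := congrArg φ hxy
    rw [map_natCast, map_natCast] at h1
    exact Nat.cast_injective h1
  exact CMP_.main hφ hD hL hm hM hM0 hk

end NFV
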