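import Pool.Agent.NFV.Targets

/-!
# NFV: proof of T_COR (helper89)
-/

set_option autoImplicit false

open Polynomial FirstOrder

noncomputable section

namespace NFV

namespace COR_

/-- the segment from one to a point of the slit plane avoids zero -/
lemma seg {y : ℂ} (hy : y ∈ Complex.slitPlane) (t : ℝ) (h0 : 0 ≤ t) (h1 : t ≤ 1) :
    1 + (t : ℂ) * (y - 1) ≠ 0 := by
  intro h
  have hre := congrArg Complex.re h
  have him := congrArg Complex.im h
  simp only [Complex.add_re, Complex.one_re, Complex.mul_re, Complex.ofReal_re, Complex.sub_re,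
    Complex.ofReal_im, zero_mul, sub_zero, Complex.zero_re] at hre
  simp only [Complex.add_im, Complex.one_im, Complex.mul_im, Complex.ofReal_re, Complex.sub_im,
    Complex.ofReal_im, zero_mul, sub_zero, Complex.zero_im, zero_add, add_zero] at him
  rw [Complex.mem_slitPlane_iff] at hy
  rcases hy with hy | hy
  · rcases h0.eq_or_lt with h2 | h2
    · rw [← h2] at hre
      norm_num at hre
    · have := mul_pos h2 hy
      nlinarith
  · rcases mul_eq_zero.1 him with h2 | h2
    · rw [h2] at hre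
      norm_num at hre
    · exact hy h2

/-- the first factor -/
lemma fac (D : ℕ) (hD : 0 < D) (α : ℂ) :
    ∀ᶠ j : ℕ in Filter.atTop, 0 < (1 + (D : ℂ) * ((j : ℂ) + α)).re := by
  obtain ⟨J, hJ⟩ := exists_nat_gt (-α.re)
  filter_upwards [Filter.eventually_ge_atTop J] with j hj
  have h1 : (J : ℝ) ≤ j := by exact_mod_cast hj
  have h2 : (0 : ℝ) < D := by exact_mod_cast hD
  simp only [Complex.add_re, Complex.one_re, Complex.mul_re, Complex.natCast_re,
    Complex.natCast_im, zero_mul, sub_zero]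
  have h3 : 0 < (j : ℝ) + α.re := by linarith
  have := mul_pos h2 h3
  linarith

/-- the product, real case -/
lemma prR (D : ℕ) (hD : 0 < D) (α y : ℂ) (h1 : α.im = 0) (h2 : y.im = 0) (h3 : 0 < y.re) :
    ∀ᶠ j : ℕ in Filter.atTop, (1 + (D : ℂ) * ((j : ℂ) + α)) * y ∈ Complex.slitPlane := by
  filter_upwards [fac D hD α] with j hj
  rw [Complex.mem_slitPlane_iff]
  left
  rw [Complex.mul_re, h2, mul_zero, sub_zero]
  exact mul_pos hj h3

/-- the product, nonreal case -/
lemma prC (D : ℕ) (hD : 0 < D) (α y : ℂ) (h1 : α.im ≠ 0) (hy : y ≠ 0) :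
    ∀ᶠ j : ℕ in Filter.atTop, (1 + (D : ℂ) * ((j : ℂ) + α)) * y ∈ Complex.slitPlane := by
  have hD' : (D : ℝ) ≠ 0 := by exact_mod_cast hD.ne'
  have key : ∀ j : ℕ, ((1 + (D : ℂ) * ((j : ℂ) + α)) * y).im =
      (1 + D * ((j : ℝ) + α.re)) * y.im + D * α.im * y.re := by
    intro j
    simp only [Complex.mul_im, Complex.add_re, Complex.one_re, Complex.mul_re, Complex.natCast_re,
      Complex.natCast_im, Complex.add_im, Complex.one_im, zero_mul, sub_zero, zero_add, add_zero]
  have main : ∀ᶠ j : ℕ in Filter.atTop, ((1 + (D : ℂ) * ((j : ℂ) + α)) * y).im ≠ 0 := by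
    by_cases h2 : y.im = 0
    · refine Filter.Eventually.of_forall fun j => ?_
      rw [key, h2, mul_zero, zero_add]
      refine mul_ne_zero (mul_ne_zero hD' h1) fun h3 => hy ?_
      exact Complex.ext h3 h2
    · by_cases h3 : ∃ j₀ : ℕ, ((1 + (D : ℂ) * ((j₀ : ℂ) + α)) * y).im = 0
      · obtain ⟨j₀, hj₀⟩ := h3
        filter_upwards [Filter.eventually_gt_atTop j₀] with j hj h4
        rw [key] at hj₀ h4
        have h5 : (D : ℝ) * ((j : ℝ) - j₀) * y.im = 0 := by linear_combination h4 - hj₀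
        have h6 : (j : ℝ) - j₀ ≠ 0 := by
          have : (j₀ : ℝ) < j := by exact_mod_cast hj
          linarith
        exact (mul_ne_zero (mul_ne_zero hD' h6) h2) h5
      · push Not at h3
        exact Filter.Eventually.of_forall h3
  filter_upwards [main] with j hj
  rw [Complex.mem_slitPlane_iff]
  exact Or.inr hj

/-- a polynomial which vanishes at one complex conjugate vanishes at `θ` -/
lemma irr {N : Type} [Field N] [CharZero N] {θ : N} (hθ : IsIntegral ℤ θ) (α : ℂ)
    (hα : aeval α (minpoly ℤ θ) = 0) (q : ℤ[X]) (hq : aeval α q = 0) : aeval θ q = 0 := by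
  have h1 : minpoly ℚ θ = (minpoly ℤ θ).map (algebraMap ℤ ℚ) :=
    minpoly.isIntegrallyClosed_eq_field_fractions' ℚ hθ
  have hθQ : IsIntegral ℚ θ := hθ.tower_top
  have h2 : aeval α (minpoly ℚ θ) = 0 := by
    rw [h1, aeval_map_algebraMap]
    exact hα
  have h3 : minpoly ℚ θ = minpoly ℚ α :=
    minpoly.eq_of_irreducible_of_monic (minpoly.irreducible hθQ) h2 (minpoly.monic hθQ)
  have h4 : minpoly ℚ α ∣ q.map (algebraMap ℤ ℚ) := by
    refine minpoly.dvd ℚ α ?_
    rw [aeval_map_algebraMap]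
    exact hq
  rw [← h3] at h4
  obtain ⟨r, hr⟩ := h4
  have h5 := congrArg (aeval θ) hr
  rw [aeval_map_algebraMap, map_mul, minpoly.aeval, zero_mul] at h5
  exact h5

end COR_

open COR_ in
theorem p_COR (h_STA : T_STA) (h_CHN : T_CHN) (h_EIG : T_EIG) : T_COR := by
  intro N B _ _ _ _ Φ k hk θ hθ
  set f := minpoly ℤ θ with hf
  have hfm : f.Monic := minpoly.monic hθ
  have hroot : eval₂ (algebraMap ℤ N) θ f = 0 := minpoly.aeval ℤ θ
  let φ : AdjoinRoot f →+* N := AdjoinRoot.lift (algebraMap ℤ N) θ hroot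
  have hφmk : ∀ g : ℤ[X], φ (AdjoinRoot.mk f g) = aeval θ g := fun g => by
    show AdjoinRoot.lift (algebraMap ℤ N) θ hroot (AdjoinRoot.mk f g) = _
    rw [AdjoinRoot.lift_mk]
    rfl
  have hφ : Function.Injective φ := by
    rw [injective_iff_map_eq_zero]
    intro a ha
    obtain ⟨g, rfl⟩ := AdjoinRoot.mk_surjective a
    rw [hφmk] at ha
    rw [AdjoinRoot.mk_eq_zero]
    exact minpoly.isIntegrallyClosed_dvd hθ ha
  obtain ⟨D, δ, hD, hδ, hst⟩ := h_STA N B Φ k hk (AdjoinRoot f) _
    (AdjoinRoot.powerBasis' hfm).basis φ hφ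
  refine ⟨D, hD, fun g hpos hne => ?_⟩
  -- the criterion
  have crit : ∀ g : ℤ[X], (∀ α : ℂ, aeval α f = 0 →
      (1 + (D : ℂ) * aeval α g) ∈ Complex.slitPlane) → Φ (1 + D * aeval θ g) = 1 := by
    intro g hg
    have h1 := h_CHN N B Φ (AdjoinRoot f) _ (AdjoinRoot.powerBasis' hfm).basis φ D δ hφ hD hδ hst
      (AdjoinRoot.mk f g) (by
        intro t ht0 ht1 hdet
        obtain ⟨α, h2, h3⟩ := h_EIG f hfm g (t * D) hdet
        refine seg (hg α h2) t ht0 ht1 ?_
        rw [← h3]
        push_cast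
        ring)
    rw [map_add, map_one, map_mul, map_natCast, hφmk] at h1
    exact h1
  -- nonvanishing at the complex roots
  have hny : ∀ α : ℂ, aeval α f = 0 → 1 + (D : ℂ) * aeval α g ≠ 0 := by
    intro α hα h1
    apply hne
    have h2 := irr hθ α hα (1 + (D : ℤ[X]) * g) (by
      rw [map_add, map_one, map_mul, map_natCast]
      exact h1)
    rw [map_add, map_one, map_mul, map_natCast] at h2
    exact h2
  -- large j
  have hfin : {α : ℂ | aeval α f = 0}.Finite := by
    have h1 : f.map (algebraMap ℤ ℂ) ≠ 0 := (hfm.map _).ne_zero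
    refine (f.map (algebraMap ℤ ℂ)).roots.toFinset.finite_toSet.subset fun α hα => ?_
    rw [Finset.mem_coe, Multiset.mem_toFinset, mem_roots h1, IsRoot.def, eval_map_algebraMap]
    exact hα
  have hev : ∀ᶠ j : ℕ in Filter.atTop, ∀ α ∈ {α : ℂ | aeval α f = 0},
      0 < (1 + (D : ℂ) * ((j : ℂ) + α)).re ∧
      (1 + (D : ℂ) * ((j : ℂ) + α)) * (1 + (D : ℂ) * aeval α g) ∈ Complex.slitPlane := by
    rw [Filter.eventually_all_finite hfin]
    intro α hα
    refine (fac D hD α).and ?_
    by_cases him : α.im = 0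
    · have e1 : α = ((α.re : ℝ) : ℂ) := Complex.ext (by simp) (by simp [him])
      have e2 : ∀ p : ℤ[X], aeval α p = ((aeval α.re p : ℝ) : ℂ) := by
        intro p
        have := aeval_algebraMap_apply ℂ α.re p
        rw [e1]
        simpa using this
      have h1 : aeval α.re f = 0 := by
        have h2 : aeval α f = 0 := hα
        rw [e2] at h2
        exact_mod_cast h2
      have h3 := hpos α.re h1
      refine prR D hD α _ him ?_ ?_
      · rw [e2]
        simp
      · rw [e2]
        simpa using h3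
    · exact prC D hD α _ him (hny α hα)
  obtain ⟨j, hj⟩ := hev.exists
  have hw := crit ((j : ℤ[X]) + X) (fun α hα => by
    rw [map_add, map_natCast, aeval_X, Complex.mem_slitPlane_iff]
    exact Or.inl (hj α hα).1)
  have hwy := crit (((j : ℤ[X]) + X) + g + (D : ℤ[X]) * (((j : ℤ[X]) + X) * g)) (fun α hα => by
    have h1 := (hj α hα).2
    have e3 : (1 : ℂ) + D * aeval α (((j : ℤ[X]) + X) + g + (D : ℤ[X]) * (((j : ℤ[X]) + X) * g)) =
        (1 + (D : ℂ) * ((j : ℂ) + α)) * (1 + (D : ℂ) * aeval α g) := by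
      simp only [map_add, map_mul, map_natCast, aeval_X]
      ring
    rw [e3]
    exact h1)
  have e4 : (1 : N) + D * aeval θ (((j : ℤ[X]) + X) + g + (D : ℤ[X]) * (((j : ℤ[X]) + X) * g)) =
      (1 + D * aeval θ ((j : ℤ[X]) + X)) * (1 + D * aeval θ g) := by
    simp only [map_add, map_mul, map_natCast, aeval_X]
    ring
  rw [e4, map_mul, hw, one_mul] at hwy
  exact hwy

end NFV
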