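import Pool.Agent.NFV.Targets

set_option autoImplicit false

open Finset

namespace NFV

section
open Classical

/-- the set of tuples all of whose coordinates are related to `x` -/
noncomputable def DBC_R {k : ℕ} {A H : Type} [Fintype A] (Rl : Fin k → A → H → Prop) (x : H) :
    Finset (Fin k → A) := Fintype.piFinset fun j => univ.filter fun a => Rl j a x

/-- the same with a stronger relation at `i` -/
noncomputable def DBC_B {k : ℕ} {A H : Type} [Fintype A] (Rl Bd : Fin k → A → H → Prop)
    (i : Fin k) (x : H) : Finset (Fin k → A) :=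
  Fintype.piFinset (Function.update (fun j => univ.filter fun a => Rl j a x) i
    (univ.filter fun a => Bd i a x))

theorem DBC_cardR {k : ℕ} {A H : Type} [Fintype A] (Rl : Fin k → A → H → Prop)
    (lam : Fin k → ℕ) (h : ∀ i x, Nat.card {a // Rl i a x} = lam i) (x : H) :
    (DBC_R Rl x).card = ∏ i, lam i := by
  rw [DBC_R, Fintype.card_piFinset]
  refine Finset.prod_congr rfl fun i _ => ?_
  rw [← h i x, Nat.card_eq_fintype_card, Fintype.card_subtype]

theorem DBC_cardB {k : ℕ} {A H : Type} [Fintype A] (Rl Bd : Fin k → A → H → Prop)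
    (lam : Fin k → ℕ) (h : ∀ i x, Nat.card {a // Rl i a x} = lam i) (i : Fin k) (x : H) :
    (DBC_B Rl Bd i x).card * lam i = (univ.filter fun a => Bd i a x).card * ∏ i, lam i := by
  rw [DBC_B, Fintype.card_piFinset, ← Finset.mul_prod_erase univ _ (mem_univ i),
    ← Finset.mul_prod_erase univ lam (mem_univ i)]
  rw [Function.update_self]
  have : ∏ j ∈ univ.erase i, (Function.update (fun j => univ.filter fun a => Rl j a x) i
      (univ.filter fun a => Bd i a x) j).card = ∏ j ∈ univ.erase i, lam j := by
    refine Finset.prod_congr rfl fun j hj => ?_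
    rw [Function.update_of_ne (Finset.ne_of_mem_erase hj), ← h j x, Nat.card_eq_fintype_card,
      Fintype.card_subtype]
  rw [this]
  ring

theorem p_DBC : T_DBC := by
  intro k A H _ _ Rl Bd lam τ ε' hτ hBR hlam htau hbd
  -- first count
  have hc1 : ∑ x : H, (DBC_R Rl x).card = (Fintype.card A) ^ k * τ := by
    have h1 : ∑ x : H, (DBC_R Rl x).card =
        ∑ a : Fin k → A, (univ.filter fun x : H => ∀ i, Rl i (a i) x).card := by
      simp only [Finset.card_eq_sum_ones, Finset.sum_filter]
      have : ∀ x : H, ∑ _a ∈ DBC_R Rl x, 1 =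
          ∑ a : Fin k → A, if (∀ i, Rl i (a i) x) then 1 else 0 := by
        intro x
        rw [← Finset.sum_filter]
        refine Finset.sum_congr ?_ fun _ _ => rfl
        ext a
        simp [DBC_R]
      rw [Finset.sum_congr rfl fun x _ => this x, Finset.sum_comm]
    rw [h1]
    have h2 : ∀ a : Fin k → A, (univ.filter fun x : H => ∀ i, Rl i (a i) x).card = τ := by
      intro a
      rw [← htau a, Nat.card_eq_fintype_card, Fintype.card_subtype]
    rw [Finset.sum_congr rfl fun a _ => h2 a]
    simp
  have hc2 : ∑ x : H, (DBC_R Rl x).card = Fintype.card H * ∏ i, lam i := by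
    rw [Finset.sum_congr rfl fun x _ => DBC_cardR Rl lam hlam x]
    simp
  have hpos : ∀ i, 0 < lam i ∨ Fintype.card H * ∏ i, lam i = 0 := by
    intro i
    rcases Nat.eq_zero_or_pos (lam i) with h | h
    · right
      rw [Finset.prod_eq_zero (mem_univ i) h, mul_zero]
    · left; exact h
  -- the count of bad pairs
  have hbad : ∀ i, ((∑ x : H, (DBC_B Rl Bd i x).card : ℕ) : ℝ) ≤
      ε' * ((Fintype.card A : ℝ) ^ k * τ) := by
    intro i
    have hHA : (Fintype.card A : ℝ) ^ k * τ = Fintype.card H * ∏ i, (lam i : ℝ) := by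
      have := hc1.symm.trans hc2
      exact_mod_cast this
    have hBsum : (Nat.card {r : A × H // Bd i r.1 r.2} : ℝ) =
        ∑ x : H, ((univ.filter fun a => Bd i a x).card : ℝ) := by
      rw [Nat.card_eq_fintype_card, Fintype.card_subtype]
      simp only [Finset.card_eq_sum_ones, Finset.sum_filter]
      push_cast
      rw [Fintype.sum_prod_type, Finset.sum_comm]
    rcases Nat.eq_zero_or_pos (lam i) with h0 | h0
    · -- then the relation is empty
      have he : ∀ x, DBC_B Rl Bd i x = ∅ := by
        intro x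
        rw [Finset.eq_empty_iff_forall_notMem]
        intro a ha
        have h1 := Fintype.mem_piFinset.1 ha i
        rw [Function.update_self] at h1
        have h2 := hBR i _ _ (Finset.mem_filter.1 h1).2
        have h3 := hlam i x
        rw [h0, Nat.card_eq_fintype_card, Fintype.card_eq_zero_iff] at h3
        exact h3.elim ⟨_, h2⟩
      have hz : (Fintype.card A : ℝ) ^ k * τ = 0 := by
        rw [hHA]
        have : ∏ i, (lam i : ℝ) = 0 := Finset.prod_eq_zero (mem_univ i) (by rw [h0]; simp)
        rw [this, mul_zero]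
      rw [hz]
      simp [he]
    · have h1 : ((∑ x : H, (DBC_B Rl Bd i x).card : ℕ) : ℝ) * lam i =
          (Nat.card {r : A × H // Bd i r.1 r.2} : ℝ) * ∏ i, (lam i : ℝ) := by
        rw [hBsum]
        push_cast
        rw [Finset.sum_mul, Finset.sum_mul]
        refine Finset.sum_congr rfl fun x _ => ?_
        exact_mod_cast DBC_cardB Rl Bd lam hlam i x
      have h0' : (0 : ℝ) < lam i := by exact_mod_cast h0
      have h2 : (Nat.card {r : A × H // Bd i r.1 r.2} : ℝ) * ∏ i, (lam i : ℝ) ≤
          ε' * (Nat.card H * lam i) * ∏ i, (lam i : ℝ) :=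
        mul_le_mul_of_nonneg_right (hbd i) (Finset.prod_nonneg fun _ _ => Nat.cast_nonneg _)
      rw [hHA]
      have h3 : ((∑ x : H, (DBC_B Rl Bd i x).card : ℕ) : ℝ) * lam i ≤
          (ε' * (Fintype.card H * ∏ i, (lam i : ℝ))) * lam i := by
        rw [h1]
        refine h2.trans (le_of_eq ?_)
        rw [Nat.card_eq_fintype_card]
        ring
      exact le_of_mul_le_mul_right h3 h0'
  -- the bad tuples
  set Q : Finset (Fin k → A) :=
    univ.filter fun a => ∀ x, (∀ i, Rl i (a i) x) → ∃ i, Bd i (a i) x with hQ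
  have hQc : Nat.card {a : Fin k → A // ∀ x, (∀ i, Rl i (a i) x) → ∃ i, Bd i (a i) x} =
      Q.card := by
    rw [Nat.card_eq_fintype_card, Fintype.card_subtype]
  have hswap : ∀ i, ∑ x : H, (DBC_B Rl Bd i x).card =
      ∑ a : Fin k → A, (univ.filter fun x : H => a ∈ DBC_B Rl Bd i x).card := by
    intro i
    simp only [Finset.card_eq_sum_ones, Finset.sum_filter]
    have : ∀ x : H, ∑ _a ∈ DBC_B Rl Bd i x, 1 =
        ∑ a : Fin k → A, if a ∈ DBC_B Rl Bd i x then 1 else 0 := by
      intro x
      rw [← Finset.sum_filter]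
      refine Finset.sum_congr ?_ fun _ _ => rfl
      ext a
      simp
    rw [Finset.sum_congr rfl fun x _ => this x, Finset.sum_comm]
  have hmem : ∀ (a : Fin k → A) (x : H) (i : Fin k), (∀ j, Rl j (a j) x) → Bd i (a i) x →
      a ∈ DBC_B Rl Bd i x := by
    intro a x i h1 h2
    rw [DBC_B, Fintype.mem_piFinset]
    intro j
    by_cases hj : j = i
    · subst hj
      rw [Function.update_self]
      simp [h2]
    · rw [Function.update_of_ne hj]
      simp [h1 j]
  have hQτ : Q.card * τ ≤ ∑ i, ∑ x : H, (DBC_B Rl Bd i x).card := by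
    rw [Finset.sum_congr rfl fun i _ => hswap i, Finset.sum_comm]
    calc Q.card * τ = ∑ a ∈ Q, τ := by simp
      _ ≤ ∑ a ∈ Q, ∑ i, (univ.filter fun x : H => a ∈ DBC_B Rl Bd i x).card := by
          refine Finset.sum_le_sum fun a ha => ?_
          have ha' := (Finset.mem_filter.1 ha).2
          have h2 : (univ.filter fun x : H => ∀ i, Rl i (a i) x).card = τ := by
            rw [← htau a, Nat.card_eq_fintype_card, Fintype.card_subtype]
          rw [← h2]
          refine (Finset.card_le_card (t := univ.biUnion fun i =>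
            univ.filter fun x : H => a ∈ DBC_B Rl Bd i x) ?_).trans Finset.card_biUnion_le
          intro x hx
          have hx' := (Finset.mem_filter.1 hx).2
          obtain ⟨i, hi⟩ := ha' x hx'
          exact Finset.mem_biUnion.2 ⟨i, mem_univ i,
            Finset.mem_filter.2 ⟨mem_univ x, hmem a x i hx' hi⟩⟩
      _ ≤ ∑ a : Fin k → A, ∑ i, (univ.filter fun x : H => a ∈ DBC_B Rl Bd i x).card :=
          Finset.sum_le_sum_of_subset (Finset.subset_univ _)
  have hτ' : (0 : ℝ) < τ := by exact_mod_cast hτ
  have hfin : (Q.card : ℝ) * τ ≤ (k * ε' * (Nat.card A : ℝ) ^ k) * τ := by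
    have h1 : (Q.card : ℝ) * τ ≤ ∑ i : Fin k, ((∑ x : H, (DBC_B Rl Bd i x).card : ℕ) : ℝ) := by
      exact_mod_cast hQτ
    refine h1.trans ((Finset.sum_le_sum fun i _ => hbad i).trans (le_of_eq ?_))
    rw [Finset.sum_const, Finset.card_univ, Fintype.card_fin, nsmul_eq_mul,
      Nat.card_eq_fintype_card]
    ring
  rw [hQc]
  exact le_of_mul_le_mul_right hfin hτ'

end

end NFV
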