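import Pool.Agent.NFV.Targets2

/-!
# NFV: components of algebraic elements
-/

set_option autoImplicit false

open Polynomial

noncomputable section

namespace NFV

namespace DEC_

variable {K M : Type} [Field K] [CharZero K] [Field M] [CharZero M] [Algebra K M]

lemma conj_poly {s : M} {d : K} (hs : s ^ 2 = algebraMap K M d) (x y : K) (p : ℚ[X]) :
    ∃ A A' : K, aeval (algebraMap K M x + algebraMap K M y * s) p =
        algebraMap K M A + algebraMap K M A' * s ∧
      aeval (algebraMap K M x - algebraMap K M y * s) p =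
        algebraMap K M A - algebraMap K M A' * s := by
  induction p using Polynomial.induction_on with
  | C a =>
    refine ⟨algebraMap ℚ K a, 0, ?_, ?_⟩ <;>
      simp
  | add p q hp hq =>
    obtain ⟨A, A', h1, h2⟩ := hp
    obtain ⟨B, B', h3, h4⟩ := hq
    refine ⟨A + B, A' + B', ?_, ?_⟩
    · rw [map_add, h1, h3, map_add, map_add]; ring
    · rw [map_add, h2, h4, map_add, map_add]; ring
  | monomial n a h =>
    obtain ⟨A, A', h1, h2⟩ := h
    refine ⟨A * x + A' * y * d, A * y + A' * x, ?_, ?_⟩
    · rw [pow_succ, ← mul_assoc, map_mul, h1, aeval_X]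
      simp only [map_add, map_mul, ← hs]
      ring
    · rw [pow_succ, ← mul_assoc, map_mul, h2, aeval_X]
      simp only [map_add, map_mul, ← hs]
      ring

lemma indep {s : M} (h : s ∉ Set.range (algebraMap K M)) {A A' : K}
    (h0 : algebraMap K M A + algebraMap K M A' * s = 0) : A = 0 ∧ A' = 0 := by
  have hA' : A' = 0 := by
    by_contra hne
    apply h
    refine ⟨-A / A', ?_⟩
    have hne' : algebraMap K M A' ≠ 0 := by
      simpa using hne
    rw [map_div₀, map_neg, div_eq_iff hne']
    linear_combination -h0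
  subst hA'
  refine ⟨?_, rfl⟩
  simpa using h0

end DEC_

theorem p_DEC : T_DEC := by
  intro K M _ _ _ _ _ s d hs hsn hd x y hxy
  obtain ⟨p, hp0, hp⟩ := hxy
  obtain ⟨A, A', h1, h2⟩ := DEC_.conj_poly hs x y p
  rw [h1] at hp
  obtain ⟨rfl, rfl⟩ := DEC_.indep hsn hp
  have hp' : aeval (algebraMap K M x - algebraMap K M y * s) p = 0 := by
    rw [h2]; simp
  have ha : IsAlgebraic ℚ (algebraMap K M x + algebraMap K M y * s) :=
    ⟨p, hp0, by rw [h1]; simp⟩
  have hb : IsAlgebraic ℚ (algebraMap K M x - algebraMap K M y * s) := ⟨p, hp0, hp'⟩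
  have hdM : IsAlgebraic ℚ (algebraMap K M d) := hd.algebraMap
  have hsA : IsAlgebraic ℚ s := by
    apply IsAlgebraic.of_pow (n := 2) (by norm_num)
    rw [hs]; exact hdM
  have hs0 : s ≠ 0 := by
    rintro rfl
    exact hsn ⟨0, by simp⟩
  have two : IsAlgebraic ℚ ((2 : M)⁻¹) := by
    have : ((2 : M)⁻¹) = algebraMap ℚ M (2⁻¹) := by simp
    rw [this]; exact isAlgebraic_algebraMap _
  have hx : IsAlgebraic ℚ (algebraMap K M x) := by
    have : algebraMap K M x = (2 : M)⁻¹ * ((algebraMap K M x + algebraMap K M y * s) +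
      (algebraMap K M x - algebraMap K M y * s)) := by
      field_simp; ring
    rw [this]; exact two.mul (ha.add hb)
  have hys : IsAlgebraic ℚ (algebraMap K M y) := by
    have : algebraMap K M y = (2 : M)⁻¹ * ((algebraMap K M x + algebraMap K M y * s) -
      (algebraMap K M x - algebraMap K M y * s)) * s⁻¹ := by
      field_simp; ring
    rw [this]; exact (two.mul (ha.sub hb)).mul hsA.inv
  exact ⟨(isAlgebraic_algebraMap_iff (FaithfulSMul.algebraMap_injective K M)).1 hx,
    (isAlgebraic_algebraMap_iff (FaithfulSMul.algebraMap_injective K M)).1 hys⟩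

end NFV
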