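import Pool.Agent.NFV.Targets

/-!
# NFV: DIL (dilation and extension of scale)
-/

set_option autoImplicit false

open Polynomial FirstOrder

noncomputable section

namespace NFV

open Classical in
/-- general covering bound: the disagreements on `[0, Y)` are covered by `J` shifted copies -/
theorem DIL_cover {N B : Type} [Field N] (Φ : N → B) (Y J X : ℕ) (u v : N)
    (p q : ℕ → N) (f : ℕ → ℕ → ℕ) (c : ℝ)
    (h : ∀ r, r < Y → Φ (u + r) ≠ Φ (v + r) → ∃ j, j < J ∧ ∃ s, s < X ∧ f j s = r ∧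
      Φ (p j + s) ≠ Φ (q j + s))
    (hc : ∀ j, j < J → (dis Φ X (p j) (q j) : ℝ) ≤ c) :
    (dis Φ Y u v : ℝ) ≤ J * c := by
  classical
  have hsub : ((Finset.range Y).filter fun r : ℕ => Φ (u + r) ≠ Φ (v + r)) ⊆
      (Finset.range J).biUnion (fun j => (((Finset.range X).filter fun r : ℕ =>
        Φ (p j + r) ≠ Φ (q j + r))).image (f j)) := by
    intro r hr
    rw [Finset.mem_filter, Finset.mem_range] at hr
    obtain ⟨j, hj, s, hs, hfs, hne⟩ := h r hr.1 hr.2
    rw [Finset.mem_biUnion]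
    refine ⟨j, Finset.mem_range.2 hj, ?_⟩
    rw [Finset.mem_image]
    exact ⟨s, Finset.mem_filter.2 ⟨Finset.mem_range.2 hs, hne⟩, hfs⟩
  have h1 : dis Φ Y u v ≤ ∑ j ∈ Finset.range J, dis Φ X (p j) (q j) := by
    unfold dis
    refine (Finset.card_le_card hsub).trans (Finset.card_biUnion_le.trans ?_)
    exact Finset.sum_le_sum fun j _ => Finset.card_image_le
  have h2 : (dis Φ Y u v : ℝ) ≤ ∑ j ∈ Finset.range J, (dis Φ X (p j) (q j) : ℝ) := by
    exact_mod_cast h1
  refine h2.trans ?_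
  have h3 : ∑ j ∈ Finset.range J, (dis Φ X (p j) (q j) : ℝ) ≤ ∑ _j ∈ Finset.range J, c :=
    Finset.sum_le_sum fun j hj => hc j (Finset.mem_range.1 hj)
  simpa using h3

/-- symmetry of `dis` -/
theorem DIL_symm {N B : Type} [Field N] (Φ : N → B) (X : ℕ) (u v : N) :
    dis Φ X u v = dis Φ X v u := by
  classical
  unfold dis
  congr 1
  ext r
  simp only [Finset.mem_filter]
  constructor
  · rintro ⟨h1, h2⟩
    exact ⟨h1, fun h => h2 h.symm⟩
  · rintro ⟨h1, h2⟩
    exact ⟨h1, fun h => h2 h.symm⟩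

/-- DIL -/
theorem p_DIL : NFV.T_DIL := by
  intro N B _ _ _ Φ
  refine ⟨?_, ?_, ?_⟩
  · intro X m t c hm hc u
    have hm0 : (m : N) ≠ 0 := by
      exact_mod_cast hm.ne'
    refine DIL_cover (fun z => Φ z) (m * X) m X (u + m * t) u (fun a => (u + a) / m + t)
      (fun a => (u + a) / m) (fun a s => m * s + a) c ?_ (fun j _ => hc _)
    intro r hr hne
    refine ⟨r % m, Nat.mod_lt _ hm, r / m, Nat.div_lt_of_lt_mul hr, Nat.div_add_mod r m, ?_⟩
    intro heq
    apply hne
    have hr' : (r : N) = m * ((r / m : ℕ) : N) + ((r % m : ℕ) : N) := by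
      exact_mod_cast (Nat.div_add_mod r m).symm
    have e1 : u + m * t + (r : N) = m * ((u + ((r % m : ℕ) : N)) / m + t + ((r / m : ℕ) : N)) := by
      rw [hr']
      field_simp
      ring
    have e2 : u + (r : N) = m * ((u + ((r % m : ℕ) : N)) / m + ((r / m : ℕ) : N)) := by
      rw [hr']
      field_simp
      ring
    have heq' : Φ ((u + ((r % m : ℕ) : N)) / m + t + ((r / m : ℕ) : N)) =
        Φ ((u + ((r % m : ℕ) : N)) / m + ((r / m : ℕ) : N)) := heq
    change Φ (u + m * t + (r : N)) = Φ (u + (r : N))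
    rw [e1, e2, map_mul, map_mul, heq']
  · intro X X' t η hX hXX hη hc u
    have hkey : (dis Φ X' (u + t) u : ℝ) ≤ ((X' / X + 1 : ℕ) : ℝ) * (η * X) := by
      refine DIL_cover (fun z => Φ z) X' (X' / X + 1) X (u + t) u (fun j => (u + j * X) + t)
        (fun j => u + j * X) (fun j s => X * j + s) (η * X) ?_ (fun j _ => hc _)
      intro r hr hne
      refine ⟨r / X, ?_, r % X, Nat.mod_lt _ hX, Nat.div_add_mod r X, ?_⟩
      · exact Nat.lt_succ_of_le (Nat.div_le_div_right hr.le)
      · intro heq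
        apply hne
        have hr' : (r : N) = X * ((r / X : ℕ) : N) + ((r % X : ℕ) : N) := by
          exact_mod_cast (Nat.div_add_mod r X).symm
        have e1 : u + t + (r : N) = (u + ((r / X : ℕ) : N) * X) + t + ((r % X : ℕ) : N) := by
          rw [hr']
          ring
        have e2 : u + (r : N) = (u + ((r / X : ℕ) : N) * X) + ((r % X : ℕ) : N) := by
          rw [hr']
          ring
        change Φ (u + t + (r : N)) = Φ (u + (r : N))
        rw [e1, e2]
        exact heq
    have hXr : (0 : ℝ) < X := by exact_mod_cast hX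
    have h1 : ((X' / X + 1 : ℕ) : ℝ) * X ≤ 2 * X' := by
      have h2 : (X' / X + 1) * X ≤ 2 * X' := by
        have h3 : X' / X * X ≤ X' := Nat.div_mul_le_self X' X
        nlinarith
      exact_mod_cast h2
    calc (dis Φ X' (u + t) u : ℝ) ≤ ((X' / X + 1 : ℕ) : ℝ) * (η * X) := hkey
      _ = η * (((X' / X + 1 : ℕ) : ℝ) * X) := by ring
      _ ≤ η * (2 * X') := mul_le_mul_of_nonneg_left h1 hη
      _ = 2 * η * X' := by ring
  · intro X t c hc u
    have h := hc (u - t)
    rw [sub_add_cancel] at h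
    rw [DIL_symm]
    exact h

end NFV
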