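import Pool.Agent.NFV.Targets

/-!
# NFV: a zero determinant gives a common complex root

The target `T_EIG`. The matrix of multiplication by `g` is `g` evaluated at the matrix of
multiplication by the root, and the spectral mapping theorem for polynomials applies.
-/

set_option autoImplicit false

open Polynomial

noncomputable section

namespace NFV

namespace EIG_

/-- The ring homomorphism into the complex matrices. -/
def psi {R : Type} [CommRing R] {n : ℕ} (b : Module.Basis (Fin n) ℤ R) :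
    R →+* Matrix (Fin n) (Fin n) ℂ :=
  ((Int.castRingHom ℂ).mapMatrix).comp (Algebra.leftMulMatrix b).toRingHom

theorem psi_apply {R : Type} [CommRing R] {n : ℕ} (b : Module.Basis (Fin n) ℤ R) (x : R)
    (i j : Fin n) : psi b x i j = ((Algebra.leftMulMatrix b x i j : ℤ) : ℂ) := rfl

theorem det_eq {R : Type} [CommRing R] {n : ℕ} (b : Module.Basis (Fin n) ℤ R) (x : R) (c : ℝ) :
    (1 + (c : ℂ) • psi b x).det = (((1 + c • mulM b x).det : ℝ) : ℂ) := by
  have e : (1 + (c : ℂ) • psi b x) = Complex.ofRealHom.mapMatrix (1 + c • mulM b x) := by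
    ext i j
    simp only [Matrix.add_apply, Matrix.smul_apply, psi_apply, smul_eq_mul,
      RingHom.mapMatrix_apply, Matrix.map_apply, mulM, Complex.ofRealHom_eq_coe,
      Complex.ofReal_add, Complex.ofReal_mul, Complex.ofReal_intCast, Matrix.one_apply]
    split_ifs <;> simp
  rw [e, ← RingHom.map_det]
  rfl

theorem psi_aeval {R : Type} [CommRing R] {n : ℕ} (b : Module.Basis (Fin n) ℤ R) (x : R)
    (p : ℤ[X]) : psi b (aeval x p) = aeval (psi b x) (p.map (algebraMap ℤ ℂ)) := by
  rw [aeval_map_algebraMap]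
  exact (aeval_algHom_apply (psi b).toIntAlgHom x p).symm

theorem psi_mk (f : ℤ[X]) {n : ℕ} (b : Module.Basis (Fin n) ℤ (AdjoinRoot f)) (p : ℤ[X]) :
    psi b (AdjoinRoot.mk f p) = aeval (psi b (AdjoinRoot.root f)) (p.map (algebraMap ℤ ℂ)) := by
  rw [← AdjoinRoot.aeval_eq p]
  exact psi_aeval b (AdjoinRoot.root f) p

theorem main (f : ℤ[X]) {n : ℕ} (b : Module.Basis (Fin n) ℤ (AdjoinRoot f)) (g : ℤ[X]) (c : ℝ)
    (hdet : (1 + c • mulM b (AdjoinRoot.mk f g)).det = 0) :
    ∃ α : ℂ, aeval α f = 0 ∧ 1 + (c : ℂ) * aeval α g = 0 := by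
  rcases Nat.eq_zero_or_pos n with rfl | hpos
  · exfalso
    rw [Matrix.det_isEmpty] at hdet
    exact one_ne_zero hdet
  have : Nonempty (Fin n) := ⟨⟨0, hpos⟩⟩
  have : Nontrivial (Matrix (Fin n) (Fin n) ℂ) := inferInstance
  set A := psi b (AdjoinRoot.root f) with hA
  have hf0 : aeval A (f.map (algebraMap ℤ ℂ)) = 0 := by
    rw [hA, ← psi_mk, AdjoinRoot.mk_self, map_zero]
  have hg : psi b (AdjoinRoot.mk f g) = aeval A (g.map (algebraMap ℤ ℂ)) := by
    rw [hA, ← psi_mk]
  set p : ℂ[X] := 1 + C (c : ℂ) * g.map (algebraMap ℤ ℂ) with hp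
  have hpA : aeval A p = 1 + (c : ℂ) • psi b (AdjoinRoot.mk f g) := by
    rw [hg, hp, map_add, map_one, map_mul, aeval_C, Algebra.smul_def]
  have hdet0 : (aeval A p).det = 0 := by
    rw [hpA, det_eq, hdet]
    simp
  have h0σ : (0 : ℂ) ∈ spectrum ℂ (aeval A p) := by
    rw [spectrum.zero_mem_iff, Matrix.isUnit_iff_isUnit_det, hdet0]
    exact not_isUnit_zero
  rw [spectrum.map_polynomial_aeval_of_nonempty A p
    (spectrum.nonempty_of_isAlgClosed_of_finiteDimensional ℂ A)] at h0σ
  obtain ⟨α, hα, hpα⟩ := h0σ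
  refine ⟨α, ?_, ?_⟩
  · have h1 : eval α (f.map (algebraMap ℤ ℂ)) ∈
        spectrum ℂ (aeval A (f.map (algebraMap ℤ ℂ))) :=
      spectrum.subset_polynomial_aeval A _ ⟨α, hα, rfl⟩
    rw [hf0, spectrum.zero_eq] at h1
    rw [Set.mem_singleton_iff, eval_map_algebraMap] at h1
    exact h1
  · have h2 : eval α p = 0 := hpα
    rw [hp, eval_add, eval_one, eval_mul, eval_C, eval_map_algebraMap] at h2
    exact h2

end EIG_

theorem p_EIG : T_EIG := fun f hf g c hdet =>
  EIG_.main f (AdjoinRoot.powerBasis' hf).basis g c hdet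

end NFV
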