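import Pool.Agent.NFV.Targets

/-!
# NFV: equidistribution of cosets in cubes
-/

set_option autoImplicit false

noncomputable section

namespace NFV

theorem p_EQD : T_EQD := by
  intro n M q L hM hL c
  have hdiff : ∀ x : Fin n → ℤ,
      (x + c) - (fun j => (x j + c j) % ((M * q : ℕ) : ℤ)) ∈ L := by
    intro x
    have h := hL (fun j => (q : ℤ) * ((x j + c j) / ((M * q : ℕ) : ℤ)))
    convert h using 1
    funext j
    simp only [Pi.sub_apply, Pi.add_apply, Pi.smul_apply, smul_eq_mul]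
    have h1 := Int.mul_ediv_add_emod (x j + c j) ((M * q : ℕ) : ℤ)
    have h2 : (M : ℤ) * ((q : ℤ) * ((x j + c j) / ((M * q : ℕ) : ℤ))) =
        ((M * q : ℕ) : ℤ) * ((x j + c j) / ((M * q : ℕ) : ℤ)) := by
      push_cast
      ring
    rw [h2]
    linarith
  have hiff : ∀ x : Fin n → ℤ,
      x + c ∈ L ↔ (fun j => (x j + c j) % ((M * q : ℕ) : ℤ)) ∈ L := by
    intro x
    constructor
    · intro h
      have h1 := L.sub_mem h (hdiff x)
      rwa [sub_sub_cancel] at h1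
    · intro h
      have h1 := L.add_mem (hdiff x) h
      rwa [sub_add_cancel] at h1
  have hbox : ∀ x : Fin n → ℤ, x ∈ box n (M * q) ↔
      ∀ j, 0 ≤ x j ∧ x j < ((M * q : ℕ) : ℤ) := by
    intro x
    simp only [box, Fintype.mem_piFinset, Finset.mem_Ico]
  refine Set.ncard_congr (fun x _ => fun j => (x j + c j) % ((M * q : ℕ) : ℤ)) ?_ ?_ ?_
  · rintro x ⟨hx, hx'⟩
    rw [hbox] at hx
    refine ⟨?_, (hiff x).1 hx'⟩
    rw [hbox]
    intro j
    have h0 : 0 < ((M * q : ℕ) : ℤ) := lt_of_le_of_lt (hx j).1 (hx j).2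
    exact ⟨Int.emod_nonneg _ h0.ne', Int.emod_lt_of_pos _ h0⟩
  · rintro x y ⟨hx, -⟩ ⟨hy, -⟩ hxy
    rw [hbox] at hx hy
    funext j
    have h1 : (x j + c j) % ((M * q : ℕ) : ℤ) = (y j + c j) % ((M * q : ℕ) : ℤ) :=
      congrFun hxy j
    have h2 : x j ≡ y j [ZMOD ((M * q : ℕ) : ℤ)] := Int.ModEq.add_right_cancel' (c j) h1
    have h3 : x j % ((M * q : ℕ) : ℤ) = y j % ((M * q : ℕ) : ℤ) := h2
    rwa [Int.emod_eq_of_lt (hx j).1 (hx j).2, Int.emod_eq_of_lt (hy j).1 (hy j).2] at h3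
  · rintro y ⟨hy, hy'⟩
    rw [hbox] at hy
    have h1 : (fun j => ((fun i => (y i - c i) % ((M * q : ℕ) : ℤ)) j + c j) %
        ((M * q : ℕ) : ℤ)) = y := by
      funext j
      simp only [Int.emod_add_emod, sub_add_cancel]
      exact Int.emod_eq_of_lt (hy j).1 (hy j).2
    refine ⟨fun i => (y i - c i) % ((M * q : ℕ) : ℤ), ⟨?_, ?_⟩, h1⟩
    · rw [hbox]
      intro j
      have h0 : 0 < ((M * q : ℕ) : ℤ) := lt_of_le_of_lt (hy j).1 (hy j).2
      exact ⟨Int.emod_nonneg _ h0.ne', Int.emod_lt_of_pos _ h0⟩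
    · rw [hiff, h1]
      exact hy'

end NFV
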