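import Pool.Agent.NFV.Targets3

/-!
# NFV: proof of T_EXT (helper89)
-/

set_option autoImplicit false

open Polynomial FirstOrder

noncomputable section

namespace NFV

namespace EXT_

/-- minimal polynomials do not change when the small field is relatively algebraically closed -/
lemma key (F K Ω : Type) [Field F] [Field K] [Field Ω] [Algebra F K] [Algebra K Ω] [Algebra F Ω]
    [IsScalarTower F K Ω] (hcl : ∀ x : K, IsIntegral F x → ∃ a, algebraMap F K a = x) (γ : Ω)
    (hγ : IsIntegral F γ) : (minpoly F γ).map (algebraMap F K) = minpoly K γ := by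
  have hγK : IsIntegral K γ := hγ.tower_top
  have hd : minpoly K γ ∣ (minpoly F γ).map (algebraMap F K) :=
    minpoly.dvd_map_of_isScalarTower F K γ
  have h1 := integralClosure.mem_lifts_of_monic_of_dvd_map K (minpoly.monic hγ)
    (minpoly.monic hγK) hd
  have h2 : minpoly K γ ∈ lifts (algebraMap F K) := by
    rw [lifts_iff_coeff_lifts] at h1 ⊢
    intro n
    obtain ⟨c, hc⟩ := h1 n
    obtain ⟨a, ha⟩ := hcl _ c.2
    exact ⟨a, by rw [ha, ← hc]; rfl⟩
  obtain ⟨g, hg, _, hgm⟩ := lifts_and_natDegree_eq_and_monic h2 (minpoly.monic hγK)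
  have h3 : aeval γ g = 0 := by
    have : aeval γ (g.map (algebraMap F K)) = 0 := by
      rw [hg]
      exact minpoly.aeval K γ
    rwa [aeval_map_algebraMap] at this
  have h4 : (minpoly F γ).map (algebraMap F K) ∣ minpoly K γ := by
    rw [← hg]
    exact Polynomial.map_dvd _ (minpoly.dvd F γ h3)
  exact eq_of_monic_of_associated ((minpoly.monic hγ).map _) (minpoly.monic hγK)
    (associated_of_dvd_dvd h4 hd)

/-- the finite extension of the large field -/
lemma core (F K : Type) [Field F] [Field K] [CharZero F] [Algebra F K]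
    (hcl : ∀ x : K, IsIntegral F x → ∃ a, algebraMap F K a = x)
    (N : Type) [Field N] [Algebra F N] [FiniteDimensional F N] :
    ∃ (M : Type) (_ : Field M) (_ : Algebra K M), FiniteDimensional K M ∧ ∃ φ : N →+* M,
      (∀ a : F, φ (algebraMap F N a) = algebraMap K M (algebraMap F K a)) ∧
      ∀ w : M, (∃ p : F[X], p.Monic ∧
        eval₂ ((algebraMap K M).comp (algebraMap F K)) w p = 0) → ∃ x, φ x = w := by
  let Ω := AlgebraicClosure K
  have : IsScalarTower F K Ω := inferInstance
  obtain ⟨α, hα⟩ := Field.exists_primitive_element F N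
  have : Algebra.IsAlgebraic F N := Algebra.IsAlgebraic.of_finite F N
  let ψ : N →ₐ[F] Ω := IsAlgClosed.lift
  set β : Ω := ψ α with hβ
  have hβF : IsIntegral F β := (Algebra.IsIntegral.isIntegral α).map ψ
  have hβK : IsIntegral K β := hβF.tower_top
  -- the range of ψ
  have hrange : ψ.fieldRange = IntermediateField.adjoin F {β} := by
    have h1 : (⊤ : IntermediateField F N).map ψ = ψ.fieldRange :=
      (AlgHom.fieldRange_eq_map ψ).symm
    rw [← h1, ← hα, IntermediateField.adjoin_map, Set.image_singleton]
  let M := IntermediateField.adjoin K {β}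
  have hfin : FiniteDimensional K M := IntermediateField.adjoin.finiteDimensional hβK
  have hFM : (IntermediateField.adjoin F {β} : Set Ω) ⊆ (M : Set Ω) := by
    have h1 : IntermediateField.adjoin F {β} ≤ M.restrictScalars F := by
      rw [IntermediateField.adjoin_le_iff]
      intro x hx
      exact IntermediateField.subset_adjoin K {β} hx
    exact h1
  have hmem : ∀ x : N, ψ x ∈ M := fun x => by
    apply hFM
    rw [SetLike.mem_coe, ← hrange]
    exact ⟨x, rfl⟩
  refine ⟨M, inferInstance, inferInstance, hfin,
    { toFun := fun x => ⟨ψ x, hmem x⟩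
      map_one' := Subtype.ext (map_one ψ)
      map_mul' := fun x y => Subtype.ext (map_mul ψ x y)
      map_zero' := Subtype.ext (map_zero ψ)
      map_add' := fun x y => Subtype.ext (map_add ψ x y) }, ?_, ?_⟩
  · intro a
    exact Subtype.ext (ψ.commutes a)
  · rintro w ⟨p, hpm, hp⟩
    have hwF : IsIntegral F (w : Ω) := by
      refine ⟨p, hpm, ?_⟩
      have h1 := congrArg (algebraMap M Ω) hp
      rw [hom_eval₂, map_zero] at h1
      exact h1
    let L := IntermediateField.adjoin F {β, (w : Ω)}
    have hLfin : FiniteDimensional F L := by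
      exact IntermediateField.finiteDimensional_adjoin_pair hβF hwF
    obtain ⟨θ, hθ⟩ := Field.exists_primitive_element F L
    have hθF : IsIntegral F (θ : Ω) :=
      (Algebra.IsIntegral.isIntegral (R := F) θ).map L.val
    have hLM : (L : Set Ω) ⊆ (M : Set Ω) := by
      have h1 : L ≤ M.restrictScalars F := by
        rw [IntermediateField.adjoin_le_iff]
        rintro x (rfl | hx)
        · exact IntermediateField.mem_adjoin_simple_self K β
        · rw [Set.mem_singleton_iff.1 hx]
          exact w.2
      exact h1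
    have hθM : (θ : Ω) ∈ M := hLM θ.2
    -- degrees
    have d1 : Module.finrank F L = (minpoly F (θ : Ω)).natDegree := by
      have h1 : minpoly F (θ : Ω) = minpoly F θ := minpoly.algebraMap_eq (B' := Ω)
        (algebraMap L Ω).injective θ
      rw [h1]
      exact (Field.primitive_element_iff_minpoly_natDegree_eq F θ).1 hθ |>.symm
    have d2 : (minpoly F (θ : Ω)).natDegree = (minpoly K (θ : Ω)).natDegree := by
      rw [← key F K Ω hcl _ hθF, natDegree_map]
    have d3 : (minpoly K (θ : Ω)).natDegree ≤ Module.finrank K M := by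
      have h1 : minpoly K (θ : Ω) = minpoly K (⟨θ, hθM⟩ : M) :=
        minpoly.algebraMap_eq (B' := Ω) (algebraMap M Ω).injective (⟨θ, hθM⟩ : M)
      rw [h1]
      exact minpoly.natDegree_le _
    have d4 : Module.finrank K M = (minpoly K β).natDegree :=
      IntermediateField.adjoin.finrank hβK
    have d5 : (minpoly K β).natDegree = (minpoly F β).natDegree := by
      rw [← key F K Ω hcl _ hβF, natDegree_map]
    have d6 : (minpoly F β).natDegree = Module.finrank F (IntermediateField.adjoin F {β}) :=
      (IntermediateField.adjoin.finrank hβF).symm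
    have hle : IntermediateField.adjoin F {β} ≤ L := by
      rw [IntermediateField.adjoin_le_iff]
      intro x hx
      rw [Set.mem_singleton_iff.1 hx]
      exact IntermediateField.subset_adjoin F _ (Or.inl rfl)
    have heq : IntermediateField.adjoin F {β} = L :=
      IntermediateField.eq_of_le_of_finrank_le hle (by omega)
    have hwL : (w : Ω) ∈ IntermediateField.adjoin F {β} := by
      rw [heq]
      exact IntermediateField.subset_adjoin F _ (Or.inr rfl)
    rw [← hrange] at hwL
    obtain ⟨x, hx⟩ := hwL
    exact ⟨x, Subtype.ext hx⟩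

/-- integrality over the rational numbers and ring homomorphisms -/
lemma int_map {A B : Type} [Field A] [Field B] [Algebra ℚ A] [Algebra ℚ B] (f : A →+* B) {x : A} :
    IsIntegral ℚ (f x) ↔ IsIntegral ℚ x := by
  have e : f.comp (algebraMap ℚ A) = algebraMap ℚ B := Subsingleton.elim _ _
  constructor
  · rintro ⟨p, hp, h⟩
    refine ⟨p, hp, f.injective ?_⟩
    rw [hom_eval₂, e, map_zero]
    exact h
  · rintro ⟨p, hp, h⟩
    refine ⟨p, hp, ?_⟩
    rw [← e, ← hom_eval₂, h, map_zero]

end EXT_

open EXT_ in
theorem p_EXT : T_EXT := by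
  intro K _ _ ι F₀ N hF₀ hFG hN
  obtain ⟨s, hs⟩ := hFG
  have hcl : ∀ x : K, IsIntegral (algebraicClosure ℚ K) x →
      ∃ a, algebraMap (algebraicClosure ℚ K) K a = x := by
    intro x hx
    have h1 : x ∈ algebraicClosure (algebraicClosure ℚ K) K := hx
    rw [algebraicClosure.algebraicClosure_eq_bot] at h1
    exact IntermediateField.mem_bot.1 h1
  letI : Algebra (algebraicClosure ℚ K) ℂ := ι.toAlgebra
  have hsN : ∀ x ∈ s, x ∈ N := by
    intro x hx
    rw [hs]
    exact (le_sup_right : _ ≤ F₀ ⊔ _) (IntermediateField.subset_adjoin ℚ _ hx)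
  have hFN : ∀ a : algebraicClosure ℚ K, ι a ∈ N := by
    intro a
    rw [hs]
    exact (le_sup_left : F₀ ≤ _) ((hF₀ _).2 ⟨a, rfl⟩)
  have hint : ∀ x ∈ s, IsIntegral (algebraicClosure ℚ K) x := by
    intro x hx
    obtain ⟨p, hp, h⟩ := (hN x (hsN x hx)).isIntegral
    refine ⟨p.map (algebraMap ℚ (algebraicClosure ℚ K)), hp.map _, ?_⟩
    rw [eval₂_map]
    have e : (algebraMap (algebraicClosure ℚ K) ℂ).comp (algebraMap ℚ (algebraicClosure ℚ K)) =
        algebraMap ℚ ℂ := Subsingleton.elim _ _
    rw [e]
    exact h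
  let N₁ := IntermediateField.adjoin (algebraicClosure ℚ K) (s : Set ℂ)
  have hfd : FiniteDimensional (algebraicClosure ℚ K) N₁ :=
    IntermediateField.finiteDimensional_adjoin fun x hx => hint x hx
  have hcar : ∀ x : ℂ, x ∈ N ↔ x ∈ N₁ := by
    intro x
    constructor
    · have h1 : N ≤ { N₁.toSubfield with
          algebraMap_mem' := fun q => by
            have e : algebraMap ℚ ℂ = (algebraMap (algebraicClosure ℚ K) ℂ).comp
              (algebraMap ℚ (algebraicClosure ℚ K)) := Subsingleton.elim _ _
            rw [e]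
            exact N₁.algebraMap_mem _ } := by
        rw [hs]
        refine sup_le ?_ ?_
        · intro y hy
          obtain ⟨a, rfl⟩ := (hF₀ y).1 hy
          exact N₁.algebraMap_mem a
        · rw [IntermediateField.adjoin_le_iff]
          intro y hy
          exact IntermediateField.subset_adjoin (algebraicClosure ℚ K) _ hy
      exact fun h => h1 h
    · have h1 : N₁ ≤ N.toSubfield.toIntermediateField (fun a => hFN a) := by
        rw [IntermediateField.adjoin_le_iff]
        intro y hy
        exact hsN y hy
      exact fun h => h1 h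
  obtain ⟨M, iM, iA, hfM, φ, hφ1, hφ2⟩ := core (algebraicClosure ℚ K) K hcl N₁
  have hchar : CharZero M := charZero_of_injective_algebraMap (algebraMap K M).injective
  refine ⟨M, iM, hchar, iA, hfM, ?_⟩
  let e1 : N ≃+* N₁ :=
    { toFun := fun x => ⟨x, (hcar _).1 x.2⟩
      invFun := fun x => ⟨x, (hcar _).2 x.2⟩
      left_inv := fun _ => rfl
      right_inv := fun _ => rfl
      map_mul' := fun _ _ => rfl
      map_add' := fun _ _ => rfl }
  let f : N →+* M := φ.comp e1.toRingHom
  have hf : ∀ x, f x ∈ (algebraicClosure ℚ M).toSubfield := by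
    intro x
    have h1 : IsIntegral ℚ ((N.val : N →+* ℂ) x) := (hN _ x.2).isIntegral
    have h2 : IsIntegral ℚ x := (int_map _).1 h1
    exact (int_map f).2 h2
  let g : N →+* algebraicClosure ℚ M := f.codRestrict (algebraicClosure ℚ M).toSubfield hf
  refine ⟨RingEquiv.ofBijective g ⟨g.injective, fun w => ?_⟩⟩
  obtain ⟨p, hp, h⟩ := w.2
  obtain ⟨x, hx⟩ := hφ2 w ⟨p.map (algebraMap ℚ (algebraicClosure ℚ K)), hp.map _, by
    rw [eval₂_map]
    have e : ((algebraMap K M).comp (algebraMap (algebraicClosure ℚ K) K)).comp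
        (algebraMap ℚ (algebraicClosure ℚ K)) = algebraMap ℚ M := Subsingleton.elim _ _
    rw [e]
    exact h⟩
  refine ⟨e1.symm x, Subtype.ext ?_⟩
  show φ (e1 (e1.symm x)) = w
  rw [e1.apply_symm_apply, hx]

end NFV
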