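import Pool.Agent.NFV.Targets2

/-!
# NFV: proof of FN2 (finitely many square classes in quadratic extensions)
-/

set_option autoImplicit false
set_option linter.unusedSectionVars false

noncomputable section

namespace NFV

section FN2

variable {F N : Type} [Field F] [CharZero F] [Field N] [Algebra F N] (s : N) (d : F)

/-- `z = x + y s` has norm `e = x ^ 2 - d y ^ 2` -/
def FN2_nm (z : N) (e : F) : Prop :=
  ∃ x y : F, z = algebraMap F N x + algebraMap F N y * s ∧ e = x ^ 2 - d * y ^ 2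

variable {s d}

lemma FN2_mul (hs : s ^ 2 = algebraMap F N d) {z z' : N} {e e' : F} (h : FN2_nm s d z e)
    (h' : FN2_nm s d z' e') : FN2_nm s d (z * z') (e * e') := by
  obtain ⟨x, y, rfl, rfl⟩ := h
  obtain ⟨x', y', rfl, rfl⟩ := h'
  refine ⟨x * x' + d * y * y', x * y' + x' * y, ?_, by ring⟩
  simp only [map_add, map_mul, ← hs]
  ring

lemma FN2_ne (hs : s ^ 2 = algebraMap F N d) (hr : s ∉ Set.range (algebraMap F N))
    {z : N} {e : F} (h : FN2_nm s d z e) (hz : z ≠ 0) : e ≠ 0 := by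
  obtain ⟨x, y, rfl, rfl⟩ := h
  intro h0
  by_cases hy : y = 0
  · subst hy
    have hx : x = 0 := by
      have : x ^ 2 = 0 := by simpa using h0
      simpa using this
    subst hx
    simp at hz
  · have hd : d = (x / y) ^ 2 := by
      field_simp
      linear_combination -h0
    have h1 : s ^ 2 = (algebraMap F N (x / y)) ^ 2 := by rw [hs, hd, map_pow]
    rcases sq_eq_sq_iff_eq_or_eq_neg.mp h1 with h2 | h2
    · exact hr ⟨x / y, h2.symm⟩
    · exact hr ⟨-(x / y), by rw [map_neg, h2]⟩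

lemma FN2_inv (hs : s ^ 2 = algebraMap F N d) (hr : s ∉ Set.range (algebraMap F N))
    {z : N} {e : F} (h : FN2_nm s d z e) (hz : z ≠ 0) : FN2_nm s d z⁻¹ e⁻¹ := by
  have he := FN2_ne hs hr h hz
  obtain ⟨x, y, hzz, rfl⟩ := h
  refine ⟨x * (x ^ 2 - d * y ^ 2)⁻¹, -y * (x ^ 2 - d * y ^ 2)⁻¹, ?_, ?_⟩
  · have he' : (algebraMap F N (x ^ 2 - d * y ^ 2)) ≠ 0 := by
      rwa [Ne, map_eq_zero_iff _ (algebraMap F N).injective]
    have key : z * (algebraMap F N x - algebraMap F N y * s) =
        algebraMap F N (x ^ 2 - d * y ^ 2) := by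
      rw [hzz]
      simp only [map_sub, map_mul, map_pow, ← hs]
      ring
    have : z⁻¹ = (algebraMap F N x - algebraMap F N y * s) *
        (algebraMap F N (x ^ 2 - d * y ^ 2))⁻¹ := by
      rw [← key, mul_inv]
      have h2 : algebraMap F N x - algebraMap F N y * s ≠ 0 := by
        intro h0
        rw [h0, mul_zero] at key
        exact he' key.symm
      field_simp
    rw [this]
    simp only [map_mul, map_inv₀, map_neg]
    ring
  · field_simp

lemma FN2_one (hs : s ^ 2 = algebraMap F N d) {v : N} (h : FN2_nm s d v 1) :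
    ∃ c : F, c ≠ 0 ∧ ∃ u : N, u ≠ 0 ∧ v = algebraMap F N c * u ^ 2 := by
  obtain ⟨x, y, hv, h1⟩ := h
  by_cases hv1 : 1 + v = 0
  · refine ⟨-1, by simp, 1, one_ne_zero, ?_⟩
    simp only [map_neg, map_one]
    linear_combination hv1
  · have key : (1 + v) ^ 2 = v * algebraMap F N (2 * x + 2) := by
      have h2 : (1 : N) = algebraMap F N x ^ 2 - s ^ 2 * algebraMap F N y ^ 2 := by
        have := congrArg (algebraMap F N) h1
        simpa [hs] using this
      have h3 : (1 + v) ^ 2 - v * algebraMap F N (2 * x + 2) =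
          1 - (algebraMap F N x ^ 2 - s ^ 2 * algebraMap F N y ^ 2) := by
        rw [hv]
        simp only [map_add, map_mul, map_ofNat]
        ring
      rw [← h2, sub_self] at h3
      exact sub_eq_zero.mp h3
    have hne : algebraMap F N (2 * x + 2) ≠ 0 := by
      intro h0
      rw [h0, mul_zero] at key
      exact hv1 (by simpa using key)
    have hne' : (2 * x + 2) ≠ 0 := by
      intro h0
      rw [h0, map_zero] at hne
      exact hne rfl
    refine ⟨(2 * x + 2)⁻¹, inv_ne_zero hne', 1 + v, hv1, ?_⟩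
    rw [key, map_inv₀, mul_comm v, inv_mul_cancel_left₀ hne]

lemma FN2_coe (c : F) : FN2_nm s d (algebraMap F N c) (c ^ 2) := ⟨c, 0, by simp, by simp⟩

end FN2

theorem p_FN2 : T_FN2 := by
  classical
  intro F N _ _ _ _ s d hs hr hrep hF
  obtain ⟨C, hC⟩ := hF
  let P : F → N → Prop := fun c z => z ≠ 0 ∧ ∃ e : F, e ≠ 0 ∧ FN2_nm s d z (c * e ^ 2)
  let zc : F → N := fun c => if h : ∃ z, P c z then h.choose else 1
  refine ⟨(C ×ˢ C).image fun p => zc p.1 * algebraMap F N p.2, ?_⟩
  intro z hz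
  obtain ⟨x, y, hxy⟩ := hrep z
  have hn : FN2_nm s d z (x ^ 2 - d * y ^ 2) := ⟨x, y, hxy, rfl⟩
  have hne := FN2_ne hs hr hn hz
  obtain ⟨c, hc, e, he, hce⟩ := hC _ hne
  have hP : ∃ z, P c z := ⟨z, hz, e, he, hce ▸ hn⟩
  have hzc : P c (zc c) := by
    simp only [zc, dif_pos hP]
    exact hP.choose_spec
  obtain ⟨hz1, e1, he1, hn1⟩ := hzc
  have hc0 : c ≠ 0 := by
    rintro rfl
    rw [zero_mul] at hce
    exact hne hce
  have hw := FN2_mul hs (hce ▸ hn) (FN2_inv hs hr hn1 hz1)
  have hw2 := FN2_mul hs hw (FN2_coe (s := s) (d := d) (e⁻¹ * e1))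
  have h1 : c * e ^ 2 * (c * e1 ^ 2)⁻¹ * (e⁻¹ * e1) ^ 2 = 1 := by field_simp
  rw [h1] at hw2
  obtain ⟨c2, hc2, u, hu, hvu⟩ := FN2_one hs hw2
  have hcc : c2 * (e * e1⁻¹) ≠ 0 :=
    mul_ne_zero hc2 (mul_ne_zero he (inv_ne_zero he1))
  obtain ⟨c3, hc3, y3, hy3, h3⟩ := hC _ hcc
  refine ⟨zc c * algebraMap F N c3, Finset.mem_image.mpr ⟨(c, c3), ?_, rfl⟩,
    algebraMap F N y3 * u, ?_, ?_⟩
  · exact Finset.mk_mem_product hc hc3
  · exact mul_ne_zero (by rwa [Ne, map_eq_zero_iff _ (algebraMap F N).injective]) hu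
  · have he' : algebraMap F N e ≠ 0 := by
      rwa [Ne, map_eq_zero_iff _ (algebraMap F N).injective]
    have he1' : algebraMap F N e1 ≠ 0 := by
      rwa [Ne, map_eq_zero_iff _ (algebraMap F N).injective]
    have h4 : algebraMap F N c2 * (algebraMap F N e * (algebraMap F N e1)⁻¹) =
        algebraMap F N c3 * algebraMap F N y3 ^ 2 := by
      have := congrArg (algebraMap F N) h3
      simpa using this
    simp only [map_mul, map_inv₀] at hvu
    have h5 : z = zc c * (algebraMap F N c2 * (algebraMap F N e * (algebraMap F N e1)⁻¹)) *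
        u ^ 2 := by
      have h6 : z = zc c * (z * (zc c)⁻¹ * ((algebraMap F N e)⁻¹ * algebraMap F N e1)) *
          (algebraMap F N e * (algebraMap F N e1)⁻¹) := by
        field_simp
      rw [hvu] at h6
      calc z = _ := h6
        _ = _ := by ring
    rw [h4] at h5
    calc z = _ := h5
      _ = _ := by ring

end NFV
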