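import Pool.Agent.NFV.Targets2

/-!
# NFV: FRC (clearing denominators, real embeddings)
-/

set_option autoImplicit false

open Polynomial FirstOrder

noncomputable section

namespace NFV

namespace FRC_

lemma part1 {N : Type} [Field N] [CharZero N] {θ : N} (hθ : IsIntegral ℤ θ) (y : N)
    (hy : y ∈ IntermediateField.adjoin ℚ {θ}) :
    ∃ (m : ℕ) (P : ℤ[X]), 0 < m ∧ m * y = aeval θ P := by
  have hq : IsIntegral ℚ θ := hθ.tower_top
  have h1 : y ∈ (IntermediateField.adjoin ℚ {θ}).toSubalgebra := hy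
  rw [IntermediateField.adjoin_simple_toSubalgebra_of_isAlgebraic hq.isAlgebraic,
    Algebra.adjoin_singleton_eq_range_aeval] at h1
  obtain ⟨p, hp⟩ := h1
  obtain ⟨b, hb⟩ := IsLocalization.integerNormalization_map_to_map (nonZeroDivisors ℤ) p
  set P := IsLocalization.integerNormalization (nonZeroDivisors ℤ) p with hP
  have hb0 : (b : ℤ) ≠ 0 := nonZeroDivisors.ne_zero b.2
  have h2 : aeval θ P = ((b : ℤ) : N) * y := by
    have h3 : aeval θ P = aeval θ (P.map (algebraMap ℤ ℚ)) := by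
      rw [aeval_map_algebraMap]
    rw [h3, hb, map_zsmul, zsmul_eq_mul]
    congr 1
  rcases lt_or_gt_of_ne hb0 with h | h
  · refine ⟨(b : ℤ).natAbs, -P, Int.natAbs_pos.2 hb0, ?_⟩
    rw [map_neg, h2]
    have h4 : (((b : ℤ).natAbs : ℕ) : N) = -((b : ℤ) : N) := by
      rw [← Int.cast_natCast, Int.natCast_natAbs, abs_of_neg h, Int.cast_neg]
    rw [h4, neg_mul]
  · refine ⟨(b : ℤ).natAbs, P, Int.natAbs_pos.2 hb0, ?_⟩
    rw [h2]
    have h4 : (((b : ℤ).natAbs : ℕ) : N) = ((b : ℤ) : N) := by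
      rw [← Int.cast_natCast, Int.natCast_natAbs, abs_of_pos h]
    rw [h4]

end FRC_

open FRC_ in
theorem p_FRC : T_FRC := by
  intro N _ _ θ hθ
  refine ⟨fun y hy => part1 hθ y hy, ?_⟩
  intro α hα
  have hq : IsIntegral ℚ θ := hθ.tower_top
  have h1 : minpoly ℚ θ = (minpoly ℤ θ).map (algebraMap ℤ ℚ) :=
    minpoly.isIntegrallyClosed_eq_field_fractions' ℚ hθ
  have h2 : α ∈ (minpoly ℚ θ).aroots ℝ := by
    rw [mem_aroots]
    refine ⟨minpoly.ne_zero hq, ?_⟩
    rw [h1, aeval_map_algebraMap]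
    exact hα
  refine ⟨((IntermediateField.algHomAdjoinIntegralEquiv ℚ hq).symm ⟨α, h2⟩ : _ →ₐ[ℚ] ℝ), ?_⟩
  exact IntermediateField.algHomAdjoinIntegralEquiv_symm_apply_gen ℚ hq ⟨α, h2⟩

end NFV
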