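import Pool.Agent.NFV.Targets3

set_option autoImplicit false

open Polynomial FirstOrder

/-!
# NFV: GA2 (Sylow 2-subgroups)
-/

noncomputable section

namespace NFV

namespace GA2_

theorem quad {A N : Type} [Group A] [Finite A] [Field N] [CharZero N] [MulSemiringAction A N]
    [FaithfulSMul A N] (m : ℕ) (hcard : Nat.card A = 2 ^ (m + 1))
    (hsq : ∀ x : N, (∀ a : A, a • x = x) → ∃ s : N, (∀ a : A, a • s = s) ∧ s ^ 2 = x) :
    False := by
  classical
  have : Fact (Nat.Prime 2) := ⟨Nat.prime_two⟩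
  obtain ⟨K, hK⟩ := Sylow.exists_subgroup_card_pow_prime (G := A) 2 (n := m)
    (by rw [hcard]; exact pow_dvd_pow 2 (Nat.le_succ m))
  have hidx : K.index = 2 := by
    have h1 := K.card_mul_index
    rw [hK, hcard, pow_succ] at h1
    exact Nat.eq_of_mul_eq_mul_left (by positivity) h1
  have hnorm : K.Normal := Subgroup.normal_of_index_eq_two hidx
  have hex : ∃ x : N, (∀ k ∈ K, k • x = x) ∧ ∃ a : A, a • x ≠ x := by
    by_contra hcon
    push Not at hcon
    have hAf : Fintype A := Fintype.ofFinite A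
    have hKf : Fintype K := Fintype.ofFinite K
    have h1 := FixedPoints.finrank_eq_card A N
    have h2 := FixedPoints.finrank_eq_card K N
    have h3 : FixedPoints.subfield K N = FixedPoints.subfield A N := by
      ext x
      constructor
      · intro hx a
        exact hcon x (fun k hk => hx ⟨k, hk⟩) a
      · intro hx k
        exact hx k
    rw [h3, h1, ← Nat.card_eq_fintype_card, ← Nat.card_eq_fintype_card, hK, hcard] at h2
    have h4 : 2 ^ (m + 1) = 2 ^ m * 2 := pow_succ 2 m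
    have h5 : 0 < 2 ^ m := by positivity
    omega
  obtain ⟨x, hxK, a, hax⟩ := hex
  have haK : a ∉ K := fun h => hax (hxK a h)
  have ha2 : a • a • x = x := by
    rw [smul_smul]
    exact hxK _ (Subgroup.mul_self_mem_of_index_two hidx a)
  have hkax : ∀ k ∈ K, k • a • x = a • x := by
    intro k hk
    have h1 : a⁻¹ * k * a ∈ K := by
      have := hnorm.conj_mem k hk a⁻¹
      rwa [inv_inv] at this
    have h2 := hxK _ h1
    have h3 : k * a = a * (a⁻¹ * k * a) := by group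
    rw [smul_smul, h3, ← smul_smul, h2]
  have hy0 : x - a • x ≠ 0 := fun h => hax (sub_eq_zero.1 h).symm
  have hay : a • (x - a • x) = -(x - a • x) := by
    rw [smul_sub, ha2]
    ring
  have hky : ∀ k ∈ K, k • (x - a • x) = x - a • x := by
    intro k hk
    rw [smul_sub, hxK k hk, hkax k hk]
  obtain ⟨s, hs, hs2⟩ := hsq ((x - a • x) ^ 2) (by
    intro g
    by_cases hg : g ∈ K
    · rw [smul_pow', hky g hg]
    · have h1 : g * a⁻¹ ∈ K := by
        rw [Subgroup.mul_mem_iff_of_index_two hidx, K.inv_mem_iff]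
        exact ⟨fun h => absurd h hg, fun h => absurd h haK⟩
      have h2 : g = g * a⁻¹ * a := by group
      rw [smul_pow', h2, ← smul_smul, hay, smul_neg, hky _ h1, neg_sq])
  have h1 : s = x - a • x ∨ s = -(x - a • x) := sq_eq_sq_iff_eq_or_eq_neg.1 hs2
  have h2 : a • (x - a • x) = x - a • x := by
    rcases h1 with h1 | h1
    · rw [← h1]
      exact hs a
    · have h3 : x - a • x = -s := by rw [h1, neg_neg]
      rw [h3, smul_neg, hs a]
  rw [hay] at h2
  have h3 : (2 : N) * (x - a • x) = 0 := by linear_combination -h2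
  rcases mul_eq_zero.1 h3 with h4 | h4
  · exact two_ne_zero h4
  · exact hy0 h4

theorem sqrtI (E : IntermediateField ℚ ℂ) (hre : ∀ x ∈ E, x.im = 0)
    (hsq : ∀ x ∈ E, 0 < x.re → ∃ y ∈ E, y ^ 2 = x) (a b : ℂ) (ha : a ∈ E) (hb : b ∈ E) :
    ∃ u ∈ E, ∃ v ∈ E, (u + v * Complex.I) ^ 2 = a + b * Complex.I := by
  have hsq' : ∀ x ∈ E, 0 ≤ x.re → ∃ y ∈ E, y ^ 2 = x := by
    intro x hx h0
    rcases h0.lt_or_eq with h1 | h1
    · exact hsq x hx h1
    · refine ⟨0, E.zero_mem, ?_⟩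
      have : x = 0 := Complex.ext h1.symm (hre x hx)
      rw [this]
      simp
  have h2 : (2 : ℂ) ∈ E := ofNat_mem E 2
  have ha0 := hre a ha
  have hb0 := hre b hb
  have hre2 : ∀ x : ℂ, x.im = 0 → (x ^ 2).re = x.re ^ 2 := by
    intro x hx
    rw [sq, Complex.mul_re, hx]
    ring
  obtain ⟨c, hc, hc2, hc0⟩ : ∃ c ∈ E, c ^ 2 = a ^ 2 + b ^ 2 ∧ 0 ≤ c.re := by
    obtain ⟨c, hc, hc2⟩ := hsq' (a ^ 2 + b ^ 2) (E.add_mem (pow_mem ha 2) (pow_mem hb 2)) (by
      rw [Complex.add_re, hre2 a ha0, hre2 b hb0]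
      positivity)
    rcases le_total 0 c.re with h | h
    · exact ⟨c, hc, hc2, h⟩
    · refine ⟨-c, E.neg_mem hc, by rw [neg_sq, hc2], ?_⟩
      rw [Complex.neg_re]
      linarith
  have hcre : a.re ^ 2 ≤ c.re ^ 2 := by
    have h3 := congrArg Complex.re hc2
    rw [Complex.add_re, hre2 a ha0, hre2 b hb0, hre2 c (hre c hc)] at h3
    nlinarith [sq_nonneg b.re]
  obtain ⟨h3, h4⟩ := abs_le.1 (abs_le_of_sq_le_sq hcre hc0)
  obtain ⟨u, hu, hu2⟩ := hsq' ((c + a) / 2) (E.div_mem (E.add_mem hc ha) h2) (by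
    have : ((c + a) / 2).re = (c.re + a.re) / 2 := by simp
    rw [this]
    linarith)
  obtain ⟨v, hv, hv2⟩ := hsq' ((c - a) / 2) (E.div_mem (E.sub_mem hc ha) h2) (by
    have : ((c - a) / 2).re = (c.re - a.re) / 2 := by simp
    rw [this]
    linarith)
  have huv : (2 * u * v) ^ 2 = b ^ 2 := by
    have : (2 * u * v) ^ 2 = 4 * u ^ 2 * v ^ 2 := by ring
    rw [this, hu2, hv2]
    linear_combination hc2
  have hI := Complex.I_sq
  rcases sq_eq_sq_iff_eq_or_eq_neg.1 huv with h5 | h5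
  · refine ⟨u, hu, v, hv, ?_⟩
    linear_combination hu2 - hv2 + Complex.I * h5 + v ^ 2 * hI
  · refine ⟨u, hu, -v, E.neg_mem hv, ?_⟩
    linear_combination hu2 - hv2 - Complex.I * h5 + v ^ 2 * hI

theorem fgE (F : IntermediateField ℚ ℂ) (N : IntermediateField F ℂ) [FiniteDimensional F N]
    (E : IntermediateField F N) :
    FG F ((IntermediateField.lift E).restrictScalars ℚ) := by
  classical
  obtain ⟨t, ht⟩ := IntermediateField.fg_of_noetherian E
  refine ⟨t.image Subtype.val, ?_⟩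
  rw [← ht, IntermediateField.lift_adjoin]
  have h1 := IntermediateField.restrictScalars_adjoin_eq_sup ℚ F (Subtype.val '' (t : Set N))
  ext x
  rw [Finset.coe_image, ← h1]
  exact Iff.rfl

theorem algE (F : IntermediateField ℚ ℂ) (hFa : ∀ x ∈ F, IsAlgebraic ℚ x)
    (N : IntermediateField F ℂ) [FiniteDimensional F N] (x : ℂ) (hx : x ∈ N) :
    IsAlgebraic ℚ x := by
  have h1 : Algebra.IsAlgebraic ℚ F := ⟨fun y => by
    have h2 := hFa _ y.2
    exact (isAlgebraic_algebraMap_iff (A := ℂ) (algebraMap F ℂ).injective).1 h2⟩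
  have h3 : IsAlgebraic F x := by
    have h4 : IsAlgebraic F (⟨x, hx⟩ : N) := Algebra.IsAlgebraic.isAlgebraic _
    exact h4.algebraMap (A := ℂ)
  exact h3.restrictScalars ℚ

/-- complex conjugation over a real field -/
def cj (F : IntermediateField ℚ ℂ) (hF : ∀ x ∈ F, x.im = 0) : ℂ ≃ₐ[F] ℂ :=
  AlgEquiv.ofRingEquiv (f := Complex.conjAe.toRingEquiv) (fun x => by
    show (starRingEnd ℂ) ((x : ℂ)) = (x : ℂ)
    exact Complex.conj_eq_iff_im.2 (hF _ x.2))

theorem cj_apply (F : IntermediateField ℚ ℂ) (hF : ∀ x ∈ F, x.im = 0) (x : ℂ) :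
    cj F hF x = (starRingEnd ℂ) x := rfl

theorem setup (F : IntermediateField ℚ ℂ) (p : ℚ[X]) :
    FiniteDimensional F (IntermediateField.adjoin F (p.rootSet ℂ)) ∧
      IsGalois F (IntermediateField.adjoin F (p.rootSet ℂ)) := by
  have hroot : (p.map (algebraMap ℚ F)).rootSet ℂ = p.rootSet ℂ := by
    ext x
    rw [mem_rootSet, mem_rootSet, aeval_map_algebraMap,
      Polynomial.map_ne_zero_iff (algebraMap ℚ F).injective]
  have hsplit : (p.map (algebraMap ℚ F)).IsSplittingField F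
      (IntermediateField.adjoin F (p.rootSet ℂ)) := by
    rw [← hroot]
    exact IntermediateField.adjoin_rootSet_isSplittingField (IsAlgClosed.splits _)
  have h1 : FiniteDimensional F (IntermediateField.adjoin F (p.rootSet ℂ)) :=
    IsSplittingField.finiteDimensional _ (p.map (algebraMap ℚ F))
  have h2 : Normal F (IntermediateField.adjoin F (p.rootSet ℂ)) :=
    Normal.of_isSplittingField (p.map (algebraMap ℚ F))
  exact ⟨h1, ⟨⟩⟩


theorem main (F : IntermediateField ℚ ℂ) (hF : ∀ x ∈ F, x.im = 0)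
    (hFa : ∀ x ∈ F, IsAlgebraic ℚ x)
    (hE : ∀ E : IntermediateField ℚ ℂ, FG F E → (∀ x ∈ E, IsAlgebraic ℚ x) →
      (∀ x ∈ E, x.im = 0) → ∀ x ∈ E, 0 < x.re → ∃ y ∈ E, y ^ 2 = x)
    (N : IntermediateField F ℂ) [FiniteDimensional F N] [IsGalois F N]
    (hI : Complex.I ∈ N) : ∃ k : ℕ, Odd k ∧ Module.finrank F N = 2 * k := by
  classical
  have : Fact (Nat.Prime 2) := ⟨Nat.prime_two⟩
  obtain ⟨τ, hτ⟩ : ∃ τ : N ≃ₐ[F] N, ∀ x : N, ((τ x : N) : ℂ) = (starRingEnd ℂ) (x : ℂ) :=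
    ⟨(cj F hF).restrictNormal N, fun x => AlgEquiv.restrictNormal_commutes (cj F hF) N x⟩
  have hττ : ∀ x : N, τ (τ x) = x := by
    intro x
    apply Subtype.ext
    rw [hτ, hτ, Complex.conj_conj]
  have hτ2 : τ * τ = 1 := AlgEquiv.ext hττ
  obtain ⟨J, hJ⟩ : ∃ J : N, (J : ℂ) = Complex.I := ⟨⟨Complex.I, hI⟩, rfl⟩
  have hJ2 : J ^ 2 = -1 := by
    apply Subtype.ext
    push_cast
    rw [hJ, Complex.I_sq]
  have hJ0 : J ≠ 0 := by
    rintro rfl
    norm_num at hJ2
  have hτJ : τ J = -J := by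
    apply Subtype.ext
    rw [hτ, hJ, Complex.conj_I]
    push_cast
    rw [hJ]
  have hJne : J ≠ -J := by
    intro h
    have h2 : (2 : N) * J = 0 := by linear_combination h
    rcases mul_eq_zero.1 h2 with h3 | h3
    · exact two_ne_zero h3
    · exact hJ0 h3
  have hgJ : ∀ g : N ≃ₐ[F] N, g J = J ∨ g J = -J := by
    intro g
    apply sq_eq_sq_iff_eq_or_eq_neg.1
    rw [← map_pow, hJ2, map_neg, map_one]
  obtain ⟨P, hP⟩ := IsPGroup.exists_le_sylow (p := 2) (P := Subgroup.zpowers τ) (by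
    intro g
    obtain ⟨g, hg⟩ := g
    obtain ⟨n, rfl⟩ := Subgroup.mem_zpowers_iff.1 hg
    refine ⟨1, Subtype.ext ?_⟩
    show (τ ^ n) ^ (2 ^ 1) = 1
    rw [pow_one, ← zpow_natCast, ← zpow_mul, mul_comm, zpow_mul, zpow_natCast, sq, hτ2, one_zpow])
  have hτP : τ ∈ P.1 := hP (Subgroup.mem_zpowers τ)
  obtain ⟨n, hn⟩ := (IsPGroup.iff_card).1 P.isPGroup'
  -- the fixed field
  have hmemE : ∀ x : N, x ∈ IntermediateField.fixedField P.1 ↔ ∀ g ∈ P.1, g x = x := by
    intro x
    rw [IntermediateField.mem_fixedField_iff]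
  have hEC : ∀ x : ℂ, x ∈ (IntermediateField.lift
      (IntermediateField.fixedField P.1)).restrictScalars ℚ ↔
      ∃ x' : N, (x' : ℂ) = x ∧ ∀ g ∈ P.1, g x' = x' := by
    intro x
    constructor
    · intro hx
      have hx1 : x ∈ IntermediateField.lift (IntermediateField.fixedField P.1) := hx
      have hx2 : x ∈ N := IntermediateField.lift_le _ hx1
      refine ⟨⟨x, hx2⟩, rfl, ?_⟩
      exact (hmemE _).1 ((IntermediateField.mem_lift (⟨x, hx2⟩ : N)).1 hx1)
    · rintro ⟨x', rfl, hx'⟩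
      exact (IntermediateField.mem_lift x').2 ((hmemE x').2 hx')
  have hECre : ∀ x ∈ (IntermediateField.lift
      (IntermediateField.fixedField P.1)).restrictScalars ℚ, x.im = 0 := by
    intro x hx
    obtain ⟨x', rfl, hx'⟩ := (hEC x).1 hx
    have h1 := congrArg (Subtype.val) (hx' τ hτP)
    rw [hτ] at h1
    exact Complex.conj_eq_iff_im.1 h1
  have hsqrt := sqrtI _ hECre (hE _ (fgE F N (IntermediateField.fixedField P.1))
    (fun x hx => algE F hFa N x (IntermediateField.lift_le _ hx)) hECre)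
  -- squares in the field of `J`
  have hsq : ∀ x : N, (∀ g ∈ P.1, g J = J → g x = x) →
      ∃ s : N, (∀ g ∈ P.1, g J = J → g s = s) ∧ s ^ 2 = x := by
    intro x hx
    have h2 : (2 : N) ≠ 0 := two_ne_zero
    have key : ∀ g ∈ P.1, (g J = J ∧ g x = x ∧ g (τ x) = τ x) ∨
        (g J = -J ∧ g x = τ x ∧ g (τ x) = x) := by
      intro g hg
      rcases hgJ g with h | h
      · refine Or.inl ⟨h, hx g hg h, ?_⟩
        have h3 := hx (τ * g * τ) (mul_mem (mul_mem hτP hg) hτP) (by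
          rw [AlgEquiv.mul_apply, AlgEquiv.mul_apply, hτJ, map_neg, h, map_neg, hτJ, neg_neg])
        rw [AlgEquiv.mul_apply, AlgEquiv.mul_apply] at h3
        have h4 := congrArg τ h3
        rw [hττ] at h4
        exact h4
      · refine Or.inr ⟨h, ?_, ?_⟩
        · have h3 := hx (τ * g) (mul_mem hτP hg) (by
            rw [AlgEquiv.mul_apply, h, map_neg, hτJ, neg_neg])
          rw [AlgEquiv.mul_apply] at h3
          have h4 := congrArg τ h3
          rw [hττ] at h4
          exact h4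
        · have h3 := hx (g * τ) (mul_mem hg hτP) (by
            rw [AlgEquiv.mul_apply, hτJ, map_neg, h, neg_neg])
          rw [AlgEquiv.mul_apply] at h3
          exact h3
    have hα : ∀ g ∈ P.1, g ((x + τ x) / 2) = (x + τ x) / 2 := by
      intro g hg
      rw [map_div₀, map_add, map_ofNat]
      rcases key g hg with ⟨-, h3, h4⟩ | ⟨-, h3, h4⟩
      · rw [h3, h4]
      · rw [h3, h4, add_comm]
    have hβ : ∀ g ∈ P.1, g ((x - τ x) / (2 * J)) = (x - τ x) / (2 * J) := by
      intro g hg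
      rw [map_div₀, map_sub, map_mul, map_ofNat]
      rcases key g hg with ⟨h1, h3, h4⟩ | ⟨h1, h3, h4⟩
      · rw [h1, h3, h4]
      · rw [h1, h3, h4]
        field_simp
        ring
    obtain ⟨u, hu, v, hv, huv⟩ := hsqrt _ _ ((hEC _).2 ⟨_, rfl, hα⟩) ((hEC _).2 ⟨_, rfl, hβ⟩)
    obtain ⟨u', rfl, hu'⟩ := (hEC u).1 hu
    obtain ⟨v', rfl, hv'⟩ := (hEC v).1 hv
    refine ⟨u' + v' * J, fun g hg h => ?_, ?_⟩
    · rw [map_add, map_mul, hu' g hg, hv' g hg, h]
    · have h5 : (u' + v' * J) ^ 2 = (x + τ x) / 2 + (x - τ x) / (2 * J) * J := by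
        apply Subtype.ext
        push_cast
        rw [hJ]
        rw [← hJ] at huv ⊢
        exact huv
      rw [h5]
      field_simp
      ring
  -- the stabilizer of `J` in `P`
  have hidx : (MulAction.stabilizer P.1 J).index = 2 := by
    rw [Subgroup.index_eq_two_iff]
    refine ⟨⟨τ, hτP⟩, fun b => ?_⟩
    have e1 : b * ⟨τ, hτP⟩ ∈ MulAction.stabilizer P.1 J ↔ b.1 (τ J) = J := Iff.rfl
    have e2 : b ∈ MulAction.stabilizer P.1 J ↔ b.1 J = J := Iff.rfl
    rw [e1, e2, hτJ, map_neg]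
    rcases hgJ b.1 with h | h
    · rw [h]
      exact Or.inr ⟨rfl, fun h' => hJne h'.symm⟩
    · rw [h, neg_neg]
      exact Or.inl ⟨rfl, fun h' => hJne h'.symm⟩
  have hcard := (MulAction.stabilizer P.1 J).card_mul_index
  rw [hidx, hn] at hcard
  have hn1 : n = 1 := by
    rcases n with _ | _ | m
    · exfalso
      rw [pow_zero] at hcard
      omega
    · rfl
    · exfalso
      have h1 : Nat.card (MulAction.stabilizer P.1 J) = 2 ^ (m + 1) := by
        have h3 : 2 ^ (m + 1 + 1) = 2 ^ (m + 1) * 2 := pow_succ 2 (m + 1)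
        omega
      refine quad (A := MulAction.stabilizer P.1 J) (N := N) m h1 fun x hx => ?_
      obtain ⟨s, hs, hs2⟩ := hsq x fun g hg h => hx ⟨⟨g, hg⟩, h⟩
      exact ⟨s, fun a => hs a.1.1 a.1.2 a.2, hs2⟩
  have hG := IsGalois.card_aut_eq_finrank F N
  have hPi := P.1.card_mul_index
  refine ⟨P.1.index, ?_, ?_⟩
  · rw [← Nat.not_even_iff_odd, even_iff_two_dvd]
    exact P.not_dvd_index
  · rw [← hG, ← hPi]
    have h1 : Nat.card P.1 = 2 := by
      rw [hn1, pow_one] at hn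
      exact hn
    rw [h1]

end GA2_

theorem p_GA2 : T_GA2 := by
  intro F hF hFa hE p hp0 hpI
  obtain ⟨hfd, hgal⟩ := GA2_.setup F p
  exact GA2_.main F hF hFa hE _ (IntermediateField.subset_adjoin _ _ (mem_rootSet.2 ⟨hp0, hpI⟩))

end NFV
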