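import Pool.Agent.NFV.Targets3

/-!
# NFV: GAL, the Galois argument
-/

set_option autoImplicit false

open Polynomial

open scoped Pointwise

noncomputable section

namespace NFV

namespace GAL_

/-! ### group theory -/

/-- an involution normalises a Sylow subgroup of a normal subgroup of odd order -/
theorem grp {G : Type*} [Group G] [Finite G] (Z : Subgroup G) [Z.Normal] (t : G)
    (ht : t * t = 1) (q : ℕ) [Fact q.Prime] (hodd : Odd (Nat.card Z)) (hq : q ∣ Nat.card Z) :
    ∃ Q : Subgroup G, Q ≤ Z ∧ (∃ n, Nat.card Q = q ^ (n + 1)) ∧ ∀ g ∈ Q, t * g * t⁻¹ ∈ Q := by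
  classical
  have hfin : Finite (Sylow q Z) := inferInstance
  let hft : Fintype (Sylow q Z) := Fintype.ofFinite _
  let φ : MulAut Z := MulAut.conjNormal t
  have hφ : φ * φ = 1 := by
    show MulAut.conjNormal t * MulAut.conjNormal t = (1 : MulAut Z)
    rw [← map_mul, ht, map_one]
  let σ : Equiv.Perm (Sylow q Z) := MulAction.toPerm φ
  have hσ : σ ^ 2 ^ 1 = 1 := by
    rw [pow_one, pow_two]
    refine Equiv.ext fun P => ?_
    show φ • (φ • P) = P
    rw [← mul_smul, hφ, one_smul]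
  have P₀ : Sylow q Z := default
  have hcard : ¬ 2 ∣ Fintype.card (Sylow q Z) := by
    intro h
    rw [← Nat.card_eq_fintype_card, P₀.card_eq_index_normalizer] at h
    have h1 := h.trans (Subgroup.index_dvd_card _)
    exact (Nat.not_even_iff_odd.2 hodd) (even_iff_two_dvd.2 h1)
  obtain ⟨P, hP⟩ := Equiv.Perm.exists_fixed_point_of_prime (p := 2) (n := 1) hcard hσ
  have hP' : φ • P = P := hP
  refine ⟨P.toSubgroup.map Z.subtype, Subgroup.map_subtype_le _, ?_, ?_⟩
  · have h1 : Nat.card (P.toSubgroup.map Z.subtype) = Nat.card P :=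
      Nat.card_congr (P.toSubgroup.equivMapOfInjective Z.subtype Z.subtype_injective).toEquiv.symm
    have h2 : q ∣ Nat.card P := P.dvd_card_of_dvd_card hq
    obtain ⟨n, hn⟩ := IsPGroup.iff_card.1 P.isPGroup'
    rw [h1, hn]
    rcases n with _ | n
    · rw [hn, pow_zero, Nat.dvd_one] at h2
      exact absurd h2 (Fact.out : q.Prime).one_lt.ne'
    · exact ⟨n, rfl⟩
  · rintro g ⟨z, hz, rfl⟩
    refine ⟨φ z, ?_, MulAut.conjNormal_apply t z⟩
    have h1 : φ • z ∈ φ • P.toSubgroup := Subgroup.smul_mem_pointwise_smul z φ _ hz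
    rw [← Sylow.pointwise_smul_def, hP'] at h1
    exact h1

/-- a group of order `q ^ (n + 1)` has a normal subgroup of index `q` -/
theorem grp2 {G : Type*} [Group G] [Finite G] (q n : ℕ) [hq : Fact q.Prime]
    (h : Nat.card G = q ^ (n + 1)) : ∃ R : Subgroup G, R.Normal ∧ R.index = q := by
  obtain ⟨R, hR⟩ := Sylow.exists_subgroup_card_pow_prime (G := G) q (n := n)
    (by rw [h]; exact pow_dvd_pow q (Nat.le_succ n))
  have h1 := R.card_mul_index
  rw [hR, h, pow_succ] at h1
  have h2 : R.index = q := Nat.eq_of_mul_eq_mul_left (pow_pos hq.out.pos n) h1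
  refine ⟨R, Subgroup.normal_of_index_eq_minFac_card ?_, h2⟩
  rw [h2, h, hq.out.pow_minFac (Nat.succ_ne_zero n)]

/-! ### real fields -/

/-- the real numbers, as an extension of a real field -/
def realF (F : IntermediateField ℚ ℂ) (hF : ∀ x ∈ F, x.im = 0) : IntermediateField F ℂ :=
  Complex.ofRealHom.fieldRange.toIntermediateField fun x => by
    refine ⟨(x : ℂ).re, ?_⟩
    apply Complex.ext
    · simp
    · simp [hF x x.2]

theorem mem_realF {F : IntermediateField ℚ ℂ} {hF : ∀ x ∈ F, x.im = 0} {x : ℂ} :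
    x ∈ realF F hF ↔ x.im = 0 := by
  have h1 : x ∈ realF F hF ↔ ∃ r : ℝ, (r : ℂ) = x := Iff.rfl
  rw [h1]
  constructor
  · rintro ⟨r, rfl⟩
    exact Complex.ofReal_im r
  · intro h
    exact ⟨x.re, Complex.ext (Complex.ofReal_re _) (by rw [Complex.ofReal_im, h])⟩

/-- complex conjugation over a real field -/
def conjF (F : IntermediateField ℚ ℂ) (hF : ∀ x ∈ F, x.im = 0) : ℂ ≃ₐ[F] ℂ :=
  AlgEquiv.ofRingEquiv (f := starRingAut) fun x => by
    show (starRingEnd ℂ) (x : ℂ) = x
    exact Complex.conj_eq_iff_im.2 (hF x x.2)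

theorem conjF_apply (F : IntermediateField ℚ ℂ) (hF : ∀ x ∈ F, x.im = 0) (x : ℂ) :
    conjF F hF x = (starRingEnd ℂ) x := rfl

/-! ### finite extensions -/

theorem alg_aux (F : IntermediateField ℚ ℂ) (hFa : ∀ x ∈ F, IsAlgebraic ℚ x)
    (N : IntermediateField F ℂ) [FiniteDimensional F N] (x : ℂ) (hx : x ∈ N) :
    IsAlgebraic ℚ x := by
  have h1 : Algebra.IsAlgebraic ℚ F := ⟨fun y => by
    have h2 := hFa _ y.2
    exact (isAlgebraic_algebraMap_iff (A := ℂ) (algebraMap F ℂ).injective).1 h2⟩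
  have h3 : IsAlgebraic F x := by
    have h4 : IsAlgebraic F (⟨x, hx⟩ : N) := Algebra.IsAlgebraic.isAlgebraic _
    exact h4.algebraMap (A := ℂ)
  exact h3.restrictScalars ℚ

theorem fg_aux (F : IntermediateField ℚ ℂ) (A : IntermediateField F ℂ) [FiniteDimensional F A] :
    FG F (A.restrictScalars ℚ) := by
  obtain ⟨α, hα⟩ := Field.exists_primitive_element F A
  have h1 : A = IntermediateField.adjoin F {(α : ℂ)} := by
    have h2 := congrArg IntermediateField.lift hα
    rw [IntermediateField.lift_top, IntermediateField.lift_adjoin_simple] at h2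
    exact h2.symm
  refine ⟨{(α : ℂ)}, ?_⟩
  rw [Finset.coe_singleton]
  conv_lhs => rw [h1]
  exact IntermediateField.restrictScalars_adjoin_eq_sup (F := ℚ) (E := ℂ) F _

/-- a nontrivial `q`-extension contains a root of an element of the base field -/
theorem kummer {K L : Type*} [Field K] [Field L] [Algebra K L] [FiniteDimensional K L]
    [IsGalois K L] (q n : ℕ) [hq : Fact q.Prime] (hc : Module.finrank K L = q ^ (n + 1))
    (ζ : K) (hζ : IsPrimitiveRoot ζ q) (h : ∀ b : K, ∃ u : K, b = u ^ q) : False := by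
  obtain ⟨R, hRn, hRi⟩ := grp2 (G := L ≃ₐ[K] L) q n (by
    rw [IsGalois.card_aut_eq_finrank, hc])
  set E' := IntermediateField.fixedField R with hE'
  have hfin : Module.finrank K E' = q := by
    rw [IntermediateField.finrank_eq_fixingSubgroup_index, hE',
      IntermediateField.fixingSubgroup_fixedField, hRi]
  have hcyc : IsCyclic (E' ≃ₐ[K] E') := isCyclic_of_prime_card (p := q) (by
    rw [IsGalois.card_aut_eq_finrank, hfin])
  obtain ⟨α, ⟨b, hb⟩, hα⟩ := exists_root_adjoin_eq_top_of_isCyclic K E'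
    ⟨ζ, by rw [hfin, mem_primitiveRoots hq.out.pos]; exact hζ⟩
  rw [hfin] at hb
  obtain ⟨u, rfl⟩ := h b
  have h1 : ∃ v : K, algebraMap K E' v = α := by
    by_cases hu : u = 0
    · refine ⟨0, ?_⟩
      rw [hu, zero_pow hq.out.ne_zero, map_zero] at hb
      rw [map_zero]
      exact (pow_eq_zero_iff hq.out.ne_zero |>.1 hb.symm).symm
    · have hu' : algebraMap K E' u ≠ 0 := by
        rwa [Ne, map_eq_zero]
      have h2 : (α / algebraMap K E' u) ^ q = 1 := by
        rw [div_pow, ← hb, map_pow, div_self (pow_ne_zero q hu')]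
      have hζ' : IsPrimitiveRoot (algebraMap K E' ζ) q :=
        hζ.map_of_injective (algebraMap K E').injective
      obtain ⟨i, -, hi⟩ := hζ'.eq_pow_of_pow_eq_one h2
      refine ⟨ζ ^ i * u, ?_⟩
      rw [map_mul, map_pow, hi, div_mul_cancel₀ _ hu']
  obtain ⟨v, hv⟩ := h1
  have h3 : IntermediateField.adjoin K {α} = ⊥ := by
    rw [IntermediateField.adjoin_simple_eq_bot_iff, IntermediateField.mem_bot]
    exact ⟨v, hv⟩
  rw [h3] at hα
  have h4 := IntermediateField.finrank_top' (F := K) (E := E')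
  rw [← hα, IntermediateField.finrank_bot, hfin] at h4
  exact hq.out.one_lt.ne h4

/-- a group of order a power of `q` fixes the `q`-th roots of unity -/
theorem fix_root {K L : Type*} [Field K] [Field L] [Algebra K L] (q n : ℕ) [hq : Fact q.Prime]
    (ζ : L) (hζ : IsPrimitiveRoot ζ q) (Q : Subgroup (L ≃ₐ[K] L)) (hQ : Nat.card Q = q ^ n)
    (g : L ≃ₐ[K] L) (hg : g ∈ Q) : g ζ = ζ := by
  have : NeZero q := ⟨hq.out.ne_zero⟩
  have h1 : g ^ q ^ n = 1 := by
    have h2 : (⟨g, hg⟩ : Q) ^ Nat.card Q = 1 := pow_card_eq_one'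
    rw [hQ] at h2
    exact congrArg Subtype.val h2
  have h2 : (hζ.autToPow K g) ^ q ^ n = 1 := by rw [← map_pow, h1, map_one]
  have h3 : (hζ.autToPow K g) ^ (q - 1) = 1 := ZMod.units_pow_card_sub_one_eq_one q _
  have h4 : hζ.autToPow K g = 1 := by
    rw [← orderOf_eq_one_iff]
    have h5 := orderOf_dvd_of_pow_eq_one h2
    have h6 := orderOf_dvd_of_pow_eq_one h3
    have h7 : Nat.Coprime (q ^ n) (q - 1) := by
      refine Nat.Coprime.pow_left n ?_
      refine (Nat.Prime.coprime_iff_not_dvd hq.out).2 fun h => ?_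
      have := Nat.le_of_dvd (by have := hq.out.two_le; omega) h
      have := hq.out.two_le
      omega
    exact Nat.eq_one_of_dvd_coprimes h7 h5 h6
  have h5 := hζ.autToPow_spec K g
  rw [h4, Units.val_one] at h5
  rw [← h5]
  have : Fact (1 < q) := ⟨hq.out.one_lt⟩
  rw [ZMod.val_one, pow_one]

/-- the main step: a Galois extension of degree `2 k`, `k` odd, containing `I` and a primitive
root of unity of a prime order `q` which divides `k`, does not exist -/
theorem main_step (F : IntermediateField ℚ ℂ) (hF : ∀ x ∈ F, x.im = 0)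
    (hFa : ∀ x ∈ F, IsAlgebraic ℚ x)
    (h2 : ∀ (E : IntermediateField ℚ ℂ) (q : ℕ) (ζ : ℂ), FG F E →
      (∀ x ∈ E, IsAlgebraic ℚ x) → q.Prime → Complex.I ∈ E →
      (∀ x ∈ E, (starRingEnd ℂ) x ∈ E) → IsPrimitiveRoot ζ q → ζ ∈ E →
      ∀ b ∈ E, ∃ u ∈ E, b = u ^ q)
    (N : IntermediateField F ℂ) [FiniteDimensional F N] [IsGalois F N] (q k : ℕ)
    (hq : q.Prime) (ζ : ℂ) (hζ : IsPrimitiveRoot ζ q) (hζN : ζ ∈ N) (hI : Complex.I ∈ N)
    (hk : Odd k) (hcard : Module.finrank F N = 2 * k) (hqk : q ∣ k) : False := by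
  have hqf : Fact q.Prime := ⟨hq⟩
  let G := N ≃ₐ[F] N
  let τ : G := (conjF F hF).restrictNormal N
  have hτ : ∀ y : N, ((τ y : N) : ℂ) = (starRingEnd ℂ) (y : ℂ) := fun y =>
    AlgEquiv.restrictNormal_commutes (conjF F hF) N y
  have hττ : τ * τ = 1 := by
    refine AlgEquiv.ext fun y => Subtype.ext ?_
    show ((τ (τ y) : N) : ℂ) = y
    rw [hτ, hτ, Complex.conj_conj]
  let i : N := ⟨Complex.I, hI⟩
  have hi2 : i * i = -1 := Subtype.ext Complex.I_mul_I
  have hi0 : i ≠ 0 := by
    intro h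
    rw [h, mul_zero] at hi2
    exact one_ne_zero (neg_eq_zero.1 hi2.symm)
  have hgi : ∀ g : G, g i = i ∨ g i = -i := by
    intro g
    have h3 : g i * g i = i * i := by
      rw [← map_mul, hi2, map_neg, map_one]
    exact mul_self_eq_mul_self_iff.1 h3
  have hni : -i ≠ i := by
    intro h
    have h3 : (2 : N) * i = 0 := by linear_combination -h
    rcases mul_eq_zero.1 h3 with h4 | h4
    · exact two_ne_zero h4
    · exact hi0 h4
  have hτi : τ i = -i := Subtype.ext (by
    rw [hτ]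
    exact Complex.conj_I)
  let Z : Subgroup G := MulAction.stabilizer G i
  have hZ : ∀ g : G, g ∈ Z ↔ g i = i := fun g => Iff.rfl
  have hZn : Z.Normal := ⟨fun z hz g => by
    rw [hZ] at hz ⊢
    show g (z (g⁻¹ i)) = i
    have h3 : g (g⁻¹ i) = i := AlgEquiv.apply_symm_apply g i
    rcases hgi g⁻¹ with h4 | h4
    · rw [h4, hz]
      rwa [h4] at h3
    · rw [h4, map_neg, hz]
      rwa [h4] at h3⟩
  have hZ2 : Z.index = 2 := by
    rw [Subgroup.index_eq_two_iff]
    refine ⟨τ, fun g => ?_⟩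
    have h3 : (g * τ) i = - g i := by
      show g (τ i) = _
      rw [hτi, map_neg]
    rw [hZ, hZ, h3]
    rcases hgi g with h4 | h4
    · right
      rw [h4]
      exact ⟨rfl, hni⟩
    · left
      rw [h4, neg_neg]
      exact ⟨rfl, hni⟩
  have hGc : Nat.card G = 2 * k := by rw [← hcard]; exact IsGalois.card_aut_eq_finrank F N
  have hZc : Nat.card Z = k := by
    have h3 := Z.card_mul_index
    rw [hZ2, hGc, mul_comm] at h3
    exact Nat.eq_of_mul_eq_mul_left two_pos h3
  obtain ⟨Q, hQZ, ⟨n, hQn⟩, hQτ⟩ := grp Z τ hττ q (by rw [hZc]; exact hk) (by rw [hZc]; exact hqk)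
  -- the fixed field
  let E₁ : IntermediateField F N := IntermediateField.fixedField Q
  have hE₁ : ∀ y : N, y ∈ E₁ ↔ ∀ g ∈ Q, g y = y := fun y =>
    IntermediateField.mem_fixedField_iff Q y
  have hLift : ∀ y : N, (y : ℂ) ∈ IntermediateField.lift E₁ ↔ y ∈ E₁ := fun y =>
    IntermediateField.mem_lift y
  have hLe : ∀ y : ℂ, y ∈ IntermediateField.lift E₁ → y ∈ N := fun y hy =>
    IntermediateField.lift_le E₁ hy
  have hfd : FiniteDimensional F (IntermediateField.lift E₁) :=
    (IntermediateField.liftAlgEquiv E₁).toLinearEquiv.finiteDimensional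
  let E : IntermediateField ℚ ℂ := (IntermediateField.lift E₁).restrictScalars ℚ
  have hEm : ∀ y : N, (y : ℂ) ∈ E ↔ y ∈ E₁ := hLift
  have hζE₁ : (⟨ζ, hζN⟩ : N) ∈ E₁ := by
    rw [hE₁]
    intro g hg
    refine fix_root q (n + 1) (⟨ζ, hζN⟩ : N) ?_ Q hQn g hg
    exact IsPrimitiveRoot.of_map_of_injective (f := N.val) hζ N.val.injective
  have hroot : ∀ b ∈ E, ∃ u ∈ E, b = u ^ q := by
    refine h2 E q ζ (fg_aux F _) (fun x hx => alg_aux F hFa N x (hLe x hx)) hq ?_ ?_ hζ ?_
    · exact (hEm i).2 ((hE₁ i).2 fun g hg => hQZ hg)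
    · intro y hy
      have hyN := hLe y hy
      have h3 := (hE₁ ⟨y, hyN⟩).1 ((hEm ⟨y, hyN⟩).1 hy)
      have h4 : ((τ ⟨y, hyN⟩ : N) : ℂ) ∈ E := by
        rw [hEm, hE₁]
        intro g hg
        have h5 := h3 (τ * g * τ⁻¹) (hQτ g hg)
        have h6 : τ⁻¹ = τ := inv_eq_of_mul_eq_one_left hττ
        rw [h6] at h5
        change τ (g (τ ⟨y, hyN⟩)) = ⟨y, hyN⟩ at h5
        have h7 : τ (τ (g (τ ⟨y, hyN⟩))) = g (τ ⟨y, hyN⟩) :=
          congrArg (fun f : G => f (g (τ ⟨y, hyN⟩))) hττ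
        rw [← h7, h5]
      rw [hτ] at h4
      exact h4
    · exact (hEm ⟨ζ, hζN⟩).2 hζE₁
  refine kummer (K := E₁) (L := N) q n ?_ ⟨⟨ζ, hζN⟩, hζE₁⟩ ?_ ?_
  · rw [← hQn]
    exact IntermediateField.finrank_fixedField_eq_card Q
  · exact IsPrimitiveRoot.of_map_of_injective (f := N.val.comp E₁.val) hζ
      (N.val.comp E₁.val).injective
  · rintro ⟨b, hb⟩
    obtain ⟨u, hu, hbu⟩ := hroot (b : ℂ) ((hEm b).2 hb)
    have huN := hLe u hu
    refine ⟨⟨⟨u, huN⟩, (hEm ⟨u, huN⟩).1 hu⟩, Subtype.ext (Subtype.ext hbu)⟩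

end GAL_

open GAL_ in
theorem p_GAL (h_GA2 : T_GA2) : T_GAL := by
  intro F hF hFa h1 h2 x hxa hx
  -- the polynomials
  have hxi : IsIntegral ℚ x := hxa.isIntegral
  have hm0 : minpoly ℚ x ≠ 0 := minpoly.ne_zero hxi
  have hI0 : (X ^ 2 + 1 : ℚ[X]) ≠ 0 := by
    intro h
    have := congrArg (Polynomial.eval (1 : ℚ)) h
    norm_num at this
  have hIr : aeval Complex.I (X ^ 2 + 1 : ℚ[X]) = 0 := by simp
  set p : ℚ[X] := minpoly ℚ x * (X ^ 2 + 1) with hp
  have hp0 : p ≠ 0 := mul_ne_zero hm0 hI0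
  have hpI : aeval Complex.I p = 0 := by rw [hp, map_mul, hIr, mul_zero]
  have hpx : aeval x p = 0 := by rw [hp, map_mul, minpoly.aeval, zero_mul]
  obtain ⟨k, hk, hkc⟩ := h_GA2 F hF hFa h1 p hp0 hpI
  have hmem : ∀ (r : ℚ[X]) (y : ℂ), r ≠ 0 → aeval y r = 0 →
      y ∈ IntermediateField.adjoin F (r.rootSet ℂ) := fun r y hr hy =>
    IntermediateField.subset_adjoin F _ (Polynomial.mem_rootSet.2 ⟨hr, hy⟩)
  set N₀ := IntermediateField.adjoin F (p.rootSet ℂ) with hN₀
  have hN₀f : FiniteDimensional F N₀ := by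
    refine FiniteDimensional.of_finrank_pos ?_
    rw [hkc]
    exact Nat.mul_pos two_pos hk.pos
  by_cases hk1 : k = 1
  · -- degree two
    rw [hk1, mul_one] at hkc
    set A := IntermediateField.adjoin F {x} with hA
    have hAle : A ≤ N₀ := IntermediateField.adjoin_le_iff.2
      (Set.singleton_subset_iff.2 (hmem p x hp0 hpx))
    have hAr : A ≤ realF F hF := IntermediateField.adjoin_le_iff.2
      (Set.singleton_subset_iff.2 (mem_realF.2 hx))
    have hd := IntermediateField.finrank_dvd_of_le_right hAle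
    rw [hkc] at hd
    rcases (Nat.dvd_prime Nat.prime_two).1 hd with h3 | h3
    · rw [IntermediateField.finrank_eq_one_iff, hA, IntermediateField.adjoin_simple_eq_bot_iff,
        IntermediateField.mem_bot] at h3
      obtain ⟨y, rfl⟩ := h3
      exact y.2
    · exfalso
      have h4 := IntermediateField.eq_of_le_of_finrank_eq hAle (h3.trans hkc.symm)
      have h5 : Complex.I ∈ A := h4 ▸ hmem p _ hp0 hpI
      have h6 := mem_realF.1 (hAr h5)
      rw [Complex.I_im] at h6
      exact one_ne_zero h6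
  · exfalso
    obtain ⟨q, hq, hqk⟩ := Nat.exists_prime_and_dvd hk1
    have hq2 : q ≠ 2 := by
      rintro rfl
      exact (Nat.not_even_iff_odd.2 hk) (even_iff_two_dvd.2 hqk)
    set ζ := Complex.exp (2 * Real.pi * Complex.I / q) with hζd
    have hζ : IsPrimitiveRoot ζ q := Complex.isPrimitiveRoot_exp q hq.ne_zero
    set r : ℚ[X] := p * (X ^ q - 1) with hr
    have hr0 : r ≠ 0 := mul_ne_zero hp0 (by
      have h3 := Polynomial.X_pow_sub_C_ne_zero hq.pos (1 : ℚ)
      rwa [Polynomial.C_1] at h3)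
    have hrI : aeval Complex.I r = 0 := by rw [hr, map_mul, hpI, zero_mul]
    have hrζ : aeval ζ r = 0 := by
      rw [hr, map_mul]
      simp [hζ.pow_eq_one]
    obtain ⟨k', hk', hkc'⟩ := h_GA2 F hF hFa h1 r hr0 hrI
    set N := IntermediateField.adjoin F (r.rootSet ℂ) with hN
    have hNf : FiniteDimensional F N := by
      refine FiniteDimensional.of_finrank_pos ?_
      rw [hkc']
      exact Nat.mul_pos two_pos hk'.pos
    have hrs : (r.map (algebraMap ℚ F)).rootSet ℂ = r.rootSet ℂ := by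
      ext y
      rw [Polynomial.mem_rootSet, Polynomial.mem_rootSet, Polynomial.aeval_map_algebraMap,
        Ne, Polynomial.map_eq_zero]
    have hsp : IsSplittingField F N (r.map (algebraMap ℚ F)) := by
      rw [hN, ← hrs]
      exact IntermediateField.adjoin_rootSet_isSplittingField (IsAlgClosed.splits _)
    have hnor : Normal F N := Normal.of_isSplittingField (r.map (algebraMap ℚ F))
    have hgal : IsGalois F N := ⟨⟩
    have hN₀N : N₀ ≤ N := by
      refine IntermediateField.adjoin_le_iff.2 fun y hy => ?_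
      rw [Polynomial.mem_rootSet] at hy
      exact hmem r y hr0 (by rw [hr, map_mul, hy.2, zero_mul])
    have hd := IntermediateField.finrank_dvd_of_le_right hN₀N
    rw [hkc, hkc'] at hd
    have hkk : k ∣ k' := Nat.dvd_of_mul_dvd_mul_left two_pos hd
    exact main_step F hF hFa h2 N q k' hq ζ hζ (hmem r ζ hr0 hrζ) (hmem r _ hr0 hrI) hk' hkc'
      (hqk.trans hkk)

end NFV
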