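import Pool.Agent.NFV.Targets

/-!
# NFV: target INV, the inverses on the path
-/

set_option autoImplicit false

open Polynomial Matrix

noncomputable section

namespace NFV

theorem p_INV : NFV.T_INV := by
  intro R _ n b g D hD hdet δ hδ
  classical
  obtain ⟨A, hA⟩ : ∃ A : ℝ → Matrix (Fin n) (Fin n) ℝ, A = fun t : ℝ => 1 + (t * (D : ℝ)) • mulM b g :=
    ⟨_, rfl⟩
  obtain ⟨vR, hvR⟩ : ∃ v : Fin n → ℝ, v = fun j => ((b.repr g j : ℤ) : ℝ) := ⟨_, rfl⟩
  have hAc : Continuous A := by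
    rw [hA]
    exact continuous_const.add ((continuous_id.mul continuous_const).smul continuous_const)
  have hAdet : ∀ t, 0 ≤ t → t ≤ 1 → (A t).det ≠ 0 := by
    intro t h0 h1
    rw [hA]
    exact hdet t h0 h1
  have hF : ContinuousOn (fun t => (A t).det⁻¹ • ((A t).adjugate *ᵥ vR)) (Set.Icc 0 1) := by
    refine ContinuousOn.fun_smul ?_ ?_
    · exact (hAc.matrix_det.continuousOn).inv₀ (fun t ht => hAdet t ht.1 ht.2)
    · exact (hAc.matrix_adjugate.matrix_mulVec continuous_const).continuousOn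
  obtain ⟨C, hC⟩ := isCompact_Icc.exists_bound_of_continuousOn hF
  have hC0 : 0 ≤ C := (norm_nonneg _).trans (hC 0 ⟨le_rfl, zero_le_one⟩)
  refine ⟨⌈D * C / δ⌉₊, ?_⟩
  intro L hL hL0 hcop k hk
  have hLR : (0 : ℝ) < L := by exact_mod_cast hL0
  obtain ⟨t, ht⟩ : ∃ t : ℝ, t = k / L := ⟨_, rfl⟩
  have ht0 : 0 ≤ t := by rw [ht]; positivity
  have ht1 : t ≤ 1 := by
    rw [ht, div_le_one hLR]
    exact_mod_cast hk
  obtain ⟨W, hW⟩ : ∃ W : Matrix (Fin n) (Fin n) ℤ,
    W = Algebra.leftMulMatrix b ((L : R) + k * (D * g)) := ⟨_, rfl⟩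
  have hW1 : W = (L : Matrix (Fin n) (Fin n) ℤ) +
      (k : Matrix (Fin n) (Fin n) ℤ) * ((D : Matrix (Fin n) (Fin n) ℤ) *
        Algebra.leftMulMatrix b g) := by
    rw [hW, map_add, map_mul, map_mul, map_natCast, map_natCast, map_natCast]
  -- over the reals
  have hWR : (Int.castRingHom ℝ).mapMatrix W = (L : ℝ) • A t := by
    have h1 : (Int.castRingHom ℝ).mapMatrix (Algebra.leftMulMatrix b g) = mulM b g := rfl
    rw [hW1, map_add, map_mul, map_mul, map_natCast, map_natCast, map_natCast, h1, hA]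
    simp only
    rw [smul_add, smul_smul, ← nsmul_eq_mul, ← nsmul_eq_mul, ← Nat.cast_smul_eq_nsmul ℝ k,
      ← Nat.cast_smul_eq_nsmul ℝ D, smul_smul]
    have h2 : (L : ℝ) * (t * D) = k * D := by
      rw [ht]
      field_simp
    rw [h2]
    have h3 : ((L : ℕ) : Matrix (Fin n) (Fin n) ℝ) = (L : ℝ) • (1 : Matrix (Fin n) (Fin n) ℝ) := by
      rw [Nat.cast_smul_eq_nsmul, nsmul_eq_mul, mul_one]
    rw [h3]
  have hdetR : ((W.det : ℤ) : ℝ) = (L : ℝ) ^ n * (A t).det := by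
    have h1 := RingHom.map_det (Int.castRingHom ℝ) W
    rw [hWR, det_smul, Fintype.card_fin] at h1
    exact h1
  have hdet0 : W.det ≠ 0 := by
    intro h0
    rw [h0, Int.cast_zero] at hdetR
    exact (mul_ne_zero (pow_ne_zero _ hLR.ne') (hAdet t ht0 ht1)) hdetR.symm
  -- the element
  obtain ⟨h₀, hh₀⟩ : ∃ h : R, b.equivFun h = W.adjugate *ᵥ (b.equivFun g) :=
    ⟨b.equivFun.symm (W.adjugate *ᵥ (b.equivFun g)), LinearEquiv.apply_symm_apply _ _⟩
  have hmul : ((L : R) + k * (D * g)) * h₀ = (W.det : R) * g := by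
    apply b.equivFun.injective
    have h1 : b.equivFun (((L : R) + k * (D * g)) * h₀) = W *ᵥ (b.equivFun h₀) := by
      rw [hW]
      exact (Algebra.leftMulMatrix_mulVec_repr b _ _).symm
    rw [h1, hh₀, mulVec_mulVec, mul_adjugate, smul_mulVec, one_mulVec, ← zsmul_eq_mul,
      map_zsmul]
  have hcoord : ∀ j, (D : ℝ) * |((b.repr h₀ j : ℤ) : ℝ)| ≤ δ * |((W.det : ℤ) : ℝ)| := by
    intro j
    have hn : 0 < n := j.pos
    have h1 : ((b.repr h₀ j : ℤ) : ℝ) = ((L : ℝ) ^ (n - 1)) * (((A t).adjugate *ᵥ vR) j) := by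
      have h2 : (b.repr h₀ j : ℤ) = (W.adjugate *ᵥ (b.equivFun g)) j := by
        rw [← hh₀, Module.Basis.equivFun_apply]
      have h3 : (((W.adjugate *ᵥ (b.equivFun g)) j : ℤ) : ℝ) =
          (((Int.castRingHom ℝ).mapMatrix W).adjugate *ᵥ vR) j := by
        rw [← RingHom.map_adjugate, hvR]
        simp only [mulVec, dotProduct, Int.cast_sum, Int.cast_mul, RingHom.mapMatrix_apply,
          map_apply, Module.Basis.equivFun_apply, Int.coe_castRingHom]
      rw [h2, h3, hWR, adjugate_smul, smul_mulVec, Fintype.card_fin, Pi.smul_apply, smul_eq_mul]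
    have h4 := (norm_le_pi_norm _ j).trans (hC t ⟨ht0, ht1⟩)
    simp only [Pi.smul_apply, smul_eq_mul, Real.norm_eq_abs, abs_mul, abs_inv] at h4
    have hAd : 0 < |(A t).det| := abs_pos.2 (hAdet t ht0 ht1)
    have h5 : |((A t).adjugate *ᵥ vR) j| ≤ C * |(A t).det| := by
      rw [inv_mul_le_iff₀ hAd] at h4
      linarith
    rw [h1, hdetR, abs_mul, abs_mul, abs_pow, abs_pow, abs_of_pos hLR]
    have hpow : (L : ℝ) ^ n = L ^ (n - 1) * L := by
      rw [← pow_succ, Nat.sub_add_cancel hn]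
    have h6 : (D : ℝ) * C ≤ δ * L := by
      have h7 : (D : ℝ) * C / δ ≤ L := (Nat.le_ceil _).trans (by exact_mod_cast hL)
      rw [div_le_iff₀ hδ] at h7
      linarith
    have hP : 0 ≤ (L : ℝ) ^ (n - 1) := by positivity
    calc (D : ℝ) * ((L : ℝ) ^ (n - 1) * |((A t).adjugate *ᵥ vR) j|)
        ≤ (D : ℝ) * ((L : ℝ) ^ (n - 1) * (C * |(A t).det|)) := by gcongr
      _ = ((D : ℝ) * C) * ((L : ℝ) ^ (n - 1) * |(A t).det|) := by ring
      _ ≤ (δ * L) * ((L : ℝ) ^ (n - 1) * |(A t).det|) := by gcongr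
      _ = δ * ((L : ℝ) ^ n * |(A t).det|) := by rw [hpow]; ring
  -- coprimality
  have hZ : ((W.det : ℤ) : ZMod D) = (L : ZMod D) ^ n := by
    have h1 := RingHom.map_det (Int.castRingHom (ZMod D)) W
    have h2 : (Int.castRingHom (ZMod D)).mapMatrix W = (L : Matrix (Fin n) (Fin n) (ZMod D)) := by
      rw [hW1, map_add, map_mul, map_mul, map_natCast, map_natCast, map_natCast]
      have h3 : ((D : ℕ) : Matrix (Fin n) (Fin n) (ZMod D)) = 0 := by
        rw [← mul_one ((D : ℕ) : Matrix (Fin n) (Fin n) (ZMod D)), ← nsmul_eq_mul,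
          ← Nat.cast_smul_eq_nsmul (ZMod D), ZMod.natCast_self, zero_smul]
      rw [h3, zero_mul, mul_zero, add_zero]
    rw [h2] at h1
    have h4 : ((L : ℕ) : Matrix (Fin n) (Fin n) (ZMod D)) =
        (L : ZMod D) • (1 : Matrix (Fin n) (Fin n) (ZMod D)) := by
      rw [Nat.cast_smul_eq_nsmul, nsmul_eq_mul, mul_one]
    rw [h4, det_smul, det_one, mul_one, Fintype.card_fin] at h1
    exact h1
  have hunit : IsUnit ((W.det : ℤ) : ZMod D) := by
    rw [hZ]
    exact ((ZMod.isUnit_iff_coprime L D).2 hcop).pow n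
  have habs : 0 < W.det.natAbs := Int.natAbs_pos.2 hdet0
  have hcopQ : W.det.natAbs.Coprime D := by
    rw [← ZMod.isUnit_iff_coprime]
    rcases Int.natAbs_eq W.det with h1 | h1
    · rw [h1] at hunit
      simpa using hunit
    · rw [h1] at hunit
      simpa using hunit
  have hcast : ((W.det.natAbs : ℕ) : ℝ) = |((W.det : ℤ) : ℝ)| := by
    rw [Nat.cast_natAbs, Int.cast_abs]
  rcases Int.natAbs_eq W.det with h1 | h1
  · refine ⟨W.det.natAbs, h₀, habs, hcopQ, ?_, ?_⟩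
    · rw [hmul]
      congr 1
      conv_lhs => rw [h1]
      rw [Int.cast_natCast]
    · intro j
      rw [hcast]
      exact hcoord j
  · refine ⟨W.det.natAbs, -h₀, habs, hcopQ, ?_, ?_⟩
    · rw [mul_neg, hmul, ← neg_mul]
      congr 1
      conv_lhs => rw [h1]
      rw [Int.cast_neg, Int.cast_natCast, neg_neg]
    · intro j
      rw [hcast, map_neg, Finsupp.neg_apply, Int.cast_neg, abs_neg]
      exact hcoord j

end NFV
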