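import Pool.Agent.NFV.Targets3

/-!
# NFV: a Kummer lemma
-/

set_option autoImplicit false

open Polynomial FirstOrder

noncomputable section

namespace NFV

namespace KUM_

theorem base {N N' : Type} [Field N] [Field N'] [Algebra N N'] {q : ℕ} (x : N) (w : N') (d : N)
    (hq : q ≠ 0) (hx : x ≠ 0) (hw : w ^ q = algebraMap N N' x)
    (h : ∃ u : N, algebraMap N N' u = w) :
    ∃ (j : ℕ) (u : N), u ≠ 0 ∧ x = d ^ j * u ^ q := by
  obtain ⟨u, hu⟩ := h
  have h1 : u ^ q = x := (algebraMap N N').injective (by rw [map_pow, hu, hw])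
  refine ⟨0, u, ?_, by rw [pow_zero, one_mul, h1]⟩
  rintro rfl
  rw [zero_pow hq] at h1
  exact hx h1.symm

theorem act {N N' : Type} [Field N] [Field N'] [Algebra N N'] {q : ℕ} (hq : 0 < q) {ζ : N'}
    (hζ : IsPrimitiveRoot ζ q) (σ : N' ≃ₐ[N] N') (z : N') (hz : z ≠ 0) (c : N)
    (h : z ^ q = algebraMap N N' c) : ∃ i < q, σ z = ζ ^ i * z := by
  have : NeZero q := ⟨hq.ne'⟩
  have h1 : (σ z / z) ^ q = 1 := by
    rw [div_pow, ← map_pow, h, AlgEquiv.commutes, ← h, div_self (pow_ne_zero _ hz)]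
  obtain ⟨i, hi, h2⟩ := hζ.eq_pow_of_pow_eq_one h1
  exact ⟨i, hi, by rw [h2, div_mul_cancel₀ _ hz]⟩

theorem solve {q i : ℕ} (hq : q.Prime) (hi : i < q) (h0 : i ≠ 0) (k : ℕ) :
    ∃ j, i * j ≡ k [MOD q] := by
  have h1 : Nat.Coprime i q := Nat.Coprime.symm ((Nat.Prime.coprime_iff_not_dvd hq).2
    fun h => absurd (Nat.le_of_dvd (Nat.pos_of_ne_zero h0) h) (not_le.2 hi))
  obtain ⟨m, _, hm⟩ := Nat.exists_mul_mod_eq_one_of_coprime h1 hq.one_lt
  refine ⟨m * k, ?_⟩
  have h2 : i * m ≡ 1 [MOD q] := by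
    rw [Nat.ModEq, hm, Nat.mod_eq_of_lt hq.one_lt]
  have h3 := h2.mul_right k
  rwa [one_mul, mul_assoc] at h3

theorem pow_eq {N' : Type} [Field N'] {q : ℕ} {ζ : N'} (hζ : IsPrimitiveRoot ζ q) {a b : ℕ}
    (h : a ≡ b [MOD q]) : ζ ^ a = ζ ^ b := by
  rw [pow_eq_pow_mod a hζ.pow_eq_one, pow_eq_pow_mod b hζ.pow_eq_one, h]

theorem iter {N N' : Type} [Field N] [Field N'] [Algebra N N'] (ζ : N) (σ : N' ≃ₐ[N] N')
    (δ : N') (i : ℕ) (h : σ δ = (algebraMap N N' ζ) ^ i * δ) (m : ℕ) :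
    (σ ^ m) δ = (algebraMap N N' ζ) ^ (i * m) * δ := by
  induction m with
  | zero => simp
  | succ m ih =>
    rw [pow_succ', AlgEquiv.mul_apply, ih, map_mul, ← map_pow, AlgEquiv.commutes, map_pow, h,
      ← mul_assoc, ← pow_add]
    rfl

end KUM_

open KUM_

theorem p_KUM : NFV.T_KUM := by
  intro N N' _ _ _ q ζ δ d hq hζ hδ htop x w hx hw
  have hq0 : q ≠ 0 := hq.ne_zero
  by_cases hd : d = 0
  · subst hd
    rw [map_zero] at hδ
    have hδ0 : δ = 0 := (pow_eq_zero_iff hq0).1 hδ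
    rw [hδ0, IntermediateField.adjoin_zero] at htop
    refine base x w 0 hq0 hx hw ?_
    have h1 : w ∈ (⊥ : IntermediateField N N') := htop ▸ IntermediateField.mem_top
    exact IntermediateField.mem_bot.1 h1
  have hinj := (algebraMap N N').injective
  have hζ' : IsPrimitiveRoot (algebraMap N N' ζ) q := hζ.map_of_injective hinj
  have hδ0 : δ ≠ 0 := by
    rintro rfl
    rw [zero_pow hq0] at hδ
    exact hd ((map_eq_zero_iff _ hinj).1 hδ.symm)
  have hw0 : w ≠ 0 := by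
    rintro rfl
    rw [zero_pow hq0] at hw
    exact hx ((map_eq_zero_iff _ hinj).1 hw.symm)
  have hne : NeZero q := ⟨hq0⟩
  have hqN : ((q : ℕ) : N) ≠ 0 := hζ.neZero'.out
  have hmap : (X ^ q - C d : N[X]).map (algebraMap N N') = X ^ q - C (algebraMap N N' d) := by
    simp
  have hint : IsIntegral N δ := IsIntegral.of_pow hq.pos (by
    rw [hδ]; exact isIntegral_algebraMap)
  have hA : Algebra.adjoin N {δ} = ⊤ := by
    rw [← IntermediateField.adjoin_simple_toSubalgebra_of_isAlgebraic hint.isAlgebraic, htop]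
    rfl
  have hsplit : (X ^ q - C d : N[X]).IsSplittingField N N' := by
    refine ⟨?_, ?_⟩
    · rw [hmap]
      exact X_pow_sub_C_splits_of_isPrimitiveRoot hζ' hδ
    · rw [eq_top_iff, ← hA]
      refine Algebra.adjoin_mono (Set.singleton_subset_iff.2 ?_)
      rw [mem_rootSet_of_ne (X_pow_sub_C_ne_zero hq.pos d)]
      simp [hδ]
  have : FiniteDimensional N N' :=
    Polynomial.IsSplittingField.finiteDimensional N' (X ^ q - C d : N[X])
  have : IsGalois N N' :=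
    IsGalois.of_separable_splitting_field (p := (X ^ q - C d : N[X]))
      (separable_X_pow_sub_C d hqN hd)
  have hext : ∀ σ τ : N' ≃ₐ[N] N', σ δ = τ δ → σ = τ := by
    intro σ τ h
    have h1 : (σ : N' →ₐ[N] N') = (τ : N' →ₐ[N] N') :=
      AlgHom.ext_of_adjoin_eq_top hA (by
        intro z hz
        rw [Set.mem_singleton_iff] at hz
        rw [hz]
        exact h)
    exact AlgEquiv.ext fun z => DFunLike.congr_fun h1 z
  by_cases hall : ∀ σ : N' ≃ₐ[N] N', σ δ = δ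
  · refine base x w d hq0 hx hw ?_
    rw [← Set.mem_range, IsGalois.mem_range_algebraMap_iff_fixed]
    intro σ
    rw [hext σ 1 (hall σ)]
    rfl
  · push Not at hall
    obtain ⟨σ, hσ⟩ := hall
    obtain ⟨i, hi, hi2⟩ := act hq.pos hζ' σ δ hδ0 d hδ
    have hi0 : i ≠ 0 := by
      rintro rfl
      rw [pow_zero, one_mul] at hi2
      exact hσ hi2
    obtain ⟨k, _, hk2⟩ := act hq.pos hζ' σ w hw0 x hw
    obtain ⟨j, hj⟩ := solve hq hi hi0 k
    have hz : σ (w / δ ^ j) = w / δ ^ j := by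
      rw [map_div₀, map_pow, hi2, hk2, mul_pow, ← pow_mul, pow_eq hζ' hj]
      have h1 : algebraMap N N' ζ ^ k ≠ 0 := pow_ne_zero _ (hζ'.ne_zero hq0)
      rw [mul_div_mul_left _ _ h1]
    have hmem : w / δ ^ j ∈ Set.range (algebraMap N N') := by
      rw [IsGalois.mem_range_algebraMap_iff_fixed]
      intro τ
      obtain ⟨i', _, hi'⟩ := act hq.pos hζ' τ δ hδ0 d hδ
      obtain ⟨m, hm⟩ := solve hq hi hi0 i'
      have h1 : τ = σ ^ m := hext _ _ (by rw [hi', iter ζ σ δ i hi2, pow_eq hζ' hm])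
      rw [h1]
      clear h1 hm
      induction m with
      | zero => rfl
      | succ m ih => rw [pow_succ, AlgEquiv.mul_apply, hz, ih]
    obtain ⟨u, hu⟩ := hmem
    have hδj : δ ^ j ≠ 0 := pow_ne_zero _ hδ0
    refine ⟨j, u, ?_, ?_⟩
    · rintro rfl
      rw [map_zero] at hu
      exact (div_ne_zero hw0 hδj) hu.symm
    · apply hinj
      rw [map_mul, map_pow, map_pow, ← hδ, hu, ← hw, div_pow, ← pow_mul, ← pow_mul,
        mul_comm q j, mul_div_cancel₀ _ (pow_ne_zero _ hδ0)]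

end NFV
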