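import Pool.Agent.NFV.Targets

/-!
# NFV: LAM, a lattice of multiples has many points
-/

set_option autoImplicit false

open Polynomial FirstOrder

noncomputable section

namespace NFV

lemma LAM_inj {n N₀ m w : ℕ} (T : (Fin n → ℤ) →+ (Fin n → ℤ)) (hT : Function.Injective T)
    (hN₀ : 0 < N₀) (hm : 0 < m) (hw : 0 < w)
    (hbd : ∀ y (Y : ℝ), (∀ j, |(y j : ℝ)| ≤ Y) →
      ∀ j, |((T y j - N₀ * y j : ℤ) : ℝ)| ≤ N₀ * Y / 2) :
    (2 * (m * w) + 1) ^ n ≤ {x | x ∈ box n (N₀ * m * (4 * w)) ∧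
      x + (fun _ => -((2 * (N₀ * m) * w : ℕ) : ℤ)) ∈ T.range}.ncard := by
  set c : Fin n → ℤ := fun _ => -((2 * (N₀ * m) * w : ℕ) : ℤ) with hc
  have hfin : {x | x ∈ box n (N₀ * m * (4 * w)) ∧ x + c ∈ T.range}.Finite :=
    (box n (N₀ * m * (4 * w))).finite_toSet.subset (fun x hx => hx.1)
  have hcard : (Fintype.piFinset fun _ : Fin n =>
      Finset.Icc (-((m * w : ℕ) : ℤ)) ((m * w : ℕ) : ℤ)).card = (2 * (m * w) + 1) ^ n := by
    rw [Fintype.card_piFinset_const, Int.card_Icc]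
    congr 1
    omega
  rw [← hcard, ← Set.ncard_coe_finset]
  refine Set.ncard_le_ncard_of_injOn (fun y => T y - c) ?_ ?_ hfin
  · intro y hy
    have hy' : ∀ j, -((m * w : ℕ) : ℤ) ≤ y j ∧ y j ≤ ((m * w : ℕ) : ℤ) := by
      intro j
      have h1 := Finset.mem_coe.1 hy
      rw [Fintype.mem_piFinset] at h1
      exact Finset.mem_Icc.1 (h1 j)
    have habs : ∀ j, |(y j : ℝ)| ≤ ((m * w : ℕ) : ℝ) := by
      intro j
      rw [abs_le]
      obtain ⟨h1, h2⟩ := hy' j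
      constructor
      · have h3 : ((-((m * w : ℕ) : ℤ) : ℤ) : ℝ) ≤ ((y j : ℤ) : ℝ) := Int.cast_le.2 h1
        push_cast at h3 ⊢
        exact h3
      · have h3 : ((y j : ℤ) : ℝ) ≤ ((((m * w : ℕ) : ℤ) : ℤ) : ℝ) := Int.cast_le.2 h2
        push_cast at h3 ⊢
        exact h3
    have hb := hbd y _ habs
    have hpos : (0 : ℝ) < N₀ * (m * w) := by positivity
    refine ⟨?_, ?_⟩
    · rw [box, Fintype.mem_piFinset]
      intro j
      rw [Finset.mem_Ico]
      have h1 := hb j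
      rw [abs_le] at h1
      have h2 := habs j
      rw [abs_le] at h2
      have hN : (0 : ℝ) < N₀ := by exact_mod_cast hN₀
      have h3 : (N₀ : ℝ) * (y j : ℝ) ≤ N₀ * ((m * w : ℕ) : ℝ) :=
        mul_le_mul_of_nonneg_left h2.2 hN.le
      have h4 : (N₀ : ℝ) * (-((m * w : ℕ) : ℝ)) ≤ N₀ * (y j : ℝ) :=
        mul_le_mul_of_nonneg_left h2.1 hN.le
      push_cast at h1 h3 h4
      have h5 : ((T y j : ℤ) : ℝ) < 2 * (N₀ * m) * w := by nlinarith [h1.2]
      have h6 : -(2 * (N₀ * m) * w : ℝ) < ((T y j : ℤ) : ℝ) := by nlinarith [h1.1]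
      have h5' : T y j < ((2 * (N₀ * m) * w : ℕ) : ℤ) := by
        have : ((T y j : ℤ) : ℝ) < ((((2 * (N₀ * m) * w : ℕ) : ℤ)) : ℝ) := by
          push_cast
          exact h5
        exact_mod_cast this
      have h6' : -((2 * (N₀ * m) * w : ℕ) : ℤ) < T y j := by
        have : (((-((2 * (N₀ * m) * w : ℕ) : ℤ)) : ℤ) : ℝ) < ((T y j : ℤ) : ℝ) := by
          push_cast
          exact h6
        exact_mod_cast this
      have h7 : (T y - c) j = T y j + ((2 * (N₀ * m) * w : ℕ) : ℤ) := by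
        rw [Pi.sub_apply, hc]
        ring
      rw [h7]
      have h8 : ((N₀ * m * (4 * w) : ℕ) : ℤ) =
          ((2 * (N₀ * m) * w : ℕ) : ℤ) + ((2 * (N₀ * m) * w : ℕ) : ℤ) := by
        push_cast
        ring
      rw [h8]
      constructor <;> linarith
    · rw [sub_add_cancel]
      exact ⟨y, rfl⟩
  · intro y _ y' _ h
    exact hT (sub_left_injective h)

theorem p_LAM (h_EQD : T_EQD) : T_LAM := by
  intro n N₀ M w T hT hN₀ hdvd hM hw hbd hmem
  obtain ⟨m, rfl⟩ := hdvd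
  have hm : 0 < m := Nat.pos_of_ne_zero (by rintro rfl; simp at hM)
  have e := h_EQD n (N₀ * m) (4 * w) T.range hM hmem
    (fun _ => -((2 * (N₀ * m) * w : ℕ) : ℤ))
  have h4 : 4 * (N₀ * m) * w = N₀ * m * (4 * w) := by ring
  rw [h4, ← e]
  have h := LAM_inj T hT hN₀ hm hw hbd
  have hN : (0 : ℝ) < N₀ := by exact_mod_cast hN₀
  have h2 : ((4 * ((N₀ * m : ℕ) : ℝ) * w : ℝ) / (2 * N₀)) = 2 * (m * w) := by
    push_cast
    field_simp
    ring
  rw [h2]
  calc (2 * ((m : ℝ) * w)) ^ n ≤ (2 * ((m : ℝ) * w) + 1) ^ n :=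
        pow_le_pow_left₀ (by positivity) (by linarith) n
    _ = (((2 * (m * w) + 1) ^ n : ℕ) : ℝ) := by push_cast; ring
    _ ≤ _ := Nat.cast_le.2 h

end NFV
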