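import Pool.Agent.NFV.Defs

/-!
# NFV: targets (statements; complete proofs in the docstrings)

Throughout `Φ : N →*₀ B` is a homomorphism from a field to a finite commutative group with zero
(think: classes modulo `q`-th powers).  `Φ (m z) = Φ (m z') ↔ Φ z = Φ z'` for `m ≠ 0`.
-/

set_option autoImplicit false

open Polynomial FirstOrder

noncomputable section

namespace NFV

/-! ## A. Near constancy -/

/-- PCK (packing).  PROOF.  Let `β = |B|`, `d = n β`.  Choose `m ≥ 1` with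
`((m + 1) ^ d + 1) ^ 2 * (1 - η) ^ m < 1` (polynomial against exponential; if `η ≥ 1` no two
elements are separated, and `K = 1` works), put `K = (m + 1) ^ d`.  Suppose `U` has more than `K`
elements; pass to a subset with exactly `K + 1` elements.  For `u ≠ v` in `U` the number of
`r : Fin m → Fin X` with `Φ (u + r i) = Φ (v + r i)` for all `i` is `(X - dis Φ X u v) ^ m
≤ ((1 - η) X) ^ m`.  Summing over the at most `(K + 1) ^ 2` pairs we get less than `X ^ m`, so some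
`r` separates: the map `u ↦ (i ↦ Φ (u + r i))` is injective on `U`.  But such a pattern is
determined by the `β` sets `{i | Φ (u + r i) = c}`, `c : B`; for fixed `c` the family
`{i | Φ (u + r i) = c} ⊆ Fin m`, `u ∈ U`, shatters no set of `n` elements (else `NoShat` fails with
`a i = r i`, `c i = c`), so by Sauer-Shelah (`Finset.card_le_card_shatterer`,
`Finset.card_shatterer_le_sum_vcDim`) it has at most `∑_{j<n} (m choose j) ≤ (m + 1) ^ n` members.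
(`n = 0` contradicts `NoShat`.)  So `K + 1 ≤ (m + 1) ^ (n β)`, a contradiction. -/
def T_PCK : Prop :=
  ∀ (N B : Type) [Field N] [CommGroupWithZero B] [Finite B] (Φ : N →*₀ B) (n : ℕ),
    NoShat Φ n → ∀ η : ℝ, 0 < η → ∃ K : ℕ, ∀ X : ℕ, 0 < X → ∀ U : Finset N,
      (∀ u ∈ U, ∀ v ∈ U, u ≠ v → η * X < dis Φ X u v) → U.card ≤ K

/-- CAP (common almost periods).  PROOF.  `K` from PCK, `M = K ^ K` (if `K = 0`, `M = 1`; in fact
`K ≥ 1`).  Given `X > 0`, a separated set `U` (as in PCK) of largest cardinality satisfies: for each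
`w : N` there is `v ∈ U` with `dis X w v ≤ η X`.  For `i = 0, …, M` let `f_i : U → U` with
`dis X (v + i s) (f_i v) ≤ η X`.  There are at most `K ^ K = M` maps `U → U`, so `f_i = f_j` for
some `i < j ≤ M`; `k = j - i`.  Let `u : N`, `w = u - i s`, `v ∈ U` with `dis X w v ≤ η X`.  Shifting
the window by `i s ≤ M s ≤ η X` gives `dis X (w + i s) (v + i s) ≤ 2 η X`, same for `j`, and
`dis X (v + i s) (v + j s) ≤ 2 η X` through `f_i v = f_j v`.  By the triangle inequality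
`dis X u (u + k s) ≤ 6 η X` (`w + i s = u`, `w + j s = u + k s`; `dis` is symmetric). -/
def T_CAP : Prop :=
  ∀ (N B : Type) [Field N] [CommGroupWithZero B] [Finite B] (Φ : N →*₀ B) (n : ℕ),
    NoShat Φ n → ∀ η : ℝ, 0 < η → ∃ M : ℕ, 0 < M ∧ ∀ X s : ℕ, 0 < X → (M : ℝ) * s ≤ η * X →
      ∃ k : ℕ, 0 < k ∧ k ≤ M ∧ ∀ u : N, (dis Φ X (u + ((k * s : ℕ) : N)) u : ℝ) ≤ 6 * η * X

/-- DIL (dilation and extension of scale).  PROOF.  (1) `r = m r' + a`, `0 ≤ a < m`: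
`dis (m X) (u + m t) u = ∑_a #{r' < X : Φ (u + m t + m r' + a) ≠ Φ (u + m r' + a)} =
∑_a dis X ((u + a) / m + t) ((u + a) / m)`, since `Φ (m z) ≠ Φ (m z')` iff `Φ z ≠ Φ z'`.
(2) cover `[0, X')` by `⌈X' / X⌉ ≤ X' / X + 1 ≤ 2 X' / X` intervals `[j X, (j + 1) X)`, on each of
which the number of disagreements is `≤ dis X (u + j X + t) (u + j X) ≤ η X`.
(3) symmetry, and the substitution `v = u - t`. -/
def T_DIL : Prop :=
  ∀ (N B : Type) [Field N] [CharZero N] [CommGroupWithZero B] (Φ : N →*₀ B),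
    (∀ (X m : ℕ) (t : N) (c : ℝ), 0 < m → (∀ u : N, (dis Φ X (u + t) u : ℝ) ≤ c) →
      ∀ u : N, (dis Φ (m * X) (u + m * t) u : ℝ) ≤ m * c) ∧
    (∀ (X X' : ℕ) (t : N) (η : ℝ), 0 < X → X ≤ X' → 0 ≤ η →
      (∀ u : N, (dis Φ X (u + t) u : ℝ) ≤ η * X) → ∀ u : N, (dis Φ X' (u + t) u : ℝ) ≤
        2 * η * X') ∧
    (∀ (X : ℕ) (t : N) (c : ℝ), (∀ u : N, (dis Φ X (u + t) u : ℝ) ≤ c) →
      ∀ u : N, (dis Φ X (u - t) u : ℝ) ≤ c)

/-- NCL (near constancy on lines).  PROOF.  Put `η = ε / 12`, `M` from CAP, `D = M !`,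
`δ = η / (2 M)`, `X₀ = 2 D`.  Let `t = D s`, `s ≥ 0` (negative `t` by DIL (3), `t = 0` is trivial),
`t ≤ δ X`, `Y = ⌈M s / η⌉₊ ≥ 1` so `M s ≤ η Y`.  CAP at scale `Y` gives `1 ≤ k ≤ M` such that `k s`
is a common almost period at scale `Y` (bound `6 η Y`).  With `m = D / k` (an integer) DIL (1) shows
that `m k s = D s = t` is one at scale `m Y`, and DIL (2) gives the bound `12 η X = ε X` at each
scale `X ≥ m Y`; and `m Y ≤ D (M s / η + 1) = M t / η + D ≤ X / 2 + X / 2`. -/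
def T_NCL : Prop :=
  ∀ (N B : Type) [Field N] [CharZero N] [CommGroupWithZero B] [Finite B] (Φ : N →*₀ B) (n : ℕ),
    NoShat Φ n → ∀ ε : ℝ, 0 < ε → ∃ (D : ℕ) (δ : ℝ) (X₀ : ℕ), 0 < D ∧ 0 < δ ∧
      ∀ X : ℕ, X₀ ≤ X → ∀ t : ℤ, (D : ℤ) ∣ t → |(t : ℝ)| ≤ δ * X →
        ∀ u : N, (dis Φ X (u + (t : N)) u : ℝ) ≤ ε * X

/-- NCB (near constancy on cubes).  PROOF.  (`n = 0`: both sides are trivial: the cube has one
point and `G (c + x + t) = G (c + x)`.)  Apply NCL with `ε / n` (or `ε / (n + 1)`).  Put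
`v j = e (single j 1) ≠ 0`, so `e y = ∑ y j v j`.  Go from `x` to `x + t` changing one coordinate
after the other: `t^(j)` = first `j` coordinates of `t`.  For each `j` and each choice of the other
coordinates of `x`, the number of `x_j ∈ [0, X)` with
`Φ (e (c + x + t^(j+1))) ≠ Φ (e (c + x + t^(j)))` is `dis X (u + t_j) u` for a suitable
`u = (…) / v j : N`, because `Φ (w + v j r) = Φ (v j) Φ (w / v j + r)`; so it is `≤ (ε / n) X`.
Sum over the `X ^ (n - 1)` choices and over `j`. -/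
def T_NCB : Prop :=
  ∀ (N B : Type) [Field N] [CharZero N] [CommGroupWithZero B] [Finite B] (Φ : N →*₀ B) (k : ℕ),
    NoShat Φ k → ∀ (n : ℕ) (ε : ℝ), 0 < ε → ∃ (D : ℕ) (δ : ℝ) (X₀ : ℕ), 0 < D ∧ 0 < δ ∧
      ∀ e : (Fin n → ℤ) →+ N, Function.Injective e → NC n (fun y => Φ (e y)) D ε δ X₀

/-! ## B. Combinatorics in `ℤ ^ n` -/

/-- EQD (equidistribution).  PROOF.  `x ↦ (x + c) mod (M q)` (coordinatewise `Int.emod`) is a
bijection of the cube `[0, M q) ^ n` onto itself, and `x + c ∈ L` iff its image is in `L`, as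
the difference is in `M q ℤ ^ n ⊆ L`. -/
def T_EQD : Prop :=
  ∀ (n M q : ℕ) (L : AddSubgroup (Fin n → ℤ)), 0 < M → (∀ y : Fin n → ℤ, (M : ℤ) • y ∈ L) →
    ∀ c : Fin n → ℤ, {x | x ∈ box n (M * q) ∧ x + c ∈ L}.ncard =
      {x | x ∈ box n (M * q) ∧ x ∈ L}.ncard

/-- MAJ (majority values).  Write `X = 4 M p z`, `h' = 6 M z`, `μ = M z`, and for `a` in
`box n X` let `C a` be the set of `y` with `- μ ≤ N₀ y j - a j < h' - μ` and
`D ∣ N₀ y j - a j` for all `j`.  PROOF.  `C a` is a product over `j` of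
`{y : y ≡ N₀⁻¹ a j mod D, (a j - μ) / N₀ ≤ y < (a j - μ + h') / N₀}`, an interval of length
`h' / N₀`, a multiple of `D`; so `|C a| = (h' / (D N₀)) ^ n ≥ 6 z > |B|` (recall `D N₀ ∣ M`).
Let `maj a` be a most frequent value of `G` on `C a`; it is taken at least twice, so it is not `b₀`.
`#{y ∈ C a : G y ≠ maj a} * |C a| ≤ #{(y, y') ∈ (C a) ^ 2 : G y ≠ G y'}` (for each `y'`,
`#{y : G y ≠ G y'} ≥ #{y : G y ≠ maj a}`).  Sum over `a`: if `y, y' ∈ C a` then `t = y' - y` is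
divisible by `D` (`N₀` is prime to `D`) with `|N₀ t j| < h'`: at most `(2 h' / (N₀ D)) ^ n` values of
`t`.  Given `t` and `y` there are at most `(h' / D) ^ n` points `a` with `y ∈ C a`; and
`- μ ≤ N₀ y j < X + h' - μ` puts `y` in a translate of `box n Y`, `Y = (X + h') / N₀`
(`N₀ ∣ M`).  Here `Y ≥ z ≥ X₀`, `|t j| ≤ h' / N₀ ≤ δ X / N₀ ≤ δ Y`, so by `NC` at most `ε Y ^ n` of
them have `G (y + t) ≠ G y`.  Altogether the number of `(a, y)`, `y ∈ C a`, `G y ≠ maj a` is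
`≤ (2 h' / (N₀ D)) ^ n (h' / D) ^ n ε Y ^ n / (h' / (D N₀)) ^ n = 2 ^ n (h' / D) ^ n ε Y ^ n
≤ ε 4 ^ n (h' X / (D N₀)) ^ n` as `Y ≤ 2 X / N₀`. -/
def T_MAJ : Prop :=
  ∀ (n : ℕ) (B : Type) [Finite B] (b₀ : B) (G : (Fin n → ℤ) → B) (D N₀ M p z X₀ : ℕ) (ε δ : ℝ),
    0 < n → 0 < D → 0 < N₀ → N₀.Coprime D → D * N₀ ∣ M → 0 < M → 2 ≤ p → 2 ≤ p * δ → 0 < ε →
    X₀ ≤ z → Nat.card B < z → NC n G D ε δ X₀ →
    (∀ y y', G y = b₀ → G y' = b₀ → y = y') →
    ∃ maj : (Fin n → ℤ) → B, (∀ a ∈ box n (4 * M * p * z), maj a ≠ b₀) ∧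
      ∀ P : Finset ((Fin n → ℤ) × (Fin n → ℤ)), (∀ r ∈ P, r.1 ∈ box n (4 * M * p * z) ∧
        (∀ j, -((M * z : ℕ) : ℤ) ≤ N₀ * r.2 j - r.1 j ∧
          (N₀ * r.2 j - r.1 j : ℤ) < ((5 * M * z : ℕ) : ℤ) ∧
          (D : ℤ) ∣ N₀ * r.2 j - r.1 j) ∧ G r.2 ≠ maj r.1) →
        (P.card : ℝ) ≤ ε * 4 ^ n * ((6 * M * z) * (4 * M * p * z) / (D * N₀)) ^ n

/-- LAM (a lattice of multiples has many points).  PROOF.  By EQD with `c j = - 2 M w` the right
hand side is the number of points of `range T` in `[- 2 M w, 2 M w) ^ n`.  If `|y j| ≤ M w / N₀` for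
all `j` then `|T y j| ≤ (3 / 2) M w < 2 M w`; `T` is injective, and there are
`(2 M w / N₀ + 1) ^ n ≥ (4 M w / (2 N₀)) ^ n` such `y`. -/
def T_LAM : Prop :=
  ∀ (n N₀ M w : ℕ) (T : (Fin n → ℤ) →+ (Fin n → ℤ)), Function.Injective T → 0 < N₀ → N₀ ∣ M →
    0 < M → 0 < w → (∀ y (Y : ℝ), (∀ j, |(y j : ℝ)| ≤ Y) →
      ∀ j, |((T y j - N₀ * y j : ℤ) : ℝ)| ≤ N₀ * Y / 2) → (∀ y : Fin n → ℤ, (M : ℤ) • y ∈ T.range) →
    ((4 * M * w : ℝ) / (2 * N₀)) ^ n ≤ ({x | x ∈ box n (4 * M * w) ∧ x ∈ T.range}.ncard : ℝ)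

/-- DBC (double counting).  PROOF.  Count pairs `(a, x)`, `a : Fin k → A`, `x : H` with
`Rl i (a i) x` for all `i` in two ways: `|A| ^ k τ = |H| ∏ λ i`.  For each `i` the number of such
pairs with `Bd i (a i) x` is `|{(a', x) : Bd i}| ∏_{j ≠ i} λ j ≤ ε' |H| λ i ∏_{j ≠ i} λ j =
ε' |A| ^ k τ`.  Each `a` which is not good (every admissible `x` is bad for some `i`) contributes at
least `τ` pairs to the sum over `i`, so there are at most `k ε' |A| ^ k` such `a`. -/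
def T_DBC : Prop :=
  ∀ (k : ℕ) (A H : Type) [Fintype A] [Fintype H] (Rl Bd : Fin k → A → H → Prop)
    (lam : Fin k → ℕ) (τ : ℕ) (ε' : ℝ), 0 < τ → (∀ i a x, Bd i a x → Rl i a x) →
    (∀ i x, Nat.card {a // Rl i a x} = lam i) →
    (∀ a : Fin k → A, Nat.card {x // ∀ i, Rl i (a i) x} = τ) →
    (∀ i, (Nat.card {r : A × H // Bd i r.1 r.2} : ℝ) ≤ ε' * (Nat.card H * lam i)) →
    (Nat.card {a : Fin k → A // ∀ x, (∀ i, Rl i (a i) x) → ∃ i, Bd i (a i) x} : ℝ) ≤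
      k * ε' * (Nat.card A : ℝ) ^ k

/-- ACR (the shattering configuration).  PROOF.  Let `z > max X₀ |B|`, `X = 4 M p z`, `h = 4 M z`.
`A` = `box n X`, `H` = the points of `box n h` in `D ℤ ^ n`; for `S : Finset (Fin k)` let
`T_i^S = T i` if `i ∈ S`, else multiplication by `N i`.  Relation `Rl i a x`: `x + a` is in the range
of `T_i^S`.  By EQD (`M ℤ ^ n` is in the range; `M ∣ X`, `M ∣ h`): `#{a ∈ A : Rl i a x} = λ i` for
all `x`; and by CRT and EQD (for `L = D ℤ ^ n ∩ ⋂ range T_i^S`) the number of `x ∈ H` with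
`Rl i (a i) x` for all `i` is a constant `τ ≥ 1`.  Take `maj_i` from MAJ for `N₀ = N i`, and
`Bd i a x`: `x + a = T_i^S y` with `G y ≠ maj_i a`.  If `Rl i a x`, `x + a = T_i^S y`, then
`|y| ≤ 2 |x + a| / N i ≤ 3 X / N i` (sup norms; `|T y| ≥ N |y| (1 - 1 / (16 p))`), so
`|T y - N y| ≤ N |y| / (16 p) ≤ (3 / 4) M z`, so `N i y - a = x - (T_i^S y - N i y)` lies in
`[- M z, 5 M z) ^ n` and is divisible by `D`.  As `(a, x) ↦ (a, y)` is injective, MAJ gives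
`|{(a, x) : Bd i a x}| ≤ ε 4 ^ n (6 M z X / (D N i)) ^ n`, while `|H| = (h / D) ^ n = (4 M z / D) ^ n`
and `λ i ≥ (X / (2 N i)) ^ n` (LAM); the quotient is `≤ ε (4 * 6 * 2 / 4) ^ n = ε 12 ^ n`.
By DBC at most `k 12 ^ n ε |A| ^ k` tuples `a` are bad for `S`; sum over the `2 ^ k` sets `S`: less
than `|A| ^ k`, so some `a` is good for all `S`. -/
def T_ACR : Prop :=
  ∀ (n k : ℕ) (B : Type) [Finite B] (b₀ : B) (G : (Fin n → ℤ) → B) (D p X₀ : ℕ) (ε δ : ℝ),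
    0 < n → 0 < D → 0 < ε → k * 2 ^ k * 16 ^ n * ε < 1 → 2 ≤ p → 2 ≤ p * δ → NC n G D ε δ X₀ →
    (∀ y y', G y = b₀ → G y' = b₀ → y = y') →
    ∀ (N : Fin k → ℕ) (T : Fin k → ((Fin n → ℤ) →+ (Fin n → ℤ))) (M : ℕ), 0 < M →
    (∀ i, 0 < N i ∧ (N i).Coprime D ∧ D * N i ∣ M ∧ Function.Injective (T i)) →
    (∀ i y (Y : ℝ), (∀ j, |(y j : ℝ)| ≤ Y) →
      ∀ j, |((T i y j - N i * y j : ℤ) : ℝ)| ≤ N i * Y / (16 * p)) →
    (∀ (i : Fin k) (y : Fin n → ℤ), Dv D (T i y - (N i : ℤ) • y)) → (∀ (i : Fin k) (y : Fin n → ℤ), (M : ℤ) • y ∈ (T i).range) →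
    (∀ (S : Finset (Fin k)) (a : Fin k → (Fin n → ℤ)), ∃ x, Dv D x ∧
      ∀ i, ∃ y, x + a i = if i ∈ S then T i y else (N i : ℤ) • y) →
    ∃ (a : Fin k → (Fin n → ℤ)) (maj : Fin k → B), (∀ i, maj i ≠ b₀) ∧
      ∀ S : Finset (Fin k), ∃ x, ∀ i, ∃ y,
        (x + a i = if i ∈ S then T i y else (N i : ℤ) • y) ∧ G y = maj i

/-! ## C. Local constancy -/

/-- STA.  PROOF.  `n > 0` and `R` is a domain (`φ` injective).  Let `k` be the number of `NoShat`,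
`ε = 1 / (2 (k + 1) 2 ^ k 16 ^ n)`, `D, δ, X₀` from NCB, `p = ⌈2 / δ⌉₊ + 2`.  The structure constants
give `C ≥ 1` with `|(y w)_j| ≤ C |y| |w|` (sup norms of coordinates).  Suppose the claim fails for all
`D', δ'`.  Then for each `E ≥ 1` divisible by `D` there are `N' ≥ 1` prime to `E` and `η : R` with
`E |η| ≤ N' / (16 p C)` and `m = N' + E η`, `Φ m ≠ Φ N'`; `m ≠ 0` (since `|m w - N' w| ≤ N' |w| / 2`
for all `w`), so there is `Q ≥ 1` with `Q ∈ m R` (integrality).  Start with `E = D` and replace `E`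
by `E N' Q` at each step: we get `E_i, N_i, m_i, Q_i`, `i < k`.  For `j < i`: `N_j Q_j ∣ E_i`, and
`m_i ≡ N_i mod E_i` is invertible modulo `E_i`; so the ideals `(D)` and `(m_i^S)` (`i < k`;
`m_i^S` is `m_i` or `N_i`) are pairwise comaximal, which gives CRT
(`Ideal.exists_forall_sub_mem_ideal`).  Put `M = D ∏ N_i Q_i`, `T i` = multiplication by `m_i` in
coordinates, `G y = Φ (φ (∑ y_j b_j))`, `b₀ = 0`.  ACR gives `a`, `maj`, `x_S`:
`Φ (x_S + a_i) = Φ (m_i^S) maj_i`, which is `Φ (m_i) maj_i` iff `i ∈ S`: this contradicts `NoShat`. -/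
def T_STA : Prop :=
  ∀ (N B : Type) [Field N] [CharZero N] [CommGroupWithZero B] [Finite B] (Φ : N →*₀ B) (k : ℕ),
    NoShat Φ k → ∀ (R : Type) [CommRing R] (n : ℕ) (b : Module.Basis (Fin n) ℤ R) (φ : R →+* N),
      Function.Injective φ → ∃ (D : ℕ) (δ : ℝ), 0 < D ∧ 0 < δ ∧ STA Φ φ b D δ

/-- INV (the inverses on the path).  PROOF.  For `t ∈ [0, 1]` the matrix `A_t = 1 + t D M_g`
(`M_g = mulM b g`) is invertible, so the entries of `A_t⁻¹ = (det A_t)⁻¹ adj A_t` are continuous on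
`[0, 1]` and bounded; let `C` bound the coordinates of `A_t⁻¹ (coordinates of g)`.  For
`w = L + k D g`, `t = k / L`, the matrix of `w` is `L A_t`, so `Q₀ = det (leftMulMatrix b w) ≠ 0` and
`h₀ :=` the element with coordinates `adjugate (leftMulMatrix b w) *ᵥ b.repr g` satisfies
`w h₀ = Q₀ g` and `coordinates of h₀ = Q₀ L⁻¹ A_t⁻¹ (b.repr g)`: at most `|Q₀| C / L`.
Take `L₀ ≥ C D / δ`, `Q = |Q₀|`, `h = ± h₀`.  `Q₀ ≡ L ^ n mod D` is prime to `D`. -/
def T_INV : Prop :=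
  ∀ (R : Type) [CommRing R] (n : ℕ) (b : Module.Basis (Fin n) ℤ R) (g : R) (D : ℕ), 0 < D →
    (∀ t : ℝ, 0 ≤ t → t ≤ 1 → (1 + (t * D) • mulM b g).det ≠ 0) → ∀ δ : ℝ, 0 < δ →
      ∃ L₀ : ℕ, ∀ L : ℕ, L₀ ≤ L → 0 < L → L.Coprime D → ∀ k : ℕ, k ≤ L → ∃ (Q : ℕ) (h : R),
        0 < Q ∧ Q.Coprime D ∧ ((L : R) + k * (D * g)) * h = Q * g ∧
        ∀ j, (D : ℝ) * |((b.repr h j : ℤ) : ℝ)| ≤ δ * Q

/-- CHN (straight paths).  PROOF.  `g = 0` is trivial.  Let `L` be large, `L ≡ 1 mod D`,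
`w_k = L + k D g` (`k = 0, …, L`); INV: `w_k h = Q g`, so `w_k ≠ 0` and
`w_k (Q + D h) = Q (w_k + D g) = Q w_{k+1}`.  By `STA`, `Φ (Q + D h) = Φ Q ≠ 0`, so
`Φ w_k = Φ w_{k+1}`.  Hence `Φ (L (1 + D g)) = Φ w_L = Φ w_0 = Φ L`. -/
def T_CHN : Prop :=
  ∀ (N B : Type) [Field N] [CharZero N] [CommGroupWithZero B] (Φ : N →*₀ B)
    (R : Type) [CommRing R] (n : ℕ) (b : Module.Basis (Fin n) ℤ R) (φ : R →+* N) (D : ℕ) (δ : ℝ),
    Function.Injective φ → 0 < D → 0 < δ → STA Φ φ b D δ → ∀ g : R,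
      (∀ t : ℝ, 0 ≤ t → t ≤ 1 → (1 + (t * D) • mulM b g).det ≠ 0) → Φ (φ (1 + D * g)) = 1

/-- EIG.  PROOF.  If the determinant is zero there is a nonzero vector in the kernel, that is a
nonzero real polynomial `v` of degree `< deg f` such that `f` divides `(1 + c g) v` in `ℝ[X]`
(the powers of the root are a basis of `ℝ[X] / (f)` and the matrix of multiplication by `g` is the
image of the integral one).  If `f` and `1 + c g` had no common complex root they would be coprime,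
so `f ∣ v`, a contradiction. -/
def T_EIG : Prop :=
  ∀ (f : ℤ[X]) (hf : f.Monic) (g : ℤ[X]) (c : ℝ),
    (1 + c • mulM (AdjoinRoot.powerBasis' hf).basis (AdjoinRoot.mk f g)).det = 0 →
      ∃ α : ℂ, aeval α f = 0 ∧ 1 + (c : ℂ) * aeval α g = 0

/-- COR (local constancy, positive at the real places).  PROOF.  `f = minpoly ℤ θ` is monic and
`R = AdjoinRoot f ≅ ℤ[θ]` embeds in `N` (`minpoly.equivAdjoin`); `D` from STA.  By CHN and EIG:
(*) if `1 + t D g(α) ≠ 0` for all complex roots `α` of `f` and `t ∈ [0, 1]`, that is if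
`1 + D g(α)` is not in `(-∞, 0]`, then `Φ (1 + D g(θ)) = 1`.  Now let `y = 1 + D g(θ) ≠ 0` be
positive at the real roots; then `y(α) ≠ 0` for every complex root (else `f ∣ 1 + D g` by
irreducibility and `y = 0`).  For a large integer `j` put `w = 1 + D j + D X`: at every root
`w(α)` has positive real part, so (*) applies to `w`.  And (*) applies to `w y`: at real roots
both factors are positive; at a nonreal root `α`, `(1 + D j + D α) y(α)` is real for at most one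
`j` if `y(α)` is not real, and never if `y(α)` is real (nonzero); there are finitely many roots.
So `Φ w = 1` and `Φ (w y) = 1`. -/
def T_COR : Prop :=
  ∀ (N B : Type) [Field N] [CharZero N] [CommGroupWithZero B] [Finite B] (Φ : N →*₀ B) (k : ℕ),
    NoShat Φ k → ∀ θ : N, IsIntegral ℤ θ → ∃ D : ℕ, 0 < D ∧ ∀ g : ℤ[X],
      (∀ α : ℝ, aeval α (minpoly ℤ θ) = 0 → 0 < 1 + D * aeval α g) →
      (1 : N) + D * aeval θ g ≠ 0 → Φ (1 + D * aeval θ g) = 1

end NFV
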