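import Pool.Agent.NFV.Defs

/-!
# NFV: targets, part 2 (statements; complete proofs in the docstrings)
-/

set_option autoImplicit false

open Polynomial FirstOrder

noncomputable section

namespace NFV

/-! ## D. Algebra -/

/-- WSG (a polynomial which is negative at one real number only).  PROOF.  Let `A ≥ 1` be an integer
with `3 ≤ A |α - β|` for the finitely many real roots `α ≠ β` of `f`, `r = round (A β)`;
`G = (A X - r) ^ 2 - 2`: at `β` it is `≤ 1 / 4 - 2`, and `|A α - r| ≥ 3 - 1 / 2`. -/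
def T_WSG : Prop :=
  ∀ (f : ℤ[X]) (β : ℝ), f ≠ 0 → ∃ G : ℤ[X], aeval β G ≤ -1 ∧
    ∀ α : ℝ, aeval α f = 0 → α ≠ β → 1 ≤ aeval α G

/-- PCL (the class function).  PROOF.  `B = WithZero (Nˣ ⧸ (powMonoidHom q).range)`,
`Φ 0 = 0` and `Φ x` = the class of `x` for `x ≠ 0`; finite by `FinCl`. -/
def T_PCL : Prop :=
  ∀ (N : Type) [Field N] (q : ℕ), 0 < q → FinCl N q →
    ∃ (B : Type) (_ : CommGroupWithZero B) (_ : Finite B) (Φ : N →*₀ B),
      Function.Surjective Φ ∧ ∀ x y : N, Φ x = Φ y ↔ ∃ u : N, u ≠ 0 ∧ x = y * u ^ q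

/-- FN2 (finitely many square classes in quadratic extensions).  PROOF.  Conjugation
`x + y s ↦ x - y s` is well defined, and the norm is `x ^ 2 - d y ^ 2 : F`.  Let `C` be the finite
set for `F`.  For each `c ∈ C` such that some `z ≠ 0` has norm in `c F^{*2}` fix one, `z_c`.  For
`z ≠ 0` with norm in `c F^{*2}`, `w = z / z_c` has norm `e ^ 2`, `e ∈ F^*`; `v = w / e` has norm `1`.
If `v = -1` then `w = - e`; otherwise `v = (1 + v) ^ 2 / norm (1 + v)` as the conjugate of `v` is
`1 / v`.  So `w ∈ F^* N^{*2}`, and `z ∈ z_c c' N^{*2}` for some `c' ∈ C`. -/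
def T_FN2 : Prop :=
  ∀ (F N : Type) [Field F] [CharZero F] [Field N] [Algebra F N] (s : N) (d : F),
    s ^ 2 = algebraMap F N d → s ∉ Set.range (algebraMap F N) →
    (∀ z : N, ∃ x y : F, z = algebraMap F N x + algebraMap F N y * s) →
    FinCl F 2 → FinCl N 2

/-- DEC (components of algebraic elements).  PROOF.  If `p ∈ ℚ[X]`, `p ≠ 0`, `p (x + y s) = 0`, write
`p (x + y s) = A + A' s` with `A, A' ∈ K`; as `s ∉ K` we get `A = A' = 0`, so
`p (x - y s) = A - A' s = 0` too.  So `x` and `y s` are algebraic over `ℚ`; `s` is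
algebraic (`d` is) and `s ≠ 0`. -/
def T_DEC : Prop :=
  ∀ (K M : Type) [Field K] [CharZero K] [Field M] [CharZero M] [Algebra K M] (s : M) (d : K),
    s ^ 2 = algebraMap K M d → s ∉ Set.range (algebraMap K M) → IsAlgebraic ℚ d →
    ∀ x y : K, IsAlgebraic ℚ (algebraMap K M x + algebraMap K M y * s) →
      IsAlgebraic ℚ x ∧ IsAlgebraic ℚ y

/-- ARC (algebraic elements of an ordered field are reals).  PROOF.  `algebraicClosure ℚ K` with
the induced order is archimedean: if `x` is a root of a monic polynomial with rational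
coefficients `c_i`, `|x| ≤ 1 + ∑ |c_i|`.  `LinearOrderedField.inducedOrderRingHom` (namespace in
`Mathlib.Algebra.Order.CompleteField`); a monotone ring homomorphism of fields is injective,
so strictly monotone. -/
def T_ARC : Prop :=
  ∀ (K : Type) [Field K] [LinearOrder K] [IsStrictOrderedRing K],
    ∃ ι : algebraicClosure ℚ K →+* ℝ, ∀ x : algebraicClosure ℚ K, 0 < (x : K) → 0 < ι x

/-- PRM (primitive integral element).  PROOF.  Primitive element theorem for
`IntermediateField.adjoin ℚ {b, s}`, multiply by a nonzero integer to make it integral. -/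
def T_PRM : Prop :=
  ∀ (N : Type) [Field N] [CharZero N] (b s : N), IsAlgebraic ℚ b → IsAlgebraic ℚ s →
    ∃ θ : N, IsIntegral ℤ θ ∧ b ∈ IntermediateField.adjoin ℚ {θ} ∧
      s ∈ IntermediateField.adjoin ℚ {θ}

/-- FRC (clearing denominators, and real embeddings).  PROOF.  (1) `y` is a polynomial in `θ` with
rational coefficients.  (2) `minpoly ℚ θ` is the image of `minpoly ℤ θ`
(`minpoly.isIntegrallyClosed_eq_field_fractions'`); lift to the simple extension. -/
def T_FRC : Prop :=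
  ∀ (N : Type) [Field N] [CharZero N] (θ : N), IsIntegral ℤ θ →
    (∀ y ∈ IntermediateField.adjoin ℚ {θ}, ∃ (m : ℕ) (P : ℤ[X]), 0 < m ∧ m * y = aeval θ P) ∧
    (∀ α : ℝ, aeval α (minpoly ℤ θ) = 0 →
      ∃ σ : IntermediateField.adjoin ℚ {θ} →+* ℝ,
        σ ⟨θ, IntermediateField.mem_adjoin_simple_self ℚ θ⟩ = α)

/-! ## E. Model theory -/

/-- VCM (finite VC dimension in finite extensions).  PROOF.  Let `e` be a basis of `M` over `K`,
`m` its cardinality, `γ i j l` the structure constants.  There is a formula in the language of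
rings with free variables `x` (`m` variables) and `a, c` (`m` variables each) and `γ` (`m ^ 3`
variables) expressing `∃ y ≠ 0, x + a = c y ^ q` in coordinates: each coordinate of `c y ^ q`
is a polynomial with integer coefficients in `c, y, γ`.  (Terms: `FirstOrder.Ring.termOfFreeCommRing`,
`realize_termOfFreeCommRing`, and `LHom.onTerm` / `LHom.onFormula` to pass to the sum language;
`Formula.iExs` for the quantifiers.)  Apply `NIP K` to it (reindex the variables by `Fin`). -/
def T_VCM : Prop :=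
  ∀ (K M : Type) [Field K] [LinearOrder K] [IsStrictOrderedRing K] [Ring.CompatibleRing K]
    [Language.order.Structure K] [Language.order.OrderedStructure K] [Field M] [Algebra K M]
    [FiniteDimensional K M], NIP K → ∀ q : ℕ, ∃ n : ℕ, ∀ a c : Fin n → M,
      ∃ S : Finset (Fin n), ∀ x : M, ¬ ∀ i, ((∃ y : M, y ≠ 0 ∧ x + a i = c i * y ^ q) ↔ i ∈ S)

/-- NSH (from finite extensions to their algebraic numbers).  PROOF.  Given `a`, `c` lift
`c i = Φ (c' i)`.  For `x` in `algebraicClosure ℚ M`: `Φ (x + a i) = c i` iff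
`∃ u ≠ 0, x + a i = c' i u ^ q` with `u` algebraic over `ℚ`, iff the same with `y` in `M`: if
`c' i ≠ 0` then `y ^ q` is algebraic over `ℚ`, hence `y` is; if `c' i = 0` take `u = 1`. -/
def T_NSH : Prop :=
  ∀ (M : Type) [Field M] [CharZero M] (q n : ℕ), 0 < q →
    (∀ a c : Fin n → M, ∃ S : Finset (Fin n), ∀ x : M,
      ¬ ∀ i, ((∃ y : M, y ≠ 0 ∧ x + a i = c i * y ^ q) ↔ i ∈ S)) →
    ∀ (B : Type) [CommGroupWithZero B] (Φ : algebraicClosure ℚ M →*₀ B),
      Function.Surjective Φ → (∀ x y, Φ x = Φ y ↔ ∃ u, u ≠ 0 ∧ x = y * u ^ q) → NoShat Φ n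

/-! ## F. The first theorem -/

/-- SQR (positive algebraic elements are squares).  PROOF.  `F = algebraicClosure ℚ K`,
`ι : F → ℝ` from ARC (`0 < x ↔ 0 < ι x`).  `FinCl F 2`: choose representatives in `F`
(`K^{*2} ∩ F = F^{*2}`).  `Φ_F` from PCL, `NoShat` from VCM (`M = K`) and NSH (transport along
`K = K`).  Let `b ∈ F`, `b > 0`; as `b` is a square iff `m ^ 2 b` is, assume `b` integral over
`ℤ`.  `f = minpoly ℤ b`, `β = ι b > 0`.  COR for `(F, b)`: `D`.  WSG for `(f, β)`: `G`.
`n₁ = 1 + 2 D G(b)`: `ι n₁ ≤ 1 - 2 D < 0`.  `d = b n₁ < 0` is not a square in `K`;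
`M = AdjoinRoot (X ^ 2 - C d)`, `s` the root, `N = algebraicClosure ℚ M`.  By DEC and FN2
`FinCl N 2`; `Φ_N` from PCL, `NoShat` from VCM, NSH.  PRM for the images of `b` and `s` in `N`: `θ`;
COR for `(N, θ)`: `D'`.  FRC: `m b = P(θ)`; with `e = deg G`, `m ^ e G(b) = H(θ)`, `H ∈ ℤ[X]`.
Put `x = 1 + 2 D D' m ^ e G(b) = 1 + D' (2 D H)(θ)`; `ι x ≤ 1 - 2 < 0`.
Let `α` be a real root of `minpoly ℤ θ`, `σ : ℚ(θ) → ℝ` with `σ θ = α`; `σ b` is a root of `f` and
`σ(s) ^ 2 = σ(b) (1 + 2 D G(σ b))`; if `σ b = β` this is negative, impossible; so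
`G(σ b) ≥ 1` and `1 + D' (2 D H)(α) = σ x = 1 + 2 D D' m ^ e G(σ b) > 0`.  By COR `Φ_N x = 1`: `x` is
a square in `N ⊆ M`, `x = (u + v s) ^ 2`, `2 u v = 0`; `v = 0` is impossible (`x < 0`), so
`x = d v ^ 2` and `x d` is a square in `K`.  On the other hand `x n₁ = 1 + D g(b)` for some
`g ∈ ℤ[X]`, positive at each real root `α` of `f` (for `α = β` product of two negative
numbers, otherwise of two positive ones), so `Φ_F (x n₁) = 1`: `x n₁` is a square in `F`.
Hence `b = (x d) / (x n₁)` is a square in `K`. -/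
def T_SQR : Prop :=
  ∀ (K : Type) [Field K] [LinearOrder K] [IsStrictOrderedRing K] [Ring.CompatibleRing K]
    [Language.order.Structure K] [Language.order.OrderedStructure K], NIP K →
    (∃ C : Finset K, ∀ a : K, a ≠ 0 → IsAlgebraic ℚ a → ∃ c ∈ C, ∃ y : K, a = c * y ^ 2) →
    ∀ a : K, 0 < a → IsAlgebraic ℚ a → IsSquare a

end NFV
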