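import Pool.Agent.NFV.Targets3
import Pool.Agent.NFV.Targets2
import Pool.Agent.NFV.Targets

/-!
# NFV: LCO (local constancy for orders) (helper91)
-/

set_option autoImplicit false

open Polynomial FirstOrder

noncomputable section

namespace NFV

namespace LCO_

lemma isAlg {N R : Type} [Field N] [CharZero N] [CommRing R] [Module.Finite ℤ R] (φ : R →+* N)
    (x : R) : IsAlgebraic ℚ (φ x) := by
  have h1 : IsIntegral ℤ x := Algebra.IsIntegral.isIntegral x
  have h2 : IsIntegral ℤ (φ x) := h1.map φ.toIntAlgHom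
  exact (h2.tower_top (A := ℚ)).isAlgebraic

lemma prim (hPRM : T_PRM) {N R : Type} [Field N] [CharZero N] [CommRing R] [Module.Finite ℤ R]
    (φ : R →+* N) (t : Finset R) : ∃ θ : N, IsIntegral ℤ θ ∧
      ∀ x ∈ t, φ x ∈ IntermediateField.adjoin ℚ {θ} := by
  classical
  induction t using Finset.induction_on with
  | empty => exact ⟨0, isIntegral_zero, fun x hx => absurd hx (Finset.notMem_empty x)⟩
  | insert x t _ ih =>
    obtain ⟨θ, h1, h2⟩ := ih
    obtain ⟨θ', h3, h4, h5⟩ := hPRM N θ (φ x) (h1.tower_top (A := ℚ)).isAlgebraic (isAlg φ x)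
    refine ⟨θ', h3, fun y hy => ?_⟩
    rcases Finset.mem_insert.1 hy with rfl | hy
    · exact h5
    · exact (IntermediateField.adjoin_simple_le_iff.2 h4) (h2 y hy)

lemma clear (hFRC : T_FRC) {N R : Type} [Field N] [CharZero N] [CommRing R]
    (φ : R →+* N) (θ : N) (hθ : IsIntegral ℤ θ) (t : Finset R)
    (ht : ∀ x ∈ t, φ x ∈ IntermediateField.adjoin ℚ {θ}) : ∃ m : ℕ, 0 < m ∧
      ∀ x ∈ t, ∃ P : ℤ[X], (m : N) * φ x = aeval θ P := by
  classical
  induction t using Finset.induction_on with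
  | empty => exact ⟨1, one_pos, fun x hx => absurd hx (Finset.notMem_empty x)⟩
  | insert x t _ ih =>
    obtain ⟨m, h1, h2⟩ := ih fun y hy => ht y (Finset.mem_insert_of_mem hy)
    obtain ⟨m', P, h3, h4⟩ := (hFRC N θ hθ).1 _ (ht x (Finset.mem_insert_self x t))
    refine ⟨m * m', Nat.mul_pos h1 h3, fun y hy => ?_⟩
    rcases Finset.mem_insert.1 hy with rfl | hy
    · refine ⟨(m : ℤ[X]) * P, ?_⟩
      rw [map_mul, ← h4, map_natCast, Nat.cast_mul]
      ring
    · obtain ⟨Q, hQ⟩ := h2 y hy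
      refine ⟨(m' : ℤ[X]) * Q, ?_⟩
      rw [map_mul, ← hQ, map_natCast, Nat.cast_mul]
      ring

end LCO_

open LCO_ in
theorem p_LCO (hCOR : T_COR) (hPRM : T_PRM) (hFRC : T_FRC) : T_LCO := by
  classical
  intro N B _ _ _ _ Φ k hk R _ _ φ hφ hj
  obtain ⟨j, hj⟩ := hj
  obtain ⟨s, hs⟩ := (Module.Finite.fg_top : (⊤ : Submodule ℤ R).FG)
  obtain ⟨θ, h1, h2⟩ := prim hPRM φ (insert j s)
  obtain ⟨D₀, hD₀, hD⟩ := hCOR N B Φ k hk θ h1
  obtain ⟨m, hm, hm2⟩ := clear hFRC φ θ h1 (insert j s) h2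
  have key : ∀ r : R, ∃ P : ℤ[X], (m : N) * φ r = aeval θ P := by
    intro r
    have hr : r ∈ Submodule.span ℤ (s : Set R) := by
      rw [hs]
      exact Submodule.mem_top
    induction hr using Submodule.span_induction with
    | mem x hx => exact hm2 x (Finset.mem_insert_of_mem hx)
    | zero => exact ⟨0, by simp⟩
    | add x y _ _ hx hy =>
      obtain ⟨P, hP⟩ := hx
      obtain ⟨Q, hQ⟩ := hy
      exact ⟨P + Q, by rw [map_add, map_add, mul_add, hP, hQ]⟩
    | smul a x _ hx =>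
      obtain ⟨P, hP⟩ := hx
      refine ⟨(a : ℤ[X]) * P, ?_⟩
      rw [map_mul, ← hP, map_intCast, zsmul_eq_mul, map_mul, map_intCast]
      ring
  have hreal : ∀ α : ℝ, aeval α (minpoly ℤ θ) ≠ 0 := by
    intro α hα
    obtain ⟨σ, _⟩ := (hFRC N θ h1).2 α hα
    have h3 : φ j ∈ IntermediateField.adjoin ℚ {θ} := h2 j (Finset.mem_insert_self j s)
    have h4 : (⟨φ j, h3⟩ : IntermediateField.adjoin ℚ {θ}) ^ 2 = -1 := by
      refine Subtype.ext ?_
      show (φ j) ^ 2 = -1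
      rw [← map_pow, hj, map_neg, map_one]
    have h5 : (σ ⟨φ j, h3⟩) ^ 2 = -1 := by
      rw [← map_pow, h4, map_neg, map_one]
    nlinarith [sq_nonneg (σ ⟨φ j, h3⟩)]
  refine ⟨2 * m * D₀, by nlinarith [Nat.mul_pos hm hD₀], fun r hr => ?_⟩
  obtain ⟨P, hP⟩ := key r
  have h6 : φ (1 + ((2 * m * D₀ : ℕ) : R) * r) = 1 + (D₀ : N) * aeval θ (2 * P) := by
    rw [map_add, map_one, map_mul, map_natCast, map_mul, ← hP]
    push_cast
    rw [map_ofNat]
    ring
  rw [h6]
  refine hD (2 * P) (fun α hα => absurd hα (hreal α)) ?_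
  rw [← h6]
  intro h7
  refine hr (hφ ?_)
  rw [h7, map_zero]

end NFV
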