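import Pool.Agent.NFV.Targets

/-! # NFV: majority values on windows (target MAJ) -/

set_option autoImplicit false

open Polynomial FirstOrder

noncomputable section

namespace NFV

lemma MAJ_card_mod (D q : ℕ) (hD : 0 < D) (k r : ℤ) :
    ((Finset.Ico k (k + (D * q : ℕ))).filter fun y => y ≡ r [ZMOD D]).card = q := by
  have hD' : (0 : ℤ) < D := by exact_mod_cast hD
  have h := Int.Ico_filter_modEq_card k (k + (D * q : ℕ)) hD' r
  have hDq : ((D : ℤ) : ℚ) ≠ 0 := by exact_mod_cast hD.ne'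
  have h1 : (((k + (D * q : ℕ) : ℤ) : ℚ) - r) / ((D : ℤ) : ℚ) =
      ((k : ℚ) - r) / ((D : ℤ) : ℚ) + ((q : ℤ) : ℚ) := by
    push_cast at hDq ⊢
    field_simp
    ring
  rw [h1, Int.ceil_add_intCast] at h
  omega

lemma MAJ_exists_res (D N₀ : ℕ) (hc : N₀.Coprime D) (a : ℤ) :
    ∃ r : ℤ, ∀ y : ℤ, (D : ℤ) ∣ N₀ * y - a ↔ y ≡ r [ZMOD D] := by
  have h1 : IsCoprime (N₀ : ℤ) (D : ℤ) := Nat.isCoprime_iff_coprime.2 hc
  obtain ⟨u, v, huv⟩ := h1
  refine ⟨u * a, fun y => ?_⟩
  rw [Int.modEq_comm, Int.modEq_iff_dvd]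
  constructor
  · rintro ⟨w, hw⟩
    refine ⟨u * w + v * y, ?_⟩
    linear_combination u * hw - y * huv
  · rintro ⟨w, hw⟩
    refine ⟨N₀ * w - v * a, ?_⟩
    linear_combination N₀ * hw + a * huv

lemma MAJ_I (D N₀ q : ℕ) (hD : 0 < D) (hN : 0 < N₀) (hc : N₀.Coprime D) (L a : ℤ) :
    ∃ I : Finset ℤ, (∀ y, y ∈ I ↔ (L ≤ N₀ * y - a ∧ N₀ * y - a < L + (D * N₀ * q : ℕ) ∧
      (D : ℤ) ∣ N₀ * y - a)) ∧ I.card = q := by
  obtain ⟨r, hr⟩ := MAJ_exists_res D N₀ hc a
  have hN' : (0 : ℤ) < N₀ := by exact_mod_cast hN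
  refine ⟨_, fun y => ?_, MAJ_card_mod D q hD (-((-(L + a)) / N₀)) r⟩
  rw [Finset.mem_filter, Finset.mem_Ico, ← hr, and_assoc]
  have h1 : ∀ y : ℤ, -((-(L + a)) / N₀) ≤ y ↔ L ≤ N₀ * y - a := by
    intro y
    have := Int.le_ediv_iff_mul_le (a := -y) (b := -(L + a)) hN'
    constructor
    · intro h
      have h2 := this.1 (by linarith)
      linarith
    · intro h
      have h2 := this.2 (by linarith)
      linarith
  have h2 : y < -((-(L + a)) / N₀) + (D * q : ℕ) ↔ N₀ * y - a < L + (D * N₀ * q : ℕ) := by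
    have h3 := h1 (y - (D * q : ℕ))
    push_cast at h3 ⊢
    constructor
    · intro h
      by_contra h4
      rw [not_lt] at h4
      have := h3.2 (by linarith)
      linarith
    · intro h
      by_contra h4
      rw [not_lt] at h4
      have := h3.1 (by linarith)
      linarith
  rw [h1, h2]

lemma MAJ_J (D N₀ q : ℕ) (hD : 0 < D) (L y : ℤ) :
    ∃ J : Finset ℤ, (∀ a, a ∈ J ↔ (L ≤ N₀ * y - a ∧ N₀ * y - a < L + (D * N₀ * q : ℕ) ∧
      (D : ℤ) ∣ N₀ * y - a)) ∧ J.card = N₀ * q := by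
  refine ⟨_, fun a => ?_, MAJ_card_mod D (N₀ * q) hD (N₀ * y - L - (D * N₀ * q : ℕ) + 1) (N₀ * y)⟩
  rw [Finset.mem_filter, Finset.mem_Ico, Int.modEq_iff_dvd]
  push_cast
  constructor
  · rintro ⟨⟨h1, h2⟩, h3⟩
    refine ⟨by linarith, by linarith, h3⟩
  · rintro ⟨h1, h2, h3⟩
    refine ⟨⟨by linarith, by linarith⟩, h3⟩

lemma MAJ_T (D q : ℕ) : ∃ T : Finset ℤ, (∀ t : ℤ, (D : ℤ) ∣ t → |t| < (D * q : ℕ) → t ∈ T) ∧
    T.card ≤ 2 * q := by
  refine ⟨(Finset.Ioo (-(q : ℤ)) q).image fun s => (D : ℤ) * s, ?_, ?_⟩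
  · rintro t ⟨s, rfl⟩ h
    rw [Finset.mem_image]
    refine ⟨s, ?_, rfl⟩
    rw [Finset.mem_Ioo, ← abs_lt]
    rw [abs_mul] at h
    push_cast at h
    rw [Nat.abs_cast] at h
    exact lt_of_mul_lt_mul_left h (by positivity)
  · refine Finset.card_image_le.trans ?_
    rw [Int.card_Ioo]
    omega

open Classical in
lemma MAJ_pairs {α B : Type} (C : Finset α) (G : α → B) (c : B)
    (h : ∀ c', (C.filter fun y => G y = c').card ≤ (C.filter fun y => G y = c).card) :
    C.card * (C.filter fun y => G y ≠ c).card ≤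
      ((C ×ˢ C).filter fun r => G r.1 ≠ G r.2).card := by
  have h1 : ((C ×ˢ C).filter fun r => G r.1 ≠ G r.2).card =
      ∑ y' ∈ C, (C.filter fun y => G y ≠ G y').card := by
    rw [Finset.card_filter, Finset.sum_product_right]
    refine Finset.sum_congr rfl fun y' _ => ?_
    rw [Finset.card_filter]
  have h2 : ∀ c', (C.filter fun y => G y ≠ c').card =
      C.card - (C.filter fun y => G y = c').card := by
    intro c'
    have := Finset.card_filter_add_card_filter_not (s := C) (fun y => G y = c')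
    simp only [ne_eq]
    omega
  rw [h1, ← smul_eq_mul, ← Finset.sum_const]
  refine Finset.sum_le_sum fun y' _ => ?_
  rw [h2, h2]
  have := h (G y')
  omega

open Classical in
lemma MAJ_max {α B : Type} [Finite B] [Nonempty B] (C : Finset α) (G : α → B)
    (hC : Nat.card B < C.card) : ∃ c : B,
    (∀ c', (C.filter fun y => G y = c').card ≤ (C.filter fun y => G y = c).card) ∧
      2 ≤ (C.filter fun y => G y = c).card := by
  obtain ⟨c, hc⟩ := Finite.exists_max fun c : B => (C.filter fun y => G y = c).card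
  refine ⟨c, hc, ?_⟩
  by_contra h
  rw [not_le] at h
  have := Fintype.ofFinite B
  have h1 : C.card = ∑ c' : B, (C.filter fun y => G y = c').card :=
    Finset.card_eq_sum_card_fiberwise fun _ _ => by simp
  have h2 : ∑ c' : B, (C.filter fun y => G y = c').card ≤ ∑ _c' : B, 1 :=
    Finset.sum_le_sum fun c' _ => (hc c').trans (by omega)
  rw [Finset.sum_const, Finset.card_univ, smul_eq_mul, mul_one, ← Nat.card_eq_fintype_card] at h2
  omega


/-- the points of the window of `a` -/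
def MAJ_W {n : ℕ} (D N₀ q : ℕ) (L : ℤ) (a y : Fin n → ℤ) : Prop :=
  ∀ j, L ≤ N₀ * y j - a j ∧ N₀ * y j - a j < L + (D * N₀ * q : ℕ) ∧ (D : ℤ) ∣ N₀ * y j - a j

lemma MAJ_C (n D N₀ q : ℕ) (hD : 0 < D) (hN : 0 < N₀) (hc : N₀.Coprime D) (L : ℤ)
    (a : Fin n → ℤ) :
    ∃ C : Finset (Fin n → ℤ), (∀ y, y ∈ C ↔ MAJ_W D N₀ q L a y) ∧ C.card = q ^ n := by
  choose I hI hI' using fun a => MAJ_I D N₀ q hD hN hc L a
  refine ⟨Fintype.piFinset fun j => I (a j), fun y => ?_, ?_⟩
  · rw [Fintype.mem_piFinset]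
    simp only [hI]
    rfl
  · rw [Fintype.card_piFinset]
    simp only [hI']
    rw [Finset.prod_const, Finset.card_univ, Fintype.card_fin]

lemma MAJ_CJ (n D N₀ q : ℕ) (hD : 0 < D) (L : ℤ) (y : Fin n → ℤ) :
    ∃ C : Finset (Fin n → ℤ), (∀ a, MAJ_W D N₀ q L a y → a ∈ C) ∧ C.card = (N₀ * q) ^ n := by
  choose J hJ hJ' using fun y => MAJ_J D N₀ q hD L y
  refine ⟨Fintype.piFinset fun j => J (y j), fun a ha => ?_, ?_⟩
  · rw [Fintype.mem_piFinset]
    intro j
    exact (hJ _ _).2 (ha j)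
  · rw [Fintype.card_piFinset]
    simp only [hJ']
    rw [Finset.prod_const, Finset.card_univ, Fintype.card_fin]

lemma MAJ_CT (n D q : ℕ) : ∃ T : Finset (Fin n → ℤ),
    (∀ t : Fin n → ℤ, (∀ j, (D : ℤ) ∣ t j ∧ |t j| < (D * q : ℕ)) → t ∈ T) ∧
      T.card ≤ (2 * q) ^ n := by
  obtain ⟨T, hT, hT'⟩ := MAJ_T D q
  refine ⟨Fintype.piFinset fun _ => T, fun t ht => ?_, ?_⟩
  · rw [Fintype.mem_piFinset]
    exact fun j => hT _ (ht j).1 (ht j).2
  · rw [Fintype.card_piFinset, Finset.prod_const, Finset.card_univ, Fintype.card_fin]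
    exact Nat.pow_le_pow_left hT' n

/-- two points of a window differ by a small multiple of `D` -/
lemma MAJ_diff {n D N₀ q : ℕ} (hN : 0 < N₀) (hc : N₀.Coprime D) {L : ℤ}
    {a y y' : Fin n → ℤ} (h : MAJ_W D N₀ q L a y) (h' : MAJ_W D N₀ q L a y') (j : Fin n) :
    (D : ℤ) ∣ (y' - y) j ∧ |(y' - y) j| < (D * q : ℕ) := by
  obtain ⟨h1, h2, h3⟩ := h j
  obtain ⟨h1', h2', h3'⟩ := h' j
  have hN' : (0 : ℤ) < N₀ := by exact_mod_cast hN
  have e1 : (N₀ : ℤ) * (y' - y) j = (N₀ * y' j - a j) - (N₀ * y j - a j) := by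
    rw [Pi.sub_apply]
    ring
  constructor
  · have h4 : (D : ℤ) ∣ N₀ * (y' - y) j := by
      rw [e1]
      exact dvd_sub h3' h3
    exact (Nat.isCoprime_iff_coprime.2 hc).symm.dvd_of_dvd_mul_left h4
  · have h4 : |(N₀ : ℤ) * (y' - y) j| < N₀ * (D * q : ℕ) := by
      rw [e1, abs_lt]
      push_cast at h2 h2' ⊢
      constructor <;> linarith
    rw [abs_mul, Nat.abs_cast] at h4
    exact lt_of_mul_lt_mul_left h4 hN'.le

open Classical in
/-- the bound on triples `(a, y, y')` -/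
lemma MAJ_triples {n : ℕ} {B : Type} (G : (Fin n → ℤ) → B) (D N₀ q X Y : ℕ) (ε : ℝ)
    (hε : 0 ≤ ε) (hD : 0 < D) (hN : 0 < N₀) (hc : N₀.Coprime D) (L : ℤ) (c : Fin n → ℤ)
    (hy : ∀ a ∈ box n X, ∀ y, MAJ_W D N₀ q L a y → y - c ∈ box n Y)
    (hNC : ∀ t : Fin n → ℤ, (∀ j, (D : ℤ) ∣ t j ∧ |t j| < (D * q : ℕ)) →
      (((box n Y).filter fun x => G (c + x + t) ≠ G (c + x)).card : ℝ) ≤ ε * (Y : ℝ) ^ n)
    (W : Finset ((Fin n → ℤ) × (Fin n → ℤ) × (Fin n → ℤ)))
    (hW : ∀ r ∈ W, r.1 ∈ box n X ∧ MAJ_W D N₀ q L r.1 r.2.1 ∧ MAJ_W D N₀ q L r.1 r.2.2 ∧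
      G r.2.1 ≠ G r.2.2) :
    (W.card : ℝ) ≤ (2 * q : ℝ) ^ n * ((N₀ * q : ℝ) ^ n * (ε * (Y : ℝ) ^ n)) := by
  obtain ⟨T, hT, hT'⟩ := MAJ_CT n D q
  have h1 : W.card = ∑ t ∈ T, (W.filter fun r => r.2.2 - r.2.1 = t).card :=
    Finset.card_eq_sum_card_fiberwise fun r hr => by
      obtain ⟨-, h2, h3, -⟩ := hW r (by simpa using hr)
      exact hT _ fun j => MAJ_diff hN hc h2 h3 j
  have h2 : ∀ t ∈ T, ((W.filter fun r => r.2.2 - r.2.1 = t).card : ℝ) ≤
      (N₀ * q : ℝ) ^ n * (ε * (Y : ℝ) ^ n) := by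
    intro t _
    rcases (W.filter fun r => r.2.2 - r.2.1 = t).eq_empty_or_nonempty with he | ⟨r₀, hr₀⟩
    · rw [he, Finset.card_empty, Nat.cast_zero]
      positivity
    · have ht : ∀ j, (D : ℤ) ∣ t j ∧ |t j| < (D * q : ℕ) := by
        intro j
        rw [Finset.mem_filter] at hr₀
        obtain ⟨-, h2, h3, -⟩ := hW r₀ hr₀.1
        rw [← hr₀.2]
        exact MAJ_diff hN hc h2 h3 j
      have h3 : (W.filter fun r => r.2.2 - r.2.1 = t).card ≤
          (N₀ * q) ^ n * ((box n Y).filter fun x => G (c + x + t) ≠ G (c + x)).card := by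
        refine Finset.card_le_mul_card_image_of_maps_to (f := fun r => r.2.1 - c) ?_ _ ?_
        · intro r hr
          rw [Finset.mem_filter] at hr
          obtain ⟨e1, e2, e3, e4⟩ := hW r hr.1
          rw [Finset.mem_filter]
          refine ⟨hy _ e1 _ e2, ?_⟩
          have e5 : c + (r.2.1 - c) = r.2.1 := by abel
          have e6 : r.2.1 + t = r.2.2 := by rw [← hr.2]; abel
          rw [e5, e6]
          exact Ne.symm e4
        · intro x _
          obtain ⟨J, hJ, hJ'⟩ := MAJ_CJ n D N₀ q hD L (c + x)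
          rw [← hJ']
          refine Finset.card_le_card_of_injOn (fun r => r.1) ?_ ?_
          · intro r hr
            simp only [Finset.coe_filter, Set.mem_ofPred_eq, Finset.mem_filter] at hr
            obtain ⟨e1, e2, e3, e4⟩ := hW r hr.1.1
            refine hJ _ ?_
            rw [← hr.2]
            have e5 : c + (r.2.1 - c) = r.2.1 := by abel
            rw [e5]
            exact e2
          · intro r hr r' hr' he
            simp only [Finset.coe_filter, Set.mem_ofPred_eq, Finset.mem_filter] at hr hr' he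
            have e1 : r.2.1 = r'.2.1 := by
              have := hr.2.trans hr'.2.symm
              exact sub_left_injective this
            have e2 : r.2.2 = r'.2.2 := by
              have := hr.1.2.trans hr'.1.2.symm
              rw [e1] at this
              exact sub_left_injective this
            exact Prod.ext he (Prod.ext e1 e2)
      have h4 : ((W.filter fun r => r.2.2 - r.2.1 = t).card : ℝ) ≤ (N₀ * q : ℝ) ^ n *
          ((box n Y).filter fun x => G (c + x + t) ≠ G (c + x)).card := by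
        exact_mod_cast h3
      refine h4.trans ?_
      gcongr
      exact hNC t ht
  rw [h1, Nat.cast_sum]
  refine (Finset.sum_le_sum h2).trans ?_
  rw [Finset.sum_const, nsmul_eq_mul]
  gcongr
  exact_mod_cast hT'

open Classical in
theorem p_MAJ : T_MAJ := by
  intro n B _ b₀ G D N₀ M p z X₀ ε δ hn hD hN hc hdvd hM hp hpδ hε hX₀ hB hNC hb₀
  obtain ⟨m, rfl⟩ := hdvd
  have hm : 0 < m := Nat.pos_of_ne_zero fun h => by simp [h] at hM
  have hz : 0 < z := lt_of_le_of_lt (Nat.zero_le _) hB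
  have : Nonempty B := ⟨b₀⟩
  set q : ℕ := 6 * m * z with hq
  set L : ℤ := -((D * N₀ * m * z : ℕ) : ℤ) with hL
  set X : ℕ := 4 * (D * N₀ * m) * p * z with hX
  set Y : ℕ := D * m * z * (4 * p + 6) with hY
  set c : Fin n → ℤ := fun _ => -((D * m * z : ℕ) : ℤ) with hcd
  have hq0 : 0 < q := by positivity
  choose C hC hC' using MAJ_C n D N₀ q hD hN hc L
  have hBC : ∀ a, Nat.card B < (C a).card := by
    intro a
    rw [hC']
    have h1 : q ≤ q ^ n := Nat.le_self_pow hn.ne' q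
    have h2 : z ≤ q := by
      rw [hq]
      nlinarith
    omega
  choose maj hmaj hmaj2 using fun a => MAJ_max (C a) G (hBC a)
  refine ⟨maj, fun a _ hab => ?_, fun P hP => ?_⟩
  · have h1 := hmaj2 a
    rw [hab] at h1
    have h2 : ((C a).filter fun y => G y = b₀).card ≤ 1 := by
      rw [Finset.card_le_one]
      intro y hy y' hy'
      rw [Finset.mem_filter] at hy hy'
      exact hb₀ _ _ hy.2 hy'.2
    omega
  · -- the bad pairs
    have h1 : P.card ≤ ∑ a ∈ box n X, ((C a).filter fun y => G y ≠ maj a).card := by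
      rw [← Finset.card_sigma]
      refine Finset.card_le_card_of_injOn (fun r => (⟨r.1, r.2⟩ : Σ _ : Fin n → ℤ, Fin n → ℤ))
        ?_ ?_
      · intro r hr
        obtain ⟨h1, h2, h3⟩ := hP r (by simpa using hr)
        simp only [Finset.mem_coe, Finset.mem_sigma, Finset.mem_filter]
        refine ⟨h1, (hC _ _).2 fun j => ?_, h3⟩
        obtain ⟨e1, e2, e3⟩ := h2 j
        refine ⟨?_, ?_, e3⟩
        · rw [hL]
          exact e1
        · refine e2.trans_le (le_of_eq ?_)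
          rw [hL, hq]
          push_cast
          ring
      · intro r _ r' _ h
        simp only [Sigma.mk.injEq, heq_eq_eq] at h
        exact Prod.ext h.1 h.2
    have h2 : q ^ n * P.card ≤ ∑ a ∈ box n X,
        ((C a ×ˢ C a).filter fun r => G r.1 ≠ G r.2).card := by
      refine (Nat.mul_le_mul_left _ h1).trans ?_
      rw [Finset.mul_sum]
      refine Finset.sum_le_sum fun a _ => ?_
      rw [← hC' a]
      exact MAJ_pairs (C a) G (maj a) (hmaj a)
    -- the triples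
    set f : (Σ _ : Fin n → ℤ, (Fin n → ℤ) × (Fin n → ℤ)) →
      (Fin n → ℤ) × (Fin n → ℤ) × (Fin n → ℤ) := fun r => (r.1, r.2) with hf
    set W : Finset ((Fin n → ℤ) × (Fin n → ℤ) × (Fin n → ℤ)) :=
      ((box n X).sigma fun a => (C a ×ˢ C a).filter fun r => G r.1 ≠ G r.2).image f with hW
    have hWc : W.card = ∑ a ∈ box n X, ((C a ×ˢ C a).filter fun r => G r.1 ≠ G r.2).card := by
      rw [hW, Finset.card_image_of_injective, Finset.card_sigma]
      rintro ⟨r1, r2⟩ ⟨r1', r2'⟩ h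
      simp only [hf, Prod.mk.injEq] at h
      obtain ⟨rfl, h⟩ := h
      rw [h]
    have hδ : 0 < δ := by
      by_contra h
      rw [not_lt] at h
      have : (p : ℝ) * δ ≤ 0 := mul_nonpos_of_nonneg_of_nonpos (by positivity) h
      linarith
    have hNc' : (0 : ℤ) < N₀ := by exact_mod_cast hN
    have h3 := MAJ_triples G D N₀ q X Y ε hε.le hD hN hc L c ?_ ?_ W ?_
    · rw [hWc] at h3
      have h4 : (q : ℝ) ^ n * (P.card : ℝ) ≤ (2 * q : ℝ) ^ n * ((N₀ * q : ℝ) ^ n *
          (ε * (Y : ℝ) ^ n)) := by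
        refine le_trans ?_ h3
        exact_mod_cast h2
      have hq1 : (0 : ℝ) < (q : ℝ) ^ n := by positivity
      have h5 : (P.card : ℝ) ≤ ε * (2 * N₀ * q * Y) ^ n := by
        refine le_of_mul_le_mul_left (h4.trans_eq ?_) hq1
        rw [mul_pow, mul_pow, mul_pow, mul_pow, mul_pow]
        ring
      refine h5.trans ?_
      have h6 : (2 * N₀ * q * Y : ℝ) ≤ 4 * ((6 * ((D * N₀ * m : ℕ) : ℝ) * z) *
          (4 * ((D * N₀ * m : ℕ) : ℝ) * p * z) / (D * N₀)) := by
        have hDr : (D : ℝ) ≠ 0 := by exact_mod_cast hD.ne'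
        have hNr : (N₀ : ℝ) ≠ 0 := by exact_mod_cast hN.ne'
        have e1 : 4 * ((6 * ((D * N₀ * m : ℕ) : ℝ) * z) *
          (4 * ((D * N₀ * m : ℕ) : ℝ) * p * z) / (D * N₀)) =
            96 * (D * N₀ * m ^ 2 * z ^ 2 : ℝ) * p := by
          push_cast
          field_simp
          ring
        have e2 : (2 * N₀ * q * Y : ℝ) = 12 * (D * N₀ * m ^ 2 * z ^ 2 : ℝ) * (4 * p + 6) := by
          rw [hq, hY]
          push_cast
          ring
        rw [e1, e2]
        have hp' : (2 : ℝ) ≤ p := by exact_mod_cast hp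
        have h0 : (0 : ℝ) ≤ D * N₀ * m ^ 2 * z ^ 2 := by positivity
        nlinarith
      have h7 : (2 * N₀ * q * Y : ℝ) ^ n ≤ 4 ^ n * ((6 * ((D * N₀ * m : ℕ) : ℝ) * z) *
          (4 * ((D * N₀ * m : ℕ) : ℝ) * p * z) / (D * N₀)) ^ n := by
        rw [← mul_pow]
        exact pow_le_pow_left₀ (by positivity) h6 n
      exact (mul_le_mul_of_nonneg_left h7 hε.le).trans_eq (by ring)
    · intro a ha y hay
      rw [box, Fintype.mem_piFinset] at ha ⊢
      intro j
      have h4 := ha j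
      rw [Finset.mem_Ico] at h4 ⊢
      obtain ⟨e1, e2, -⟩ := hay j
      simp only [Pi.sub_apply, hcd]
      rw [hL] at e1 e2
      rw [hX] at h4
      rw [hq] at e2
      rw [hY]
      push_cast at e1 e2 h4 ⊢
      constructor
      · have : (N₀ : ℤ) * 0 ≤ N₀ * (y j - -(D * m * z : ℤ)) := by nlinarith
        exact le_of_mul_le_mul_left this hNc'
      · have : (N₀ : ℤ) * (y j - -(D * m * z : ℤ)) < N₀ * (D * m * z * (4 * p + 6) : ℤ) := by
          nlinarith
        exact lt_of_mul_lt_mul_left this hNc'.le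
    · intro t ht
      refine hNC Y ?_ c t (fun j => (ht j).1) fun j => ?_
      · have : z ≤ Y := by
          rw [hY]
          have h1 : 0 < D * m := Nat.mul_pos hD hm
          exact (Nat.le_mul_of_pos_left z h1).trans (Nat.le_mul_of_pos_right _ (by omega))
        omega
      · have h4 : |(t j : ℝ)| < ((D * q : ℕ) : ℝ) := by exact_mod_cast (ht j).2
        refine h4.le.trans ?_
        rw [hq, hY]
        push_cast
        have h0 : (0 : ℝ) ≤ D * m * z := by positivity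
        nlinarith
    · intro r hr
      rw [hW, Finset.mem_image] at hr
      obtain ⟨s, hs, rfl⟩ := hr
      rw [Finset.mem_sigma, Finset.mem_filter, Finset.mem_product] at hs
      exact ⟨hs.1, (hC _ _).1 hs.2.1.1, (hC _ _).1 hs.2.1.2, hs.2.2⟩

end NFV
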