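import Pool.Agent.NFV.Targets

/-!
# NFV, target NCB: near constancy on cubes
-/

set_option autoImplicit false

open Polynomial FirstOrder

noncomputable section

namespace NFV

namespace NCB_

/-- the first `m` coordinates of `t` -/
def tt {n : ℕ} (t : Fin n → ℤ) (m : ℕ) : Fin n → ℤ := fun j => if j.1 < m then t j else 0

lemma tt_zero {n : ℕ} (t : Fin n → ℤ) : tt t 0 = 0 := by
  funext j; simp [tt]

lemma tt_top {n : ℕ} (t : Fin n → ℤ) : tt t n = t := by
  funext j; simp [tt, j.2]

lemma tt_succ {n : ℕ} (t : Fin n → ℤ) (j : Fin n) :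
    tt t (j.1 + 1) = tt t j.1 + Pi.single j (t j) := by
  funext i
  rw [Pi.add_apply]
  by_cases h : i = j
  · subst h
    simp [tt]
  · have h1 : i.1 ≠ j.1 := fun h2 => h (Fin.ext h2)
    rw [Pi.single_eq_of_ne h]
    simp only [tt, add_zero]
    by_cases h2 : i.1 < j.1
    · rw [if_pos h2, if_pos (by omega)]
    · rw [if_neg h2, if_neg (by omega)]

lemma e_single {N : Type} [Field N] {n : ℕ} (e : (Fin n → ℤ) →+ N) (j : Fin n) (a : ℤ) :
    e (Pi.single j a) = (a : N) * e (Pi.single j 1) := by
  have h : (Pi.single j a : Fin n → ℤ) = a • Pi.single j 1 := by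
    rw [← Pi.single_smul, smul_eq_mul, mul_one]
  rw [h, map_zsmul, zsmul_eq_mul]

open Classical in
lemma card_line {N B : Type} [Field N] [CommGroupWithZero B] (Φ : N →*₀ B) {n : ℕ}
    (e : (Fin n → ℤ) →+ N) (he : Function.Injective e) (X : ℕ) (E : ℝ) (c s : Fin n → ℤ)
    (j : Fin n) (a : ℤ) (hE : ∀ u : N, (dis Φ X (u + (a : N)) u : ℝ) ≤ E)
    (y : Fin n → ℤ) :
    ((((box n X).filter fun x => Φ (e (c + x + (s + Pi.single j a))) ≠ Φ (e (c + x + s))).filter
      fun x => Function.update x j 0 = y).card : ℝ) ≤ E := by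
  set v : N := e (Pi.single j 1) with hv
  have hv0 : v ≠ 0 := by
    intro h
    have h1 : e (Pi.single j 1) = e 0 := by rw [← hv, h, map_zero]
    have h2 := congrFun (he h1) j
    rw [Pi.single_eq_same, Pi.zero_apply] at h2
    exact one_ne_zero h2
  set u : N := e (c + y + s) / v with hu
  refine le_trans ?_ (hE u)
  rw [dis, Nat.cast_le]
  refine Finset.card_le_card_of_injOn (fun x => (x j).toNat) ?_ ?_
  · intro x hx
    rw [Finset.mem_coe, Finset.mem_filter, Finset.mem_filter] at hx
    obtain ⟨⟨hx1, hx2⟩, hx3⟩ := hx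
    have hxj : x j ∈ Finset.Ico (0 : ℤ) X := Fintype.mem_piFinset.1 hx1 j
    rw [Finset.mem_Ico] at hxj
    have hxe : x = y + Pi.single j (x j) := by
      funext i
      by_cases h : i = j
      · subst h
        rw [Pi.add_apply, Pi.single_eq_same, ← hx3, Function.update_self, zero_add]
      · rw [Pi.add_apply, Pi.single_eq_of_ne h, ← hx3, Function.update_of_ne h, add_zero]
    have hcast : (((x j).toNat : ℕ) : N) = ((x j : ℤ) : N) := by
      have h1 : (((x j).toNat : ℤ)) = x j := Int.toNat_of_nonneg hxj.1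
      calc (((x j).toNat : ℕ) : N) = (((x j).toNat : ℤ) : N) := by push_cast; rfl
        _ = ((x j : ℤ) : N) := by rw [h1]
    rw [Finset.mem_coe, Finset.mem_filter, Finset.mem_range]
    have hlt : (x j).toNat < X := by have := hxj.2; have := hxj.1; omega
    refine ⟨hlt, ?_⟩
    have h1 : e (c + x + (s + Pi.single j a)) = v * (u + (a : N) + (((x j).toNat : ℕ) : N)) := by
      have h2 : c + x + (s + Pi.single j a) =
          (c + y + s) + Pi.single j (x j) + Pi.single j a := by
        conv_lhs => rw [hxe]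
        abel
      rw [h2, map_add, map_add, e_single e j (x j), e_single e j a, ← hv, hcast, hu]
      field_simp
      ring
    have h3 : e (c + x + s) = v * (u + (((x j).toNat : ℕ) : N)) := by
      have h2 : c + x + s = (c + y + s) + Pi.single j (x j) := by
        conv_lhs => rw [hxe]
        abel
      rw [h2, map_add, e_single e j (x j), ← hv, hcast, hu]
      field_simp
    intro h4
    apply hx2
    rw [h1, h3, map_mul, map_mul, h4]
  · intro x hx x' hx' hxx
    rw [Finset.mem_coe, Finset.mem_filter, Finset.mem_filter] at hx hx'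
    obtain ⟨⟨hx1, _⟩, hx3⟩ := hx
    obtain ⟨⟨hx1', _⟩, hx3'⟩ := hx'
    have hxj : x j ∈ Finset.Ico (0 : ℤ) X := Fintype.mem_piFinset.1 hx1 j
    have hxj' : x' j ∈ Finset.Ico (0 : ℤ) X := Fintype.mem_piFinset.1 hx1' j
    rw [Finset.mem_Ico] at hxj hxj'
    have h1 : (x j).toNat = (x' j).toNat := hxx
    have h2 : x j = x' j := by omega
    funext i
    by_cases h : i = j
    · rw [h, h2]
    · have h3 : Function.update x j 0 i = Function.update x' j 0 i := by rw [hx3, hx3']
      rwa [Function.update_of_ne h, Function.update_of_ne h] at h3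

open Classical in
lemma card_step {N B : Type} [Field N] [CommGroupWithZero B] (Φ : N →*₀ B) {n : ℕ}
    (e : (Fin n → ℤ) →+ N) (he : Function.Injective e) (X : ℕ) (η : ℝ) (hη : 0 < η)
    (c s : Fin n → ℤ) (j : Fin n) (a : ℤ)
    (hE : ∀ u : N, (dis Φ X (u + (a : N)) u : ℝ) ≤ η * X) :
    (((box n X).filter fun x => Φ (e (c + x + (s + Pi.single j a))) ≠
      Φ (e (c + x + s))).card : ℝ) ≤ η * (X : ℝ) ^ n := by
  set A := (box n X).filter fun x => Φ (e (c + x + (s + Pi.single j a))) ≠
      Φ (e (c + x + s)) with hA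
  have h1 : A.card ≤ ⌊η * X⌋₊ * (A.image fun x => Function.update x j 0).card := by
    refine Finset.card_le_mul_card_image A _ fun y _ => ?_
    exact Nat.le_floor (card_line Φ e he X (η * X) c s j a hE y)
  have h2 : (A.image fun x => Function.update x j 0).card ≤ X ^ (n - 1) := by
    have h3 : (A.image fun x => Function.update x j 0) ⊆
        Fintype.piFinset (fun i => if i = j then ({0} : Finset ℤ) else Finset.Ico (0 : ℤ) X) := by
      intro y hy
      obtain ⟨x, hx, rfl⟩ := Finset.mem_image.1 hy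
      rw [Fintype.mem_piFinset]
      intro i
      have hx1 : x ∈ box n X := (Finset.mem_filter.1 hx).1
      by_cases h : i = j
      · subst h
        rw [if_pos rfl, Function.update_self]
        exact Finset.mem_singleton_self 0
      · rw [if_neg h, Function.update_of_ne h]
        exact Fintype.mem_piFinset.1 hx1 i
    refine (Finset.card_le_card h3).trans ?_
    rw [Fintype.card_piFinset, ← Finset.mul_prod_erase Finset.univ _ (Finset.mem_univ j),
      if_pos rfl, Finset.card_singleton, one_mul]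
    have h4 : ∏ x ∈ Finset.univ.erase j, (if x = j then ({0} : Finset ℤ)
        else Finset.Ico (0 : ℤ) X).card = ∏ x ∈ Finset.univ.erase j, X := by
      refine Finset.prod_congr rfl fun i hi => ?_
      rw [if_neg (Finset.ne_of_mem_erase hi), Int.card_Ico, sub_zero, Int.toNat_natCast]
    rw [h4, Finset.prod_const, Finset.card_erase_of_mem (Finset.mem_univ j), Finset.card_univ,
      Fintype.card_fin]
  have hn : 1 ≤ n := by have := j.2; omega
  have hX : (0 : ℝ) ≤ η * X := by positivity
  calc (A.card : ℝ) ≤ ((⌊η * X⌋₊ * (A.image fun x => Function.update x j 0).card : ℕ) : ℝ) := by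
        exact_mod_cast h1
    _ = (⌊η * X⌋₊ : ℝ) * ((A.image fun x => Function.update x j 0).card : ℝ) := by push_cast; ring
    _ ≤ (η * X) * (X : ℝ) ^ (n - 1) := by
        refine mul_le_mul (Nat.floor_le hX) (by exact_mod_cast h2) (Nat.cast_nonneg _) hX
    _ = η * (X : ℝ) ^ n := by
        rw [mul_assoc, ← pow_succ', Nat.sub_add_cancel hn]

end NCB_

open NCB_ in
theorem p_NCB (h_NCL : T_NCL) : T_NCB := by
  classical
  intro N B _ _ _ _ Φ k hk n ε hε
  have hn1 : (0 : ℝ) < n + 1 := by positivity
  obtain ⟨D, δ, X₀, hD, hδ, h⟩ := h_NCL N B Φ k hk (ε / (n + 1)) (by positivity)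
  refine ⟨D, δ, X₀, hD, hδ, fun e he X hX c t ht hδt => ?_⟩
  have hstep : ∀ j : Fin n, (((box n X).filter fun x => Φ (e (c + x + tt t (j.1 + 1))) ≠
      Φ (e (c + x + tt t j.1))).card : ℝ) ≤ ε / (n + 1) * (X : ℝ) ^ n := by
    intro j
    rw [tt_succ]
    exact card_step Φ e he X (ε / (n + 1)) (by positivity) c (tt t j.1) j (t j)
      (h X hX (t j) (ht j) (hδt j))
  have hsub : ((box n X).filter fun x => Φ (e (c + x + t)) ≠ Φ (e (c + x))) ⊆
      Finset.univ.biUnion fun j : Fin n => (box n X).filter fun x =>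
        Φ (e (c + x + tt t (j.1 + 1))) ≠ Φ (e (c + x + tt t j.1)) := by
    intro x hx
    rw [Finset.mem_filter] at hx
    by_contra hcon
    apply hx.2
    have hall : ∀ m : ℕ, m ≤ n → Φ (e (c + x + tt t m)) = Φ (e (c + x)) := by
      intro m
      induction m with
      | zero => intro _; rw [tt_zero, add_zero]
      | succ m ih =>
        intro hm
        rw [← ih (by omega)]
        by_contra hne
        apply hcon
        rw [Finset.mem_biUnion]
        exact ⟨⟨m, by omega⟩, Finset.mem_univ _, Finset.mem_filter.2 ⟨hx.1, hne⟩⟩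
    have := hall n le_rfl
    rwa [tt_top] at this
  have h1 : (((box n X).filter fun x => Φ (e (c + x + t)) ≠ Φ (e (c + x))).card : ℝ) ≤
      ∑ j : Fin n, ε / (n + 1) * (X : ℝ) ^ n := by
    calc (((box n X).filter fun x => Φ (e (c + x + t)) ≠ Φ (e (c + x))).card : ℝ) ≤
        ((Finset.univ.biUnion fun j : Fin n => (box n X).filter fun x =>
          Φ (e (c + x + tt t (j.1 + 1))) ≠ Φ (e (c + x + tt t j.1))).card : ℝ) := by
          exact_mod_cast Finset.card_le_card hsub
      _ ≤ ((∑ j : Fin n, ((box n X).filter fun x =>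
          Φ (e (c + x + tt t (j.1 + 1))) ≠ Φ (e (c + x + tt t j.1))).card : ℕ) : ℝ) := by
          exact_mod_cast Finset.card_biUnion_le
      _ = ∑ j : Fin n, (((box n X).filter fun x =>
          Φ (e (c + x + tt t (j.1 + 1))) ≠ Φ (e (c + x + tt t j.1))).card : ℝ) := by
          push_cast; rfl
      _ ≤ _ := Finset.sum_le_sum fun j _ => hstep j
  have h2 : ∑ j : Fin n, ε / (n + 1) * (X : ℝ) ^ n ≤ ε * (X : ℝ) ^ n := by
    rw [Finset.sum_const, Finset.card_univ, Fintype.card_fin, nsmul_eq_mul, ← mul_assoc]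
    refine mul_le_mul_of_nonneg_right ?_ (by positivity)
    rw [mul_div_assoc', div_le_iff₀ hn1]
    nlinarith
  have h3 := h1.trans h2
  convert h3

end NFV
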