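import Pool.Agent.NFV.Targets

/-!
# NFV: near constancy on lines
-/

set_option autoImplicit false

noncomputable section

namespace NFV

namespace NCL_

theorem dis_self {N B : Type} [Field N] (Φ : N → B) (X : ℕ) (u : N) : dis Φ X u u = 0 := by
  unfold dis
  simp

/-- the case of a nonnegative translation -/
theorem nonneg_case {N B : Type} [Field N] [CharZero N] [CommGroupWithZero B]
    (Φ : N →*₀ B) (h_DIL : T_DIL) (η : ℝ) (hη : 0 < η) (M : ℕ) (hM : 0 < M)
    (hcap : ∀ X s : ℕ, 0 < X → (M : ℝ) * s ≤ η * X →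
      ∃ k : ℕ, 0 < k ∧ k ≤ M ∧ ∀ u : N, (dis Φ X (u + ((k * s : ℕ) : N)) u : ℝ) ≤ 6 * η * X)
    (X s : ℕ) (hX : 2 * Nat.factorial M ≤ X)
    (hs : ((Nat.factorial M * s : ℕ) : ℝ) ≤ η / (2 * M) * X) (u : N) :
    (dis Φ X (u + ((Nat.factorial M * s : ℕ) : N)) u : ℝ) ≤ 12 * η * X := by
  obtain ⟨hD1, hD2, -⟩ := h_DIL N B Φ
  have hXr : (0 : ℝ) ≤ X := Nat.cast_nonneg X
  have hMr : (0 : ℝ) < M := by exact_mod_cast hM
  rcases Nat.eq_zero_or_pos s with rfl | hspos
  · have h0 : u + ((Nat.factorial M * 0 : ℕ) : N) = u := by simp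
    rw [h0, dis_self]
    have : 0 ≤ 12 * η * X := by positivity
    simpa using this
  have hsr : (0 : ℝ) < s := by exact_mod_cast hspos
  have hDpos : 0 < Nat.factorial M := Nat.factorial_pos M
  have hDr : (0 : ℝ) < (Nat.factorial M : ℝ) := by exact_mod_cast hDpos
  set Y : ℕ := ⌈(M : ℝ) * s / η⌉₊ with hYdef
  have hYpos : 0 < Y := Nat.ceil_pos.mpr (by positivity)
  have hYle : (M : ℝ) * s ≤ η * Y := by
    have h1 : (M : ℝ) * s / η ≤ Y := Nat.le_ceil _
    rw [div_le_iff₀ hη] at h1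
    linarith [mul_comm η (Y : ℝ)]
  have hYup : (Y : ℝ) ≤ (M : ℝ) * s / η + 1 :=
    (Nat.ceil_lt_add_one (by positivity)).le
  obtain ⟨k, hk0, hkM, hk⟩ := hcap Y s hYpos hYle
  obtain ⟨m, hm⟩ : k ∣ Nat.factorial M := Nat.dvd_factorial hk0 hkM
  have hmpos : 0 < m := by
    rcases Nat.eq_zero_or_pos m with h | h
    · rw [h, mul_zero] at hm
      omega
    · exact h
  have hmD : m ≤ Nat.factorial M := by
    rw [hm]
    exact Nat.le_mul_of_pos_left m hk0
  have h1 := hD1 Y m ((k * s : ℕ) : N) (6 * η * Y) hmpos hk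
  have heq : (m : N) * ((k * s : ℕ) : N) = ((Nat.factorial M * s : ℕ) : N) := by
    rw [hm]
    push_cast
    ring
  rw [heq] at h1
  have hmY : m * Y ≤ X := by
    have hreal : ((m * Y : ℕ) : ℝ) ≤ X := by
      have hmDr : (m : ℝ) ≤ (Nat.factorial M : ℝ) := by exact_mod_cast hmD
      have h2 : ((m * Y : ℕ) : ℝ) ≤ (Nat.factorial M : ℝ) * ((M : ℝ) * s / η + 1) := by
        push_cast
        exact mul_le_mul hmDr hYup (Nat.cast_nonneg _) hDr.le
      have h3 : (Nat.factorial M : ℝ) * ((M : ℝ) * s / η) ≤ X / 2 := by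
        have h4 : (Nat.factorial M : ℝ) * s ≤ η / (2 * M) * X := by
          have := hs
          push_cast at this
          exact this
        have h5 : (Nat.factorial M : ℝ) * ((M : ℝ) * s / η)
            = (M / η) * ((Nat.factorial M : ℝ) * s) := by
          field_simp
        have h6 : (X : ℝ) / 2 = (M / η) * (η / (2 * M) * X) := by
          field_simp
        rw [h5, h6]
        exact mul_le_mul_of_nonneg_left h4 (by positivity)
      have h7 : (Nat.factorial M : ℝ) ≤ X / 2 := by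
        have : ((2 * Nat.factorial M : ℕ) : ℝ) ≤ X := by exact_mod_cast hX
        push_cast at this
        linarith
      calc ((m * Y : ℕ) : ℝ) ≤ (Nat.factorial M : ℝ) * ((M : ℝ) * s / η + 1) := h2
        _ = (Nat.factorial M : ℝ) * ((M : ℝ) * s / η) + Nat.factorial M := by ring
        _ ≤ X / 2 + X / 2 := add_le_add h3 h7
        _ = X := by ring
    exact_mod_cast hreal
  have hpos : 0 < m * Y := Nat.mul_pos hmpos hYpos
  have h8 : ∀ v : N, (dis Φ (m * Y) (v + ((Nat.factorial M * s : ℕ) : N)) v : ℝ)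
      ≤ 6 * η * ((m * Y : ℕ) : ℝ) := by
    intro v
    refine (h1 v).trans (le_of_eq ?_)
    push_cast
    ring
  have h9 := hD2 (m * Y) X ((Nat.factorial M * s : ℕ) : N) (6 * η) hpos hmY (by positivity) h8 u
  refine h9.trans (le_of_eq ?_)
  ring

end NCL_

theorem p_NCL (h_CAP : T_CAP) (h_DIL : T_DIL) : T_NCL := by
  intro N B _ _ _ _ Φ n hN ε hε
  obtain ⟨M, hM, hcap⟩ := h_CAP N B Φ n hN (ε / 12) (by positivity)
  have hMr : (0 : ℝ) < M := by exact_mod_cast hM
  refine ⟨Nat.factorial M, ε / 12 / (2 * M), 2 * Nat.factorial M, Nat.factorial_pos M,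
    by positivity, ?_⟩
  intro X hX t hDt ht u
  have key := NCL_.nonneg_case Φ h_DIL (ε / 12) (by positivity) M hM hcap X
  obtain ⟨z, rfl⟩ := hDt
  have hε' : 12 * (ε / 12) * (X : ℝ) = ε * X := by ring
  rcases le_total 0 z with hz | hz
  · obtain ⟨s, rfl⟩ := Int.eq_ofNat_of_zero_le hz
    have hs : ((Nat.factorial M * s : ℕ) : ℝ) ≤ ε / 12 / (2 * M) * X := by
      refine le_trans (le_of_eq ?_) ((le_abs_self _).trans ht)
      push_cast
      ring
    have h := key s hX hs u
    rw [hε'] at h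
    refine le_trans (le_of_eq ?_) h
    push_cast
    rfl
  · obtain ⟨s, hs'⟩ := Int.eq_ofNat_of_zero_le (neg_nonneg.mpr hz)
    have hzs : z = -(s : ℤ) := by
      rw [← hs']
      ring
    subst hzs
    have hs : ((Nat.factorial M * s : ℕ) : ℝ) ≤ ε / 12 / (2 * M) * X := by
      refine le_trans (le_of_eq ?_) ((neg_le_abs _).trans ht)
      push_cast
      ring
    obtain ⟨-, -, hD3⟩ := h_DIL N B Φ
    have h := hD3 X ((Nat.factorial M * s : ℕ) : N) (12 * (ε / 12) * X) (fun v => key s hX hs v) u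
    rw [hε'] at h
    refine le_trans (le_of_eq ?_) h
    congr 2
    push_cast
    ring

end NFV
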