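import Pool.Agent.NFV.Targets2

/-!
# NFV: NSH (from finite extensions to their algebraic numbers)
-/

set_option autoImplicit false

open Polynomial FirstOrder

noncomputable section

namespace NFV

theorem p_NSH : T_NSH := by
  intro M _ _ q n hq hM B _ Φ hsurj hΦ a c
  choose c' hc' using hsurj
  obtain ⟨S, hS⟩ := hM (fun i => (a i : M)) (fun i => (c' (c i) : M))
  refine ⟨S, fun x hx => hS (x : M) fun i => ?_⟩
  rw [← hx i, ← hc' (c i), hΦ, hc' (c i)]
  constructor
  · rintro ⟨y, hy0, hy⟩
    by_cases h0 : c' (c i) = 0
    · refine ⟨1, one_ne_zero, ?_⟩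
      rw [h0, zero_mul]
      rw [h0] at hy
      apply Subtype.ext
      push_cast
      rw [hy]
      simp
    · have h0' : (c' (c i) : M) ≠ 0 := by
        intro h
        exact h0 (Subtype.ext (by simpa using h))
      have h1 : y ^ q = ((x + a i) / c' (c i) : algebraicClosure ℚ M) := by
        push_cast
        rw [eq_div_iff h0', mul_comm]
        exact hy.symm
      have h2 : IsAlgebraic ℚ (y ^ q) := by
        rw [h1]
        exact (mem_algebraicClosure_iff).1
          (((x + a i) / c' (c i) : algebraicClosure ℚ M)).2
      have h3 : IsAlgebraic ℚ y := IsAlgebraic.of_pow hq h2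
      refine ⟨⟨y, (mem_algebraicClosure_iff).2 h3⟩, ?_, ?_⟩
      · intro h
        exact hy0 (congrArg Subtype.val h)
      · apply Subtype.ext
        push_cast
        exact hy
  · rintro ⟨u, hu0, hu⟩
    refine ⟨(u : M), ?_, ?_⟩
    · intro h
      exact hu0 (Subtype.ext (by simpa using h))
    · have := congrArg Subtype.val hu
      push_cast at this
      exact this

end NFV
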