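import Pool.Agent.NFV.Targets3

/-!
# NFV: ONE, each component of `d` is a power of the class of `d`
-/

set_option autoImplicit false

open Polynomial

noncomputable section

namespace NFV

namespace ONE_

lemma split (M : ℕ) : ∀ D : ℕ, 0 < D → ∃ D₅ D₄ t : ℕ, D = D₅ * D₄ ∧ D₅ ∣ M ^ t ∧
    Nat.Coprime D₄ M ∧ 0 < D₄ := by
  intro D
  induction D using Nat.strong_induction_on with
  | _ D ih =>
    intro hD
    by_cases h : Nat.gcd D M = 1
    · exact ⟨1, D, 0, (one_mul D).symm, one_dvd _, h, hD⟩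
    · obtain ⟨D', hD'⟩ := Nat.gcd_dvd_left D M
      have hg : 0 < Nat.gcd D M := Nat.gcd_pos_of_pos_left _ hD
      have hD'0 : 0 < D' := by
        rcases Nat.eq_zero_or_pos D' with h0 | h0
        · rw [h0, mul_zero] at hD'
          omega
        · exact h0
      have hlt : D' < D := by
        have h2 : 2 ≤ Nat.gcd D M := by omega
        calc D' < 2 * D' := by omega
          _ ≤ Nat.gcd D M * D' := Nat.mul_le_mul_right _ h2
          _ = D := hD'.symm
      obtain ⟨D₅, D₄, t, h1, h2, h3, h4⟩ := ih D' hlt hD'0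
      refine ⟨Nat.gcd D M * D₅, D₄, t + 1, ?_, ?_, h3, h4⟩
      · rw [mul_assoc, ← h1]
        exact hD'
      · rw [pow_succ, mul_comm (M ^ t)]
        exact Nat.mul_dvd_mul (Nat.gcd_dvd_right D M) h2

/-- the Chinese remainder theorem -/
lemma crt {R : Type} [CommRing R] {n : ℕ} (m : Fin n → R)
    (hm : ∀ i j, i ≠ j → IsCoprime (m i) (m j)) (a : Fin n → R) (K : ℕ)
    (h0 : (∏ i, m i) ^ K ≠ 0) : ∃ y : R, y ≠ 0 ∧ ∀ i, m i ^ K ∣ y - a i := by
  have hI : Pairwise (Function.onFun IsCoprime fun i => Ideal.span {m i ^ K}) := by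
    intro i j hij
    show IsCoprime (Ideal.span {m i ^ K}) (Ideal.span {m j ^ K})
    rw [Ideal.isCoprime_span_singleton_iff]
    exact (hm i j hij).pow
  obtain ⟨y, hy⟩ := Ideal.exists_forall_sub_mem_ideal hI a
  have hy' : ∀ i, m i ^ K ∣ y - a i := fun i => Ideal.mem_span_singleton.1 (hy i)
  by_cases hy0 : y = 0
  · refine ⟨(∏ i, m i) ^ K, h0, fun i => ?_⟩
    have h1 : m i ^ K ∣ (∏ i, m i) ^ K :=
      pow_dvd_pow_of_dvd (Finset.dvd_prod_of_mem m (Finset.mem_univ i)) K
    have h2 := hy' i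
    rw [hy0, zero_sub] at h2
    have h3 := dvd_add h1 h2
    rwa [← sub_eq_add_neg] at h3
  · exact ⟨y, hy0, hy'⟩

/-- adjunction of a `q`-th root -/
lemma root (N : Type) [Field N] (q : ℕ) (hq : 0 < q) (d : N) :
    ∃ (N' : Type) (_ : Field N') (_ : Algebra N N') (δ : N'), δ ^ q = algebraMap N N' d ∧
      IntermediateField.adjoin N {δ} = ⊤ := by
  have hdeg : (X ^ q - C d : N[X]).natDegree ≠ 0 := by
    rw [natDegree_X_pow_sub_C]
    omega
  obtain ⟨g, hg, hdvd⟩ := Polynomial.exists_irreducible_of_natDegree_ne_zero hdeg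
  have : Fact (Irreducible g) := ⟨hg⟩
  refine ⟨AdjoinRoot g, inferInstance, inferInstance, AdjoinRoot.root g, ?_, ?_⟩
  · obtain ⟨h, hh⟩ := hdvd
    have h1 : aeval (AdjoinRoot.root g) (X ^ q - C d : N[X]) = 0 := by
      rw [hh, map_mul, AdjoinRoot.aeval_eq, AdjoinRoot.mk_self, zero_mul]
    rw [map_sub, map_pow, aeval_X, aeval_C, sub_eq_zero] at h1
    exact h1
  · rw [eq_top_iff]
    intro x _
    refine IntermediateField.algebra_adjoin_le_adjoin N _ ?_
    rw [AdjoinRoot.adjoinRoot_eq_top]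
    exact Algebra.mem_top

/-- the order generated by `R` and a `q`-th root of `d` -/
lemma ring (N N' R : Type) [Field N] [Field N'] [Algebra N N'] [CommRing R] [Module.Finite ℤ R]
    (φ : R →+* N) (d : R) (δ : N') (q : ℕ) (hq : 0 < q)
    (hδ : δ ^ q = algebraMap N N' (φ d)) :
    ∃ (R' : Type) (_ : CommRing R') (_ : Module.Finite ℤ R') (φ' : R' →+* N') (ψ : R →+* R')
      (δ' : R'), Function.Injective φ' ∧ (∀ x, φ' (ψ x) = algebraMap N N' (φ x)) ∧ φ' δ' = δ := by
  let _ : Algebra R N' := ((algebraMap N N').comp φ).toAlgebra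
  have hmap : ∀ x : R, algebraMap R N' x = algebraMap N N' (φ x) := fun _ => rfl
  have hint : IsIntegral R δ := by
    refine ⟨X ^ q - C d, monic_X_pow_sub_C d hq.ne', ?_⟩
    rw [eval₂_sub, eval₂_X_pow, eval₂_C, hδ, hmap, sub_self]
  have hfin : Module.Finite R (Algebra.adjoin R {δ}) :=
    Algebra.finite_adjoin_simple_of_isIntegral hint
  have hfin' : Module.Finite ℤ (Algebra.adjoin R {δ}) := Module.Finite.trans R _
  refine ⟨Algebra.adjoin R {δ}, inferInstance, hfin', (Algebra.adjoin R {δ}).val.toRingHom,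
    algebraMap R _, ⟨δ, Algebra.self_mem_adjoin_singleton R δ⟩, Subtype.val_injective,
    fun x => ?_, rfl⟩
  rw [← hmap]
  rfl

end ONE_

open ONE_ in
theorem p_ONE (h_LCO : T_LCO) (h_CMP : T_CMP) (h_KUM : T_KUM) : T_ONE := by
  intro N B _ _ _ Φ q ζ hq hζ hΦ hPk R _ _ φ hφ hj r m M c hcop hprod hM hc i d hd
  classical
  -- the field `N' = N(δ)`
  obtain ⟨N', _, _, δ, hδ, htop⟩ := root N q hq.pos (φ d)
  have : CharZero N' := charZero_of_injective_algebraMap (algebraMap N N').injective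
  obtain ⟨B', _, _, Φ', -, hΦ', n, hns⟩ := hPk N' δ (φ d) hδ htop
  obtain ⟨R', _, _, φ', ψ, δ', hφ', hψ, hδ'⟩ := ring N N' R φ d δ q hq.pos hδ
  have hψ0 : ∀ x : R, x ≠ 0 → ψ x ≠ 0 := by
    intro x hx h
    have h1 := hψ x
    rw [h, map_zero] at h1
    exact hx ((map_eq_zero_iff φ hφ).1 ((map_eq_zero _).1 h1.symm))
  have hqδ : δ' ^ q = ψ d := by
    apply hφ'
    rw [map_pow, hδ', hδ, hψ]
  obtain ⟨j, hj⟩ := hj
  obtain ⟨D', hD', hLC⟩ := h_LCO N' B' Φ' n hns R' φ' hφ'
    ⟨ψ j, by rw [← map_pow, hj, map_neg, map_one]⟩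
  -- the primes of `D'` outside `M`
  obtain ⟨D₅, D₄, t, hD, hD₅, hco, hD₄⟩ := split M D' (by omega)
  have hcoR : IsCoprime (M : R) (D₄ : R) := by
    have := (Nat.isCoprime_iff_coprime.2 hco.symm).map (Int.castRingHom R)
    simpa using this
  have hdvdM : ∀ l, m l ∣ (M : R) := fun l => by
    rw [← hprod]
    exact Finset.dvd_prod_of_mem m (Finset.mem_univ l)
  have hlD : ∀ l, IsCoprime (m l) (D₄ : R) := fun l =>
    hcoR.of_isCoprime_of_dvd_left (hdvdM l)
  -- the extended families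
  have hcop1 : ∀ k l, k ≠ l → IsCoprime ((Fin.cons (D₄ : R) m : Fin (r + 1) → R) k)
      ((Fin.cons (D₄ : R) m : Fin (r + 1) → R) l) := by
    intro k l
    refine Fin.cases ?_ (fun k => ?_) k <;> refine Fin.cases ?_ (fun l => ?_) l
    · intro h; exact absurd rfl h
    · intro _
      exact (hlD l).symm
    · intro _
      exact hlD k
    · intro h
      exact hcop k l fun h' => h (by rw [h'])
  have hcop2 : ∀ k l, k ≠ l → IsCoprime ((fun e => ψ ((Fin.cons (D₄ : R) m : Fin (r + 1) → R) e)) k)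
      ((fun e => ψ ((Fin.cons (D₄ : R) m : Fin (r + 1) → R) e)) l) := fun k l h =>
    (hcop1 k l h).map ψ
  have hprod1 : ∏ e, (Fin.cons (D₄ : R) m : Fin (r + 1) → R) e = ((D₄ * M : ℕ) : R) := by
    rw [Fin.prod_univ_succ]
    simp only [Fin.cons_zero, Fin.cons_succ]
    rw [hprod]
    push_cast
    rfl
  have hprod2 : ∏ e, ψ ((Fin.cons (D₄ : R) m : Fin (r + 1) → R) e) = ((D₄ * M : ℕ) : R') := by
    rw [← map_prod, hprod1, map_natCast]
  have hDM : 0 < D₄ * M := Nat.mul_pos hD₄ hM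
  have hdvd : D' ∣ (D₄ * M) ^ (t + 1) := by
    rw [hD, mul_pow, mul_comm D₅]
    refine Nat.mul_dvd_mul (dvd_pow_self _ (by omega)) (hD₅.trans (pow_dvd_pow _ (by omega)))
  obtain ⟨c', hc'⟩ := h_CMP N' B' Φ' R' φ' D' hφ' hD' hLC (r + 1) _ (D₄ * M) (t + 1) hcop2 hprod2
    hDM hdvd
  -- the tuples
  have hΦ1 : Φ 1 = 1 := map_one Φ
  obtain ⟨K₀, hK₀⟩ := hc.ev (fun l => if l = i then d else 1) (fun l => by
    by_cases h : l = i
    · simp only [if_pos h]; exact hd
    · simp only [if_neg h]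
      intro h1
      have : φ 1 = 0 := by rw [h1, map_zero]
      rw [map_one] at this
      exact one_ne_zero this)
  have hone' : (1 : R') ≠ 0 := by
    intro h1
    have : φ' 1 = 0 := by rw [h1, map_zero]
    rw [map_one] at this
    exact one_ne_zero this
  obtain ⟨K₁, hK₁⟩ := hc'.ev (fun e => if e = i.succ then ψ d else 1) (fun l => by
    by_cases h : l = i.succ
    · simp only [if_pos h]; exact hψ0 d hd
    · simp only [if_neg h]
      exact hone')
  set K := max K₀ K₁ with hK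
  have hcharR : ∀ k : ℕ, 0 < k → ((k : ℕ) : R) ≠ 0 := by
    intro k hk h
    have h1 : φ ((k : ℕ) : R) = 0 := by rw [h, map_zero]
    rw [map_natCast] at h1
    exact hk.ne' (by exact_mod_cast h1)
  have hcharR' : ∀ k : ℕ, 0 < k → ((k : ℕ) : R') ≠ 0 := by
    intro k hk h
    have h1 : φ' ((k : ℕ) : R') = 0 := by rw [h, map_zero]
    rw [map_natCast] at h1
    exact hk.ne' (by exact_mod_cast h1)
  obtain ⟨x, hx0, hx⟩ := crt (Fin.cons (D₄ : R) m : Fin (r + 1) → R) hcop1
    (fun e => if e = i.succ then d else 1) K (by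
      rw [hprod1, ← Nat.cast_pow]
      exact hcharR _ (pow_pos hDM K))
  obtain ⟨v, hv0, hv⟩ := crt (fun e => ψ ((Fin.cons (D₄ : R) m : Fin (r + 1) → R) e)) hcop2
    (fun e => if e = i.succ then δ' else 1) K (by
      rw [hprod2, ← Nat.cast_pow]
      exact hcharR' _ (pow_pos hDM K))
  have hvq0 : v ^ q ≠ 0 := by
    intro h
    have h1 : φ' (v ^ q) = 0 := by rw [h, map_zero]
    rw [map_pow] at h1
    have h2 := pow_eq_zero_iff hq.ne_zero |>.1 h1
    exact hv0 ((map_eq_zero_iff φ' hφ').1 h2)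
  -- the values
  have hval : Φ (φ x) = c i d := by
    rw [hK₀ K (le_max_left _ _) x hx0 (fun l => ?_), Finset.prod_eq_single i]
    · simp only [if_true]
    · intro l _ hl
      simp only [if_neg hl]
      exact hc.one l
    · intro h; exact absurd (Finset.mem_univ _) h
    · have := hx l.succ
      simp only [Fin.cons_succ, Fin.succ_inj] at this
      exact this
  have hval1 : Φ' (φ' (ψ x)) = ∏ e, c' e (if e = i.succ then ψ d else 1) := by
    refine hK₁ K (le_max_right _ _) (ψ x) (hψ0 x hx0) (fun l => ?_)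
    have := map_dvd ψ (hx l)
    rw [map_pow, map_sub] at this
    have e : ψ (if l = i.succ then d else 1) = if l = i.succ then ψ d else 1 := by
      split_ifs
      · rfl
      · exact map_one ψ
    rw [e] at this
    exact this
  have hval2 : Φ' (φ' (v ^ q)) = ∏ e, c' e (if e = i.succ then ψ d else 1) := by
    refine hK₁ K (le_max_right _ _) (v ^ q) hvq0 (fun l => ?_)
    refine (hv l).trans ?_
    have e : (if l = i.succ then ψ d else 1) = (if l = i.succ then δ' else 1) ^ q := by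
      split_ifs
      · exact hqδ.symm
      · exact (one_pow q).symm
    rw [e]
    exact sub_dvd_pow_sub_pow _ _ q
  obtain ⟨u, hu0, hu⟩ := (hΦ' _ _).1 (hval1.trans hval2.symm)
  have hφx : φ x ≠ 0 := fun h => hx0 ((map_eq_zero_iff φ hφ).1 h)
  obtain ⟨l, u', hu'0, hu'⟩ := h_KUM N N' q ζ δ (φ d) hq hζ hδ htop (φ x) (φ' v * u) hφx (by
    rw [← hψ, hu, map_pow, mul_pow])
  refine ⟨l, ?_⟩
  rw [← hval, ← map_pow]
  exact (hΦ _ _).2 ⟨u', hu'0, hu'⟩

end NFV
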