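import Pool.Agent.NFV.Targets2

/-!
# NFV: target PCL (helper25), the class function modulo `q`-th powers
-/

set_option autoImplicit false

open Polynomial FirstOrder

noncomputable section

namespace NFV

namespace PCL_

/-- the group of classes -/
abbrev Cl (N : Type) [Field N] (q : ℕ) : Type := Nˣ ⧸ (powMonoidHom q : Nˣ →* Nˣ).range

open Classical in
/-- the class function -/
def cf (N : Type) [Field N] (q : ℕ) : N →*₀ WithZero (Cl N q) where
  toFun x := if h : x = 0 then 0 else ((QuotientGroup.mk (Units.mk0 x h) : Cl N q) :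
    WithZero (Cl N q))
  map_zero' := by simp
  map_one' := by
    rw [dif_neg one_ne_zero]
    have h : (Units.mk0 (1 : N) one_ne_zero) = 1 := Units.mk0_one
    rw [h]
    rfl
  map_mul' x y := by
    by_cases hx : x = 0
    · rw [dif_pos hx, dif_pos (by rw [hx, zero_mul])]
      exact (zero_mul (M₀ := WithZero (Cl N q)) _).symm
    · by_cases hy : y = 0
      · rw [dif_pos hy, dif_pos (by rw [hy, mul_zero])]
        exact (mul_zero (M₀ := WithZero (Cl N q)) _).symm
      · rw [dif_neg hx, dif_neg hy, dif_neg (mul_ne_zero hx hy), Units.mk0_mul]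
        rfl

theorem cf_zero {N : Type} [Field N] {q : ℕ} {x : N} (h : x = 0) : cf N q x = 0 := by
  rw [h, map_zero]

theorem cf_ne {N : Type} [Field N] {q : ℕ} {x : N} (h : x ≠ 0) :
    cf N q x = ((QuotientGroup.mk (Units.mk0 x h) : Cl N q) : WithZero (Cl N q)) := by
  exact dif_neg h

theorem cf_eq {N : Type} [Field N] {q : ℕ} {x y : N} :
    cf N q x = cf N q y ↔ ∃ u : N, u ≠ 0 ∧ x = y * u ^ q := by
  by_cases hx : x = 0
  · rw [cf_zero hx]
    constructor
    · intro h
      by_cases hy : y = 0
      · exact ⟨1, one_ne_zero, by rw [hx, hy, zero_mul]⟩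
      · rw [cf_ne hy] at h
        exact absurd h.symm WithZero.coe_ne_zero
    · rintro ⟨u, hu, h⟩
      rw [hx] at h
      have hy : y = 0 := by
        rcases mul_eq_zero.1 h.symm with h1 | h1
        · exact h1
        · exact absurd h1 (pow_ne_zero _ hu)
      rw [cf_zero hy]
  · by_cases hy : y = 0
    · rw [cf_ne hx, cf_zero hy]
      constructor
      · intro h
        exact absurd h WithZero.coe_ne_zero
      · rintro ⟨u, -, h⟩
        rw [hy, zero_mul] at h
        exact absurd h hx
    · rw [cf_ne hx, cf_ne hy, WithZero.coe_inj, eq_comm, QuotientGroup.eq]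
      constructor
      · rintro ⟨v, hv⟩
        refine ⟨v, v.ne_zero, ?_⟩
        have h1 : (v : N) ^ q = y⁻¹ * x := by
          have := congrArg (Units.val) hv
          simpa using this
        rw [h1, mul_inv_cancel_left₀ hy]
      · rintro ⟨u, hu, h⟩
        refine ⟨Units.mk0 u hu, ?_⟩
        ext
        simp [h]

end PCL_

open PCL_ in
/-- PCL -/
theorem p_PCL : T_PCL := by
  intro N _ q _ hC
  have hs : Function.Surjective (cf N q) := by
    intro b
    induction b using WithZero.recZeroCoe with
    | zero => exact ⟨0, map_zero _⟩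
    | coe g =>
      obtain ⟨u, rfl⟩ := QuotientGroup.mk_surjective g
      refine ⟨u, ?_⟩
      rw [cf_ne u.ne_zero, Units.mk0_val]
  refine ⟨WithZero (Cl N q), inferInstance, ?_, cf N q, hs, fun x y => cf_eq⟩
  obtain ⟨C, hC⟩ := hC
  refine Set.finite_univ_iff.1 ?_
  refine ((C.finite_toSet.insert 0).image (cf N q)).subset ?_
  intro b _
  obtain ⟨x, rfl⟩ := hs b
  by_cases hx : x = 0
  · exact ⟨0, Set.mem_insert _ _, by rw [hx]⟩
  · obtain ⟨c, hc, y, hy, h⟩ := hC x hx
    exact ⟨c, Set.mem_insert_of_mem _ hc, (cf_eq.2 ⟨y, hy, h⟩).symm⟩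

end NFV

end
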