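import Pool.Agent.NFV.Targets3

/-!
# NFV: target PKI (transport of packages along an isomorphism)
-/

set_option autoImplicit false

open Polynomial FirstOrder

noncomputable section

namespace NFV

theorem p_PKI : T_PKI := by
  intro N N' _ _ q e h
  obtain ⟨B, i1, i2, Φ, hs, hq, n, hn⟩ := h
  refine ⟨B, i1, i2, Φ.comp (e.symm : N' →+* N).toMonoidWithZeroHom, ?_, ?_, n, ?_⟩
  · intro b
    obtain ⟨x, hx⟩ := hs b
    refine ⟨e x, ?_⟩
    show Φ (e.symm (e x)) = b
    rw [e.symm_apply_apply, hx]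
  · intro x y
    show Φ (e.symm x) = Φ (e.symm y) ↔ _
    rw [hq]
    constructor
    · rintro ⟨u, hu, h1⟩
      refine ⟨e u, fun h0 => hu ?_, ?_⟩
      · exact (map_eq_zero e).1 h0
      · apply e.symm.injective
        rw [map_mul, map_pow, e.symm_apply_apply, h1]
    · rintro ⟨u, hu, h1⟩
      refine ⟨e.symm u, fun h0 => hu ?_, ?_⟩
      · exact (map_eq_zero e.symm).1 h0
      · rw [h1, map_mul, map_pow]
  · intro a c
    obtain ⟨S, hS⟩ := hn (fun i => e.symm (a i)) c
    refine ⟨S, fun x hx => hS (e.symm x) fun i => ?_⟩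
    have h1 := hx i
    have h2 : (Φ.comp (e.symm : N' →+* N).toMonoidWithZeroHom) (x + a i) =
        Φ (e.symm x + e.symm (a i)) := by
      show Φ (e.symm (x + a i)) = _
      rw [map_add]
    rw [h2] at h1
    exact h1

end NFV
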