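import Pool.Agent.NFV.Defs

/-!
# NFV: targets, part 3 (statements; complete proofs in the docstrings)
-/

set_option autoImplicit false

open Polynomial FirstOrder

noncomputable section

namespace NFV

/-- the class function modulo `q`-th powers exists, is finite valued, and its translates have
finite VC dimension -/
def Pk (N : Type) [Field N] (q : ℕ) : Prop :=
  ∃ (B : Type) (_ : CommGroupWithZero B) (_ : Finite B) (Φ : N →*₀ B),
    Function.Surjective Φ ∧ (∀ x y : N, Φ x = Φ y ↔ ∃ u : N, u ≠ 0 ∧ x = y * u ^ q) ∧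
      ∃ n : ℕ, NoShat Φ n

/-- `Φ` is trivial on `1 + D R` -/
def LC {N B R : Type} [Field N] [CommGroupWithZero B] [CommRing R] (Φ : N →*₀ B) (φ : R →+* N)
    (D : ℕ) : Prop :=
  ∀ r : R, 1 + (D : R) * r ≠ 0 → Φ (φ (1 + D * r)) = 1

/-- `c` is a family of local components of `Φ` at the comaximal elements `m i` -/
structure Cmp {N B R : Type} [Field N] [CommGroupWithZero B] [CommRing R] (Φ : N →*₀ B)
    (φ : R →+* N) {r : ℕ} (m : Fin r → R) (c : Fin r → R → B) : Prop where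
  one : ∀ i, c i 1 = 1
  ne : ∀ i a, a ≠ 0 → c i a ≠ 0
  mul : ∀ i a a', a ≠ 0 → a' ≠ 0 → c i (a * a') = c i a * c i a'
  ev : ∀ a : Fin r → R, (∀ i, a i ≠ 0) → ∃ K₀ : ℕ, ∀ K : ℕ, K₀ ≤ K → ∀ y : R, y ≠ 0 →
    (∀ i, m i ^ K ∣ y - a i) → Φ (φ y) = ∏ i, c i (a i)

/-! ## G. The first theorem, algebraic form -/

/-- SQA (positive elements are squares, pure algebra).  PROOF.  `ι` is injective.  Let `b : F`,
`0 < ι b`.  As `b` is a square iff `m ^ 2 b` is, assume `b` integral over `ℤ`.  `f = minpoly ℤ b`,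
`β = ι b`, a root of `f`.  COR for `F`, `b`, and the class function `Φ_F` of `Pk F 2`: `D`.
WSG for `(f, β)`: `G`.  `n₁ = 1 + 2 D G(b)`: `ι n₁ ≤ 1 - 2 D < 0`.  `d = b n₁`, `ι d < 0`, so `d` is
not a square; `N = AdjoinRoot (X ^ 2 - C d)`, `s` the root, `Φ_N` from `Pk N 2`.  PRM for the images
of `b` and `s` in `N`: `θ`; COR for `(N, θ)`: `D'`.  FRC: `m b = P(θ)`; with `e = deg G`,
`m ^ e G(b) = H(θ)`, `H ∈ ℤ[X]`.  Put `x = 1 + 2 D D' m ^ e G(b) = 1 + D' (2 D H)(θ)`;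
`ι x ≤ 1 - 2 < 0`.  Let `α` be a real root of `minpoly ℤ θ`, `σ : ℚ(θ) → ℝ` with `σ θ = α`; `σ b` is
a root of `f` and `σ(s) ^ 2 = σ(b) (1 + 2 D G(σ b))`; if `σ b = β` this is negative, impossible; so
`G(σ b) ≥ 1` and `1 + D' (2 D H)(α) = σ x = 1 + 2 D D' m ^ e G(σ b) > 0`.  By COR `Φ_N x = 1`: `x` is
a square in `N`, `x = (u + v s) ^ 2`, `2 u v = 0`; `v = 0` is impossible (`ι x < 0`), so
`x = d v ^ 2` and `x d` is a square in `F`.  On the other hand `x n₁ = 1 + D g(b)` for some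
`g ∈ ℤ[X]`, positive at each real root `α` of `f` (for `α = β` product of two negative
numbers, otherwise of two positive ones), so `Φ_F (x n₁) = 1`: `x n₁` is a square in `F`.
Hence `b = (x d) / (x n₁)` is a square in `F`. -/
def T_SQA : Prop :=
  ∀ (F : Type) [Field F] [CharZero F] (ι : F →+* ℝ), (∀ x : F, IsAlgebraic ℚ x) → Pk F 2 →
    (∀ (N : Type) [Field N] [Algebra F N] (s : N) (d : F), ι d < 0 → s ^ 2 = algebraMap F N d →
      (∀ z : N, ∃ x y : F, z = algebraMap F N x + algebraMap F N y * s) → Pk N 2) →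
    ∀ b : F, 0 < ι b → IsSquare b

/-! ## H. Local components -/

/-- LCO.  PROOF.  `φ R` is finite over `ℤ`, so `E` = the subfield of `N` generated by it is a number
field; let `θ` be a primitive element, integral over `ℤ` (as in PRM), and `D₀` from COR.  As
`E` contains a square root of `-1`, `minpoly ℤ θ` has no real root (a real root would give
`ℚ(θ) → ℝ`, FRC), so the positivity condition is void.  For some `m ≥ 1`,
`m φ(R) ⊆ ℤ[θ]` (FRC for finitely many generators).  `D = 2 m D₀`: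
`1 + D r = 1 + D₀ (2 m r)`, and `2 m r = g(θ)`. -/
def T_LCO : Prop :=
  ∀ (N B : Type) [Field N] [CharZero N] [CommGroupWithZero B] [Finite B] (Φ : N →*₀ B) (k : ℕ),
    NoShat Φ k → ∀ (R : Type) [CommRing R] [Module.Finite ℤ R] (φ : R →+* N),
      Function.Injective φ → (∃ j : R, j ^ 2 = -1) → ∃ D : ℕ, 2 ≤ D ∧ LC Φ φ D

/-- CMP (components).  PROOF.  `R` is a domain, of characteristic zero, integral over `ℤ`; `D ≥ 2` is
not a unit.
(0) If `Q₂ : ℤ` is prime to `D` and `s : R`, `Q₂ + D s ≠ 0`, then `Φ (Q₂ + D s) = Φ Q₂`: with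
`u Q₂ ≡ 1 mod D`, both `u Q₂` and `u (Q₂ + D s)` are in `1 + D R`.
(1) GLUING.  Let `a i ≠ 0` for all `i`.  Choose a positive integer `Q` divisible by all `a i` in `R`
(`Q` = product of norms or of constant coefficients of minimal polynomials), `Q ^ r = Q₁ Q₂` with
`Q₁ ∣ M ^ t`, `Q₂` prime to `M` (hence to `D`), and `K₀` with `D Q₁ ∣ M ^ K₀` (`Q₁` divides a
power of `M`; `D ∣ M ^ k`).  Let `K ≥ K₀`, `y, y' ≠ 0`, `m i ^ K ∣ y - a i`, `m i ^ K ∣ y' - a i`.
Then `M ^ K = ∏ (m i) ^ K ∣ y' - y` (comaximal), and `Q ∈ (a i) ⊆ (y) + (m i ^ K)` so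
`Q ^ r ∈ (y) + (M ^ K)`: `Q ^ r = y w + M ^ K v`.  So `w y = Q ^ r - M ^ K v = Q₁ (Q₂ - D s)` and
`w y' = w y + M ^ K (…) = Q₁ (Q₂ + D s')`; `w ≠ 0` since `Q₂` is invertible modulo `D` and
`D` is not a unit; by (0) `Φ (w y) = Φ (Q₁ Q₂) = Φ (w y')`, so `Φ y = Φ y'`.
(2) For each tuple `a` and `K` there is `y ≠ 0` with `m i ^ K ∣ y - a i` for all `i` (CRT; if the
solution is `0` add `M ^ K`).  Let `v(a)` be the value `Φ (φ y)` for large `K`: well defined
and multiplicative by (1).  `c i x = v(1, …, x, …, 1)` (`x` at the place `i`, `x ≠ 0`).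
As `a = ∏_i (1, …, a i, …, 1)` in the ring of tuples, `v(a) = ∏ c i (a i)`. -/
def T_CMP : Prop :=
  ∀ (N B : Type) [Field N] [CharZero N] [CommGroupWithZero B] (Φ : N →*₀ B)
    (R : Type) [CommRing R] [Module.Finite ℤ R] (φ : R →+* N) (D : ℕ),
    Function.Injective φ → 2 ≤ D → LC Φ φ D →
    ∀ (r : ℕ) (m : Fin r → R) (M k : ℕ), (∀ i j, i ≠ j → IsCoprime (m i) (m j)) →
      ∏ i, m i = (M : R) → 0 < M → D ∣ M ^ k → ∃ c : Fin r → R → B, Cmp Φ φ m c

/-- KUM (Kummer).  PROOF.  If `δ ∈ N` (in the image) then `N' = N` and `j = 0`.  Otherwise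
`X ^ q - d` is irreducible (`q` prime, `ζ ∈ N`), `[N' : N] = q` and there is an automorphism `σ` of
`N'` over `N` with `σ δ = ζ δ`, of order `q` and fixed field `N`.  `(σ w / w) ^ q = 1`, so
`σ w = ζ ^ j w`; then `w / δ ^ j` is fixed by `σ`, so it is some `u ∈ N`, and `x = w ^ q = d ^ j u ^ q`. -/
def T_KUM : Prop :=
  ∀ (N N' : Type) [Field N] [Field N'] [Algebra N N'] (q : ℕ) (ζ : N) (δ : N') (d : N),
    q.Prime → IsPrimitiveRoot ζ q → δ ^ q = algebraMap N N' d →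
    IntermediateField.adjoin N {δ} = ⊤ → ∀ (x : N) (w : N'), x ≠ 0 → w ^ q = algebraMap N N' x →
      ∃ (j : ℕ) (u : N), u ≠ 0 ∧ x = d ^ j * u ^ q

/-- ONE (each component of `d` is a power of the class of `d`).  PROOF.  In an algebraic closure of
`N` take `δ` with `δ ^ q = φ d`, `N' = N(δ)` (`IntermediateField.adjoin`), `Φ'` from `Pk N' q`.
`R'` = the subring of `N'` generated by `φ R` and `δ`; it is finite over `ℤ` and contains a square
root of `-1`; LCO gives `D'`.  Write `D' = D₅ D₄`, `D₅ ∣ M ^ t`, `D₄` prime to `M`.  In `R'` and in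
`R` the elements `m 0, …, m (r - 1), D₄` are pairwise comaximal with product `M D₄`, and `D'` divides
a power of `M D₄`; CMP for `R'`: components `c'` of `Φ'`.  For large `K` choose nonzero `x ∈ R` with
`x ≡ d mod m i ^ K`, `x ≡ 1 mod m j ^ K` (`j ≠ i`), `x ≡ 1 mod D₄ ^ K`, and nonzero `v ∈ R'` with
`v ≡ δ mod m i ^ K`, `v ≡ 1` modulo the others.  Then `Φ x = c i d` (property `ev` of `c`) and
`Φ' x = Φ' (v ^ q)` (property `ev` of `c'` for the tuple `(d at i, 1 elsewhere)`), so `x` is a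
`q`-th power in `N'`.  By KUM `x = d ^ j u ^ q`, so `c i d = Φ x = (Φ d) ^ j`. -/
def T_ONE : Prop :=
  ∀ (N B : Type) [Field N] [CharZero N] [CommGroupWithZero B] (Φ : N →*₀ B) (q : ℕ) (ζ : N),
    q.Prime → IsPrimitiveRoot ζ q → (∀ x y, Φ x = Φ y ↔ ∃ u, u ≠ 0 ∧ x = y * u ^ q) →
    (∀ (N' : Type) [Field N'] [Algebra N N'] (δ : N') (d : N), δ ^ q = algebraMap N N' d →
      IntermediateField.adjoin N {δ} = ⊤ → Pk N' q) →
    ∀ (R : Type) [CommRing R] [Module.Finite ℤ R] (φ : R →+* N), Function.Injective φ →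
      (∃ j : R, j ^ 2 = -1) → ∀ (r : ℕ) (m : Fin r → R) (M : ℕ) (c : Fin r → R → B),
      (∀ i j, i ≠ j → IsCoprime (m i) (m j)) → ∏ i, m i = (M : R) → 0 < M → Cmp Φ φ m c →
      ∀ (i : Fin r) (d : R), d ≠ 0 → ∃ j : ℕ, c i d = Φ (φ d) ^ j

/-- TWO (at most one component is nontrivial).  PROOF.  Continuity: for `a ≠ 0` there is `K₁` with
`c i d = c i a` whenever `d ≠ 0`, `m i ^ K₁ ∣ d - a` (take `K₁` the constant of `ev` for the tuple
`(a at i, 1 elsewhere)`, and `y ≠ 0` with `y ≡ d mod m i ^ K'`, `y ≡ 1 mod m l ^ K'`,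
`K'` larger than `K₁` and the constant of the tuple of `d`: `c i d = Φ y = c i a`).
Values of `Φ` at nonzero elements and of `c i` satisfy `g ^ q = 1` (`c i a ^ q = c i (a ^ q) =
Φ(y ^ q)` for suitable `y`).  Let `g = c i a`, `h = c j b`; for `x, y ∈ ℕ` choose `d ≠ 0` with
`d ≡ a ^ x mod m i ^ K`, `d ≡ b ^ y mod m j ^ K`, `d ≡ 1` modulo the others, `K` large:
`Φ d = g ^ x h ^ y`, `c i d = g ^ x`, `c j d = h ^ y`; by the hypothesis `hone` both are powers of
`g ^ x h ^ y`.  (a) If `g ^ x h ^ y = 1` then `g ^ x = 1`.  (b) `x = y = 1`: `g = (g h) ^ s`, so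
`g ^ (1 - s) = h ^ s`; by (a) both are `1` (use exponents modulo `q`); if `g ≠ 1` and `h ≠ 1`, `q`
divides `s` and `1 - s`, a contradiction. -/
def T_TWO : Prop :=
  ∀ (N B : Type) [Field N] [CharZero N] [CommGroupWithZero B] (Φ : N →*₀ B) (q : ℕ),
    q.Prime → (∀ x y, Φ x = Φ y ↔ ∃ u, u ≠ 0 ∧ x = y * u ^ q) →
    ∀ (R : Type) [CommRing R] [Module.Finite ℤ R] (φ : R →+* N), Function.Injective φ →
      ∀ (r : ℕ) (m : Fin r → R) (M : ℕ) (c : Fin r → R → B),
      (∀ i j, i ≠ j → IsCoprime (m i) (m j)) → ∏ i, m i = (M : R) → 0 < M → Cmp Φ φ m c →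
      (∀ (i : Fin r) (d : R), d ≠ 0 → ∃ j : ℕ, c i d = Φ (φ d) ^ j) →
      ∀ i j : Fin r, i ≠ j → (∀ a, a ≠ 0 → c i a = 1) ∨ (∀ a, a ≠ 0 → c j a = 1)

/-- SYM (all elements are `q`-th powers).  PROOF.  Let `Φ` be the class function of `Pk N q` and
`b ≠ 0`; multiplying by `m ^ q` we may assume `b` integral over `ℤ`.  `R₁ = ℤ[b, τ b, j]`
(`Algebra.adjoin ℤ`), finite over `ℤ` and `τ`-stable; LCO: `D₁`; `D = 2 D₁` (LC holds for
multiples).  Let `z ^ 2 = 8 D ^ 2 - 1`, `τ z = z`, `e₁ = (1 + j z) / 2`, `e₂ = 1 - e₁ = τ e₁`;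
`e₁ e₂ = (1 + z ^ 2) / 4 = 2 D ^ 2`.  `R₂ = ℤ[b, τ b, j, e₁]`, finite over `ℤ`, `τ`-stable; LCO: `D₂`;
`D₂ = D₅ D₃`, `D₅ ∣ (2 D ^ 2) ^ t`, `D₃` prime to `2 D ^ 2`.  `m = ![e₂, e₁, D₃]` is pairwise comaximal
with product `2 D ^ 2 D₃`; CMP: components `c`.  By ONE and TWO `c 0` or `c 1` is trivial; say `c 0`
(the other case is the same).  For `a ≠ 0` take `y ≠ 0`, `y ≡ a mod e₁ ^ K`, `y ≡ 1 mod e₂ ^ K`,
`y ≡ 1 mod D₃ ^ K`; applying `τ`: `τ y ≡ τ a mod e₂ ^ K`, `≡ 1` modulo the others, so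
`Φ (τ y) = c 0 (τ a) = 1`, `τ y` is a `q`-th power, so is `y`, and `c 1 a = Φ y = 1`.
Finally choose `y ∈ R₁`, `y ≠ 0`, `y ≡ b mod (2 D ^ 2) ^ K`, `y ≡ 1 mod D₃ ^ K`: in `R₂`,
`Φ y = c 0 b * c 1 b * c 2 1 = 1`; in `R₁` (CMP with `r = 1`, `m = ![2 D ^ 2]`, evaluated at `y` and at
`b` itself) `Φ y = Φ b`.  So `Φ b = 1 = Φ 1`. -/
def T_SYM : Prop :=
  ∀ (N : Type) [Field N] [CharZero N] (q : ℕ) (ζ j : N) (τ : N ≃+* N), q.Prime →
    IsPrimitiveRoot ζ q → j ^ 2 = -1 → τ j = -j → (∀ x, τ (τ x) = x) →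
    (∀ x : N, IsAlgebraic ℚ x) → (∀ D : ℕ, 0 < D → ∃ z : N, z ^ 2 = 8 * (D : N) ^ 2 - 1 ∧ τ z = z) →
    Pk N q →
    (∀ (N' : Type) [Field N'] [Algebra N N'] (δ : N') (d : N), δ ^ q = algebraMap N N' d →
      IntermediateField.adjoin N {δ} = ⊤ → Pk N' q) → ∀ b : N, ∃ u : N, b = u ^ q

/-! ## I. Galois theory -/

/-- `N` is generated over `F` by finitely many elements -/
def FG (F N : IntermediateField ℚ ℂ) : Prop :=
  ∃ s : Finset ℂ, N = F ⊔ IntermediateField.adjoin ℚ (s : Set ℂ)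

/-- GA2 (Sylow 2-subgroups).  Let `N` be a splitting field over `F` (real, algebraic over `ℚ`) in `ℂ`
of a polynomial with rational coefficients, `I ∈ N`.  If positive elements are squares in all
finite real extensions of `F`, then `[N : F] = 2 * odd`.  PROOF.  `G = Gal(N / F)`, `τ ∈ G` the
restriction of complex conjugation, of order 2; `P` a Sylow 2-subgroup containing `τ`
(`IsPGroup.exists_le_sylow`); `E` = fixed field, real since `τ ∈ P`.  In `E(I)` every element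
`a + b I` (`a, b ∈ E`) is a square: `c = √(a² + b²) ∈ E`, `√((c + a) / 2), √((c - a) / 2) ∈ E`.
`N / E(I)` is Galois of degree `|P| / 2`, a power of 2; if it is not 1 its group has a subgroup of
index 2, giving a quadratic extension of `E(I)`, generated by a square root: impossible. -/
def T_GA2 : Prop :=
  ∀ (F : IntermediateField ℚ ℂ), (∀ x ∈ F, x.im = 0) → (∀ x ∈ F, IsAlgebraic ℚ x) →
    (∀ E : IntermediateField ℚ ℂ, FG F E → (∀ x ∈ E, IsAlgebraic ℚ x) → (∀ x ∈ E, x.im = 0) →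
      ∀ x ∈ E, 0 < x.re → ∃ y ∈ E, y ^ 2 = x) →
    ∀ p : ℚ[X], p ≠ 0 → aeval Complex.I p = 0 →
      ∃ k : ℕ, Odd k ∧ Module.finrank F (IntermediateField.adjoin F (p.rootSet ℂ)) = 2 * k

/-- GAL (the Galois argument).  PROOF.  Let `x` be a real algebraic number, `N₀` the splitting field
over `F` of `minpoly ℚ x * (X ^ 2 + 1)`.  By GA2 `[N₀ : F] = 2 k`, `k` odd.  If `k = 1`, `N₀ = F(I)`,
`x = a + b I` with `a, b ∈ F`, so `x = a ∈ F`.  Otherwise let `q` be an odd prime divisor of `k`, `N` the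
splitting field of `minpoly ℚ x * (X ^ 2 + 1) * (X ^ q - 1)`, `G = Gal(N / F)`, of order `2 k'`, `k'`
odd (GA2), divisible by `q`; `Z = Gal(N / F(I))`, normal of index 2; `τ` = complex conjugation.
Let `Q` be a Sylow `q`-subgroup of `Z`.  Frattini (`Sylow.normalizer_sup_eq_top`): `N_G(Q) Z = G`,
so `N_G(Q)` has even order and contains an involution; the Sylow 2-subgroups have order 2 and are
conjugate, so after conjugating `Q` we may assume that `τ` normalises `Q`.  `E` = fixed field of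
`Q`, as a subfield of `ℂ`: it contains `I`, is stable under conjugation, and contains a
primitive `q`-th root of unity `ζ` (`ζ ∈ N`; `Q` is a `q`-group acting on the group `μ_q` whose
automorphism group has order `q - 1`).  `Q ≠ 1` has a normal subgroup of index `q`, which
gives a cyclic extension `E' / E` of degree `q` in `N`; by Kummer theory
(`exists_root_adjoin_eq_top_of_isCyclic`) `E' = E(δ)`, `δ ^ q ∈ E`; by hypothesis `δ ^ q = u ^ q`,
`u ∈ E`, so `δ = ζ ^ l u ∈ E`, a contradiction. -/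
def T_GAL : Prop :=
  ∀ (F : IntermediateField ℚ ℂ), (∀ x ∈ F, x.im = 0) → (∀ x ∈ F, IsAlgebraic ℚ x) →
    (∀ E : IntermediateField ℚ ℂ, FG F E → (∀ x ∈ E, IsAlgebraic ℚ x) → (∀ x ∈ E, x.im = 0) →
      ∀ x ∈ E, 0 < x.re → ∃ y ∈ E, y ^ 2 = x) →
    (∀ (E : IntermediateField ℚ ℂ) (q : ℕ) (ζ : ℂ), FG F E → (∀ x ∈ E, IsAlgebraic ℚ x) →
      q.Prime → Complex.I ∈ E →
      (∀ x ∈ E, (starRingEnd ℂ) x ∈ E) → IsPrimitiveRoot ζ q → ζ ∈ E →
      ∀ b ∈ E, ∃ u ∈ E, b = u ^ q) →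
    ∀ x : ℂ, IsAlgebraic ℚ x → x.im = 0 → x ∈ F

/-! ## J. The second theorem -/

/-- PKI (transport).  PROOF.  Compose the class function with the isomorphism. -/
def T_PKI : Prop :=
  ∀ (N N' : Type) [Field N] [Field N'] (q : ℕ), (N ≃+* N') → Pk N q → Pk N' q

/-- PKM (packages from model theory).  PROOF.  `FinCl (algebraicClosure ℚ M) q`: for each class
containing an algebraic element choose an algebraic representative; if `z, c` are algebraic,
`z = c y ^ q`, then `y` is algebraic.  PCL and NSH. -/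
def T_PKM : Prop :=
  ∀ (M : Type) [Field M] [CharZero M] (q n : ℕ), 0 < q →
    (∃ C : Finset M, ∀ z : M, z ≠ 0 → IsAlgebraic ℚ z → ∃ c ∈ C, ∃ y : M, y ≠ 0 ∧ z = c * y ^ q) →
    (∀ a c : Fin n → M, ∃ S : Finset (Fin n), ∀ x : M,
      ¬ ∀ i, ((∃ y : M, y ≠ 0 ∧ x + a i = c i * y ^ q) ↔ i ∈ S)) →
    Pk (algebraicClosure ℚ M) q

/-- EXT (finite extensions).  `F₀` is the image of `algebraicClosure ℚ K` in `ℂ`.  PROOF.
`N = F₀(α)` (primitive element).  Let `g ∈ (algebraicClosure ℚ K)[X]` correspond to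
`minpoly F₀ α`.  (1) `g` is irreducible over `K`: the coefficients of a monic factor over `K` are
polynomials in roots of `g`, hence algebraic over `ℚ`, hence in `algebraicClosure ℚ K`.
`M = AdjoinRoot` of the image of `g` in `K[X]`, `ρ` the root; `N ≅ F[X] / g → M`, image `F(ρ)`,
`F = algebraicClosure ℚ K`.  (2) Each `w ∈ M` algebraic over `ℚ` is in `F(ρ)`: `F(ρ, w) = F(θ')`, the
minimal polynomial of `θ'` over `F` is irreducible over `K` by (1), so
`[F(ρ, w) : F] = [K(θ') : K] ≤ [M : K] = deg g = [F(ρ) : F]`. -/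
def T_EXT : Prop :=
  ∀ (K : Type) [Field K] [CharZero K] (ι : algebraicClosure ℚ K →+* ℂ)
    (F₀ N : IntermediateField ℚ ℂ), (∀ x, x ∈ F₀ ↔ ∃ a, ι a = x) → FG F₀ N →
    (∀ x ∈ N, IsAlgebraic ℚ x) →
    ∃ (M : Type) (_ : Field M) (_ : CharZero M) (_ : Algebra K M), FiniteDimensional K M ∧
      Nonempty (N ≃+* algebraicClosure ℚ M)

/-- RCF (the second theorem).  PROOF.  `ι` from ARC, composed with `ℝ → ℂ`: `F₀`.  For each finitely
generated extension `N` of `F₀` in `ℂ` (all elements algebraic) and each prime `q`, `Pk N q` holds: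
EXT, VCM, PKM, PKI.  If `N` is real, `s ^ 2 = d`, quadratic extensions of `N` as in SQA are isomorphic
to `N(√d) ⊆ ℂ`, so SQA gives the first hypothesis of GAL.  For `E` as in the second hypothesis of GAL,
`N' = E(δ)` as in SYM embeds in `ℂ` over `E`, so has `Pk N' q`; `z = √(8 D ^ 2 - 1) ∈ F₀` by the first
hypothesis; SYM with `τ` = complex conjugation gives the second hypothesis.  So `F₀` contains all real
algebraic numbers.  Hence a polynomial of odd degree over `algebraicClosure ℚ K` has a real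
root (under `ι`), which is algebraic, hence in `F₀`; and `√(ι x) ∈ F₀` for `x > 0`. -/
def T_RCF : Prop :=
  ∀ (K : Type) [Field K] [LinearOrder K] [IsStrictOrderedRing K] [Ring.CompatibleRing K]
    [Language.order.Structure K] [Language.order.OrderedStructure K], NIP K →
    (∀ (M : Type) [Field M] [Algebra K M] [FiniteDimensional K M] [CharZero M] (q : ℕ), q.Prime →
      ∃ C : Finset M, ∀ z : M, z ≠ 0 → IsAlgebraic ℚ z → ∃ c ∈ C, ∃ y : M, z = c * y ^ q) →
    IsRealClosed (algebraicClosure ℚ K)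

end NFV
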