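import Pool.Agent.NFV.Targets2
import Pool.Agent.NFV.Targets3

/-!
# NFV: PKM (packages from model theory)
-/

set_option autoImplicit false

open Polynomial FirstOrder

noncomputable section

namespace NFV

namespace PKM_

theorem finCl (M : Type) [Field M] [CharZero M] (q : ℕ) (hq : 0 < q)
    (hC : ∃ C : Finset M, ∀ z : M, z ≠ 0 → IsAlgebraic ℚ z →
      ∃ c ∈ C, ∃ y : M, y ≠ 0 ∧ z = c * y ^ q) : FinCl (algebraicClosure ℚ M) q := by
  classical
  obtain ⟨C, hC⟩ := hC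
  -- a representative for each class with an algebraic element
  have hrep : ∀ c : M, ∃ r : algebraicClosure ℚ M,
      ∀ z : algebraicClosure ℚ M, z ≠ 0 → (∃ y : M, y ≠ 0 ∧ (z : M) = c * y ^ q) →
        ∃ y : M, y ≠ 0 ∧ (r : M) = c * y ^ q ∧ (r : M) ≠ 0 := by
    intro c
    by_cases h : ∃ z : algebraicClosure ℚ M, z ≠ 0 ∧ ∃ y : M, y ≠ 0 ∧ (z : M) = c * y ^ q
    · obtain ⟨z, hz, y, hy, hzy⟩ := h
      refine ⟨z, fun _ _ _ => ⟨y, hy, hzy, ?_⟩⟩
      intro h0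
      exact hz (Subtype.ext (by simpa using h0))
    · exact ⟨0, fun z hz hzy => (h ⟨z, hz, hzy⟩).elim⟩
  choose r hr using hrep
  refine ⟨C.image r, fun z hz => ?_⟩
  have hz' : (z : M) ≠ 0 := by
    intro h
    exact hz (Subtype.ext (by simpa using h))
  obtain ⟨c, hc, y, hy, hzy⟩ := hC (z : M) hz' ((mem_algebraicClosure_iff).1 z.2)
  obtain ⟨w, hw, hrw, hr0⟩ := hr c z hz ⟨y, hy, hzy⟩
  refine ⟨r c, Finset.mem_image_of_mem r hc, ?_⟩
  have h1 : (z : M) = (r c : M) * (y / w) ^ q := by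
    rw [hrw, hzy, div_pow]
    field_simp
  have h2 : (y / w) ^ q = ((z / r c : algebraicClosure ℚ M) : M) := by
    push_cast
    rw [eq_div_iff hr0, mul_comm]
    exact h1.symm
  have h3 : IsAlgebraic ℚ ((y / w) ^ q) := by
    rw [h2]
    exact (mem_algebraicClosure_iff).1 (z / r c : algebraicClosure ℚ M).2
  have h4 : IsAlgebraic ℚ (y / w) := IsAlgebraic.of_pow hq h3
  refine ⟨⟨y / w, (mem_algebraicClosure_iff).2 h4⟩, ?_, ?_⟩
  · intro h
    exact div_ne_zero hy hw (congrArg Subtype.val h)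
  · apply Subtype.ext
    push_cast
    exact h1

end PKM_

theorem p_PKM (h_PCL : T_PCL) (h_NSH : T_NSH) : T_PKM := by
  intro M _ _ q n hq hC hS
  obtain ⟨B, iB, fB, Φ, hsurj, hΦ⟩ :=
    h_PCL (algebraicClosure ℚ M) q hq (PKM_.finCl M q hq hC)
  exact ⟨B, iB, fB, Φ, hsurj, hΦ, n, h_NSH M q n hq hS B Φ hsurj hΦ⟩

end NFV
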