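import Pool.Agent.NFV.Targets2

/-!
# NFV: PRM (primitive integral element)
-/

set_option autoImplicit false

open Polynomial FirstOrder

noncomputable section

namespace NFV

namespace PRM_

lemma gen {F N : Type} [Field F] [CharZero F] [Field N] [Algebra F N] (b s : N)
    (hb : IsIntegral F b) (hs : IsIntegral F s) :
    ∃ α : N, IsIntegral F α ∧ b ∈ IntermediateField.adjoin F {α} ∧
      s ∈ IntermediateField.adjoin F {α} := by
  have hfd : FiniteDimensional F (IntermediateField.adjoin F {b, s}) := by
    have h1 : ∀ x ∈ ({b, s} : Set N), IsIntegral F x := by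
      intro x hx
      rcases hx with rfl | hx
      · exact hb
      · rw [Set.mem_singleton_iff] at hx
        rw [hx]
        exact hs
    exact IntermediateField.finiteDimensional_adjoin h1
  obtain ⟨α, hα⟩ := Field.exists_primitive_element F (IntermediateField.adjoin F {b, s})
  have hmem : ∀ x ∈ IntermediateField.adjoin F {b, s},
      x ∈ IntermediateField.adjoin F {(α : N)} := by
    intro x hx
    have h1 : (⟨x, hx⟩ : IntermediateField.adjoin F {b, s}) ∈
        IntermediateField.adjoin F {α} := by
      rw [hα]
      exact IntermediateField.mem_top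
    have h2 : x ∈ (IntermediateField.adjoin F {α}).map
        (IntermediateField.adjoin F {b, s}).val := ⟨⟨x, hx⟩, h1, rfl⟩
    rw [IntermediateField.adjoin_map, Set.image_singleton] at h2
    exact h2
  have hint : IsIntegral F (α : N) := by
    have h1 : IsIntegral F α := IsIntegral.of_finite F α
    exact h1.map (IntermediateField.adjoin F {b, s}).val
  exact ⟨α, hint, hmem b (IntermediateField.subset_adjoin F _ (by simp)),
    hmem s (IntermediateField.subset_adjoin F _ (by simp))⟩

end PRM_

open PRM_ in
theorem p_PRM : T_PRM := by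
  intro N _ _ b s hb hs
  obtain ⟨α, hint, hbα, hsα⟩ := gen (F := ℚ) b s hb.isIntegral hs.isIntegral
  have halg : IsAlgebraic ℤ α := (IsFractionRing.isAlgebraic_iff ℤ ℚ N).2 hint.isAlgebraic
  obtain ⟨y, hy, hyi⟩ := halg.exists_integral_multiple
  have h3 : IntermediateField.adjoin ℚ {α} ≤ IntermediateField.adjoin ℚ {y • α} := by
    rw [IntermediateField.adjoin_simple_le_iff]
    have h4 : y • α ∈ IntermediateField.adjoin ℚ {y • α} :=
      IntermediateField.mem_adjoin_simple_self ℚ _
    have h5 : ((y : ℚ)⁻¹ : ℚ) • (y • α) = α := by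
      rw [Algebra.smul_def, zsmul_eq_mul]
      have h6 : ((y : ℤ) : N) ≠ 0 := by exact_mod_cast hy
      simp [h6]
    have h7 := IntermediateField.smul_mem (IntermediateField.adjoin ℚ {y • α}) h4
      (x := ((y : ℚ)⁻¹ : ℚ))
    rwa [h5] at h7
  exact ⟨y • α, hyi, h3 hbα, h3 hsα⟩

end NFV
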