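import Pool.Agent.NFV.Targets3
import Pool.Agent.NFV.Targets2

/-!
# NFV: RCF, the second theorem (helper62)
-/

set_option autoImplicit false

open Polynomial FirstOrder

noncomputable section

namespace NFV

namespace RCF_

/-- algebraicity over the rationals does not depend on the field -/
theorem alg_iff {A B : Type} [Field A] [Field B] (i1 : Algebra ℚ A) (i2 : Algebra ℚ B)
    (f : A →+* B) (x : A) :
    @IsAlgebraic ℚ A _ _ i1 x ↔ @IsAlgebraic ℚ B _ _ i2 (f x) := by
  have h := isAlgebraic_algHom_iff (R := ℚ) (f.toRatAlgHom) f.injective (a := x)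
  exact h.symm

/-- a real polynomial of odd degree has a root -/
theorem odd_root (g : ℝ[X]) (hg : Odd g.natDegree) : ∃ r : ℝ, g.eval r = 0 := by
  have key : ∀ g : ℝ[X], Odd g.natDegree → 0 ≤ g.leadingCoeff → ∃ r : ℝ, g.eval r = 0 := by
    intro g hg hl
    have hnd : 0 < g.natDegree := hg.pos
    have hd : 0 < g.degree := natDegree_pos_iff_degree_pos.1 hnd
    have h1 := tendsto_atTop_of_leadingCoeff_nonneg g hd hl
    have hnX : (-X : ℝ[X]).natDegree = 1 := by rw [natDegree_neg, natDegree_X]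
    have hnd2 : (g.comp (-X)).natDegree = g.natDegree := by
      rw [natDegree_comp, hnX, mul_one]
    have hd2 : 0 < (g.comp (-X)).degree := by
      apply natDegree_pos_iff_degree_pos.1
      rw [hnd2]
      exact hnd
    have hlc : (g.comp (-X)).leadingCoeff ≤ 0 := by
      rw [leadingCoeff_comp (by rw [hnX]; exact one_ne_zero), leadingCoeff_neg, leadingCoeff_X,
        hg.neg_one_pow]
      linarith
    have h2 := tendsto_atBot_of_leadingCoeff_nonpos (g.comp (-X)) hd2 hlc
    obtain ⟨a, ha⟩ := (h1.eventually_ge_atTop 0).exists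
    obtain ⟨b, hb⟩ := (h2.eventually_le_atBot 0).exists
    have hb' : g.eval (-b) ≤ 0 := by simpa [eval_comp] using hb
    have h3 := mem_range_of_exists_le_of_exists_ge (c := 0) g.continuous ⟨-b, hb'⟩ ⟨a, ha⟩
    obtain ⟨r, hr⟩ := h3
    exact ⟨r, hr⟩
  rcases le_total 0 g.leadingCoeff with h | h
  · exact key g hg h
  · obtain ⟨r, hr⟩ := key (-g) (by rw [natDegree_neg]; exact hg) (by
      rw [leadingCoeff_neg]; linarith)
    refine ⟨r, ?_⟩
    rw [eval_neg] at hr
    linarith

/-- `Pk` holds for all finitely generated algebraic extensions of `F₀` -/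
def AllPk (F₀ : IntermediateField ℚ ℂ) : Prop :=
  ∀ N : IntermediateField ℚ ℂ, FG F₀ N → (∀ x ∈ N, IsAlgebraic ℚ x) → ∀ q : ℕ, q.Prime →
    Pk N q

theorem le_algebraic {N : IntermediateField ℚ ℂ} (h : N ≤ algebraicClosure ℚ ℂ) :
    ∀ x ∈ N, IsAlgebraic ℚ x := fun _ hx => mem_algebraicClosure_iff.1 (h hx)

/-- `Pk` for a simple extension of a field in `ℂ` -/
theorem ext_pk (h_PKI : T_PKI) (F₀ E : IntermediateField ℚ ℂ) (hA : AllPk F₀) (hE : FG F₀ E)
    (hEa : ∀ x ∈ E, IsAlgebraic ℚ x) (N' : Type) [Field N'] [Algebra E N'] (δ : N') (d : E)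
    (q : ℕ) (hq : q.Prime) (hδ : δ ^ q = algebraMap E N' d)
    (htop : IntermediateField.adjoin E {δ} = ⊤) (p : ℕ) (hp : p.Prime) : Pk N' p := by
  have hcz : CharZero N' := charZero_of_injective_algebraMap (algebraMap E N').injective
  have hint : IsIntegral E δ := by
    refine ⟨X ^ q - C d, monic_X_pow_sub_C d hq.ne_zero, ?_⟩
    simp [hδ]
  have halg : Algebra.IsAlgebraic E N' := by
    have h1 := IntermediateField.isAlgebraic_adjoin_simple hint
    rw [htop] at h1
    exact (Algebra.IsAlgebraic.of_injective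
      (IntermediateField.topEquiv (F := E) (E := N')).symm.toAlgHom
      (IntermediateField.topEquiv (F := E) (E := N')).symm.injective)
  let f : N' →ₐ[E] ℂ := IsAlgClosed.lift
  let fr : N' →+* ℂ := f.toRingHom
  have hfE : ∀ e : E, f (algebraMap E N' e) = (e : ℂ) := fun e => f.commutes e
  let N : IntermediateField ℚ ℂ := E ⊔ IntermediateField.adjoin ℚ {f δ}
  have hδN : f δ ∈ N :=
    (le_sup_right : _ ≤ N) (IntermediateField.mem_adjoin_simple_self ℚ (f δ))
  have hEN : ∀ e : E, (e : ℂ) ∈ N := fun e => (le_sup_left : E ≤ N) e.2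
  have hmem : ∀ z : N', f z ∈ N := by
    intro z
    have hz : z ∈ IntermediateField.adjoin E {δ} := by rw [htop]; trivial
    induction hz using IntermediateField.adjoin_induction with
    | mem x hx =>
      rw [Set.mem_singleton_iff] at hx
      rw [hx]
      exact hδN
    | algebraMap x => rw [hfE]; exact hEN x
    | add x y _ _ hx hy => rw [map_add]; exact add_mem hx hy
    | inv x _ hx => rw [map_inv₀]; exact inv_mem hx
    | mul x y _ _ hx hy => rw [map_mul]; exact mul_mem hx hy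
  have hsurj : ∀ w ∈ N, ∃ z, f z = w := by
    have hle : N ≤ (RingHom.toRatAlgHom fr).fieldRange := by
      refine sup_le ?_ ?_
      · intro e he
        rw [AlgHom.mem_fieldRange]
        exact ⟨algebraMap E N' ⟨e, he⟩, hfE ⟨e, he⟩⟩
      · rw [IntermediateField.adjoin_le_iff]
        intro x hx
        rw [Set.mem_singleton_iff] at hx
        rw [hx]
        exact ⟨δ, rfl⟩
    intro w hw
    have := hle hw
    rw [AlgHom.mem_fieldRange] at this
    exact this
  let g : N' →+* N := fr.codRestrict N hmem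
  have hbij : Function.Bijective g := by
    refine ⟨g.injective, ?_⟩
    rintro ⟨w, hw⟩
    obtain ⟨z, hz⟩ := hsurj w hw
    exact ⟨z, Subtype.ext hz⟩
  have hFG : FG F₀ N := by
    obtain ⟨s, hs⟩ := hE
    classical
    refine ⟨insert (f δ) s, ?_⟩
    rw [Finset.coe_insert, Set.insert_eq, IntermediateField.adjoin_union, sup_comm _
      (IntermediateField.adjoin ℚ (s : Set ℂ)), ← sup_assoc, ← hs]
  have hNa : ∀ x ∈ N, IsAlgebraic ℚ x := by
    apply le_algebraic
    refine sup_le ?_ ?_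
    · intro x hx
      exact mem_algebraicClosure_iff.2 (hEa x hx)
    · rw [IntermediateField.adjoin_le_iff]
      intro x hx
      rw [Set.mem_singleton_iff] at hx
      rw [hx]
      apply mem_algebraicClosure_iff.2
      have h2 : IsAlgebraic ℚ ((f δ) ^ q) := by
        rw [← map_pow, hδ, hfE]
        exact hEa _ d.2
      exact h2.of_pow hq.pos
  exact h_PKI N N' p (RingEquiv.ofBijective g hbij).symm (hA N hFG hNa p hp)

/-- positive elements of real fields are squares -/
theorem hyp1 (h_PKI : T_PKI) (h_SQA : T_SQA) (F₀ : IntermediateField ℚ ℂ) (hA : AllPk F₀)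
    (E : IntermediateField ℚ ℂ) (hE : FG F₀ E) (hEa : ∀ x ∈ E, IsAlgebraic ℚ x)
    (hreal : ∀ x ∈ E, x.im = 0) : ∀ x ∈ E, 0 < x.re → ∃ y ∈ E, y ^ 2 = x := by
  intro x hx hpos
  let ι : E →+* ℝ :=
    { toFun := fun z => (z : ℂ).re
      map_one' := by simp
      map_zero' := by simp
      map_add' := by intro a b; simp
      map_mul' := by
        intro a b
        have h1 := hreal a a.2
        simp [Complex.mul_re, h1] }
  have halg : ∀ z : E, @IsAlgebraic ℚ E _ _ DivisionRing.toRatAlgebra z := by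
    intro z
    rw [alg_iff DivisionRing.toRatAlgebra inferInstance (algebraMap E ℂ) z]
    exact hEa z z.2
  have hsq := h_SQA E ι halg (hA E hE hEa 2 Nat.prime_two) (by
    intro N _ _ s d _ hs hall
    refine ext_pk h_PKI F₀ E hA hE hEa N s d 2 Nat.prime_two hs ?_ 2 Nat.prime_two
    rw [eq_top_iff]
    intro z _
    obtain ⟨a, b, hz⟩ := hall z
    rw [hz]
    exact add_mem (algebraMap_mem _ _) (mul_mem (algebraMap_mem _ _)
      (IntermediateField.mem_adjoin_simple_self E s))) ⟨x, hx⟩ hpos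
  obtain ⟨r, hr⟩ := hsq
  refine ⟨r, r.2, ?_⟩
  have h2 := congrArg (fun z : E => (z : ℂ)) hr
  simp only [MulMemClass.coe_mul] at h2
  rw [h2, sq]

/-- elements are powers -/
theorem hyp2 (h_PKI : T_PKI) (h_SQA : T_SQA) (h_SYM : T_SYM) (F₀ : IntermediateField ℚ ℂ)
    (hA : AllPk F₀) (hF₀a : ∀ x ∈ F₀, IsAlgebraic ℚ x) (hF₀r : ∀ x ∈ F₀, x.im = 0)
    (E : IntermediateField ℚ ℂ) (q : ℕ) (ζ : ℂ) (hE : FG F₀ E)
    (hEa : ∀ x ∈ E, IsAlgebraic ℚ x) (hq : q.Prime) (hI : Complex.I ∈ E)
    (hconj : ∀ x ∈ E, (starRingEnd ℂ) x ∈ E) (hζ : IsPrimitiveRoot ζ q) (hζE : ζ ∈ E) :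
    ∀ b ∈ E, ∃ u ∈ E, b = u ^ q := by
  intro b hb
  let τ : E ≃+* E :=
    { toFun := fun z => ⟨(starRingEnd ℂ) z, hconj z z.2⟩
      invFun := fun z => ⟨(starRingEnd ℂ) z, hconj z z.2⟩
      left_inv := by intro z; apply Subtype.ext; simp
      right_inv := by intro z; apply Subtype.ext; simp
      map_mul' := by intro a b; apply Subtype.ext; simp
      map_add' := by intro a b; apply Subtype.ext; simp }
  have halg : ∀ z : E, @IsAlgebraic ℚ E _ _ DivisionRing.toRatAlgebra z := by
    intro z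
    rw [alg_iff DivisionRing.toRatAlgebra inferInstance (algebraMap E ℂ) z]
    exact hEa z z.2
  have hF₀E : F₀ ≤ E := by
    obtain ⟨s, hs⟩ := hE
    rw [hs]
    exact le_sup_left
  have hz' : IsPrimitiveRoot (⟨ζ, hζE⟩ : E) q :=
    IsPrimitiveRoot.of_map_of_injective (f := algebraMap E ℂ) hζ (algebraMap E ℂ).injective
  have hu := h_SYM E q ⟨ζ, hζE⟩ ⟨Complex.I, hI⟩ τ hq hz'
    (by apply Subtype.ext; simp) (by apply Subtype.ext; simp [τ])
    (by intro x; apply Subtype.ext; simp [τ]) halg (by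
      intro D hD
      have hmem : (8 * (D : ℂ) ^ 2 - 1) ∈ F₀ := by
        have h8 : (8 : ℂ) ∈ F₀ := ofNat_mem F₀ 8
        exact sub_mem (mul_mem h8 (pow_mem (natCast_mem F₀ D) 2)) (one_mem F₀)
      have hre : 0 < (8 * (D : ℂ) ^ 2 - 1).re := by
        have h1 : (8 * (D : ℂ) ^ 2 - 1) = ((8 * (D : ℝ) ^ 2 - 1 : ℝ) : ℂ) := by push_cast; ring
        rw [h1, Complex.ofReal_re]
        have hD1 : (1 : ℝ) ≤ D := by exact_mod_cast hD
        nlinarith
      obtain ⟨y, hy, hy2⟩ := hyp1 h_PKI h_SQA F₀ hA F₀ ⟨∅, by simp⟩ hF₀a hF₀r _ hmem hre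
      refine ⟨⟨y, hF₀E hy⟩, ?_, ?_⟩
      · apply Subtype.ext
        push_cast
        exact hy2
      · apply Subtype.ext
        show (starRingEnd ℂ) y = y
        exact Complex.conj_eq_iff_im.2 (hF₀r y hy))
    (hA E hE hEa q hq)
    (by
      intro N' _ _ δ d hδ htop
      exact ext_pk h_PKI F₀ E hA hE hEa N' δ d q hq hδ htop q hq) ⟨b, hb⟩
  obtain ⟨u, hu⟩ := hu
  refine ⟨u, u.2, ?_⟩
  have h2 := congrArg (fun z : E => (z : ℂ)) hu
  simpa using h2

end RCF_

open RCF_ in
/-- The second theorem: the algebraic numbers of `K` form a real closed field. -/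
theorem p_RCF (h_ARC : T_ARC) (h_EXT : T_EXT) (h_VCM : T_VCM) (h_PKM : T_PKM) (h_PKI : T_PKI)
    (h_SQA : T_SQA) (h_SYM : T_SYM) (h_GAL : T_GAL) : T_RCF := by
  intro K _ _ _ _ _ _ hNIP hfin
  obtain ⟨ι₀, -⟩ := h_ARC K
  have hai : Algebra.IsAlgebraic ℚ (algebraicClosure ℚ K) := by
    constructor
    intro x
    exact (alg_iff inferInstance inferInstance (algebraMap (algebraicClosure ℚ K) K) x).2
      (mem_algebraicClosure_iff.1 x.2)
  let ι : algebraicClosure ℚ K →+* ℂ := Complex.ofRealHom.comp ι₀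
  let F₀ : IntermediateField ℚ ℂ := (RingHom.toRatAlgHom ι).fieldRange
  have hF₀ : ∀ x, x ∈ F₀ ↔ ∃ a, ι a = x := fun x => AlgHom.mem_fieldRange
  have hF₀r : ∀ x ∈ F₀, x.im = 0 := by
    intro x hx
    obtain ⟨a, rfl⟩ := (hF₀ x).1 hx
    exact Complex.ofReal_im _
  have hF₀a : ∀ x ∈ F₀, IsAlgebraic ℚ x := by
    intro x hx
    obtain ⟨a, rfl⟩ := (hF₀ x).1 hx
    rw [← alg_iff inferInstance inferInstance ι a]
    exact Algebra.IsAlgebraic.isAlgebraic a
  have hA : AllPk F₀ := by
    intro N hN hNa q hq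
    obtain ⟨M, iF, iC, iA, hfd, ⟨e⟩⟩ := h_EXT K ι F₀ N hF₀ hN hNa
    obtain ⟨n, hn⟩ := h_VCM K M hNIP q
    obtain ⟨C, hC⟩ := hfin M q hq
    have hpk := h_PKM M q n hq.pos ⟨C, by
      intro z hz hza
      obtain ⟨c, hc, y, hy⟩ := hC z hz hza
      refine ⟨c, hc, y, ?_, hy⟩
      rintro rfl
      apply hz
      rw [hy, zero_pow hq.ne_zero, mul_zero]⟩ hn
    exact h_PKI _ _ q e.symm hpk
  have hall := h_GAL F₀ hF₀r hF₀a
    (fun E hE hEa hEr => hyp1 h_PKI h_SQA F₀ hA E hE hEa hEr)
    (fun E q ζ hE hEa hq hI hconj hζ hζE =>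
      hyp2 h_PKI h_SQA h_SYM F₀ hA hF₀a hF₀r E q ζ hE hEa hq hI hconj hζ hζE)
  have hreal : ∀ r : ℝ, IsAlgebraic ℚ r → ∃ a, ι₀ a = r := by
    intro r hr
    have h1 : IsAlgebraic ℚ (r : ℂ) :=
      (alg_iff inferInstance inferInstance Complex.ofRealHom r).1 hr
    obtain ⟨a, ha⟩ := (hF₀ _).1 (hall (r : ℂ) h1 (Complex.ofReal_im r))
    exact ⟨a, Complex.ofReal_injective ha⟩
  have halg : ∀ x : algebraicClosure ℚ K, IsAlgebraic ℚ (ι₀ x) := by
    intro x
    rw [← alg_iff inferInstance inferInstance ι₀ x]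
    exact Algebra.IsAlgebraic.isAlgebraic x
  have hsq : ∀ x : algebraicClosure ℚ K, 0 < ι₀ x → IsSquare x := by
    intro x hx
    have h1 : IsAlgebraic ℚ (Real.sqrt (ι₀ x)) := by
      apply IsAlgebraic.of_pow (n := 2) two_pos
      rw [Real.sq_sqrt hx.le]
      exact halg x
    obtain ⟨a, ha⟩ := hreal _ h1
    refine ⟨a, ?_⟩
    apply ι₀.injective
    rw [map_mul, ha, Real.mul_self_sqrt hx.le]
  have hss : ∀ s : algebraicClosure ℚ K, IsSumSq s → 0 ≤ ι₀ s := by
    intro s hs
    induction hs with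
    | zero => rw [map_zero]
    | sq_add a _ ih =>
      rw [map_add, map_mul]
      have := mul_self_nonneg (ι₀ a)
      linarith
  refine { one_add_ne_zero := ?_, isSquare_or_isSquare_neg := ?_,
           exists_isRoot_of_odd_natDegree := ?_ }
  · intro s hs h0
    have h1 := congrArg ι₀ h0
    rw [map_add, map_one, map_zero] at h1
    have h2 := hss s hs
    linarith
  · intro x
    rcases lt_trichotomy (ι₀ x) 0 with h | h | h
    · right
      apply hsq
      rw [map_neg]
      linarith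
    · left
      have h0 : x = 0 := by
        apply ι₀.injective
        rw [h, map_zero]
      rw [h0]
      exact ⟨0, by simp⟩
    · left
      exact hsq x h
  · intro f hf
    have hg : Odd (f.map ι₀).natDegree := by rw [natDegree_map]; exact hf
    obtain ⟨r, hr⟩ := odd_root _ hg
    have hf0 : f ≠ 0 := by
      rintro rfl
      simp at hf
    have hra : IsAlgebraic ℚ r := by
      let _ : Algebra (algebraicClosure ℚ K) ℝ := ι₀.toAlgebra
      have : IsScalarTower ℚ (algebraicClosure ℚ K) ℝ := by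
        apply IsScalarTower.of_algebraMap_eq
        intro q
        have h3 : ι₀ (algebraMap ℚ (algebraicClosure ℚ K) q) = algebraMap ℚ ℝ q := by
          rw [eq_ratCast, map_ratCast, eq_ratCast]
        exact h3.symm
      have h4 : IsAlgebraic (algebraicClosure ℚ K) r := by
        refine ⟨f, hf0, ?_⟩
        rw [aeval_def, ← eval_map]
        exact hr
      exact h4.restrictScalars ℚ
    obtain ⟨a, ha⟩ := hreal r hra
    refine ⟨a, ?_⟩
    rw [IsRoot.def]
    apply ι₀.injective
    rw [map_zero, ← hr, ← ha, eval_map, eval₂_at_apply]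

end NFV
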