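import Pool.Agent.NFV.Targets
import Pool.Agent.NFV.Targets2
import Pool.Agent.NFV.Targets3

/-!
# NFV: SQA (positive elements are squares, pure algebra)
-/

set_option autoImplicit false

open Polynomial FirstOrder

noncomputable section

namespace NFV

namespace SQA_

lemma map_ev {A B : Type} [CommRing A] [CommRing B] (φ : A →+* B) (a : A) (P : ℤ[X]) :
    φ (aeval a P) = aeval (φ a) P :=
  (Polynomial.aeval_algHom_apply φ.toIntAlgHom a P).symm

/-- homogenisation -/
lemma homog (G P : ℤ[X]) (m : ℕ) : ∃ H : ℤ[X], ∀ (A : Type) [CommRing A] (θ b : A),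
    (m : A) * b = aeval θ P → aeval θ H = (m : A) ^ G.natDegree * aeval b G := by
  refine ⟨∑ i ∈ Finset.range (G.natDegree + 1),
    C (G.coeff i) * ((m : ℤ[X]) ^ (G.natDegree - i) * P ^ i), fun A _ θ b h => ?_⟩
  rw [map_sum, aeval_eq_sum_range, Finset.mul_sum]
  refine Finset.sum_congr rfl fun i hi => ?_
  have hi' : i ≤ G.natDegree := Nat.lt_succ_iff.1 (Finset.mem_range.1 hi)
  rw [map_mul, map_mul, map_pow, map_pow, map_natCast, aeval_C, ← h, mul_pow,
    Algebra.smul_def]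
  have h2 : (m : A) ^ G.natDegree = (m : A) ^ (G.natDegree - i) * (m : A) ^ i := by
    rw [← pow_add, Nat.sub_add_cancel hi']
  rw [h2]
  ring

/-- the square in the quadratic extension -/
lemma quad {F N : Type} [Field F] [CharZero F] [Field N] [Algebra F N] (ι : F →+* ℝ) (s : N)
    (d x : F) (hd : ι d < 0) (hs : s ^ 2 = algebraMap F N d) (hx : ι x < 0)
    (hspan : ∀ z : N, ∃ x y : F, z = algebraMap F N x + algebraMap F N y * s) (u : N)
    (hu : algebraMap F N x = u ^ 2) : ∃ v : F, x = d * v ^ 2 := by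
  obtain ⟨p, q, hpq⟩ := hspan u
  have hinj := (algebraMap F N).injective
  have h1 : algebraMap F N (x - p ^ 2 - q ^ 2 * d) = algebraMap F N (2 * p * q) * s := by
    simp only [map_sub, map_mul, map_pow, map_ofNat]
    rw [hu, hpq, ← hs]
    ring
  have h2 : 2 * p * q = 0 := by
    by_contra h2
    have h3 : s = algebraMap F N ((x - p ^ 2 - q ^ 2 * d) / (2 * p * q)) := by
      rw [map_div₀, h1]
      have h4 : algebraMap F N (2 * p * q) ≠ 0 := by
        intro h4
        exact h2 (hinj (by rw [h4, map_zero]))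
      field_simp
    rw [h3, ← map_pow] at hs
    have h5 := hinj hs
    rw [← h5, map_pow] at hd
    exact absurd hd (not_lt.2 (sq_nonneg _))
  have h6 : x - p ^ 2 - q ^ 2 * d = 0 := by
    apply hinj
    rw [h1, h2, map_zero, zero_mul]
  rcases mul_eq_zero.1 h2 with h3 | h3
  · have h4 : p = 0 := by
      rcases mul_eq_zero.1 h3 with h4 | h4
      · exact absurd h4 two_ne_zero
      · exact h4
    refine ⟨q, ?_⟩
    rw [h4] at h6
    linear_combination h6
  · rw [h3] at h6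
    have h7 : x = p ^ 2 := by linear_combination h6
    rw [h7, map_pow] at hx
    exact absurd hx (not_lt.2 (sq_nonneg _))

/-- the core: integral `b` -/
lemma core (hCOR : T_COR) (hWSG : T_WSG) (hPRM : T_PRM) (hFRC : T_FRC)
    (F : Type) [Field F] [CharZero F] (ι : F →+* ℝ) (halg : ∀ x : F, IsAlgebraic ℚ x)
    (hP : Pk F 2) (b : F) (hb : IsIntegral ℤ b) (hb0 : 0 < ι b) :
    ∃ d : F, ι d < 0 ∧ ∀ (N : Type) [Field N] [Algebra F N] (s : N), s ^ 2 = algebraMap F N d →
      (∀ z : N, ∃ x y : F, z = algebraMap F N x + algebraMap F N y * s) → Pk N 2 →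
      IsSquare b := by
  obtain ⟨B, _, _, Φ, -, hΦ, k, hk⟩ := hP
  obtain ⟨D, hD0, hD⟩ := hCOR F B Φ k hk b hb
  obtain ⟨G, hG1, hG2⟩ := hWSG (minpoly ℤ b) (ι b) (minpoly.ne_zero hb)
  have hDr : (1 : ℝ) ≤ D := by exact_mod_cast hD0
  obtain ⟨n₁, hn₁⟩ : ∃ n₁ : F, n₁ = 1 + 2 * (D : F) * aeval b G := ⟨_, rfl⟩
  have hιn : ι n₁ = 1 + 2 * (D : ℝ) * aeval (ι b) G := by
    rw [hn₁, map_add, map_mul, map_mul, map_one, map_ofNat, map_natCast, map_ev]
  have hιn0 : ι n₁ < 0 := by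
    rw [hιn]
    nlinarith
  refine ⟨b * n₁, by rw [map_mul]; exact mul_neg_of_pos_of_neg hb0 hιn0, ?_⟩
  intro N _ _ s hs hspan hPN
  have : CharZero N := charZero_of_injective_algebraMap (algebraMap F N).injective
  have hinj := (algebraMap F N).injective
  obtain ⟨B', _, _, Ψ, -, hΨ, k', hk'⟩ := hPN
  -- the primitive element
  have hbalg : IsAlgebraic ℚ (algebraMap F N b) := (halg b).algHom (algebraMap F N).toRatAlgHom
  have hdalg : IsAlgebraic ℚ (algebraMap F N (b * n₁)) :=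
    (halg (b * n₁)).algHom (algebraMap F N).toRatAlgHom
  have hsalg : IsAlgebraic ℚ s := by
    rw [← hs] at hdalg
    exact hdalg.of_pow two_pos
  obtain ⟨θ, hθ, hbθ, hsθ⟩ := hPRM N (algebraMap F N b) s hbalg hsalg
  obtain ⟨D', hD'0, hD'⟩ := hCOR N B' Ψ k' hk' θ hθ
  obtain ⟨hF1, hF2⟩ := hFRC N θ hθ
  obtain ⟨m, P, hm, hmP⟩ := hF1 (algebraMap F N b) hbθ
  obtain ⟨H, hH⟩ := homog G P m
  have hD'r : (1 : ℝ) ≤ D' := by exact_mod_cast hD'0
  have hmr : (1 : ℝ) ≤ (m : ℝ) ^ G.natDegree := by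
    have h1 : 1 ≤ m ^ G.natDegree := Nat.one_le_pow _ _ hm
    exact_mod_cast h1
  obtain ⟨x, hx⟩ : ∃ x : F, x = 1 + 2 * (D : F) * (D' : F) * ((m : F) ^ G.natDegree *
    aeval b G) := ⟨_, rfl⟩
  have hιx : ι x = 1 + 2 * (D : ℝ) * (D' : ℝ) * ((m : ℝ) ^ G.natDegree * aeval (ι b) G) := by
    rw [hx]
    simp only [map_add, map_mul, map_one, map_ofNat, map_natCast, map_pow, map_ev]
  have hDD : (1 : ℝ) ≤ D * D' * (m : ℝ) ^ G.natDegree := by
    have h1 : 1 ≤ D * D' * m ^ G.natDegree :=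
      Nat.one_le_iff_ne_zero.2 (by positivity)
    exact_mod_cast h1
  have hιx0 : ι x < 0 := by
    rw [hιx]
    nlinarith
  -- the image of `x` in `N`
  have hxN : algebraMap F N x = 1 + (D' : N) * aeval θ (2 * (D : ℤ[X]) * H) := by
    rw [hx]
    simp only [map_add, map_mul, map_one, map_ofNat, map_natCast, map_pow]
    rw [hH N θ (algebraMap F N b) hmP, map_ev]
    ring
  have hxN0 : algebraMap F N x ≠ 0 := by
    intro h
    have h1 : x = 0 := hinj (by rw [h, map_zero])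
    rw [h1, map_zero] at hιx0
    exact lt_irrefl _ hιx0
  have hpos : ∀ α : ℝ, aeval α (minpoly ℤ θ) = 0 →
      0 < 1 + (D' : ℝ) * aeval α (2 * (D : ℤ[X]) * H) := by
    intro α hα
    obtain ⟨σ, hσ⟩ := hF2 α hα
    obtain ⟨bE, hbE⟩ : ∃ bE : IntermediateField.adjoin ℚ {θ}, bE = ⟨algebraMap F N b, hbθ⟩ :=
      ⟨_, rfl⟩
    obtain ⟨sE, hsE⟩ : ∃ sE : IntermediateField.adjoin ℚ {θ}, sE = ⟨s, hsθ⟩ := ⟨_, rfl⟩
    obtain ⟨θE, hθE⟩ : ∃ θE : IntermediateField.adjoin ℚ {θ},
        θE = ⟨θ, IntermediateField.mem_adjoin_simple_self ℚ θ⟩ := ⟨_, rfl⟩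
    have hcinj := (algebraMap (IntermediateField.adjoin ℚ {θ}) N).injective
    have hcb : algebraMap (IntermediateField.adjoin ℚ {θ}) N bE = algebraMap F N b := by
      rw [hbE]
      rfl
    have hcs : algebraMap (IntermediateField.adjoin ℚ {θ}) N sE = s := by
      rw [hsE]
      rfl
    have hcθ : algebraMap (IntermediateField.adjoin ℚ {θ}) N θE = θ := by
      rw [hθE]
      rfl
    rw [← hθE] at hσ
    -- identities in the number field
    have e1 : aeval bE (minpoly ℤ b) = 0 := by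
      apply hcinj
      rw [map_ev, hcb, ← map_ev, minpoly.aeval, map_zero, map_zero]
    have e2 : (m : IntermediateField.adjoin ℚ {θ}) * bE = aeval θE P := by
      apply hcinj
      rw [map_ev, hcθ, map_mul, map_natCast, hcb, hmP]
    have e3 : sE ^ 2 = bE * (1 + 2 * (D : IntermediateField.adjoin ℚ {θ}) * aeval bE G) := by
      apply hcinj
      rw [map_pow, hcs, hs, hn₁]
      simp only [map_add, map_mul, map_one, map_ofNat, map_natCast, map_ev, hcb]
    have r1 : aeval (σ bE) (minpoly ℤ b) = 0 := by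
      rw [← map_ev, e1, map_zero]
    have r2 : (m : ℝ) * σ bE = aeval α P := by
      have := congrArg σ e2
      rw [map_mul, map_natCast, map_ev, hσ] at this
      exact this
    have r3 : σ sE ^ 2 = σ bE * (1 + 2 * (D : ℝ) * aeval (σ bE) G) := by
      have := congrArg σ e3
      simp only [map_add, map_mul, map_one, map_ofNat, map_natCast, map_ev, map_pow] at this
      exact this
    have r4 := hH ℝ α (σ bE) r2
    have r5 : 1 ≤ aeval (σ bE) G := by
      refine hG2 _ r1 fun h => ?_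
      rw [h, ← hιn] at r3
      have h1 : ι b * ι n₁ < 0 := mul_neg_of_pos_of_neg hb0 hιn0
      rw [← r3] at h1
      exact absurd h1 (not_lt.2 (sq_nonneg _))
    simp only [map_mul, map_ofNat, map_natCast]
    rw [r4]
    positivity
  have hfin := hD' (2 * (D : ℤ[X]) * H) hpos (by rw [← hxN]; exact hxN0)
  rw [← hxN, ← map_one Ψ, hΨ] at hfin
  obtain ⟨u, -, hu⟩ := hfin
  rw [one_mul] at hu
  obtain ⟨v, hv⟩ := quad ι s (b * n₁) x (by rw [map_mul]; exact mul_neg_of_pos_of_neg hb0 hιn0)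
    hs hιx0 hspan u hu
  -- the second expression
  obtain ⟨g, hg⟩ : ∃ g : ℤ[X], g = 2 * (D' : ℤ[X]) * ((m : ℤ[X]) ^ G.natDegree * G) + 2 * G +
    4 * (D : ℤ[X]) * (D' : ℤ[X]) * (m : ℤ[X]) ^ G.natDegree * G ^ 2 := ⟨_, rfl⟩
  have hg1 : x * n₁ = 1 + (D : F) * aeval b g := by
    rw [hg, hx, hn₁]
    simp only [map_add, map_mul, map_ofNat, map_natCast, map_pow]
    ring
  have hxn0 : x * n₁ ≠ 0 := by
    intro h
    have h1 : ι x * ι n₁ = 0 := by rw [← map_mul, h, map_zero]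
    exact absurd h1 (mul_pos_of_neg_of_neg hιx0 hιn0).ne'
  have hg2 : ∀ α : ℝ, aeval α (minpoly ℤ b) = 0 → 0 < 1 + (D : ℝ) * aeval α g := by
    intro α hα
    have h1 : 1 + (D : ℝ) * aeval α g = (1 + 2 * (D : ℝ) * (D' : ℝ) *
        ((m : ℝ) ^ G.natDegree * aeval α G)) * (1 + 2 * (D : ℝ) * aeval α G) := by
      rw [hg]
      simp only [map_add, map_mul, map_ofNat, map_natCast, map_pow]
      ring
    rw [h1]
    by_cases h2 : α = ι b
    · rw [h2, ← hιx, ← hιn]
      exact mul_pos_of_neg_of_neg hιx0 hιn0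
    · have h3 := hG2 α hα h2
      have h4 : 0 < (m : ℝ) ^ G.natDegree * aeval α G := by positivity
      positivity
  have hfin2 := hD g hg2 (by rw [← hg1]; exact hxn0)
  rw [← hg1, ← map_one Φ, hΦ] at hfin2
  obtain ⟨w, hw, hw2⟩ := hfin2
  rw [one_mul] at hw2
  have hn0 : n₁ ≠ 0 := right_ne_zero_of_mul hxn0
  have hx0 : x ≠ 0 := left_ne_zero_of_mul hxn0
  refine ⟨b * n₁ * v / w, ?_⟩
  have h5 : b * w ^ 2 = (b * n₁ * v) ^ 2 := by
    rw [← hw2]
    nth_rewrite 1 [hv]
    ring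
  field_simp
  linear_combination h5

lemma quad_gen {F : Type} [Field F] (d : F) [Fact (Irreducible (X ^ 2 - C d : F[X]))]
    (z : AdjoinRoot (X ^ 2 - C d : F[X])) :
    ∃ x y : F, z = algebraMap F _ x + algebraMap F _ y * AdjoinRoot.root (X ^ 2 - C d) := by
  have hmon : (X ^ 2 - C d : F[X]).Monic := monic_X_pow_sub_C d two_ne_zero
  obtain ⟨p, rfl⟩ := AdjoinRoot.mk_surjective z
  refine ⟨(p %ₘ (X ^ 2 - C d)).coeff 0, (p %ₘ (X ^ 2 - C d)).coeff 1, ?_⟩
  have h1 : AdjoinRoot.mk (X ^ 2 - C d) p = AdjoinRoot.mk (X ^ 2 - C d) (p %ₘ (X ^ 2 - C d)) := by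
    conv_lhs => rw [← modByMonic_add_div p (X ^ 2 - C d)]
    rw [map_add, map_mul, AdjoinRoot.mk_self, zero_mul, add_zero]
  have h2 : (p %ₘ (X ^ 2 - C d)).natDegree ≤ 1 := by
    have h3 := natDegree_modByMonic_lt p hmon (by
      intro h
      have := congrArg natDegree h
      rw [natDegree_X_pow_sub_C, natDegree_one] at this
      exact two_ne_zero this)
    rw [natDegree_X_pow_sub_C] at h3
    omega
  rw [h1]
  conv_lhs => rw [eq_X_add_C_of_natDegree_le_one h2]
  rw [map_add, map_mul, AdjoinRoot.mk_C, AdjoinRoot.mk_C, AdjoinRoot.mk_X,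
    AdjoinRoot.algebraMap_eq, add_comm]

end SQA_

open SQA_ in
theorem p_SQA (h_COR : T_COR) (h_WSG : T_WSG) (h_PRM : T_PRM) (h_FRC : T_FRC) : T_SQA := by
  intro F _ _ ι halg hP hN b hb
  -- reduction to integral elements
  have hbz : IsAlgebraic ℤ b := (IsFractionRing.isAlgebraic_iff ℤ ℚ F).2 (halg b)
  obtain ⟨y, hy, hyi⟩ := hbz.exists_integral_multiple
  have hy0 : (y : F) ≠ 0 := by exact_mod_cast hy
  have hyr : (y : ℝ) ≠ 0 := by exact_mod_cast hy
  have hint : IsIntegral ℤ ((y : F) ^ 2 * b) := by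
    have h1 : (y : F) ^ 2 * b = y • (y • b) := by
      rw [zsmul_eq_mul, zsmul_eq_mul]
      ring
    rw [h1]
    exact hyi.smul y
  have hpos : 0 < ι ((y : F) ^ 2 * b) := by
    rw [map_mul, map_pow, map_intCast]
    positivity
  obtain ⟨d, hd, hcore⟩ := core h_COR h_WSG h_PRM h_FRC F ι halg hP _ hint hpos
  have hirr : Irreducible (X ^ 2 - C d : F[X]) := by
    refine X_pow_sub_C_irreducible_of_prime Nat.prime_two fun c hc => ?_
    rw [← hc, map_pow] at hd
    exact absurd hd (not_lt.2 (sq_nonneg _))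
  have : Fact (Irreducible (X ^ 2 - C d : F[X])) := ⟨hirr⟩
  have hroot : (AdjoinRoot.root (X ^ 2 - C d : F[X])) ^ 2 = algebraMap F _ d := by
    have h1 := AdjoinRoot.eval₂_root (X ^ 2 - C d : F[X])
    rw [eval₂_sub, eval₂_pow, eval₂_X, eval₂_C, sub_eq_zero] at h1
    rw [AdjoinRoot.algebraMap_eq]
    exact h1
  have hsq := hcore (AdjoinRoot (X ^ 2 - C d : F[X])) (AdjoinRoot.root _) hroot
    (quad_gen d) (hN _ (AdjoinRoot.root _) d hd hroot (quad_gen d))
  obtain ⟨r, hr⟩ := hsq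
  refine ⟨r / y, ?_⟩
  field_simp
  linear_combination hr

end NFV
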