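import Pool.Agent.NFV.Targets
import Pool.Agent.NFV.Targets2

/-! # NFV-SQR: positive algebraic elements are squares (helper61) -/

set_option autoImplicit false

open Polynomial FirstOrder

noncomputable section

namespace NFV

/-- the conclusion of COR in terms of squares -/
def SQR_P (N : Type) [Field N] : Prop :=
  ∀ θ : N, IsIntegral ℤ θ → ∃ D : ℕ, 0 < D ∧ ∀ g : ℤ[X],
    (∀ α : ℝ, aeval α (minpoly ℤ θ) = 0 → 0 < 1 + D * aeval α g) →
    (1 : N) + D * aeval θ g ≠ 0 → IsSquare ((1 : N) + D * aeval θ g)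

theorem SQR_alg (N M : Type) [Field N] [CharZero N] [Field M] [CharZero M] (j : N →+* M)
    (x : N) : IsAlgebraic ℚ (j x) ↔ IsAlgebraic ℚ x :=
  isAlgebraic_algHom_iff j.toRatAlgHom j.injective

theorem SQR_aeval (N M : Type) [Field N] [Field M] (j : N →+* M) (x : N) (g : ℤ[X]) :
    j (aeval x g) = aeval (j x) g :=
  (Polynomial.aeval_algHom_apply j.toIntAlgHom x g).symm

theorem SQR_three (A : Type) [Field A] (z : A) (G : ℤ[X]) (a b c : ℤ) :
    aeval z (C a * G + C b * G + C c * G ^ 2) =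
      (a : A) * aeval z G + (b : A) * aeval z G + (c : A) * aeval z G ^ 2 := by
  simp

theorem SQR_A (h_PCL : T_PCL) (h_NSH : T_NSH) (h_COR : T_COR) (M : Type) [Field M] [CharZero M]
    (n : ℕ) (hS : ∀ a c : Fin n → M, ∃ S : Finset (Fin n), ∀ x : M,
      ¬ ∀ i, ((∃ y : M, y ≠ 0 ∧ x + a i = c i * y ^ 2) ↔ i ∈ S))
    (hF : FinCl (algebraicClosure ℚ M) 2) : SQR_P (algebraicClosure ℚ M) := by
  obtain ⟨B, _, _, Φ, hΦs, hΦ⟩ := h_PCL (algebraicClosure ℚ M) 2 (by norm_num) hF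
  have hN : NoShat Φ n := h_NSH M 2 n (by norm_num) hS B Φ hΦs hΦ
  intro θ hθ
  obtain ⟨D, hD, h⟩ := h_COR (algebraicClosure ℚ M) B Φ n hN θ hθ
  refine ⟨D, hD, fun g hg h0 => ?_⟩
  have h1 := h g hg h0
  rw [← map_one Φ] at h1
  obtain ⟨u, -, hu⟩ := (hΦ _ _).1 h1
  refine ⟨u, ?_⟩
  rw [hu, one_mul, pow_two]

/-- finitely many classes of algebraic elements -/
theorem SQR_fin (N M : Type) [Field N] [CharZero N] [Field M] [CharZero M] (j : N →+* M)
    (hj : ∀ z : M, IsAlgebraic ℚ z → ∃ x : N, j x = z) (hjA : ∀ x : N, IsAlgebraic ℚ (j x))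
    (hC : ∃ C : Finset M, ∀ a : M, a ≠ 0 → IsAlgebraic ℚ a → ∃ c ∈ C, ∃ y : M, a = c * y ^ 2) :
    FinCl N 2 := by
  classical
  obtain ⟨C, hC⟩ := hC
  let r : M → N := fun c =>
    if h : ∃ z : N, z ≠ 0 ∧ ∃ y : M, j z = c * y ^ 2 then h.choose else 0
  refine ⟨C.image r, fun z hz => ?_⟩
  obtain ⟨c, hc, y, hy⟩ := hC (j z) ((map_ne_zero j).2 hz) (hjA z)
  have hex : ∃ z : N, z ≠ 0 ∧ ∃ y : M, j z = c * y ^ 2 := ⟨z, hz, y, hy⟩
  have hr : r c = hex.choose := dif_pos hex
  obtain ⟨h0, y', hy'⟩ := hex.choose_spec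
  rw [← hr] at h0 hy'
  have hjz : j z ≠ 0 := (map_ne_zero j).2 hz
  have hjr : j (r c) ≠ 0 := (map_ne_zero j).2 h0
  have hc0 : c ≠ 0 := by
    rintro rfl
    rw [zero_mul] at hy
    exact hjz hy
  have hy0 : y ≠ 0 := by
    rintro rfl
    rw [zero_pow two_ne_zero, mul_zero] at hy
    exact hjz hy
  have hy'0 : y' ≠ 0 := by
    rintro rfl
    rw [zero_pow two_ne_zero, mul_zero] at hy'
    exact hjr hy'
  have hq : (y / y') ^ 2 = j (z / r c) := by
    rw [map_div₀, hy, hy', div_pow]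
    field_simp
  have ha : IsAlgebraic ℚ (y / y') := by
    have h1 : IsAlgebraic ℚ ((y / y') ^ 2) := by
      rw [hq]
      exact hjA _
    exact IsAlgebraic.of_pow two_pos h1
  obtain ⟨u, hu⟩ := hj _ ha
  refine ⟨r c, Finset.mem_image_of_mem r hc, u, ?_, ?_⟩
  · rintro rfl
    rw [map_zero] at hu
    exact (div_ne_zero hy0 hy'0) hu.symm
  · apply j.injective
    rw [map_mul, map_pow, hu, hq, map_div₀]
    field_simp

/-- finitely many classes in the quadratic extension -/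
theorem SQR_fin2 (h_FN2 : T_FN2) (h_DEC : T_DEC) (K M F N : Type) [Field K] [CharZero K]
    [Field M] [CharZero M] [Algebra K M] [Field F] [CharZero F] [Field N] [CharZero N]
    (i : F →+* K) (hi : ∀ z : K, IsAlgebraic ℚ z → ∃ x : F, i x = z)
    (j : N →+* M) (hjA : ∀ x : N, IsAlgebraic ℚ (j x)) (k : F →+* N)
    (hk : ∀ x, j (k x) = algebraMap K M (i x)) (s : N) (d : F) (hs : s ^ 2 = k d)
    (hsr : j s ∉ Set.range (algebraMap K M))
    (hdec : ∀ z : M, ∃ x y : K, z = algebraMap K M x + algebraMap K M y * j s)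
    (hdA : IsAlgebraic ℚ (i d)) (hF : FinCl F 2) : FinCl N 2 := by
  let _ : Algebra F N := k.toAlgebra
  have hs2 : j s ^ 2 = algebraMap K M (i d) := by
    rw [← map_pow, hs, hk]
  refine h_FN2 F N s d hs ?_ ?_ hF
  · rintro ⟨x, hx⟩
    apply hsr
    refine ⟨i x, ?_⟩
    rw [← hk, ← hx]
    rfl
  · intro z
    obtain ⟨x, y, hxy⟩ := hdec (j z)
    have h1 : IsAlgebraic ℚ (algebraMap K M x + algebraMap K M y * j s) := by
      rw [← hxy]
      exact hjA z
    obtain ⟨hx, hy⟩ := h_DEC K M (j s) (i d) hs2 hsr hdA x y h1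
    obtain ⟨x', hx'⟩ := hi x hx
    obtain ⟨y', hy'⟩ := hi y hy
    refine ⟨x', y', ?_⟩
    apply j.injective
    rw [hxy]
    show _ = j (k x' + k y' * s)
    rw [map_add, map_mul, hk, hk, hx', hy']

theorem SQR_core (h_PRM : T_PRM) (h_FRC : T_FRC)
    (K F M N : Type) [Field K] [LinearOrder K] [IsStrictOrderedRing K] [Field F] [CharZero F]
    [Field M] [CharZero M] [Field N] [CharZero N] (i : F →+* K) (ι : F →+* ℝ)
    (hι : ∀ x : F, 0 < i x → 0 < ι x)
    (l : K →+* M) (j : N →+* M) (k : F →+* N) (hk : ∀ x, j (k x) = l (i x))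
    (b : F) (hb0 : 0 < i b) (D : ℕ) (hD : 0 < D)
    (_hbi : IsIntegral ℤ b)
    (hDF : ∀ g : ℤ[X], (∀ α : ℝ, aeval α (minpoly ℤ b) = 0 → 0 < 1 + D * aeval α g) →
      (1 : F) + D * aeval b g ≠ 0 → IsSquare ((1 : F) + D * aeval b g))
    (G : ℤ[X]) (hG1 : aeval (ι b) G ≤ -1)
    (hG2 : ∀ α : ℝ, aeval α (minpoly ℤ b) = 0 → α ≠ ι b → 1 ≤ aeval α G)
    (hbA : IsAlgebraic ℚ (k b)) (s : N) (hsA : IsAlgebraic ℚ s)
    (hs : s ^ 2 = k (b * (1 + 2 * D * aeval b G)))
    (hsr : ∀ x : K, l x ≠ j s) (hdec : ∀ z : M, ∃ x y : K, z = l x + l y * j s)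
    (hPN : SQR_P N) : IsSquare (i b) := by
  have hDr : (1 : ℝ) ≤ D := by exact_mod_cast hD
  set n₁ : F := 1 + 2 * D * aeval b G with hn₁
  have hιn : ι n₁ = 1 + 2 * D * aeval (ι b) G := by
    rw [hn₁, map_add, map_mul, map_mul, map_one, map_natCast, map_ofNat, SQR_aeval]
  have hιn0 : ι n₁ < 0 := by
    rw [hιn]
    nlinarith
  have neg : ∀ x : F, ι x < 0 → i x < 0 := by
    intro x hx
    by_contra hc
    rcases (not_lt.1 hc).lt_or_eq with h | h
    · exact absurd (hι x h) (not_lt.2 hx.le)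
    · have h1 : x = 0 := by
        apply i.injective
        rw [map_zero, ← h]
      rw [h1, map_zero] at hx
      exact lt_irrefl _ hx
  have hn0 : i n₁ < 0 := neg _ hιn0
  obtain ⟨θ, hθi, hθb, hθs⟩ := h_PRM N (k b) s hbA hsA
  obtain ⟨D', hD', hsq⟩ := hPN θ hθi
  obtain ⟨hfr1, hfr2⟩ := h_FRC N θ hθi
  have hDr' : (1 : ℝ) ≤ D' := by exact_mod_cast hD'
  -- the simple extension
  set E := IntermediateField.adjoin ℚ {θ} with hE
  let v : E →+* N := E.val.toRingHom
  have hv : ∀ z : E, v z = (z : N) := fun z => rfl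
  let ba : E := ⟨k b, hθb⟩
  let sa : E := ⟨s, hθs⟩
  let θa : E := ⟨θ, IntermediateField.mem_adjoin_simple_self ℚ θ⟩
  have hvi : Function.Injective v := v.injective
  have hvb : v ba = k b := rfl
  have hvs : v sa = s := rfl
  have hvθ : v θa = θ := rfl
  have hGm : aeval (k b) G ∈ E := by
    have h1 : v (aeval ba G) = aeval (k b) G := by
      rw [SQR_aeval, hvb]
    rw [← h1]
    exact (aeval ba G).2
  obtain ⟨m, H, hm, hH⟩ := hfr1 _ hGm
  have hmr : (1 : ℝ) ≤ m := by exact_mod_cast hm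
  set x : F := 1 + 2 * D * D' * m * aeval b G with hx
  have hιx : ι x = 1 + 2 * D * D' * m * aeval (ι b) G := by
    rw [hx, map_add, map_mul, map_mul, map_mul, map_mul, map_one, map_natCast, map_natCast,
      map_natCast, map_ofNat, SQR_aeval]
  have hDDm : (1 : ℝ) ≤ (D : ℝ) * D' * m := by
    have h1 : (1 : ℝ) ≤ (D : ℝ) * D' := one_le_mul_of_one_le_of_one_le hDr hDr'
    exact one_le_mul_of_one_le_of_one_le h1 hmr
  have hιx0 : ι x < 0 := by
    rw [hιx]
    nlinarith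
  have hx0 : i x < 0 := neg _ hιx0
  have hxne : x ≠ 0 := by
    rintro h
    rw [h, map_zero] at hιx0
    exact lt_irrefl _ hιx0
  have hnne : n₁ ≠ 0 := by
    rintro h
    rw [h, map_zero] at hιn0
    exact lt_irrefl _ hιn0
  -- `x` is a square in `N`
  have hkx : k x = 1 + (D' : N) * aeval θ (C (2 * (D : ℤ)) * H) := by
    rw [map_mul, aeval_C, ← hH, hx, map_add, map_mul, map_mul, map_mul, map_mul, map_one,
      map_natCast, map_natCast, map_natCast, map_ofNat, SQR_aeval]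
    simp only [algebraMap_int_eq, eq_intCast, Int.cast_mul, Int.cast_ofNat, Int.cast_natCast]
    ring
  have hsqN : IsSquare (k x) := by
    rw [hkx]
    refine hsq _ ?_ ?_
    · intro α hα
      obtain ⟨σ, hσ⟩ := hfr2 α hα
      have e1 : sa ^ 2 = ba * (1 + 2 * D * aeval ba G) := by
        apply hvi
        rw [map_pow, map_mul, map_add, map_mul, map_mul, map_one, map_natCast, map_ofNat,
          SQR_aeval, hvb, hvs, hs, map_mul, hn₁, map_add, map_mul, map_mul, map_one, map_natCast,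
          map_ofNat, SQR_aeval]
      have e2 : (σ sa) ^ 2 = σ ba * (1 + 2 * D * aeval (σ ba) G) := by
        rw [← map_pow, e1, map_mul, map_add, map_mul, map_mul, map_one, map_natCast, map_ofNat,
          SQR_aeval]
      have e3 : aeval (σ ba) (minpoly ℤ b) = 0 := by
        rw [← SQR_aeval]
        have h1 : aeval ba (minpoly ℤ b) = 0 := by
          apply hvi
          rw [SQR_aeval, hvb, ← SQR_aeval, minpoly.aeval, map_zero, map_zero]
        rw [h1, map_zero]
      have e4 : σ ba ≠ ι b := by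
        intro h
        rw [h] at e2
        have h1 : 0 ≤ (σ sa) ^ 2 := sq_nonneg _
        have h2 : 0 < ι b := hι b hb0
        have h3 : 1 + 2 * D * aeval (ι b) G < 0 := by
          rw [← hιn]
          exact hιn0
        have h4 := mul_neg_of_pos_of_neg h2 h3
        linarith
      have e5 : 1 ≤ aeval (σ ba) G := hG2 _ e3 e4
      have e6 : aeval α H = m * aeval (σ ba) G := by
        have h1 : aeval θa H = m * aeval ba G := by
          apply hvi
          rw [SQR_aeval, hvθ, map_mul, map_natCast, SQR_aeval, hvb]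
          exact hH.symm
        have h2 : σ θa = α := hσ
        rw [← h2, ← SQR_aeval, h1, map_mul, map_natCast, SQR_aeval]
      rw [map_mul, aeval_C, e6]
      have e7 : (algebraMap ℤ ℝ) (2 * (D : ℤ)) = 2 * D := by
        simp
      rw [e7]
      have e8 : 0 ≤ (D' : ℝ) * (2 * D * (m * aeval (σ ba) G)) := by
        have : 0 ≤ aeval (σ ba) G := by linarith
        positivity
      linarith
    · rw [← hkx]
      exact (map_ne_zero k).2 hxne
  obtain ⟨w, hw⟩ := hsqN
  obtain ⟨u, y, huy⟩ := hdec (j w)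
  set d : K := i (b * n₁) with hd
  have hjs : j s ^ 2 = l d := by
    rw [← map_pow, hs, hk]
  have hd0 : d < 0 := by
    rw [hd, map_mul]
    exact mul_neg_of_pos_of_neg hb0 hn0
  have hlx : l (i x) = l (u ^ 2 + y ^ 2 * d) + l (2 * u * y) * j s := by
    rw [← hk, hw, map_mul, huy, map_add, map_mul, map_mul, map_mul, map_pow, map_pow, map_ofNat,
      ← hjs]
    ring
  have huy0 : 2 * u * y = 0 := by
    by_contra hc
    apply hsr ((i x - (u ^ 2 + y ^ 2 * d)) / (2 * u * y))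
    have hc' : l (2 * u * y) ≠ 0 := (map_ne_zero l).2 hc
    rw [map_div₀, map_sub, hlx, add_sub_cancel_left, mul_div_assoc, mul_comm, div_mul_cancel₀]
    exact hc'
  have hix : i x = u ^ 2 + y ^ 2 * d := by
    rw [huy0, map_zero, zero_mul, add_zero] at hlx
    exact l.injective hlx
  have hixd : i x = y ^ 2 * d := by
    rcases mul_eq_zero.1 huy0 with h | h
    · have hu0 : u = 0 := by
        rcases mul_eq_zero.1 h with h | h
        · exact absurd h two_ne_zero
        · exact h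
      rw [hix, hu0]
      ring
    · rw [h] at hix
      have : 0 ≤ i x := by
        rw [hix]
        have := sq_nonneg u
        linarith [this]
      exact absurd this (not_le.2 hx0)
  -- `x n₁` is a square in `F`
  have hxn : x * n₁ = 1 + (D : F) * aeval b (C 2 * G + C (2 * (D' : ℤ) * m) * G +
      C (4 * (D : ℤ) * D' * m) * G ^ 2) := by
    rw [SQR_three, hx, hn₁]
    push_cast
    ring
  have hsqF : IsSquare (x * n₁) := by
    rw [hxn]
    refine hDF _ ?_ ?_
    · intro α hα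
      have e1 : (1 : ℝ) + (D : ℝ) * aeval α (C 2 * G + C (2 * (D' : ℤ) * m) * G +
          C (4 * (D : ℤ) * D' * m) * G ^ 2) =
          (1 + 2 * D * D' * m * aeval α G) * (1 + 2 * D * aeval α G) := by
        rw [SQR_three]
        push_cast
        ring
      rw [e1]
      by_cases h : α = ι b
      · rw [h, ← hιx, ← hιn]
        exact mul_pos_of_neg_of_neg hιx0 hιn0
      · have h1 := hG2 α hα h
        have h2 : 0 ≤ aeval α G := by linarith
        positivity
    · rw [← hxn]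
      exact mul_ne_zero hxne hnne
  obtain ⟨z, hz⟩ := hsqF
  have hfin : i b = (y * d / i z) * (y * d / i z) := by
    have hz2 : i x * i n₁ = i z * i z := by
      rw [← map_mul, hz, map_mul]
    have hz0 : i z ≠ 0 := by
      intro h0
      rw [h0, zero_mul] at hz2
      exact (mul_pos_of_neg_of_neg hx0 hn0).ne' hz2
    rw [div_mul_div_comm, ← hz2, eq_div_iff (mul_pos_of_neg_of_neg hx0 hn0).ne']
    have hdd : d = i b * i n₁ := by
      rw [hd, map_mul]
    calc i b * (i x * i n₁) = i x * (i b * i n₁) := by ring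
      _ = y ^ 2 * d * d := by rw [hixd, ← hdd]
      _ = y * d * (y * d) := by ring
  exact ⟨_, hfin⟩

/-- the extension of fields of algebraic numbers -/
def SQR_k (K M : Type) [Field K] [CharZero K] [Field M] [CharZero M] (l : K →+* M) :
    algebraicClosure ℚ K →+* algebraicClosure ℚ M where
  toFun x := ⟨l x, mem_algebraicClosure_iff.2 ((SQR_alg K M l x).2 (mem_algebraicClosure_iff.1 x.2))⟩
  map_one' := Subtype.ext (map_one l)
  map_mul' x y := Subtype.ext (map_mul l (x : K) (y : K))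
  map_zero' := Subtype.ext (map_zero l)
  map_add' x y := Subtype.ext (map_add l (x : K) (y : K))

/-- the inclusion -/
def SQR_i (K : Type) [Field K] [CharZero K] : algebraicClosure ℚ K →+* K :=
  (algebraicClosure ℚ K).val.toRingHom

theorem SQR_i_alg (K : Type) [Field K] [CharZero K] (x : algebraicClosure ℚ K) :
    IsAlgebraic ℚ (SQR_i K x) := mem_algebraicClosure_iff.1 x.2

theorem SQR_i_ex (K : Type) [Field K] [CharZero K] (z : K) (hz : IsAlgebraic ℚ z) :
    ∃ x, SQR_i K x = z := ⟨⟨z, mem_algebraicClosure_iff.2 hz⟩, rfl⟩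

/-- the argument for an extension `M` generated by a square root -/
theorem SQR_M (h_PCL : T_PCL) (h_VCM : T_VCM) (h_NSH : T_NSH) (h_COR : T_COR) (h_FN2 : T_FN2)
    (h_DEC : T_DEC) (h_PRM : T_PRM) (h_FRC : T_FRC)
    (K : Type) [Field K] [LinearOrder K] [IsStrictOrderedRing K] [Ring.CompatibleRing K]
    [Language.order.Structure K] [Language.order.OrderedStructure K] (hNIP : NIP K)
    (hF : FinCl (algebraicClosure ℚ K) 2)
    (ι : algebraicClosure ℚ K →+* ℝ) (hι : ∀ x : algebraicClosure ℚ K, 0 < SQR_i K x → 0 < ι x)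
    (b : algebraicClosure ℚ K) (hb0 : 0 < SQR_i K b) (D : ℕ) (hD : 0 < D) (hbi : IsIntegral ℤ b)
    (hDF : ∀ g : ℤ[X], (∀ α : ℝ, aeval α (minpoly ℤ b) = 0 → 0 < 1 + D * aeval α g) →
      (1 : algebraicClosure ℚ K) + D * aeval b g ≠ 0 →
      IsSquare ((1 : algebraicClosure ℚ K) + D * aeval b g))
    (G : ℤ[X]) (hG1 : aeval (ι b) G ≤ -1)
    (hG2 : ∀ α : ℝ, aeval α (minpoly ℤ b) = 0 → α ≠ ι b → 1 ≤ aeval α G)
    (M : Type) [Field M] [CharZero M] [Algebra K M] [FiniteDimensional K M] (s : M)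
    (hs : s ^ 2 = algebraMap K M (SQR_i K (b * (1 + 2 * D * aeval b G))))
    (hsr : s ∉ Set.range (algebraMap K M))
    (hdec : ∀ z : M, ∃ x y : K, z = algebraMap K M x + algebraMap K M y * s) :
    IsSquare (SQR_i K b) := by
  set d : algebraicClosure ℚ K := b * (1 + 2 * D * aeval b G) with hd
  have hdA : IsAlgebraic ℚ (SQR_i K d) := SQR_i_alg K d
  have hsA : IsAlgebraic ℚ s := by
    have h1 : IsAlgebraic ℚ (s ^ 2) := by
      rw [hs]
      exact (SQR_alg K M (algebraMap K M) _).2 hdA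
    exact IsAlgebraic.of_pow two_pos h1
  obtain ⟨s', hs'⟩ := SQR_i_ex M s hsA
  have hk : ∀ x, SQR_i M (SQR_k K M (algebraMap K M) x) = algebraMap K M (SQR_i K x) :=
    fun x => rfl
  have hs2 : s' ^ 2 = SQR_k K M (algebraMap K M) d := by
    apply (SQR_i M).injective
    rw [map_pow, hs', hs, hk]
  have hN : FinCl (algebraicClosure ℚ M) 2 := by
    refine SQR_fin2 h_FN2 h_DEC K M (algebraicClosure ℚ K) (algebraicClosure ℚ M) (SQR_i K)
      (SQR_i_ex K) (SQR_i M) (SQR_i_alg M) (SQR_k K M (algebraMap K M)) hk s' d hs2 ?_ ?_ hdA hF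
    · rw [hs']
      exact hsr
    · rw [hs']
      exact hdec
  obtain ⟨n, hn⟩ := h_VCM K M hNIP 2
  have hPN : SQR_P (algebraicClosure ℚ M) := SQR_A h_PCL h_NSH h_COR M n hn hN
  refine SQR_core h_PRM h_FRC K (algebraicClosure ℚ K) M (algebraicClosure ℚ M) (SQR_i K) ι hι
    (algebraMap K M) (SQR_i M) (SQR_k K M (algebraMap K M)) hk b hb0 D hD hbi hDF G hG1 hG2
    ?_ s' ?_ hs2 ?_ ?_ hPN
  · exact (SQR_alg _ _ (SQR_i M) _).1 (SQR_i_alg M _)
  · exact (SQR_alg _ _ (SQR_i M) _).1 (SQR_i_alg M _)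
  · intro x hx
    apply hsr
    rw [hs'] at hx
    exact ⟨x, hx⟩
  · rw [hs']
    exact hdec

/-- the quadratic extension -/
theorem SQR_ext (K : Type) [Field K] [CharZero K] (d : K) (hd : ∀ x : K, x ^ 2 ≠ d) :
    ∃ (M : Type) (_ : Field M) (_ : CharZero M) (_ : Algebra K M) (_ : FiniteDimensional K M)
      (s : M), s ^ 2 = algebraMap K M d ∧ s ∉ Set.range (algebraMap K M) ∧
      ∀ z : M, ∃ x y : K, z = algebraMap K M x + algebraMap K M y * s := by
  have hmon : (X ^ 2 - C d : K[X]).Monic := monic_X_pow_sub_C d two_ne_zero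
  have hdeg : (X ^ 2 - C d : K[X]).natDegree = 2 := natDegree_X_pow_sub_C
  have hirr : Irreducible (X ^ 2 - C d : K[X]) := by
    refine (hmon.irreducible_iff_roots_eq_zero_of_degree_le_three (by rw [hdeg])
      (by rw [hdeg]; norm_num)).2 ?_
    rw [Multiset.eq_zero_iff_forall_notMem]
    intro x hx
    rw [mem_roots hmon.ne_zero] at hx
    have h1 : x ^ 2 - d = 0 := by
      simpa using hx
    exact hd x (sub_eq_zero.1 h1)
  have : Fact (Irreducible (X ^ 2 - C d : K[X])) := ⟨hirr⟩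
  have hchar : CharZero (AdjoinRoot (X ^ 2 - C d : K[X])) :=
    charZero_of_injective_algebraMap (algebraMap K (AdjoinRoot (X ^ 2 - C d : K[X]))).injective
  have hroot : (AdjoinRoot.root (X ^ 2 - C d : K[X])) ^ 2 =
      algebraMap K (AdjoinRoot (X ^ 2 - C d : K[X])) d := by
    have h1 := AdjoinRoot.eval₂_root (X ^ 2 - C d : K[X])
    rw [eval₂_sub, eval₂_pow, eval₂_X, eval₂_C, sub_eq_zero] at h1
    exact h1
  refine ⟨AdjoinRoot (X ^ 2 - C d : K[X]), inferInstance, hchar, inferInstance,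
    (AdjoinRoot.powerBasis hmon.ne_zero).finite, AdjoinRoot.root _, hroot, ?_, ?_⟩
  · rintro ⟨x, hx⟩
    apply hd x
    apply (algebraMap K (AdjoinRoot (X ^ 2 - C d : K[X]))).injective
    rw [map_pow, hx, hroot]
  · intro z
    obtain ⟨p, rfl⟩ := AdjoinRoot.mk_surjective z
    have h1 : AdjoinRoot.mk (X ^ 2 - C d : K[X]) p =
        AdjoinRoot.mk (X ^ 2 - C d : K[X]) (p %ₘ (X ^ 2 - C d)) := by
      conv_lhs => rw [← modByMonic_add_div p (X ^ 2 - C d : K[X])]
      rw [map_add, map_mul, AdjoinRoot.mk_self, zero_mul, add_zero]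
    have h2 : (p %ₘ (X ^ 2 - C d)).natDegree ≤ 1 := by
      have h3 := natDegree_modByMonic_lt p hmon (by
        intro h
        rw [h] at hdeg
        simp at hdeg)
      rw [hdeg] at h3
      omega
    refine ⟨(p %ₘ (X ^ 2 - C d)).coeff 0, (p %ₘ (X ^ 2 - C d)).coeff 1, ?_⟩
    rw [h1]
    conv_lhs => rw [eq_X_add_C_of_natDegree_le_one h2]
    rw [map_add, map_mul, AdjoinRoot.mk_C, AdjoinRoot.mk_C, AdjoinRoot.mk_X, add_comm]
    rfl

/-- SQR -/
theorem p_SQR (h_WSG : T_WSG) (h_PCL : T_PCL) (h_FN2 : T_FN2) (h_DEC : T_DEC) (h_ARC : T_ARC)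
    (h_PRM : T_PRM) (h_FRC : T_FRC) (h_VCM : T_VCM) (h_NSH : T_NSH) (h_COR : T_COR) : T_SQR := by
  intro K _ _ _ _ _ _ hNIP hC a ha halg
  obtain ⟨ι, hι⟩ := h_ARC K
  have hFin : FinCl (algebraicClosure ℚ K) 2 := SQR_fin (algebraicClosure ℚ K) K (SQR_i K)
    (SQR_i_ex K) (SQR_i_alg K) hC
  obtain ⟨n, hn⟩ := h_VCM K K hNIP 2
  have hPF : SQR_P (algebraicClosure ℚ K) := SQR_A h_PCL h_NSH h_COR K n hn hFin
  -- reduction to integral elements
  have hred : ∃ m : ℤ, m ≠ 0 ∧ IsIntegral ℤ ((m : K) * a) := by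
    have h1 : IsAlgebraic ℤ a := (IsFractionRing.isAlgebraic_iff ℤ ℚ K).2 halg
    obtain ⟨m, hm, h2⟩ := h1.exists_integral_multiple
    refine ⟨m, hm, ?_⟩
    rwa [zsmul_eq_mul] at h2
  obtain ⟨m, hm, hmi⟩ := hred
  have hmK : (m : K) ≠ 0 := Int.cast_ne_zero.2 hm
  set b₀ : K := (m : K) ^ 2 * a with hb₀
  have hb₀i : IsIntegral ℤ b₀ := by
    have h1 : b₀ = (m : K) * ((m : K) * a) := by
      rw [hb₀]
      ring
    rw [h1]
    exact (isIntegral_algebraMap (R := ℤ) (A := K) (x := m)).mul hmi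
  have hb₀p : 0 < b₀ := mul_pos (by positivity) ha
  suffices hsq : IsSquare b₀ by
    obtain ⟨w, hw⟩ := hsq
    refine ⟨w / m, ?_⟩
    rw [div_mul_div_comm, ← hw, hb₀, eq_div_iff (mul_ne_zero hmK hmK)]
    ring
  have hb₀A : IsAlgebraic ℚ b₀ := by
    have h1 : IsIntegral ℚ b₀ := hb₀i.tower_top
    exact h1.isAlgebraic
  obtain ⟨b, hb⟩ := SQR_i_ex K b₀ hb₀A
  have hbi : IsIntegral ℤ b := by
    have h1 : IsIntegral ℤ ((SQR_i K).toIntAlgHom b) := by
      show IsIntegral ℤ (SQR_i K b)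
      rw [hb]
      exact hb₀i
    exact (isIntegral_algHom_iff (SQR_i K).toIntAlgHom (SQR_i K).injective).1 h1
  rw [← hb]
  rw [← hb] at hb₀p
  obtain ⟨D, hD, hDF⟩ := hPF b hbi
  obtain ⟨G, hG1, hG2⟩ := h_WSG (minpoly ℤ b) (ι b) (minpoly.ne_zero hbi)
  have hι' : ∀ x, 0 < SQR_i K x → 0 < ι x := hι
  set d : K := SQR_i K (b * (1 + 2 * D * aeval b G)) with hd
  have hDr : (1 : ℝ) ≤ D := by exact_mod_cast hD
  have hd0 : d < 0 := by
    have h1 : ι (b * (1 + 2 * D * aeval b G)) < 0 := by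
      rw [map_mul, map_add, map_mul, map_mul, map_one, map_natCast, map_ofNat, SQR_aeval]
      refine mul_neg_of_pos_of_neg (hι' b hb₀p) ?_
      nlinarith
    by_contra hc
    rcases (not_lt.1 hc).lt_or_eq with h | h
    · exact absurd (hι' _ h) (not_lt.2 h1.le)
    · have h2 : b * (1 + 2 * D * aeval b G) = 0 := by
        apply (SQR_i K).injective
        rw [map_zero, ← hd, ← h]
      rw [h2, map_zero] at h1
      exact lt_irrefl _ h1
  obtain ⟨M, _, _, _, _, s, hs1, hs2, hs3⟩ := SQR_ext K d (fun x hx => by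
    have := sq_nonneg x
    rw [hx] at this
    exact absurd this (not_le.2 hd0))
  exact SQR_M h_PCL h_VCM h_NSH h_COR h_FN2 h_DEC h_PRM h_FRC K hNIP hFin ι hι' b hb₀p D hD hbi hDF
    G hG1 hG2 M s hs1 hs2 hs3

end NFV
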