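import Pool.Agent.NFV.Targets

set_option autoImplicit false

noncomputable section

namespace NFV

namespace STA_

variable {R : Type} [CommRing R] {n : ℕ}

/-- structure constants -/
lemma exists_C (b : Module.Basis (Fin n) ℤ R) : ∃ C : ℝ, 1 ≤ C ∧ ∀ (y w : R) (Y W : ℝ),
    (∀ j, |((b.repr y j : ℤ) : ℝ)| ≤ Y) → (∀ j, |((b.repr w j : ℤ) : ℝ)| ≤ W) →
    ∀ j, |((b.repr (y * w) j : ℤ) : ℝ)| ≤ C * Y * W := by
  classical
  refine ⟨1 + ∑ j, ∑ i, ∑ l, |((b.repr (b i * b l) j : ℤ) : ℝ)|, ?_, ?_⟩
  · have : 0 ≤ ∑ j, ∑ i, ∑ l, |((b.repr (b i * b l) j : ℤ) : ℝ)| :=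
      Finset.sum_nonneg fun _ _ => Finset.sum_nonneg fun _ _ => Finset.sum_nonneg fun _ _ =>
        abs_nonneg _
    linarith
  · intro y w Y W hY hW j
    have hY0 : 0 ≤ Y := le_trans (abs_nonneg _) (hY j)
    have hW0 : 0 ≤ W := le_trans (abs_nonneg _) (hW j)
    have h1 : b.repr (y * w) j = ∑ i, ∑ l, b.repr y i * b.repr w l * b.repr (b i * b l) j := by
      conv_lhs => rw [← b.sum_repr y, ← b.sum_repr w]
      rw [Finset.sum_mul]
      rw [map_sum, Finsupp.finsetSum_apply]
      refine Finset.sum_congr rfl fun i _ => ?_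
      rw [Finset.mul_sum, map_sum, Finsupp.finsetSum_apply]
      refine Finset.sum_congr rfl fun l _ => ?_
      rw [smul_mul_smul_comm, map_smul, Finsupp.smul_apply, smul_eq_mul]
    rw [h1]
    push_cast
    calc |∑ i, ∑ l, ((b.repr y i : ℤ) : ℝ) * ((b.repr w l : ℤ) : ℝ) *
            ((b.repr (b i * b l) j : ℤ) : ℝ)|
        ≤ ∑ i, ∑ l, |((b.repr y i : ℤ) : ℝ) * ((b.repr w l : ℤ) : ℝ) *
            ((b.repr (b i * b l) j : ℤ) : ℝ)| := by
          refine (Finset.abs_sum_le_sum_abs _ _).trans ?_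
          exact Finset.sum_le_sum fun i _ => Finset.abs_sum_le_sum_abs _ _
      _ ≤ ∑ i, ∑ l, Y * W * |((b.repr (b i * b l) j : ℤ) : ℝ)| := by
          refine Finset.sum_le_sum fun i _ => Finset.sum_le_sum fun l _ => ?_
          rw [abs_mul, abs_mul]
          exact mul_le_mul_of_nonneg_right
            (mul_le_mul (hY i) (hW l) (abs_nonneg _) hY0) (abs_nonneg _)
      _ = Y * W * ∑ i, ∑ l, |((b.repr (b i * b l) j : ℤ) : ℝ)| := by
          simp only [Finset.mul_sum]
      _ ≤ Y * W * (1 + ∑ j, ∑ i, ∑ l, |((b.repr (b i * b l) j : ℤ) : ℝ)|) := by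
          refine mul_le_mul_of_nonneg_left ?_ (mul_nonneg hY0 hW0)
          have := Finset.single_le_sum (s := Finset.univ)
            (f := fun j => ∑ i, ∑ l, |((b.repr (b i * b l) j : ℤ) : ℝ)|)
            (fun j _ => Finset.sum_nonneg fun _ _ => Finset.sum_nonneg fun _ _ => abs_nonneg _)
            (Finset.mem_univ j)
          linarith
      _ = (1 + ∑ j, ∑ i, ∑ l, |((b.repr (b i * b l) j : ℤ) : ℝ)|) * Y * W := by ring

/-- a positive integer in the ideal of a nonzero element -/
lemma exists_Q [IsDomain R] (b : Module.Basis (Fin n) ℤ R) (m : R) (hm : m ≠ 0) :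
    ∃ (Q : ℕ) (h : R), 0 < Q ∧ m * h = Q := by
  have : Module.Finite ℤ R := Module.Finite.of_basis b
  have hint : IsIntegral ℤ m := Algebra.IsIntegral.isIntegral m
  have h1 := Ideal.comap_ne_bot_of_integral_mem (R := ℤ) (I := Ideal.span {m}) hm
    (Ideal.mem_span_singleton_self m) hint
  obtain ⟨z, hz, hz0⟩ := Submodule.exists_mem_ne_zero_of_ne_bot h1
  rw [Ideal.mem_comap, Ideal.mem_span_singleton] at hz
  obtain ⟨h, hh⟩ := hz
  rcases Int.natAbs_eq z with hz1 | hz1
  · refine ⟨z.natAbs, h, Int.natAbs_pos.mpr hz0, ?_⟩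
    rw [← hh]
    conv_lhs => rw [hz1]
    simp
  · refine ⟨z.natAbs, -h, Int.natAbs_pos.mpr hz0, ?_⟩
    rw [mul_neg, ← hh]
    conv_lhs => rw [hz1]
    simp

/-- multiplication by `N' + E η` is close to multiplication by `N'` -/
lemma close_mul (b : Module.Basis (Fin n) ℤ R) {C : ℝ} (hC : 1 ≤ C)
    (hCm : ∀ (y w : R) (Y W : ℝ),
      (∀ j, |((b.repr y j : ℤ) : ℝ)| ≤ Y) → (∀ j, |((b.repr w j : ℤ) : ℝ)| ≤ W) →
      ∀ j, |((b.repr (y * w) j : ℤ) : ℝ)| ≤ C * Y * W)
    {P : ℝ} (hP : 0 < P) {N' E : ℕ} {η : R}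
    (hη : ∀ j, (E : ℝ) * |((b.repr η j : ℤ) : ℝ)| ≤ 1 / (P * C) * N')
    (w : R) (W : ℝ) (hW : ∀ j, |((b.repr w j : ℤ) : ℝ)| ≤ W) (j : Fin n) :
    |((b.repr ((N' + E * η) * w) j : ℤ) : ℝ) - N' * ((b.repr w j : ℤ) : ℝ)| ≤ N' * W / P := by
  have hC0 : 0 < C := lt_of_lt_of_le one_pos hC
  have e1 : (((N' : R) + E * η) * w) = (N' : ℤ) • w + (((E : ℤ) • η) * w) := by
    simp only [zsmul_eq_mul]
    push_cast
    ring
  rw [e1, map_add, Finsupp.add_apply, map_smul, Finsupp.smul_apply, smul_eq_mul]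
  push_cast
  rw [add_sub_cancel_left]
  have h2 : ∀ j, |((b.repr ((E : ℤ) • η) j : ℤ) : ℝ)| ≤ 1 / (P * C) * N' := by
    intro j
    rw [map_smul, Finsupp.smul_apply, smul_eq_mul]
    push_cast
    rw [abs_mul, Nat.abs_cast]
    exact hη j
  refine (hCm _ w _ W h2 hW j).trans (le_of_eq ?_)
  field_simp


/-- the step of the construction -/
def Step {N B : Type} [Field N] [CommGroupWithZero B] (Φ : N →*₀ B)
    (b : Module.Basis (Fin n) ℤ R) (φ : R →+* N) (PC : ℝ) (E N' : ℕ) (η : R) (Q : ℕ) (h : R) :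
    Prop :=
  0 < N' ∧ N'.Coprime E ∧ (∀ j, (E : ℝ) * |((b.repr η j : ℤ) : ℝ)| ≤ 1 / PC * N') ∧
    Φ (φ (N' + E * η)) ≠ Φ (φ N') ∧ 0 < Q ∧ ((N' : R) + E * η) ≠ 0 ∧ ((N' : R) + E * η) * h = Q

lemma coe_dvd {a c : ℕ} (h : a ∣ c) : ((a : R)) ∣ (c : R) := by
  obtain ⟨d, rfl⟩ := h
  exact ⟨d, by push_cast; ring⟩

lemma isCoprime_step {N' E : ℕ} (hc : N'.Coprime E) (η : R) :
    IsCoprime ((N' : R) + E * η) (E : R) := by
  have h1 : IsCoprime (N' : ℤ) (E : ℤ) := Nat.isCoprime_iff_coprime.mpr hc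
  obtain ⟨u, v, huv⟩ := h1
  refine ⟨(u : R), (v : R) - u * η, ?_⟩
  have h2 : ((u * N' + v * E : ℤ) : R) = 1 := by rw [huv]; simp
  push_cast at h2
  linear_combination h2

lemma isCoprime_step' {N' E : ℕ} (hc : N'.Coprime E) :
    IsCoprime ((N' : R)) (E : R) := by
  have := isCoprime_step (R := R) hc 0
  simpa using this

/-- Chinese remainder theorem for the configuration -/
lemma crt {k : ℕ} (D : ℕ) (m : Fin k → R) (E : Fin k → ℕ)
    (hco : ∀ i, IsCoprime (m i) (E i : R)) (hD : ∀ i, (D : R) ∣ (E i : R))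
    (hm : ∀ j i, j < i → m j ∣ (E i : R)) (a : Fin k → R) :
    ∃ x : R, (D : R) ∣ x ∧ ∀ i, m i ∣ x + a i := by
  classical
  let I : Option (Fin k) → Ideal R := fun o => Option.elim o (Ideal.span {(D : R)})
    fun i => Ideal.span {m i}
  let g : Option (Fin k) → R := fun o => Option.elim o 0 fun i => - a i
  have hI : Pairwise (Function.onFun IsCoprime I) := by
    have h1 : ∀ i, IsCoprime (I none) (I (some i)) := by
      intro i
      simp only [I, Option.elim]
      rw [Ideal.isCoprime_span_singleton_iff]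
      exact ((hco i).of_isCoprime_of_dvd_right (hD i)).symm
    have h2 : ∀ j i, j < i → IsCoprime (I (some j)) (I (some i)) := by
      intro j i hji
      simp only [I, Option.elim]
      rw [Ideal.isCoprime_span_singleton_iff]
      exact ((hco i).of_isCoprime_of_dvd_right (hm j i hji)).symm
    rintro (_ | i) (_ | j) hij
    · exact absurd rfl hij
    · exact h1 j
    · exact (h1 i).symm
    · rcases lt_trichotomy i j with h | h | h
      · exact h2 i j h
      · exact absurd (by rw [h]) hij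
      · exact (h2 j i h).symm
  obtain ⟨r, hr⟩ := Ideal.exists_forall_sub_mem_ideal hI g
  refine ⟨r, ?_, fun i => ?_⟩
  · have := hr none
    simpa [I, g, Ideal.mem_span_singleton] using this
  · have := hr (some i)
    simpa [I, g, Ideal.mem_span_singleton] using this

end STA_

open STA_ in
theorem p_STA (h_NCB : T_NCB) (h_ACR : T_ACR) : T_STA := by
  classical
  intro N B _ _ _ _ Φ k hk R _ n b φ hφ
  have hdom : IsDomain R := hφ.isDomain φ
  have hntr : Nontrivial R := hdom.toNontrivial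
  have hn : 0 < n := by
    rcases Nat.eq_zero_or_pos n with h | h
    · subst h
      exfalso
      have : Subsingleton R := b.repr.toEquiv.subsingleton
      exact not_subsingleton R this
    · exact h
  by_contra hcon
  push Not at hcon
  obtain ⟨D, δ, X₀, hD, hδ, hNC⟩ := h_NCB N B Φ k hk n
    (1 / (2 * (k + 1) * 2 ^ k * 16 ^ n)) (by positivity)
  set ε : ℝ := 1 / (2 * (k + 1) * 2 ^ k * 16 ^ n) with hε
  have hε0 : 0 < ε := by rw [hε]; positivity
  obtain ⟨C, hC, hCm⟩ := exists_C b
  have hC0 : 0 < C := lt_of_lt_of_le one_pos hC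
  obtain ⟨p, hp2, hpδ⟩ : ∃ p : ℕ, 2 ≤ p ∧ 2 ≤ p * δ := by
    refine ⟨⌈2 / δ⌉₊ + 2, by omega, ?_⟩
    have := Nat.le_ceil (2 / δ)
    rw [div_le_iff₀ hδ] at this
    push_cast
    nlinarith
  have hp0 : (0 : ℝ) < p := by
    have : 0 < p := by omega
    exact_mod_cast this
  have hP : (0 : ℝ) < 16 * p := by positivity
  -- the step
  have hstep : ∀ E : ℕ, ∃ (N' : ℕ) (η : R) (Q : ℕ) (h : R), 0 < E →
      Step Φ b φ (16 * p * C) E N' η Q h := by
    intro E
    rcases Nat.eq_zero_or_pos E with h0 | h0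
    · exact ⟨0, 0, 0, 0, fun h => absurd h (by omega)⟩
    · have := hcon E (1 / (16 * p * C)) h0 (by positivity)
      unfold STA at this
      push Not at this
      obtain ⟨N', hN', hcop, η, hη, hne⟩ := this
      have hm0 : ((N' : R) + E * η) ≠ 0 := by
        intro h0'
        -- sup norm of one
        have hne' : (Finset.univ : Finset (Fin n)).Nonempty := ⟨⟨0, hn⟩, Finset.mem_univ _⟩
        obtain ⟨j0, -, hj0⟩ := Finset.exists_max_image Finset.univ
          (fun j => |((b.repr (1 : R) j : ℤ) : ℝ)|) hne'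
        have h1 := close_mul b hC hCm hP hη 1 (|((b.repr (1 : R) j0 : ℤ) : ℝ)|)
          (fun j => hj0 j (Finset.mem_univ j)) j0
        rw [h0'] at h1
        simp only [zero_mul, map_zero, Finsupp.coe_zero, Pi.zero_apply, Int.cast_zero, zero_sub,
          abs_neg, abs_mul, Nat.abs_cast] at h1
        have hN'r : (0 : ℝ) < N' := by exact_mod_cast hN'
        have hp1 : (1 : ℝ) < 16 * p := by
          have : (2 : ℝ) ≤ p := by exact_mod_cast hp2
          linarith
        have h2 : |((b.repr (1 : R) j0 : ℤ) : ℝ)| = 0 := by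
          by_contra hz
          have hz' : 0 < |((b.repr (1 : R) j0 : ℤ) : ℝ)| := lt_of_le_of_ne (abs_nonneg _)
            (Ne.symm hz)
          rw [le_div_iff₀ hP] at h1
          have := mul_pos hN'r hz'
          nlinarith
        have h3 : (1 : R) = 0 := by
          apply b.repr.injective
          ext j
          have := hj0 j (Finset.mem_univ j)
          rw [h2] at this
          have h4 : ((b.repr (1 : R) j : ℤ) : ℝ) = 0 :=
            abs_eq_zero.mp (le_antisymm this (abs_nonneg _))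
          have h5 : (b.repr (1 : R) j : ℤ) = 0 := by exact_mod_cast h4
          simpa using h5
        exact one_ne_zero h3
      obtain ⟨Q, h, hQ, hmh⟩ := exists_Q b _ hm0
      exact ⟨N', η, Q, h, fun _ => ⟨hN', hcop, hη, hne, hQ, hm0, hmh⟩⟩
  choose fN fη fQ fh hf using hstep
  -- the sequence of moduli
  obtain ⟨E, hE0, hEs⟩ : ∃ E : ℕ → ℕ, E 0 = D ∧
      ∀ i, E (i + 1) = E i * (fN (E i) * fQ (E i)) :=
    ⟨fun i => Nat.rec D (fun _ E => E * (fN E * fQ E)) i, rfl, fun i => rfl⟩
  have hEpos : ∀ i, 0 < E i := by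
    intro i
    induction i with
    | zero => rw [hE0]; exact hD
    | succ i ih =>
      rw [hEs]
      have := hf (E i) ih
      exact Nat.mul_pos ih (Nat.mul_pos this.1 this.2.2.2.2.1)
  have hDE : ∀ i, D ∣ E i := by
    intro i
    induction i with
    | zero => rw [hE0]
    | succ i ih => rw [hEs]; exact Dvd.dvd.mul_right ih _
  have hEdvd : ∀ j i, j < i → fN (E j) * fQ (E j) ∣ E i := by
    intro j i hji
    induction i with
    | zero => omega
    | succ i ih =>
      rw [hEs]
      rcases Nat.lt_succ_iff_lt_or_eq.mp hji with h | h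
      · exact Dvd.dvd.mul_right (ih h) _
      · rw [h]; exact Dvd.intro_left _ rfl
  let nn : Fin k → ℕ := fun i => fN (E i)
  let mm : Fin k → R := fun i => (fN (E i) : R) + (E i : R) * fη (E i)
  let QQ : Fin k → ℕ := fun i => fQ (E i)
  have hS : ∀ i : Fin k, Step Φ b φ (16 * p * C) (E i) (nn i) (fη (E i)) (QQ i) (fh (E i)) :=
    fun i => hf (E i) (hEpos i)
  -- coordinates
  let f : R ≃ₗ[ℤ] (Fin n → ℤ) := b.equivFun
  have hfr : ∀ x j, f x j = b.repr x j := fun x j => by simp [f]
  let e : (Fin n → ℤ) →+ N := φ.toAddMonoidHom.comp f.symm.toLinearMap.toAddMonoidHom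
  have he : ∀ y, e y = φ (f.symm y) := fun y => rfl
  have hei : Function.Injective e := by
    intro y y' h
    rw [he, he] at h
    exact f.symm.injective (hφ h)
  let T : Fin k → ((Fin n → ℤ) →+ (Fin n → ℤ)) := fun i =>
    (f.toLinearMap ∘ₗ (LinearMap.mulLeft ℤ (mm i)) ∘ₗ f.symm.toLinearMap).toAddMonoidHom
  have hT : ∀ i y, T i y = f (mm i * f.symm y) := fun i y => rfl
  have hG0 : ∀ y, Φ (e y) = 0 → y = 0 := by
    intro y hy
    have h1 : e y = 0 := (map_eq_zero Φ).mp hy
    apply hei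
    rw [h1, map_zero]
  let M : ℕ := D * ∏ i : Fin k, (nn i * QQ i)
  have hMpos : 0 < M :=
    Nat.mul_pos hD (Finset.prod_pos fun i _ => Nat.mul_pos (hS i).1 (hS i).2.2.2.2.1)
  have hNQ : ∀ i, nn i * QQ i ∣ ∏ i : Fin k, (nn i * QQ i) := fun i =>
    Finset.dvd_prod_of_mem _ (Finset.mem_univ i)
  have hmul : ∀ (c : ℤ) (y : Fin n → ℤ), f.symm (c • y) = (c : R) * f.symm y := by
    intro c y
    rw [map_smul, zsmul_eq_mul]
  obtain ⟨a, maj, hmaj, hcfg⟩ := h_ACR n k B 0 (fun y => Φ (e y)) D p X₀ ε δ hn hD hε0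
    (by
      rw [hε]
      have h1 : (0 : ℝ) < 2 * (k + 1) * 2 ^ k * 16 ^ n := by positivity
      rw [mul_one_div, div_lt_one h1]
      have h2 : (0 : ℝ) < 2 ^ k * 16 ^ n := by positivity
      have h3 : (0 : ℝ) ≤ k := Nat.cast_nonneg k
      nlinarith)
    hp2 hpδ (hNC e hei)
    (fun y y' h h' => by rw [hG0 y h, hG0 y' h'])
    nn T M hMpos
    (by
      intro i
      refine ⟨(hS i).1, Nat.Coprime.coprime_dvd_right (hDE i) (hS i).2.1, ?_, ?_⟩
      · exact Nat.mul_dvd_mul (dvd_refl D) (dvd_trans (Dvd.intro _ rfl) (hNQ i))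
      · intro y y' h
        rw [hT, hT] at h
        have h1 := f.injective h
        have h2 := mul_left_cancel₀ (hS i).2.2.2.2.2.1 h1
        exact f.symm.injective h2)
    (by
      intro i y Y hY j
      have h1 := close_mul b hC hCm hP (hS i).2.2.1 (f.symm y) Y
        (by
          intro j
          rw [← hfr, LinearEquiv.apply_symm_apply]
          exact hY j) j
      rw [← hfr, ← hfr, LinearEquiv.apply_symm_apply] at h1
      rw [hT]
      push_cast
      exact h1)
    (by
      intro i y j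
      have h1 : T i y - (nn i : ℤ) • y = (E i : ℤ) • f (fη (E i) * f.symm y) := by
        rw [hT]
        have h2 : mm i * f.symm y = (nn i : ℤ) • f.symm y +
            (E i : ℤ) • (fη (E i) * f.symm y) := by
          simp only [mm, nn, zsmul_eq_mul]
          push_cast
          ring
        rw [h2, map_add, map_smul, map_smul, LinearEquiv.apply_symm_apply, add_sub_cancel_left]
      rw [h1, Pi.smul_apply, smul_eq_mul]
      exact Dvd.dvd.mul_right (Int.natCast_dvd_natCast.mpr (hDE i)) _)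
    (by
      intro i y
      obtain ⟨c, hc⟩ := hNQ i
      refine ⟨f ((fh (E i)) * ((D * (nn i * c) : ℕ) : R) * f.symm y), ?_⟩
      rw [hT, LinearEquiv.symm_apply_apply]
      apply f.symm.injective
      rw [LinearEquiv.symm_apply_apply, hmul]
      have h1 : mm i * fh (E i) = (QQ i : R) := (hS i).2.2.2.2.2.2
      have h2 : (M : ℕ) = D * (nn i * QQ i * c) := by
        simp only [M]
        rw [hc]
      rw [h2]
      push_cast
      linear_combination (D : R) * (nn i) * c * f.symm y * h1)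
    (by
      intro S a
      let mS : Fin k → R := fun i => if i ∈ S then mm i else (nn i : R)
      obtain ⟨x, hxD, hx⟩ := crt D mS (fun i : Fin k => E (i : ℕ))
        (by
          intro i
          simp only [mS]
          split_ifs
          · exact isCoprime_step (hS i).2.1 _
          · exact isCoprime_step' (hS i).2.1)
        (fun i => coe_dvd (hDE i))
        (by
          intro j i hji
          have h1 : nn j * QQ j ∣ E i := hEdvd j i hji
          have h2 : ((nn j * QQ j : ℕ) : R) ∣ (E i : R) := coe_dvd h1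
          simp only [mS]
          split_ifs
          · refine dvd_trans ?_ h2
            refine ⟨(nn j : R) * fh (E j), ?_⟩
            have h3 : mm j * fh (E j) = (QQ j : R) := (hS j).2.2.2.2.2.2
            push_cast
            rw [← h3]
            ring
          · refine dvd_trans ?_ h2
            exact coe_dvd (Dvd.intro _ rfl))
        (fun i => f.symm (a i))
      refine ⟨f x, ?_, ?_⟩
      · intro j
        obtain ⟨w, hw⟩ := hxD
        have : f x = (D : ℤ) • f w := by
          rw [hw, ← map_smul]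
          congr 1
          rw [zsmul_eq_mul]
          push_cast
          rfl
        rw [this, Pi.smul_apply, smul_eq_mul]
        exact Dvd.intro _ rfl
      · intro i
        obtain ⟨w, hw⟩ := hx i
        refine ⟨f w, ?_⟩
        apply f.symm.injective
        rw [map_add, LinearEquiv.symm_apply_apply, hw]
        simp only [mS]
        split_ifs with hi
        · rw [hT, LinearEquiv.symm_apply_apply, LinearEquiv.symm_apply_apply]
        · rw [hmul, LinearEquiv.symm_apply_apply]
          push_cast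
          rfl)
  -- contradiction
  obtain ⟨S, hS'⟩ := hk (fun i => e (a i)) (fun i => Φ (φ (mm i)) * maj i)
  obtain ⟨x, hx⟩ := hcfg S
  refine hS' (e x) fun i => ?_
  obtain ⟨y, hy, hGy⟩ := hx i
  have h1 : e x + e (a i) = e (if i ∈ S then (T i) y else (nn i : ℤ) • y) := by
    rw [← map_add, hy]
  rw [h1]
  split_ifs with hi
  · have h2 : e (T i y) = φ (mm i) * e y := by
      rw [he, hT, LinearEquiv.symm_apply_apply, map_mul, he]
    rw [h2, map_mul]
    rw [hGy]
    exact ⟨fun _ => hi, fun _ => rfl⟩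
  · have h2 : e ((nn i : ℤ) • y) = φ (nn i) * e y := by
      rw [he, hmul, map_mul, he]
      push_cast
      rfl
    rw [h2, map_mul]
    rw [hGy]
    constructor
    · intro h3
      exfalso
      have h4 := mul_right_cancel₀ (hmaj i) h3
      exact (hS i).2.2.2.1 h4.symm
    · intro h3
      exact absurd h3 hi

end NFV
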