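import Pool.Agent.NFV.Targets3

/-!
# NFV-TWO: at most one component is nontrivial
-/

set_option autoImplicit false

open Polynomial FirstOrder

noncomputable section

namespace NFV

namespace TWO_

/-- Chinese remainders with a nonzero solution -/
theorem crt {R : Type} [CommRing R] [IsDomain R] {r : ℕ} (m : Fin r → R)
    (hco : ∀ i j, i ≠ j → IsCoprime (m i) (m j)) (hm : ∏ i, m i ≠ 0) (K : ℕ) (a : Fin r → R) :
    ∃ y : R, y ≠ 0 ∧ ∀ i, m i ^ K ∣ y - a i := by
  have hI : Pairwise (Function.onFun IsCoprime fun i => Ideal.span {m i ^ K}) := by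
    intro i j hij
    show IsCoprime (Ideal.span {m i ^ K}) (Ideal.span {m j ^ K})
    rw [Ideal.isCoprime_span_singleton_iff]
    exact (hco i j hij).pow
  obtain ⟨y₀, hy₀⟩ := Ideal.pi_quotient_surjective hI fun i => Ideal.Quotient.mk _ (a i)
  have h1 : ∀ i, m i ^ K ∣ y₀ - a i := fun i => by
    rw [← Ideal.mem_span_singleton]
    exact Ideal.Quotient.eq.1 (hy₀ i)
  by_cases h0 : y₀ = 0
  · refine ⟨∏ i, m i ^ K, ?_, fun i => ?_⟩
    · rw [Finset.prod_pow]
      exact pow_ne_zero _ hm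
    · have h2 := h1 i
      rw [h0, zero_sub, dvd_neg] at h2
      exact dvd_sub (Finset.dvd_prod_of_mem _ (Finset.mem_univ i)) h2
  · exact ⟨y₀, h0, h1⟩

section

variable {N B R : Type} [Field N] [CommGroupWithZero B] [CommRing R] [IsDomain R] {Φ : N →*₀ B}
  {φ : R →+* N} {r : ℕ} {m : Fin r → R} {c : Fin r → R → B}

theorem c_pow (hc : Cmp Φ φ m c) (i : Fin r) {a : R} (ha : a ≠ 0) (x : ℕ) :
    c i (a ^ x) = c i a ^ x := by
  induction x with
  | zero => rw [pow_zero, pow_zero, hc.one]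
  | succ n ih => rw [pow_succ, pow_succ, hc.mul i _ _ (pow_ne_zero _ ha) ha, ih]

omit [IsDomain R] in
theorem prod_one (hc : Cmp Φ φ m c) (i : Fin r) (a : R) :
    ∏ l, c l (if l = i then a else 1) = c i a := by
  rw [Finset.prod_eq_single i]
  · rw [if_pos rfl]
  · intro l _ hl
    rw [if_neg hl, hc.one]
  · intro h
    exact absurd (Finset.mem_univ i) h

/-- continuity of the components -/
theorem cont (hc : Cmp Φ φ m c) (hco : ∀ i j, i ≠ j → IsCoprime (m i) (m j))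
    (hm : ∏ i, m i ≠ 0) (i : Fin r) {a : R} (ha : a ≠ 0) :
    ∃ K₁ : ℕ, ∀ d : R, d ≠ 0 → m i ^ K₁ ∣ d - a → c i d = c i a := by
  obtain ⟨K₁, hK₁⟩ := hc.ev (fun l => if l = i then a else 1) (fun l => by
    by_cases h : l = i
    · rw [if_pos h]; exact ha
    · rw [if_neg h]; exact one_ne_zero)
  refine ⟨K₁, fun d hd hda => ?_⟩
  obtain ⟨K₂, hK₂⟩ := hc.ev (fun l => if l = i then d else 1) (fun l => by
    by_cases h : l = i
    · rw [if_pos h]; exact hd
    · rw [if_neg h]; exact one_ne_zero)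
  obtain ⟨y, hy, hy'⟩ := crt m hco hm (max K₁ K₂) (fun l => if l = i then d else 1)
  have e2 := hK₂ (max K₁ K₂) (le_max_right _ _) y hy hy'
  have e1 := hK₁ K₁ le_rfl y hy (fun l => by
    have h1 : m l ^ K₁ ∣ y - (if l = i then d else 1) :=
      (pow_dvd_pow _ (le_max_left _ _)).trans (hy' l)
    by_cases h : l = i
    · subst h
      rw [if_pos rfl] at h1 ⊢
      have h2 : y - a = (y - d) + (d - a) := by ring
      rw [h2]
      exact dvd_add h1 hda
    · rw [if_neg h] at h1 ⊢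
      exact h1)
  rw [prod_one hc] at e1 e2
  rw [← e1, ← e2]

/-- values of components are roots of unity -/
theorem pow_q {q : ℕ} (hq : ∀ x y, Φ x = Φ y ↔ ∃ u, u ≠ 0 ∧ x = y * u ^ q)
    (hφ : Function.Injective φ) (hc : Cmp Φ φ m c)
    (hco : ∀ i j, i ≠ j → IsCoprime (m i) (m j))
    (hm : ∏ i, m i ≠ 0) (i : Fin r) {a : R} (ha : a ≠ 0) : c i a ^ q = 1 := by
  obtain ⟨K₁, hK₁⟩ := hc.ev (fun l => if l = i then a ^ q else 1) (fun l => by
    by_cases h : l = i
    · rw [if_pos h]; exact pow_ne_zero _ ha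
    · rw [if_neg h]; exact one_ne_zero)
  obtain ⟨y, hy, hy'⟩ := crt m hco hm K₁ (fun l => if l = i then a else 1)
  have e1 := hK₁ K₁ le_rfl (y ^ q) (pow_ne_zero _ hy) (fun l => by
    have h1 := hy' l
    by_cases h : l = i
    · rw [if_pos h] at h1 ⊢
      exact h1.trans (sub_dvd_pow_sub_pow _ _ _)
    · rw [if_neg h] at h1 ⊢
      have h2 := h1.trans (sub_dvd_pow_sub_pow y 1 q)
      rwa [one_pow] at h2)
  rw [prod_one hc, c_pow hc i ha] at e1
  have h3 : φ y ≠ 0 := fun h => hy (hφ (by rw [h, map_zero]))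
  rw [← e1, ← map_one Φ]
  exact (hq _ _).2 ⟨φ y, h3, by rw [map_pow, one_mul]⟩

/-- the elements with two prescribed components -/
theorem two (hc : Cmp Φ φ m c) (hco : ∀ i j, i ≠ j → IsCoprime (m i) (m j))
    (hm : ∏ i, m i ≠ 0) {i j : Fin r} (hij : i ≠ j) {a b : R} (ha : a ≠ 0) (hb : b ≠ 0) :
    ∃ d : R, d ≠ 0 ∧ Φ (φ d) = c i a * c j b ∧ c i d = c i a ∧ c j d = c j b := by
  obtain ⟨K₀, hK₀⟩ := hc.ev (fun l => if l = i then a else if l = j then b else 1) (fun l => by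
    by_cases h : l = i
    · rw [if_pos h]; exact ha
    · rw [if_neg h]
      by_cases h' : l = j
      · rw [if_pos h']; exact hb
      · rw [if_neg h']; exact one_ne_zero)
  obtain ⟨K₁, hK₁⟩ := cont hc hco hm i ha
  obtain ⟨K₂, hK₂⟩ := cont hc hco hm j hb
  obtain ⟨d, hd, hd'⟩ := crt m hco hm (max K₀ (max K₁ K₂))
    (fun l => if l = i then a else if l = j then b else 1)
  refine ⟨d, hd, ?_, ?_, ?_⟩
  · rw [hK₀ _ (le_max_left _ _) d hd hd', Finset.prod_eq_mul i j hij]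
    · rw [if_pos rfl, if_neg hij.symm, if_pos rfl]
    · intro l _ hl
      rw [if_neg hl.1, if_neg hl.2, hc.one]
    · intro h
      exact absurd (Finset.mem_univ i) h
    · intro h
      exact absurd (Finset.mem_univ j) h
  · have h := hd' i
    rw [if_pos rfl] at h
    exact hK₁ d hd ((pow_dvd_pow _ ((le_max_left K₁ K₂).trans (le_max_right _ _))).trans h)
  · have h := hd' j
    rw [if_neg hij.symm, if_pos rfl] at h
    exact hK₂ d hd ((pow_dvd_pow _ ((le_max_right K₁ K₂).trans (le_max_right _ _))).trans h)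

end

/-- the group theoretic part -/
theorem grp {B : Type} [CommGroupWithZero B] {q : ℕ} (hq : q.Prime) {g h : B} (hg : g ^ q = 1)
    (hh : h ^ q = 1) (hg1 : g ≠ 1) (hh1 : h ≠ 1)
    (key : ∀ x y : ℕ, (∃ s : ℕ, g ^ x = (g ^ x * h ^ y) ^ s) ∧
      ∃ s : ℕ, h ^ y = (g ^ x * h ^ y) ^ s) : False := by
  have : Fact q.Prime := ⟨hq⟩
  have og := orderOf_eq_prime hg hg1
  have oh := orderOf_eq_prime hh hh1
  have ha : ∀ x y : ℕ, g ^ x * h ^ y = 1 → g ^ x = 1 ∧ h ^ y = 1 := by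
    intro x y hxy
    obtain ⟨⟨s, hs⟩, ⟨s', hs'⟩⟩ := key x y
    rw [hxy, one_pow] at hs hs'
    exact ⟨hs, hs'⟩
  obtain ⟨⟨s, hs⟩, _⟩ := key 1 1
  rw [pow_one, pow_one, mul_pow] at hs
  have hq1 : 1 ≤ q := hq.one_lt.le
  have h1 : g ^ (s + (q - 1)) * h ^ s = 1 := by
    rw [pow_add, mul_right_comm, ← hs, ← pow_succ', Nat.sub_add_cancel hq1, hg]
  obtain ⟨h2, h3⟩ := ha _ _ h1
  have h4 : q ∣ s := oh ▸ orderOf_dvd_of_pow_eq_one h3
  have h5' : orderOf g ∣ s + (q - 1) := orderOf_dvd_of_pow_eq_one h2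
  have h5 : q ∣ s + (q - 1) := by rwa [og] at h5'
  have h6 : q ∣ q - 1 := (Nat.dvd_add_right h4).1 h5
  have h7 := Nat.le_of_dvd (by have := hq.one_lt; omega) h6
  omega

end TWO_

open TWO_ in
theorem p_TWO : T_TWO := by
  intro N B _ _ _ Φ q hq hΦ R _ _ φ hφ r m M c hco hM hM0 hc hone i j hij
  have : IsDomain R := hφ.isDomain φ
  have hm : ∏ i, m i ≠ 0 := by
    rw [hM]
    intro h
    have h1 : ((M : ℕ) : N) = 0 := by rw [← map_natCast φ M, h, map_zero]
    exact hM0.ne' (by exact_mod_cast h1)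
  by_contra hcon
  push Not at hcon
  obtain ⟨⟨a, ha, ha1⟩, ⟨b, hb, hb1⟩⟩ := hcon
  refine grp hq (pow_q hΦ hφ hc hco hm i ha) (pow_q hΦ hφ hc hco hm j hb) ha1 hb1 fun x y => ?_
  obtain ⟨d, hd, h1, h2, h3⟩ := two hc hco hm hij (pow_ne_zero x ha) (pow_ne_zero y hb)
  rw [c_pow hc i ha] at h1 h2
  rw [c_pow hc j hb] at h1 h3
  constructor
  · obtain ⟨s, hs⟩ := hone i d hd
    exact ⟨s, h2.symm.trans (hs.trans (by rw [h1]))⟩
  · obtain ⟨s, hs⟩ := hone j d hd
    exact ⟨s, h3.symm.trans (hs.trans (by rw [h1]))⟩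

end NFV
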