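import Pool.Agent.NFV.Targets2

/-!
# NFV: VCM, finite VC dimension in finite extensions (helper4)
-/

set_option autoImplicit false

open FirstOrder FirstOrder.Language FirstOrder.Ring

noncomputable section

namespace NFV

namespace VCM_

/-- multiplication in coordinates -/
def mulV {m : ℕ} {R : Type} [CommRing R] (g : Fin m → Fin m → Fin m → R) (u v : Fin m → R) :
    Fin m → R :=
  fun l => ∑ i, ∑ j, g i j l * u i * v j

/-- powers in coordinates -/
def powV {m : ℕ} {R : Type} [CommRing R] (g : Fin m → Fin m → Fin m → R) (o u : Fin m → R) :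
    ℕ → Fin m → R
  | 0 => o
  | q + 1 => mulV g (powV g o u q) u

theorem map_mulV {m : ℕ} {R R' : Type} [CommRing R] [CommRing R'] (f : R →+* R')
    (g : Fin m → Fin m → Fin m → R) (u v : Fin m → R) (l : Fin m) :
    f (mulV g u v l) = mulV (fun i j l => f (g i j l)) (fun i => f (u i)) (fun i => f (v i)) l := by
  unfold mulV
  simp only [map_sum, map_mul]

theorem map_powV {m : ℕ} {R R' : Type} [CommRing R] [CommRing R'] (f : R →+* R')
    (g : Fin m → Fin m → Fin m → R) (o u : Fin m → R) (q : ℕ) (l : Fin m) :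
    f (powV g o u q l) =
      powV (fun i j l => f (g i j l)) (fun i => f (o i)) (fun i => f (u i)) q l := by
  induction q generalizing l with
  | zero => rfl
  | succ q ih =>
    show f (mulV g (powV g o u q) u l) = mulV _ (powV _ _ _ q) _ l
    rw [map_mulV]
    unfold mulV
    simp only [ih]

theorem repr_mul {K M : Type} [Field K] [Field M] [Algebra K M] {m : ℕ}
    (b : Module.Basis (Fin m) K M) (u v : M) (l : Fin m) :
    b.repr (u * v) l = mulV (fun i j l => b.repr (b i * b j) l) (b.repr u) (b.repr v) l := by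
  have h : u * v = ∑ i, ∑ j, (b.repr u i * b.repr v j) • (b i * b j) := by
    conv_lhs => rw [← b.sum_repr u, ← b.sum_repr v]
    rw [Finset.sum_mul_sum]
    refine Finset.sum_congr rfl fun i _ => Finset.sum_congr rfl fun j _ => ?_
    rw [smul_mul_smul_comm]
  conv_lhs => rw [h]
  unfold mulV
  simp only [map_sum, map_smul, Finsupp.coe_finsetSum, Finset.sum_apply, Finsupp.smul_apply,
    smul_eq_mul]
  refine Finset.sum_congr rfl fun i _ => Finset.sum_congr rfl fun j _ => ?_
  ring

theorem repr_pow {K M : Type} [Field K] [Field M] [Algebra K M] {m : ℕ}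
    (b : Module.Basis (Fin m) K M) (u : M) (q : ℕ) (l : Fin m) :
    b.repr (u ^ q) l =
      powV (fun i j l => b.repr (b i * b j) l) (b.repr 1) (b.repr u) q l := by
  induction q generalizing l with
  | zero => rw [pow_zero]; rfl
  | succ q ih =>
    rw [pow_succ, repr_mul]
    show _ = mulV _ (powV _ _ _ q) _ l
    unfold mulV
    simp only [ih]

/-- the parameters -/
abbrev Pm (m : ℕ) : Type := (Fin m ⊕ Fin m) ⊕ (Fin m ⊕ (Fin m × Fin m × Fin m))

/-- all variables -/
abbrev Vr (m : ℕ) : Type := (Fin m ⊕ Pm m) ⊕ Fin m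

def vX {m : ℕ} (l : Fin m) : FreeCommRing (Vr m) := FreeCommRing.of (Sum.inl (Sum.inl l))
def vA {m : ℕ} (l : Fin m) : FreeCommRing (Vr m) :=
  FreeCommRing.of (Sum.inl (Sum.inr (Sum.inl (Sum.inl l))))
def vC {m : ℕ} (l : Fin m) : FreeCommRing (Vr m) :=
  FreeCommRing.of (Sum.inl (Sum.inr (Sum.inl (Sum.inr l))))
def vO {m : ℕ} (l : Fin m) : FreeCommRing (Vr m) :=
  FreeCommRing.of (Sum.inl (Sum.inr (Sum.inr (Sum.inl l))))
def vG {m : ℕ} (i j l : Fin m) : FreeCommRing (Vr m) :=
  FreeCommRing.of (Sum.inl (Sum.inr (Sum.inr (Sum.inr (i, j, l)))))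
def vY {m : ℕ} (l : Fin m) : FreeCommRing (Vr m) := FreeCommRing.of (Sum.inr l)

/-- the formula without the quantifier -/
def fo (m q : ℕ) : Language.ring.Formula (Vr m) :=
  (Formula.iInf fun l : Fin m =>
      Term.equal (termOfFreeCommRing (vY l)) (termOfFreeCommRing 0)).not ⊓
    Formula.iInf fun l : Fin m => Term.equal (termOfFreeCommRing (vX l + vA l))
      (termOfFreeCommRing (mulV vG vC (powV vG vO vY q) l))

theorem fo_realize {K : Type} [Field K] [Ring.CompatibleRing K] {m q : ℕ} (v : Vr m → K) :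
    (fo m q).Realize v ↔ (¬ ∀ l, v (Sum.inr l) = 0) ∧
      ∀ l, v (Sum.inl (Sum.inl l)) + v (Sum.inl (Sum.inr (Sum.inl (Sum.inl l)))) =
        mulV (fun i j l => v (Sum.inl (Sum.inr (Sum.inr (Sum.inr (i, j, l))))))
          (fun l => v (Sum.inl (Sum.inr (Sum.inl (Sum.inr l)))))
          (powV (fun i j l => v (Sum.inl (Sum.inr (Sum.inr (Sum.inr (i, j, l))))))
            (fun l => v (Sum.inl (Sum.inr (Sum.inr (Sum.inl l)))))
            (fun l => v (Sum.inr l)) q) l := by
  unfold fo
  rw [Formula.realize_inf, Formula.realize_not, Formula.realize_iInf, Formula.realize_iInf]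
  simp only [Formula.realize_equal, realize_termOfFreeCommRing, map_zero, map_add, map_mulV,
    map_powV, vX, vA, vC, vO, vG, vY, FreeCommRing.lift_of]

/-- the formula in the language of ordered rings -/
def fm (m q k : ℕ) (e : Pm m ≃ Fin k) : Lor.Formula (Fin m ⊕ Fin k) :=
  (LHom.sumInl : Language.ring →ᴸ Lor).onFormula
    ((Formula.iExs (Fin m) (fo m q)).relabel (Sum.map id e))

theorem fm_realize {K M : Type} [Field K] [Ring.CompatibleRing K] [Language.order.Structure K]
    [Field M] [Algebra K M] {m : ℕ} (b : Module.Basis (Fin m) K M) (q k : ℕ) (e : Pm m ≃ Fin k)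
    (x a c : M) :
    (fm m q k e).Realize (Sum.elim (b.repr x : Fin m → K)
      ((Sum.elim (Sum.elim (b.repr a) (b.repr c))
        (Sum.elim (b.repr 1) fun p => b.repr (b p.1 * b p.2.1) p.2.2)) ∘ e.symm)) ↔
      ∃ y : M, y ≠ 0 ∧ x + a = c * y ^ q := by
  unfold fm
  rw [LHom.realize_onFormula, Formula.realize_relabel, Formula.realize_iExs]
  simp only [fo_realize]
  constructor
  · rintro ⟨y, h0, h1⟩
    refine ⟨b.equivFun.symm y, ?_, ?_⟩
    · intro hy
      apply h0
      intro l
      have h2 : y = 0 := by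
        rw [← b.equivFun.apply_symm_apply y, hy, map_zero]
      show y l = 0
      rw [h2]
      rfl
    · apply b.repr.injective
      ext l
      rw [map_add, Finsupp.add_apply, repr_mul]
      have h3 : (b.repr (b.equivFun.symm y) : Fin m → K) = y :=
        b.equivFun.apply_symm_apply y
      have h4 := h1 l
      simp only [Function.comp_def, Sum.elim_inl, Sum.elim_inr, Sum.map_inl, Sum.map_inr, id_eq,
        Equiv.symm_apply_apply] at h4
      rw [h4]
      unfold mulV
      simp only [repr_pow, h3]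
  · rintro ⟨y, h0, h1⟩
    refine ⟨b.repr y, ?_, ?_⟩
    · intro h2
      apply h0
      apply b.repr.injective
      ext l
      rw [map_zero]
      exact h2 l
    · intro l
      have h4 : b.repr (x + a) l = b.repr (c * y ^ q) l := by rw [h1]
      rw [map_add, Finsupp.add_apply, repr_mul] at h4
      simp only [Function.comp_def, Sum.elim_inl, Sum.elim_inr, Sum.map_inl, Sum.map_inr, id_eq,
        Equiv.symm_apply_apply]
      rw [h4]
      unfold mulV
      simp only [repr_pow]

end VCM_

open VCM_ in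
theorem p_VCM : T_VCM := by
  classical
  intro K M _ _ _ _ _ _ _ _ _ hNIP q
  have b := Module.finBasis K M
  set m := Module.finrank K M
  have e : Pm m ≃ Fin (Fintype.card (Pm m)) := Fintype.equivFin (Pm m)
  obtain ⟨n, hn⟩ := hNIP m _ (fm m q _ e)
  refine ⟨n, fun a c => ?_⟩
  obtain ⟨S, hS⟩ := hn fun i => (Sum.elim (Sum.elim (b.repr (a i)) (b.repr (c i)))
        (Sum.elim (b.repr 1) fun p => b.repr (b p.1 * b p.2.1) p.2.2)) ∘ e.symm
  refine ⟨S.toFinset, fun x h => hS (b.repr x) fun i => ?_⟩
  rw [fm_realize, h i, Set.mem_toFinset]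

end NFV
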