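import Pool.Agent.NFV.P_PCK
import Pool.Agent.NFV.P_CAP
import Pool.Agent.NFV.P_DIL
import Pool.Agent.NFV.P_NCL
import Pool.Agent.NFV.P_NCB
import Pool.Agent.NFV.P_EQD
import Pool.Agent.NFV.P_MAJ
import Pool.Agent.NFV.P_LAM
import Pool.Agent.NFV.P_DBC
import Pool.Agent.NFV.P_ACR
import Pool.Agent.NFV.P_STA
import Pool.Agent.NFV.P_INV
import Pool.Agent.NFV.P_CHN
import Pool.Agent.NFV.P_EIG
import Pool.Agent.NFV.P_COR
import Pool.Agent.NFV.P_WSG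
import Pool.Agent.NFV.P_PCL
import Pool.Agent.NFV.P_FN2
import Pool.Agent.NFV.P_DEC
import Pool.Agent.NFV.P_ARC
import Pool.Agent.NFV.P_PRM
import Pool.Agent.NFV.P_FRC
import Pool.Agent.NFV.P_VCM
import Pool.Agent.NFV.P_NSH
import Pool.Agent.NFV.P_SQR
import Pool.Agent.NFV.P_SQA
import Pool.Agent.NFV.P_LCO
import Pool.Agent.NFV.P_CMP
import Pool.Agent.NFV.P_KUM
import Pool.Agent.NFV.P_ONE
import Pool.Agent.NFV.P_TWO
import Pool.Agent.NFV.P_SYM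
import Pool.Agent.NFV.P_GA2
import Pool.Agent.NFV.P_GAL
import Pool.Agent.NFV.P_PKI
import Pool.Agent.NFV.P_PKM
import Pool.Agent.NFV.P_EXT
import Pool.Agent.NFV.P_RCF

/-!
# NFV: assembly of the two main theorems
-/

set_option autoImplicit false

namespace NFV

theorem cor_all : T_COR :=
  p_COR (p_STA (p_NCB (p_NCL (p_CAP p_PCK) p_DIL)) (p_ACR p_EQD p_MAJ (p_LAM p_EQD) p_DBC))
    (p_CHN p_INV) p_EIG

theorem sqr_all : T_SQR :=
  p_SQR p_WSG p_PCL p_FN2 p_DEC p_ARC p_PRM p_FRC p_VCM p_NSH cor_all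

theorem lco_all : T_LCO := p_LCO cor_all p_PRM p_FRC

theorem rcf_all : T_RCF :=
  p_RCF p_ARC p_EXT p_VCM (p_PKM p_PCL p_NSH) p_PKI (p_SQA cor_all p_WSG p_PRM p_FRC)
    (p_SYM lco_all p_CMP (p_ONE lco_all p_CMP p_KUM) p_TWO) (p_GAL p_GA2)

end NFV
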