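import Pool.Agent.NFV.Targets

/-!
# NFV: packing of translates (sampling and Sauer-Shelah)
-/

set_option autoImplicit false

open Finset

noncomputable section

namespace NFV

namespace PCK_

open Classical

/-- polynomial against exponential -/
lemma choose_m (d : ℕ) (η : ℝ) (h0 : 0 < η) (h1 : η < 1) :
    ∃ m : ℕ, 1 ≤ m ∧ ((((m + 1) ^ d + 1 : ℕ) : ℝ)) ^ 2 * (1 - η) ^ m < 1 := by
  have hr : |1 - η| < 1 := by
    rw [abs_of_pos (by linarith)]; linarith
  have ht := tendsto_pow_const_mul_const_pow_of_abs_lt_one (2 * d) hr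
  have ht2 : Filter.Tendsto
      (fun n : ℕ => (4 * 2 ^ (2 * d) : ℝ) * ((n : ℝ) ^ (2 * d) * (1 - η) ^ n)) Filter.atTop
      (nhds (4 * 2 ^ (2 * d) * 0)) := ht.const_mul _
  rw [mul_zero] at ht2
  have hev := (ht2.eventually (gt_mem_nhds (zero_lt_one))).and (Filter.eventually_ge_atTop 1)
  obtain ⟨m, hm, hm1⟩ := hev.exists
  refine ⟨m, hm1, lt_of_le_of_lt ?_ hm⟩
  have hpos : 0 ≤ (1 - η) ^ m := pow_nonneg (by linarith) _
  rw [← mul_assoc]
  refine mul_le_mul_of_nonneg_right ?_ hpos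
  have hm1' : (1 : ℝ) ≤ m := by exact_mod_cast hm1
  have h2 : ((((m + 1) ^ d + 1 : ℕ) : ℝ)) ≤ 2 * (2 * m : ℝ) ^ d := by
    push_cast
    have e1 : ((m : ℝ) + 1) ^ d ≤ (2 * m : ℝ) ^ d :=
      pow_le_pow_left₀ (by linarith) (by linarith) _
    have e2 : (1 : ℝ) ≤ (2 * m : ℝ) ^ d := one_le_pow₀ (by linarith)
    linarith
  calc ((((m + 1) ^ d + 1 : ℕ) : ℝ)) ^ 2 ≤ (2 * (2 * m : ℝ) ^ d) ^ 2 :=
        pow_le_pow_left₀ (by positivity) h2 _
    _ = 4 * 2 ^ (2 * d) * (m : ℝ) ^ (2 * d) := by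
        rw [mul_pow, mul_pow, mul_pow, ← pow_mul, ← pow_mul, mul_comm d 2]; ring

lemma sum_choose_le (m : ℕ) (hm : 1 ≤ m) (n : ℕ) :
    ∑ k ∈ range n, m.choose k ≤ (m + 1) ^ n := by
  induction n with
  | zero => simp
  | succ n ih =>
    rw [sum_range_succ, pow_succ]
    have h1 : m.choose n ≤ m ^ n := Nat.choose_le_pow m n
    have h2 : m ^ n ≤ (m + 1) ^ n := Nat.pow_le_pow_left (by omega) _
    nlinarith [Nat.zero_le ((m + 1) ^ n)]

/-- Sauer-Shelah -/
lemma sauer {m : ℕ} (hm : 1 ≤ m) (n : ℕ) (𝒜 : Finset (Finset (Fin m)))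
    (h : ∀ s : Finset (Fin m), 𝒜.Shatters s → s.card < n) : 𝒜.card ≤ (m + 1) ^ n := by
  by_cases h𝒜 : 𝒜.Nonempty
  swap
  · rw [not_nonempty_iff_eq_empty] at h𝒜
    subst h𝒜
    simp
  have hn : 0 < n := lt_of_le_of_lt (Nat.zero_le _) (h ∅ (by simpa using h𝒜))
  refine (card_le_card_shatterer 𝒜).trans ((card_shatterer_le_sum_vcDim).trans ?_)
  have hv : 𝒜.vcDim < n := by
    unfold vcDim
    rw [Finset.sup_lt_iff (by simpa using hn)]
    intro s hs
    exact h s (mem_shatterer.1 hs)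
  refine le_trans ?_ (sum_choose_le m hm n)
  rw [Fintype.card_fin]
  refine sum_le_sum_of_subset ?_
  intro k hk
  rw [mem_Iic] at hk
  rw [mem_range]; omega

/-- the pattern of `u` for the value `c` -/
def pat {N B : Type} [Field N] (Φ : N → B) {m : ℕ} (r : Fin m → ℕ) (c : B) (u : N) :
    Finset (Fin m) := univ.filter fun i => Φ (u + r i) = c

lemma pat_shat {N B : Type} [Field N] (Φ : N → B) (n : ℕ) (hS : NoShat Φ n) {m : ℕ}
    (r : Fin m → ℕ) (c : B) (U : Finset N) (s : Finset (Fin m))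
    (hs : (U.image (pat Φ r c)).Shatters s) : s.card < n := by
  by_contra hcon
  push Not at hcon
  obtain ⟨t, hts, htc⟩ := exists_subset_card_eq hcon
  have e : Fin n ≃ t := (Fintype.equivFinOfCardEq (by simpa using htc)).symm
  obtain ⟨S, hS⟩ := hS (fun i => (r (e i) : N)) (fun _ => c)
  have hsub : S.image (fun i => ((e i : t) : Fin m)) ⊆ s := by
    intro x hx
    rw [mem_image] at hx
    obtain ⟨i, _, rfl⟩ := hx
    exact hts (e i).2
  obtain ⟨v, hv, hvs⟩ := hs hsub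
  rw [mem_image] at hv
  obtain ⟨u, hu, rfl⟩ := hv
  refine hS u ?_
  intro i
  have h1 : ((e i : t) : Fin m) ∈ s ∩ pat Φ r c u ↔
      ((e i : t) : Fin m) ∈ S.image (fun i => ((e i : t) : Fin m)) := by rw [hvs]
  have h2 : ((e i : t) : Fin m) ∈ s := hts (e i).2
  rw [mem_inter, pat, mem_filter] at h1
  constructor
  · intro h
    have h3 := h1.1 ⟨h2, mem_univ _, h⟩
    rw [mem_image] at h3
    obtain ⟨j, hj, hji⟩ := h3
    have : j = i := e.injective (Subtype.ext hji)
    rwa [this] at hj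
  · intro h
    exact (h1.2 (mem_image_of_mem _ h)).2.2

/-- agreement counts -/
lemma agr_card {N B : Type} [Field N] (Φ : N → B) (X : ℕ) (u v : N) :
    ((range X).filter fun r : ℕ => Φ (u + r) = Φ (v + r)).card + dis Φ X u v = X := by
  have := card_filter_add_card_filter_not (s := range X) (fun r : ℕ => Φ (u + r) = Φ (v + r))
  rw [card_range] at this
  unfold dis
  exact this

/-- a separating sample -/
lemma sample {N B : Type} [Field N] (Φ : N → B) (η : ℝ) (h1 : η < 1) (m K X : ℕ)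
    (hX : 0 < X) (hK : ((K + 1 : ℕ) : ℝ) ^ 2 * (1 - η) ^ m < 1) (U : Finset N)
    (hU : U.card = K + 1)
    (hsep : ∀ u ∈ U, ∀ v ∈ U, u ≠ v → η * X < dis Φ X u v) :
    ∃ r : Fin m → ℕ, ∀ u ∈ U, ∀ v ∈ U, (∀ i, Φ (u + r i) = Φ (v + r i)) → u = v := by
  by_contra hcon
  push Not at hcon
  set T : Finset (Fin m → ℕ) := Fintype.piFinset fun _ => range X with hT
  have hTc : T.card = X ^ m := by rw [hT, Fintype.card_piFinset]; simp
  have hcov : T ⊆ ((U ×ˢ U).filter fun p => p.1 ≠ p.2).biUnion fun p =>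
      Fintype.piFinset fun _ : Fin m =>
        (range X).filter fun r : ℕ => Φ (p.1 + r) = Φ (p.2 + r) := by
    intro r hr
    obtain ⟨u, hu, v, hv, huv, hne⟩ := hcon r
    rw [mem_biUnion]
    refine ⟨(u, v), ?_, ?_⟩
    · rw [mem_filter, mem_product]; exact ⟨⟨hu, hv⟩, hne⟩
    · rw [Fintype.mem_piFinset]
      intro i
      rw [mem_filter]
      rw [hT, Fintype.mem_piFinset] at hr
      exact ⟨hr i, huv i⟩
  have hc1 := (card_le_card hcov).trans card_biUnion_le
  rw [hTc] at hc1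
  have hc2 : (∑ p ∈ (U ×ˢ U).filter fun p => p.1 ≠ p.2,
      ((Fintype.piFinset fun _ : Fin m =>
        (range X).filter fun r : ℕ => Φ (p.1 + r) = Φ (p.2 + r)).card : ℝ)) ≤
      ∑ p ∈ (U ×ˢ U).filter fun p => p.1 ≠ p.2, ((1 - η) * X) ^ m := by
    refine sum_le_sum ?_
    intro p hp
    rw [mem_filter, mem_product] at hp
    rw [Fintype.card_piFinset]
    simp only [prod_const, card_univ, Fintype.card_fin]
    push_cast
    refine pow_le_pow_left₀ (by positivity) ?_ _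
    have h3 := agr_card Φ X p.1 p.2
    have h4 := hsep p.1 hp.1.1 p.2 hp.1.2 hp.2
    have h5 : (((range X).filter fun r : ℕ => Φ (p.1 + r) = Φ (p.2 + r)).card : ℝ)
        + (dis Φ X p.1 p.2 : ℝ) = X := by exact_mod_cast h3
    linarith
  rw [sum_const, nsmul_eq_mul] at hc2
  have hc3 : (((U ×ˢ U).filter fun p => p.1 ≠ p.2).card : ℝ) ≤ ((K + 1 : ℕ) : ℝ) ^ 2 := by
    have : ((U ×ˢ U).filter fun p => p.1 ≠ p.2).card ≤ (K + 1) ^ 2 := by
      refine (card_filter_le _ _).trans ?_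
      rw [card_product, hU]; exact le_of_eq (by ring)
    exact_mod_cast this
  have hXp : (0 : ℝ) < (X : ℝ) ^ m := by positivity
  have hc4 : ((X : ℝ)) ^ m ≤ ∑ p ∈ (U ×ˢ U).filter fun p => p.1 ≠ p.2,
      ((Fintype.piFinset fun _ : Fin m =>
        (range X).filter fun r : ℕ => Φ (p.1 + r) = Φ (p.2 + r)).card : ℝ) := by
    exact_mod_cast hc1
  have hq : 0 ≤ ((1 - η) * X) ^ m := pow_nonneg (mul_nonneg (by linarith) (by positivity)) _
  have hc5 : ((X : ℝ)) ^ m ≤ ((K + 1 : ℕ) : ℝ) ^ 2 * ((1 - η) * X) ^ m :=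
    hc4.trans (hc2.trans (mul_le_mul_of_nonneg_right hc3 hq))
  rw [mul_pow, ← mul_assoc] at hc5
  have := mul_lt_mul_of_pos_right hK hXp
  rw [one_mul] at this
  linarith

lemma card_le_of_sample {N B : Type} [Field N] [Fintype B] (Φ : N → B) (n : ℕ)
    (hS : NoShat Φ n) {m : ℕ} (hm : 1 ≤ m) (r : Fin m → ℕ) (U : Finset N)
    (hr : ∀ u ∈ U, ∀ v ∈ U, (∀ i, Φ (u + r i) = Φ (v + r i)) → u = v) :
    U.card ≤ (m + 1) ^ (n * Fintype.card B) := by
  have h1 : U.card ≤ (Fintype.piFinset fun c : B => U.image (pat Φ r c)).card := by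
    refine card_le_card_of_injOn (fun u c => pat Φ r c u) ?_ ?_
    · intro u hu
      rw [mem_coe, Fintype.mem_piFinset]
      intro c
      exact mem_image_of_mem _ hu
    · intro u hu v hv huv
      refine hr u hu v hv ?_
      intro i
      have h2 := congrFun huv (Φ (v + r i))
      have h3 : i ∈ pat Φ r (Φ (v + r i)) v := by rw [pat, mem_filter]; exact ⟨mem_univ _, rfl⟩
      have h4 : i ∈ pat Φ r (Φ (v + r i)) u := by
        have h5 : pat Φ r (Φ (v + r i)) u = pat Φ r (Φ (v + r i)) v := h2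
        rw [h5]; exact h3
      rw [pat, mem_filter] at h4
      exact h4.2
  refine h1.trans ?_
  rw [Fintype.card_piFinset, pow_mul]
  refine (prod_le_prod' (g := fun _ => (m + 1) ^ n) ?_).trans ?_
  · intro c _
    exact sauer hm n _ (fun s hs => pat_shat Φ n hS r c U s hs)
  · simp

end PCK_

open Classical in
theorem p_PCK : T_PCK := by
  intro N B _ _ _ Φ n hS η hη
  have := Fintype.ofFinite B
  rcases lt_or_ge η 1 with h1 | h1
  · obtain ⟨m, hm, hmK⟩ := PCK_.choose_m (n * Fintype.card B) η hη h1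
    refine ⟨(m + 1) ^ (n * Fintype.card B), ?_⟩
    intro X hX U hU
    by_contra hcon
    push Not at hcon
    obtain ⟨U', hU', hc'⟩ := exists_subset_card_eq (Nat.succ_le_of_lt hcon)
    obtain ⟨r, hr⟩ := PCK_.sample (Φ : N → B) η h1 m ((m + 1) ^ (n * Fintype.card B)) X hX hmK
      U' hc' (fun u hu v hv => hU u (hU' hu) v (hU' hv))
    have := PCK_.card_le_of_sample (Φ : N → B) n hS hm r U' hr
    omega
  · refine ⟨1, ?_⟩
    intro X hX U hU
    rw [card_le_one]
    intro u hu v hv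
    by_contra hne
    have h2 := hU u hu v hv hne
    have h3 : dis Φ X u v ≤ X := by
      unfold dis
      exact (card_filter_le _ _).trans (by rw [card_range])
    have h4 : (dis Φ X u v : ℝ) ≤ X := by exact_mod_cast h3
    have hXp : (0 : ℝ) < X := by exact_mod_cast hX
    nlinarith

end NFV
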