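import Pool.Agent.NFV.Targets3

/-!
# NFV: SYM, all elements are `q`-th powers
-/

set_option autoImplicit false

noncomputable section

namespace NFV

namespace SYM_

/-- the part of `D` which is prime to `n` -/
theorem dec (n : ℕ) (hn : 0 < n) (D : ℕ) : 0 < D →
    ∃ a c t : ℕ, D = a * c ∧ a ∣ n ^ t ∧ Nat.Coprime n c ∧ 0 < c := by
  induction D using Nat.strong_induction_on with
  | _ D ih =>
    intro hD
    by_cases h : Nat.Coprime n D
    · exact ⟨1, D, 0, by simp, by simp, h, hD⟩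
    · obtain ⟨g, hg⟩ : ∃ g, g = Nat.gcd n D := ⟨_, rfl⟩
      have hgD : g ∣ D := hg ▸ Nat.gcd_dvd_right _ _
      have hgn : g ∣ n := hg ▸ Nat.gcd_dvd_left _ _
      have hg0 : 0 < g := hg ▸ Nat.gcd_pos_of_pos_left _ hn
      have hg1 : g ≠ 1 := fun h' => h (by rw [Nat.Coprime, ← hg]; exact h')
      obtain ⟨D', hD'⟩ := hgD
      have hD'0 : 0 < D' := Nat.pos_of_ne_zero (by rintro rfl; simp at hD'; omega)
      have hg2 : 2 ≤ g := by omega
      have hlt : D' < D := by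
        rw [hD']
        nlinarith
      obtain ⟨a, c, t, e1, e2, e3, e4⟩ := ih D' hlt hD'0
      refine ⟨g * a, c, t + 1, ?_, ?_, e3, e4⟩
      · rw [hD', e1, mul_assoc]
      · rw [pow_succ, mul_comm]
        exact mul_dvd_mul e2 hgn

theorem pow_ne {R N : Type} [CommRing R] [Field N] [CharZero N] (φ : R →+* N) {M : ℕ}
    (hM : 0 < M) (K : ℕ) : (M : R) ^ K ≠ 0 := by
  intro h
  have h1 := congrArg φ h
  rw [map_pow, map_natCast, map_zero] at h1
  have h2 : (M : N) ≠ 0 := by exact_mod_cast hM.ne'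
  exact pow_ne_zero K h2 h1

theorem crt {R N : Type} [CommRing R] [Field N] [CharZero N] (φ : R →+* N) {r : ℕ}
    (m : Fin r → R) (M : ℕ) (hc : ∀ i j, i ≠ j → IsCoprime (m i) (m j))
    (hm : ∏ i, m i = (M : R)) (hM : 0 < M) (a : Fin r → R) (K : ℕ) :
    ∃ y : R, y ≠ 0 ∧ ∀ i, m i ^ K ∣ y - a i := by
  have h1 : Pairwise (Function.onFun IsCoprime fun i => Ideal.span {m i ^ K}) := by
    intro i j hij
    exact Ideal.isCoprime_span_singleton_iff _ _ |>.2 (hc i j hij).pow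
  obtain ⟨y, hy⟩ := Ideal.exists_forall_sub_mem_ideal h1 a
  have hy' : ∀ i, m i ^ K ∣ y - a i := fun i => Ideal.mem_span_singleton.1 (hy i)
  by_cases h0 : y = 0
  · refine ⟨(M : R) ^ K, pow_ne φ hM K, fun i => ?_⟩
    have h2 : m i ^ K ∣ (M : R) ^ K := by
      rw [← hm]
      exact pow_dvd_pow_of_dvd (Finset.dvd_prod_of_mem m (Finset.mem_univ i)) K
    have h3 : (M : R) ^ K - a i = (M : R) ^ K + (y - a i) := by rw [h0]; ring
    rw [h3]
    exact dvd_add h2 (hy' i)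
  · exact ⟨y, h0, hy'⟩

section comp

variable {N B R : Type} [Field N] [CharZero N] [CommGroupWithZero B] [CommRing R]

/-- the component equation transforms well under an automorphism -/
theorem key {Φ : N →*₀ B} {q : ℕ} (hΦ : ∀ x y, Φ x = Φ y ↔ ∃ u, u ≠ 0 ∧ x = y * u ^ q)
    {φ : R →+* N} (hφ : Function.Injective φ) (τ : N ≃+* N) (t : R →+* R)
    (ht : ∀ x, φ (t x) = τ (φ x)) {r : ℕ} (m : Fin r → R) (M : ℕ)
    (hc : ∀ i j, i ≠ j → IsCoprime (m i) (m j)) (hm : ∏ i, m i = (M : R)) (hM : 0 < M)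
    {c : Fin r → R → B} (hC : Cmp Φ φ m c) (s : Equiv.Perm (Fin r))
    (hs : ∀ i, t (m i) = m (s i)) (a : Fin r → R) (ha : ∀ i, a i ≠ 0)
    (h1 : ∏ i, c i (a i) = 1) : ∏ i, c (s i) (t (a i)) = 1 := by
  have ht0 : ∀ x, x ≠ 0 → t x ≠ 0 := by
    intro x hx h
    apply hx
    apply hφ
    have h2 := congrArg φ h
    rw [ht, map_zero] at h2
    rw [map_zero]
    exact (map_eq_zero_iff τ τ.injective).1 h2
  obtain ⟨K1, hK1⟩ := hC.ev a ha
  obtain ⟨K2, hK2⟩ := hC.ev (fun i => t (a (s.symm i))) (fun i => ht0 _ (ha _))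
  obtain ⟨y, hy0, hy⟩ := crt φ m M hc hm hM a (max K1 K2)
  have e1 := hK1 _ (le_max_left _ _) y hy0 hy
  have e2 := hK2 _ (le_max_right K1 K2) (t y) (ht0 y hy0) (fun i => by
    have h3 := map_dvd t (hy (s.symm i))
    rw [map_pow, map_sub, hs, Equiv.apply_symm_apply] at h3
    exact h3)
  rw [h1, ← map_one Φ, hΦ] at e1
  obtain ⟨u, hu, hu'⟩ := e1
  have e3 : Φ (φ (t y)) = 1 := by
    rw [← map_one Φ, hΦ]
    refine ⟨τ u, fun h => hu ((map_eq_zero_iff τ τ.injective).1 h), ?_⟩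
    rw [ht, hu', one_mul, one_mul, map_pow]
  rw [e3] at e2
  have e4 := Equiv.prod_comp s fun i => c i (t (a (s.symm i)))
  simp only [Equiv.symm_apply_apply] at e4
  rw [e4]
  exact e2.symm

end comp

theorem fin_adjoin {N : Type} [Field N] [CharZero N] {s : Set N} (hs : s.Finite)
    (hi : ∀ x ∈ s, IsIntegral ℤ x) : Module.Finite ℤ (Algebra.adjoin ℤ s) :=
  Module.Finite.iff_fg.2 (fg_adjoin_of_finite hs hi)

theorem tau_adjoin {N : Type} [Field N] [CharZero N] {s : Set N} (τ : N ≃+* N)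
    (hi : ∀ x ∈ s, τ x ∈ Algebra.adjoin ℤ s) {x : N} (hx : x ∈ Algebra.adjoin ℤ s) :
    τ x ∈ Algebra.adjoin ℤ s := by
  induction hx using Algebra.adjoin_induction with
  | mem x hx => exact hi x hx
  | algebraMap r =>
    have : τ (algebraMap ℤ N r) = algebraMap ℤ N r := by
      simp
    rw [this]
    exact Subalgebra.algebraMap_mem _ r
  | add _ _ _ _ h1 h2 =>
    rw [map_add]
    exact add_mem h1 h2
  | mul _ _ _ _ h1 h2 =>
    rw [map_mul]
    exact mul_mem h1 h2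

/-- the restriction of an automorphism to a stable subring -/
def restr {N : Type} [Field N] (A : Subalgebra ℤ N) (τ : N ≃+* N) (h : ∀ x ∈ A, τ x ∈ A) :
    A →+* A where
  toFun x := ⟨τ x, h x x.2⟩
  map_one' := Subtype.ext (map_one τ)
  map_zero' := Subtype.ext (map_zero τ)
  map_add' _ _ := Subtype.ext (map_add τ _ _)
  map_mul' _ _ := Subtype.ext (map_mul τ _ _)

theorem int_of_pow {N : Type} [Field N] [CharZero N] (q : ℕ) (hq : q ≠ 0)
    (hN : ∀ x : N, IsAlgebraic ℚ x)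
    (h : ∀ b : N, b ≠ 0 → IsIntegral ℤ b → ∃ u : N, b = u ^ q) (b : N) :
    ∃ u : N, b = u ^ q := by
  by_cases hb : b = 0
  · exact ⟨0, by rw [hb, zero_pow hq]⟩
  have h1 : IsAlgebraic ℤ b := (IsFractionRing.isAlgebraic_iff ℤ ℚ N).2 (hN b)
  obtain ⟨m, hm, hi⟩ := h1.exists_integral_multiple
  have hm' : (m : N) ≠ 0 := by exact_mod_cast hm
  obtain ⟨p, rfl⟩ : ∃ p, q = p + 1 := ⟨q - 1, by omega⟩
  have h2 : IsIntegral ℤ ((m : N) ^ (p + 1) * b) := by
    have e : (m : N) ^ (p + 1) * b = (m : N) ^ p * (m • b) := by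
      rw [zsmul_eq_mul]
      ring
    rw [e]
    refine IsIntegral.mul (IsIntegral.pow ?_ p) hi
    have := isIntegral_algebraMap (R := ℤ) (A := N) (x := m)
    simpa using this
  obtain ⟨u, hu⟩ := h _ (mul_ne_zero (pow_ne_zero _ hm') hb) h2
  refine ⟨u / m, ?_⟩
  rw [div_pow, ← hu]
  field_simp

end SYM_

open SYM_ in
theorem p_SYM (h_LCO : T_LCO) (h_CMP : T_CMP) (h_ONE : T_ONE) (h_TWO : T_TWO) : T_SYM := by
  intro N _ _ q ζ j τ hq hζ hj hτj hττ hN hz hPk hext
  refine int_of_pow q hq.ne_zero hN fun b hb0 hbi => ?_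
  obtain ⟨B, _, _, Φ, hsurj, hΦ, k, hk⟩ := hPk
  have hji : IsIntegral ℤ j := by
    refine IsIntegral.of_pow (n := 2) two_pos ?_
    rw [hj]
    exact isIntegral_one.neg
  have hτi : ∀ x : N, IsIntegral ℤ x → IsIntegral ℤ (τ x) := fun x hx =>
    hx.map (τ.toRingHom.toIntAlgHom)
  -- the first ring
  set s1 : Set N := {b, τ b, j} with hs1
  have hs1i : ∀ x ∈ s1, IsIntegral ℤ x := by
    rintro x (rfl | rfl | rfl)
    · exact hbi
    · exact hτi _ hbi
    · exact hji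
  have hs1f : s1.Finite := by rw [hs1]; exact Set.toFinite _
  set R1 : Subalgebra ℤ N := Algebra.adjoin ℤ s1 with hR1
  have hf1 : Module.Finite ℤ R1 := fin_adjoin hs1f hs1i
  have hb1 : b ∈ R1 := Algebra.subset_adjoin (by simp [hs1])
  have hj1 : j ∈ R1 := Algebra.subset_adjoin (by simp [hs1])
  set φ1 : R1 →+* N := R1.val.toRingHom with hφ1
  have hφ1i : Function.Injective φ1 := Subtype.val_injective
  obtain ⟨D, hD2, hLC1⟩ := h_LCO N B Φ k hk R1 φ1 hφ1i
    ⟨⟨j, hj1⟩, Subtype.ext hj⟩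
  obtain ⟨z, hz1, hz2⟩ := hz D (by omega)
  -- the elements `e₁`, `e₂`
  set e1 : N := (1 + j * z) / 2 with he1
  set e2 : N := (1 - j * z) / 2 with he2
  have h2 : (2 : N) ≠ 0 := two_ne_zero
  have hsum : e1 + e2 = 1 := by
    rw [he1, he2]
    field_simp
    ring
  have hprod : e2 * e1 = 2 * (D : N) ^ 2 := by
    rw [he1, he2]
    have e : (1 - j * z) / 2 * ((1 + j * z) / 2) = (1 - j ^ 2 * z ^ 2) / 4 := by ring
    rw [e, hj, hz1]
    ring
  have hτ2 : τ 2 = 2 := map_ofNat τ 2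
  have hτe1 : τ e1 = e2 := by
    rw [he1, he2, map_div₀, map_add, map_mul, map_one, hτj, hz2, hτ2]
    ring
  have hτe2 : τ e2 = e1 := by rw [← hτe1, hττ]
  have he1i : IsIntegral ℤ e1 := by
    have hD : IsIntegral ℤ (2 * (D : N) ^ 2) := by
      have := isIntegral_algebraMap (R := ℤ) (A := N) (x := 2 * (D : ℤ) ^ 2)
      simpa using this
    have h3 : e1 ^ 2 - e1 + 2 * (D : N) ^ 2 = 0 := by
      rw [← hprod]
      have : e2 = 1 - e1 := by rw [← hsum]; ring
      rw [this]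
      ring
    refine ⟨Polynomial.X ^ 2 - Polynomial.X + Polynomial.C (2 * (D : ℤ) ^ 2), ?_, ?_⟩
    · have e : (Polynomial.X ^ 2 - Polynomial.X + Polynomial.C (2 * (D : ℤ) ^ 2) :
          Polynomial ℤ) = Polynomial.X ^ 2 + (- Polynomial.X + Polynomial.C (2 * (D : ℤ) ^ 2)) := by
        ring
      rw [e]
      refine Polynomial.monic_X_pow_add ?_
      refine lt_of_le_of_lt (Polynomial.degree_add_le _ _) ?_
      rw [max_lt_iff]
      constructor
      · rw [Polynomial.degree_neg, Polynomial.degree_X]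
        norm_num
      · exact lt_of_le_of_lt Polynomial.degree_C_le (by norm_num)
    · simp only [Polynomial.eval₂_add, Polynomial.eval₂_sub, Polynomial.eval₂_pow,
        Polynomial.eval₂_X, Polynomial.eval₂_C]
      simpa using h3
  -- the second ring
  set s2 : Set N := {b, τ b, j, e1} with hs2
  have hs2i : ∀ x ∈ s2, IsIntegral ℤ x := by
    rintro x (rfl | rfl | rfl | rfl)
    · exact hbi
    · exact hτi _ hbi
    · exact hji
    · exact he1i
  have hs2f : s2.Finite := by rw [hs2]; exact Set.toFinite _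
  set R2 : Subalgebra ℤ N := Algebra.adjoin ℤ s2 with hR2
  have hf2 : Module.Finite ℤ R2 := fin_adjoin hs2f hs2i
  have hj2 : j ∈ R2 := Algebra.subset_adjoin (by simp [hs2])
  have he1m : e1 ∈ R2 := Algebra.subset_adjoin (by simp [hs2])
  have he2m : e2 ∈ R2 := by
    have : e2 = 1 - e1 := by rw [← hsum]; ring
    rw [this]
    exact sub_mem (one_mem _) he1m
  have hR12 : R1 ≤ R2 := by
    rw [hR1, hR2]
    refine Algebra.adjoin_mono ?_
    intro x hx
    rw [hs1] at hx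
    rw [hs2]
    rcases hx with rfl | rfl | rfl <;> simp
  have hτ2m : ∀ x ∈ R2, τ x ∈ R2 := by
    intro x hx
    refine tau_adjoin τ ?_ hx
    rintro x (rfl | rfl | rfl | rfl)
    · exact Algebra.subset_adjoin (by simp [hs2])
    · rw [hττ]
      exact Algebra.subset_adjoin (by simp [hs2])
    · rw [hτj]
      exact neg_mem hj2
    · rw [hτe1]
      exact he2m
  set φ2 : R2 →+* N := R2.val.toRingHom with hφ2
  have hφ2i : Function.Injective φ2 := Subtype.val_injective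
  set t : R2 →+* R2 := restr R2 τ hτ2m with ht
  have htt : ∀ x, φ2 (t x) = τ (φ2 x) := fun x => rfl
  have htinv : ∀ x, t (t x) = x := fun x => Subtype.ext (hττ x)
  have ht0 : ∀ x, x ≠ 0 → t x ≠ 0 := fun x hx h => hx (by rw [← htinv x, h, map_zero])
  obtain ⟨D2, hD22, hLC2⟩ := h_LCO N B Φ k hk R2 φ2 hφ2i
    ⟨⟨j, hj2⟩, Subtype.ext hj⟩
  obtain ⟨E, hE⟩ : ∃ E : ℕ, E = 2 * D ^ 2 := ⟨_, rfl⟩
  have hE0 : 0 < E := by
    rw [hE]
    positivity
  obtain ⟨D5, D3, t5, hD5, hD5t, hcop, hD30⟩ := dec E hE0 D2 (by omega)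
  -- the comaximal elements
  set m : Fin 3 → R2 := ![⟨e2, he2m⟩, ⟨e1, he1m⟩, (D3 : R2)] with hm
  have hm01 : m 0 * m 1 = (E : R2) := by
    apply hφ2i
    rw [map_mul, map_natCast]
    show e2 * e1 = (E : N)
    rw [hprod, hE]
    push_cast
    rfl
  have hcE3 : IsCoprime (E : R2) (D3 : R2) := by
    have := (Nat.isCoprime_iff_coprime.2 hcop).map (Int.castRingHom R2)
    simpa using this
  have hc01 : IsCoprime (m 0) (m 1) := by
    refine ⟨1, 1, ?_⟩
    apply hφ2i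
    rw [one_mul, one_mul, map_add, map_one]
    show e2 + e1 = 1
    rw [add_comm, hsum]
  have hc02 : IsCoprime (m 0) (m 2) := by
    rw [← hm01] at hcE3
    exact hcE3.of_mul_left_left
  have hc12 : IsCoprime (m 1) (m 2) := by
    rw [← hm01] at hcE3
    exact hcE3.of_mul_left_right
  have hcm : ∀ i l, i ≠ l → IsCoprime (m i) (m l) := by
    intro i l hil
    fin_cases i <;> fin_cases l
    · exact absurd rfl hil
    · exact hc01
    · exact hc02
    · exact hc01.symm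
    · exact absurd rfl hil
    · exact hc12
    · exact hc02.symm
    · exact hc12.symm
    · exact absurd rfl hil
  have hpm : ∏ i, m i = ((E * D3 : ℕ) : R2) := by
    rw [Fin.prod_univ_three, hm01, Nat.cast_mul]
    rfl
  have hM0 : 0 < E * D3 := Nat.mul_pos hE0 hD30
  have hdiv2 : D2 ∣ (E * D3) ^ (t5 + 1) := by
    rw [hD5, mul_pow]
    exact mul_dvd_mul (hD5t.trans (pow_dvd_pow E (Nat.le_succ t5)))
      (dvd_pow_self D3 (Nat.succ_ne_zero t5))
  obtain ⟨c, hC⟩ := h_CMP N B Φ R2 φ2 D2 hφ2i hD22 hLC2 3 m (E * D3) (t5 + 1) hcm hpm hM0 hdiv2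
  have hone := h_ONE N B Φ q ζ hq hζ hΦ hext R2 φ2 hφ2i ⟨⟨j, hj2⟩, Subtype.ext hj⟩ 3 m
    (E * D3) c hcm hpm hM0 hC
  have htwo := h_TWO N B Φ q hq hΦ R2 φ2 hφ2i 3 m (E * D3) c hcm hpm hM0 hC hone 0 1
    (by decide)
  -- both components are trivial
  have hkey := key hΦ hφ2i τ t htt m (E * D3) hcm hpm hM0 hC (Equiv.swap 0 1) (by
    intro i
    fin_cases i
    · apply hφ2i
      rw [htt]
      exact hτe2
    · apply hφ2i
      rw [htt]
      exact hτe1
    · show t (D3 : R2) = (D3 : R2)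
      exact map_natCast t D3)
  have h10 : (1 : R2) ≠ 0 := one_ne_zero
  have htriv : (∀ a, a ≠ 0 → c 0 a = 1) ∧ (∀ a, a ≠ 0 → c 1 a = 1) := by
    rcases htwo with h0 | h1
    · refine ⟨h0, fun a ha => ?_⟩
      have h3 := hkey ![t a, 1, 1] (by
        intro i
        fin_cases i
        · exact ht0 a ha
        · exact h10
        · exact h10) (by
        rw [Fin.prod_univ_three]
        show c 0 (t a) * c 1 1 * c 2 1 = 1
        rw [h0 _ (ht0 a ha), hC.one, hC.one, one_mul, one_mul])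
      rw [Fin.prod_univ_three] at h3
      change c 1 (t (t a)) * c 0 (t 1) * c 2 (t 1) = 1 at h3
      rwa [htinv, map_one, hC.one, hC.one, mul_one, mul_one] at h3
    · refine ⟨fun a ha => ?_, h1⟩
      have h3 := hkey ![1, t a, 1] (by
        intro i
        fin_cases i
        · exact h10
        · exact ht0 a ha
        · exact h10) (by
        rw [Fin.prod_univ_three]
        show c 0 1 * c 1 (t a) * c 2 1 = 1
        rw [h1 _ (ht0 a ha), hC.one, hC.one, one_mul, one_mul])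
      rw [Fin.prod_univ_three] at h3
      change c 1 (t 1) * c 0 (t (t a)) * c 2 (t 1) = 1 at h3
      rwa [htinv, map_one, hC.one, hC.one, mul_one, one_mul] at h3
  -- the end
  have hdiv1 : D ∣ E ^ 1 := by
    rw [pow_one, hE]
    exact dvd_mul_of_dvd_right (dvd_pow_self D two_ne_zero) 2
  set m1 : Fin 1 → R1 := fun _ => (E : R1) with hm1
  obtain ⟨c1, hC1⟩ := h_CMP N B Φ R1 φ1 D hφ1i hD2 hLC1 1 m1 E 1
    (fun i l hil => absurd (Subsingleton.elim i l) hil) (by simp [hm1]) hE0 hdiv1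
  set b1 : R1 := ⟨b, hb1⟩ with hb1'
  have hb1z : b1 ≠ 0 := fun h => hb0 (congrArg φ1 h)
  set inc : R1 →+* R2 := (Subalgebra.inclusion hR12).toRingHom with hinc
  have hinci : ∀ x, φ2 (inc x) = φ1 x := fun x => rfl
  have hinc0 : ∀ x, x ≠ 0 → inc x ≠ 0 := by
    intro x hx h
    apply hx
    apply hφ1i
    rw [← hinci, h, map_zero, map_zero]
  obtain ⟨Ka, hKa⟩ := hC.ev ![inc b1, inc b1, 1] (by
    intro i
    fin_cases i
    · exact hinc0 b1 hb1z
    · exact hinc0 b1 hb1z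
    · exact h10)
  obtain ⟨Kb, hKb⟩ := hC1.ev (fun _ => b1) (fun _ => hb1z)
  have hcE3' : IsCoprime (E : R1) (D3 : R1) := by
    have := (Nat.isCoprime_iff_coprime.2 hcop).map (Int.castRingHom R1)
    simpa using this
  obtain ⟨y, hy0, hy⟩ := crt φ1 ![(E : R1), (D3 : R1)] (E * D3) (by
    intro i l hil
    fin_cases i <;> fin_cases l
    · exact absurd rfl hil
    · exact hcE3'
    · exact hcE3'.symm
    · exact absurd rfl hil) (by
    rw [Fin.prod_univ_two, Nat.cast_mul]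
    rfl) hM0 ![b1, 1] (max Ka Kb)
  have hy1 : (E : R1) ^ max Ka Kb ∣ y - b1 := hy 0
  have hy2 : (D3 : R1) ^ max Ka Kb ∣ y - 1 := hy 1
  have f1 : Φ (φ1 y) = ∏ i : Fin 1, c1 i b1 :=
    hKb _ (le_max_right _ _) y hy0 (fun _ => hy1)
  have f2 : Φ (φ1 b1) = ∏ i : Fin 1, c1 i b1 :=
    hKb _ (le_max_right Ka Kb) b1 hb1z (fun _ => by simp)
  have g1 : (E : R2) ^ max Ka Kb ∣ inc y - inc b1 := by
    have := map_dvd inc hy1
    rwa [map_pow, map_natCast, map_sub] at this
  have g2 : (D3 : R2) ^ max Ka Kb ∣ inc y - 1 := by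
    have := map_dvd inc hy2
    rwa [map_pow, map_natCast, map_sub, map_one] at this
  have g0 : ∀ i : Fin 3, m i ^ max Ka Kb ∣ inc y - (![inc b1, inc b1, 1] : Fin 3 → R2) i := by
    intro i
    fin_cases i
    · refine dvd_trans (pow_dvd_pow_of_dvd ?_ _) g1
      rw [← hm01]
      exact dvd_mul_right _ _
    · refine dvd_trans (pow_dvd_pow_of_dvd ?_ _) g1
      rw [← hm01]
      exact dvd_mul_left _ _
    · exact g2
  have f3 : Φ (φ2 (inc y)) = c 0 (inc b1) * c 1 (inc b1) * c 2 1 := by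
    have h3 := hKa _ (le_max_left Ka Kb) (inc y) (hinc0 y hy0) g0
    rw [Fin.prod_univ_three] at h3
    exact h3
  rw [htriv.1 _ (hinc0 b1 hb1z), htriv.2 _ (hinc0 b1 hb1z), hC.one, one_mul, one_mul, hinci,
    f1, ← f2, ← map_one Φ, hΦ] at f3
  obtain ⟨u, -, hu⟩ := f3
  exact ⟨u, by rw [one_mul] at hu; exact hu⟩

end NFV
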