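import Pool.Agent.NFV.Targets2

/-!
# Target WSG of project NFV: a polynomial which is negative at one real number only
-/

set_option autoImplicit false

open Polynomial

noncomputable section

namespace NFV

namespace WSG_

/-- a common large factor for finitely many real numbers different from `β` -/
lemma exists_factor (S : Finset ℝ) (β : ℝ) :
    ∃ A : ℕ, ∀ α ∈ S, α ≠ β → 3 ≤ (A : ℝ) * |α - β| := by
  classical
  refine ⟨∑ α ∈ S, ⌈3 / |α - β|⌉₊, fun α hα hne => ?_⟩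
  have hpos : 0 < |α - β| := abs_pos.2 (sub_ne_zero.2 hne)
  have h1 : ⌈3 / |α - β|⌉₊ ≤ ∑ α ∈ S, ⌈3 / |α - β|⌉₊ :=
    Finset.single_le_sum (f := fun α : ℝ => ⌈3 / |α - β|⌉₊) (fun _ _ => Nat.zero_le _) hα
  have h2 : 3 / |α - β| ≤ ((∑ α ∈ S, ⌈3 / |α - β|⌉₊ : ℕ) : ℝ) :=
    (Nat.le_ceil _).trans (by exact_mod_cast h1)
  calc (3 : ℝ) = 3 / |α - β| * |α - β| := by field_simp
    _ ≤ _ := mul_le_mul_of_nonneg_right h2 hpos.le

end WSG_

theorem p_WSG : T_WSG := by
  intro f β hf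
  classical
  obtain ⟨A, hA⟩ := WSG_.exists_factor (f.map (algebraMap ℤ ℝ)).roots.toFinset β
  refine ⟨(C (A : ℤ) * X - C (round ((A : ℝ) * β))) ^ 2 - 2, ?_, ?_⟩
  · have h1 : aeval β ((C (A : ℤ) * X - C (round ((A : ℝ) * β))) ^ 2 - 2 : ℤ[X]) =
        ((A : ℝ) * β - round ((A : ℝ) * β)) ^ 2 - 2 := by
      simp only [map_sub, map_pow, map_mul, aeval_C, aeval_X, map_ofNat]
      simp
    rw [h1]
    have h2 := abs_sub_round ((A : ℝ) * β)
    have h3 := abs_le.1 h2
    nlinarith [h3.1, h3.2]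
  · intro α hα hne
    have h1 : aeval α ((C (A : ℤ) * X - C (round ((A : ℝ) * β))) ^ 2 - 2 : ℤ[X]) =
        ((A : ℝ) * α - round ((A : ℝ) * β)) ^ 2 - 2 := by
      simp only [map_sub, map_pow, map_mul, aeval_C, aeval_X, map_ofNat]
      simp
    rw [h1]
    have hf' : f.map (algebraMap ℤ ℝ) ≠ 0 := by
      rw [Ne, Polynomial.map_eq_zero_iff]
      · exact hf
      · exact (algebraMap ℤ ℝ).injective_int
    have hmem : α ∈ (f.map (algebraMap ℤ ℝ)).roots.toFinset := by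
      rw [Multiset.mem_toFinset, Polynomial.mem_roots hf', Polynomial.IsRoot.def,
        Polynomial.eval_map_algebraMap]
      exact hα
    have h2 := hA α hmem hne
    have h3 := abs_le.1 (abs_sub_round ((A : ℝ) * β))
    have hA0 : (0 : ℝ) ≤ A := Nat.cast_nonneg A
    have h4 : |(A : ℝ) * α - A * β| = (A : ℝ) * |α - β| := by
      rw [← mul_sub, abs_mul, abs_of_nonneg hA0]
    have h5 : 3 ≤ |(A : ℝ) * α - A * β| := by
      rw [h4]
      exact h2
    rcases le_abs.1 h5 with h6 | h6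
    · nlinarith [h3.1, h3.2]
    · nlinarith [h3.1, h3.2]

end NFV
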